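import Mathlib

/-!
# The geometric mean of two finite measures
-/

set_option autoImplicit false

open MeasureTheory Set Filter Topology
open scoped ENNReal NNReal

namespace Pool.Agent.H52Z

variable {X : Type*} [MeasurableSpace X]

/-- The real density of the absolutely continuous part of `ν` with respect to `μ`. -/
noncomputable def rr (μ ν : Measure X) (z : X) : ℝ := (ν.rnDeriv μ z).toReal

/-- The geometric mean of two measures. -/
noncomputable def gm (μ ν : Measure X) : Measure X :=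
  μ.withDensity (fun z => ENNReal.ofReal (Real.sqrt (rr μ ν z)))

lemma measurable_rr (μ ν : Measure X) : Measurable (rr μ ν) :=
  (Measure.measurable_rnDeriv ν μ).ennreal_toReal

lemma rr_nonneg (μ ν : Measure X) (z : X) : 0 ≤ rr μ ν z := ENNReal.toReal_nonneg

lemma measurable_gmd (μ ν : Measure X) :
    Measurable (fun z => ENNReal.ofReal (Real.sqrt (rr μ ν z))) :=
  (measurable_rr μ ν).sqrt.ennreal_ofReal

lemma gm_ac (μ ν : Measure X) : gm μ ν ≪ μ := withDensity_absolutelyContinuous _ _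

lemma integrable_rr (μ ν : Measure X) [IsFiniteMeasure μ] [IsFiniteMeasure ν] :
    Integrable (rr μ ν) μ := Measure.integrable_toReal_rnDeriv

lemma sqrt_le_one_add {x : ℝ} (hx : 0 ≤ x) : Real.sqrt x ≤ 1 + x := by
  have h := Real.sq_sqrt hx
  have h2 := Real.sqrt_nonneg x
  nlinarith [sq_nonneg (Real.sqrt x - 1)]

lemma integrable_sqrt_rr (μ ν : Measure X) [IsFiniteMeasure μ] [IsFiniteMeasure ν] :
    Integrable (fun z => Real.sqrt (rr μ ν z)) μ := by
  refine Integrable.mono' ((integrable_const (1 : ℝ)).add (integrable_rr μ ν))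
    (measurable_rr μ ν).sqrt.aestronglyMeasurable (Eventually.of_forall fun z => ?_)
  rw [Real.norm_eq_abs, abs_of_nonneg (Real.sqrt_nonneg _)]
  exact sqrt_le_one_add (rr_nonneg μ ν z)

instance gm_finite (μ ν : Measure X) [IsFiniteMeasure μ] [IsFiniteMeasure ν] :
    IsFiniteMeasure (gm μ ν) :=
  isFiniteMeasure_withDensity_ofReal (integrable_sqrt_rr μ ν).2

lemma integral_gm (μ ν : Measure X) (f : X → ℝ) :
    ∫ z, f z ∂(gm μ ν) = ∫ z, Real.sqrt (rr μ ν z) * f z ∂μ := by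
  unfold gm
  rw [integral_withDensity_eq_integral_toReal_smul (measurable_gmd μ ν)
    (Eventually.of_forall fun z => ENNReal.ofReal_lt_top)]
  refine integral_congr_ae (Eventually.of_forall fun z => ?_)
  simp only [smul_eq_mul]
  rw [ENNReal.toReal_ofReal (Real.sqrt_nonneg _)]

lemma gm_restrict (μ ν : Measure X) [IsFiniteMeasure μ] [IsFiniteMeasure ν] {s : Set X}
    (hs : MeasurableSet s) : (gm μ ν).restrict s = gm (μ.restrict s) (ν.restrict s) := by
  unfold gm
  rw [restrict_withDensity hs]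
  apply withDensity_congr_ae
  have h1 : ν.restrict s = (ν.singularPart μ).restrict s +
      (μ.restrict s).withDensity (ν.rnDeriv μ) := by
    conv_lhs => rw [Measure.haveLebesgueDecomposition_add ν μ]
    rw [Measure.restrict_add, restrict_withDensity hs]
  have h2 : (ν.singularPart μ).restrict s ⟂ₘ μ.restrict s :=
    ((Measure.mutuallySingular_singularPart ν μ).restrict s).symm.restrict s |>.symm
  have h3 := Measure.eq_rnDeriv (Measure.measurable_rnDeriv ν μ) h2 h1
  filter_upwards [h3] with z hz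
  simp only [rr, hz]

lemma gm_map {Y : Type*} [MeasurableSpace Y] (e : X ≃ᵐ Y) (μ ν : Measure X) [IsFiniteMeasure μ]
    [IsFiniteMeasure ν] : gm (μ.map e) (ν.map e) = (gm μ ν).map e := by
  have h := e.measurableEmbedding.rnDeriv_map ν μ
  ext s hs
  unfold gm
  rw [withDensity_apply _ hs, Measure.map_apply e.measurable hs,
    withDensity_apply _ (e.measurable hs), setLIntegral_map hs (measurable_gmd _ _) e.measurable]
  refine lintegral_congr_ae (ae_restrict_of_ae ?_)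
  filter_upwards [h] with z hz
  simp only [rr, hz]

lemma gm_self (μ : Measure X) [IsFiniteMeasure μ] : gm μ μ = μ := by
  unfold gm
  have h := Measure.rnDeriv_self μ
  have : (fun z => ENNReal.ofReal (Real.sqrt (rr μ μ z))) =ᵐ[μ] 1 := by
    filter_upwards [h] with z hz
    simp [rr, hz]
  rw [withDensity_congr_ae this, withDensity_one]

lemma gm_singular (μ ν : Measure X) (h : ν ⟂ₘ μ) : gm μ ν = 0 := by
  unfold gm
  have h := h.rnDeriv_ae_eq_zero
  have : (fun z => ENNReal.ofReal (Real.sqrt (rr μ ν z))) =ᵐ[μ] 0 := by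
    filter_upwards [h] with z hz
    simp [rr, hz]
  rw [withDensity_congr_ae this, withDensity_zero]

lemma integral_decomp (μ ν : Measure X) [IsFiniteMeasure μ] [IsFiniteMeasure ν] {f : X → ℝ}
    (hf : Integrable f ν) :
    ∫ z, f z ∂ν = ∫ z, f z ∂(ν.singularPart μ) + ∫ z, rr μ ν z * f z ∂μ ∧
      Integrable (fun z => rr μ ν z * f z) μ := by
  have h1 := Measure.haveLebesgueDecomposition_add ν μ
  have hf' : Integrable f (ν.singularPart μ + μ.withDensity (ν.rnDeriv μ)) := by rwa [← h1]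
  rw [integrable_add_measure] at hf'
  constructor
  · conv_lhs => rw [h1]
    rw [integral_add_measure hf'.1 hf'.2,
      integral_withDensity_eq_integral_toReal_smul (Measure.measurable_rnDeriv ν μ)
        (Measure.rnDeriv_lt_top ν μ)]
    rfl
  · have := (integrable_withDensity_iff_integrable_smul' (Measure.measurable_rnDeriv ν μ)
      (Measure.rnDeriv_lt_top ν μ)).1 hf'.2
    exact this

/-- The arithmetic-geometric mean inequality for `gm`. -/
lemma gm_le (μ ν : Measure X) [IsFiniteMeasure μ] [IsFiniteMeasure ν] {f u : X → ℝ}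
    (hf0 : ∀ z, 0 ≤ f z) (hu : ∀ z, 0 < u z) (h1 : Integrable (fun z => f z / u z) ν)
    (h2 : Integrable (fun z => f z * u z) μ) :
    2 * ∫ z, f z ∂(gm μ ν) ≤ ∫ z, f z / u z ∂ν + ∫ z, f z * u z ∂μ := by
  obtain ⟨h3, h4⟩ := integral_decomp μ ν h1
  have h5 : 0 ≤ ∫ z, f z / u z ∂(ν.singularPart μ) :=
    integral_nonneg fun z => div_nonneg (hf0 z) (hu z).le
  rw [integral_gm, h3, ← integral_const_mul]
  have h6 : ∫ z, 2 * (Real.sqrt (rr μ ν z) * f z) ∂μ ≤
      ∫ z, (rr μ ν z * (f z / u z) + f z * u z) ∂μ := by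
    refine integral_mono_of_nonneg (Eventually.of_forall fun z => ?_) (h4.add h2)
      (Eventually.of_forall fun z => ?_)
    · exact mul_nonneg (by norm_num) (mul_nonneg (Real.sqrt_nonneg _) (hf0 z))
    · have ha := Real.sq_sqrt (rr_nonneg μ ν z)
      set s := Real.sqrt (rr μ ν z)
      have hu' := hu z
      have hf' := hf0 z
      show 2 * (s * f z) ≤ rr μ ν z * (f z / u z) + f z * u z
      rw [← ha]
      have : s ^ 2 * (f z / u z) + f z * u z - 2 * (s * f z) = f z / u z * (s - u z) ^ 2 := by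
        field_simp
        ring
      have h7 : 0 ≤ f z / u z * (s - u z) ^ 2 := mul_nonneg (div_nonneg hf' hu'.le) (sq_nonneg _)
      linarith
  rw [integral_add h4 h2] at h6
  linarith

/-- Clamping to `[δ, δ⁻¹]`. -/
noncomputable def cl (δ t : ℝ) : ℝ := max δ (min δ⁻¹ t)

lemma le_cl (δ t : ℝ) : δ ≤ cl δ t := le_max_left _ _

lemma cl_le {δ : ℝ} (h0 : 0 < δ) (h1 : δ ≤ 1) (t : ℝ) : cl δ t ≤ δ⁻¹ :=
  max_le (h1.trans (one_le_inv₀ h0 |>.2 h1)) (min_le_left _ _)

lemma cl_eq {δ t : ℝ} (h0 : δ ≤ t) (h1 : t ≤ δ⁻¹) : cl δ t = t := by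
  unfold cl
  rw [min_eq_right h1, max_eq_right h0]

lemma cl_lip (δ s t : ℝ) : |cl δ s - cl δ t| ≤ |s - t| := by
  unfold cl
  refine (abs_max_sub_max_le_max _ _ _ _).trans ?_
  rw [sub_self, abs_zero]
  refine max_le (abs_nonneg _) ?_
  refine (abs_min_sub_min_le_max _ _ _ _).trans ?_
  rw [sub_self, abs_zero]
  exact max_le (abs_nonneg _) le_rfl

lemma continuous_cl (δ : ℝ) : Continuous (cl δ) := by
  unfold cl
  fun_prop

lemma cl_key {δ s : ℝ} (h0 : 0 < δ) (h1 : δ ≤ 1) (hs : 0 ≤ s) :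
    s ^ 2 / cl δ s + cl δ s ≤ 2 * s + δ * s ^ 2 + δ := by
  have h2 : δ ≤ δ⁻¹ := h1.trans (one_le_inv₀ h0 |>.2 h1)
  have h3 : 0 ≤ δ * s ^ 2 := by positivity
  rcases le_total s δ with h | h
  · have : cl δ s = δ := by
      unfold cl
      exact max_eq_left ((min_le_right _ _).trans h)
    rw [this]
    have : s ^ 2 / δ ≤ s := by
      rw [div_le_iff₀ h0]
      nlinarith
    linarith
  · rcases le_total s δ⁻¹ with h' | h'
    · rw [cl_eq h h']
      have hs' : 0 < s := h0.trans_le h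
      have : s ^ 2 / s = s := by field_simp
      rw [this]
      linarith
    · have : cl δ s = δ⁻¹ := by
        unfold cl
        rw [min_eq_left h', max_eq_right h2]
      rw [this]
      have : s ^ 2 / δ⁻¹ = δ * s ^ 2 := by field_simp
      rw [this]
      linarith

lemma integrable_of_bdd {μ : Measure X} [IsFiniteMeasure μ] {g : X → ℝ} (hg : Measurable g)
    {C : ℝ} (h : ∀ᵐ z ∂μ, |g z| ≤ C) : Integrable g μ :=
  Integrable.mono' (integrable_const C) hg.aestronglyMeasurable h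

/-- A measurable almost optimal weight. -/
lemma gm_approx_meas (μ ν : Measure X) [IsFiniteMeasure μ] [IsFiniteMeasure ν] {f : X → ℝ}
    (hf : Measurable f) (hf0 : ∀ z, 0 ≤ f z) {M : ℝ} (hM : 0 ≤ M) (hμ : ∀ᵐ z ∂μ, f z ≤ M)
    (hν : ∀ᵐ z ∂ν, f z ≤ M) {δ : ℝ} (h0 : 0 < δ) (h1 : δ ≤ 1) :
    ∃ u : X → ℝ, Measurable u ∧ (∀ z, δ ≤ u z ∧ u z ≤ δ⁻¹) ∧
      ∫ z, f z / u z ∂ν + ∫ z, f z * u z ∂μ ≤ 2 * ∫ z, f z ∂(gm μ ν) +
        δ * (M * (ν.real univ + ∫ z, rr μ ν z ∂μ + μ.real univ)) := by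
  classical
  obtain ⟨S, hS, hS1, hS2⟩ := Measure.mutuallySingular_singularPart ν μ
  have h2 : δ ≤ δ⁻¹ := h1.trans (one_le_inv₀ h0 |>.2 h1)
  let u : X → ℝ := fun z => if z ∈ S then cl δ (Real.sqrt (rr μ ν z)) else δ⁻¹
  have hum : Measurable u :=
    Measurable.ite hS ((continuous_cl δ).measurable.comp (measurable_rr μ ν).sqrt) measurable_const
  have hub : ∀ z, δ ≤ u z ∧ u z ≤ δ⁻¹ := by
    intro z
    by_cases hz : z ∈ S
    · simp only [u, if_pos hz]
      exact ⟨le_cl _ _, cl_le h0 h1 _⟩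
    · simp only [u, if_neg hz]
      exact ⟨h2, le_rfl⟩
  refine ⟨u, hum, hub, ?_⟩
  have hi1 : Integrable (fun z => f z / u z) ν := by
    refine integrable_of_bdd (hf.div hum) (C := M / δ) ?_
    filter_upwards [hν] with z hz
    rw [abs_of_nonneg (div_nonneg (hf0 z) (h0.le.trans (hub z).1))]
    exact div_le_div₀ hM hz h0 (hub z).1
  have hi2 : Integrable (fun z => f z * u z) μ := by
    refine integrable_of_bdd (hf.mul hum) (C := M * δ⁻¹) ?_
    filter_upwards [hμ] with z hz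
    rw [abs_of_nonneg (mul_nonneg (hf0 z) (h0.le.trans (hub z).1))]
    exact mul_le_mul hz (hub z).2 (h0.le.trans (hub z).1) hM
  obtain ⟨h3, h4⟩ := integral_decomp μ ν hi1
  have hle : ν.singularPart μ ≤ ν := Measure.singularPart_le ν μ
  have h5 : ∫ z, f z / u z ∂(ν.singularPart μ) ≤ δ * (M * ν.real univ) := by
    have ha : ∀ᵐ z ∂(ν.singularPart μ), z ∉ S := by
      rw [ae_iff]
      simpa using hS1
    have hb : ∀ᵐ z ∂(ν.singularPart μ), f z ≤ M :=
      (Measure.absolutelyContinuous_of_le hle).ae_le hν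
    have hc : ∫ z, f z / u z ∂(ν.singularPart μ) ≤ ∫ _z, δ * M ∂(ν.singularPart μ) := by
      refine integral_mono_ae (hi1.mono_measure hle) (integrable_const _) ?_
      filter_upwards [ha, hb] with z hz1 hz2
      simp only [u, if_neg hz1]
      rw [div_inv_eq_mul, mul_comm]
      exact mul_le_mul_of_nonneg_left hz2 h0.le
    rw [integral_const, smul_eq_mul] at hc
    have hd : (ν.singularPart μ).real univ ≤ ν.real univ :=
      ENNReal.toReal_mono (measure_ne_top _ _) (hle univ)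
    have he : 0 ≤ δ * M := by positivity
    nlinarith
  have hi3 : Integrable (fun z => Real.sqrt (rr μ ν z) * f z) μ := by
    refine Integrable.mono' ((integrable_sqrt_rr μ ν).mul_const M)
      ((measurable_rr μ ν).sqrt.mul hf).aestronglyMeasurable ?_
    filter_upwards [hμ] with z hz
    rw [Real.norm_eq_abs, abs_of_nonneg (mul_nonneg (Real.sqrt_nonneg _) (hf0 z))]
    exact mul_le_mul_of_nonneg_left hz (Real.sqrt_nonneg _)
  have h6 : ∫ z, (rr μ ν z * (f z / u z) + f z * u z) ∂μ ≤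
      ∫ z, (2 * (Real.sqrt (rr μ ν z) * f z) + (δ * M * rr μ ν z + δ * M)) ∂μ := by
    refine integral_mono_ae (h4.add hi2) ((hi3.const_mul 2).add
      (((integrable_rr μ ν).const_mul _).add (integrable_const _))) ?_
    have ha : ∀ᵐ z ∂μ, z ∈ S := by
      rw [ae_iff]
      exact hS2
    filter_upwards [ha, hμ] with z hz1 hz2
    simp only [u, if_pos hz1]
    have hk := cl_key h0 h1 (Real.sqrt_nonneg (rr μ ν z))
    rw [Real.sq_sqrt (rr_nonneg μ ν z)] at hk
    have hr := rr_nonneg μ ν z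
    have hf' := hf0 z
    set c := cl δ (Real.sqrt (rr μ ν z))
    have e1 : rr μ ν z * (f z / c) + f z * c = f z * (rr μ ν z / c + c) := by ring
    rw [e1]
    have e2 := mul_le_mul_of_nonneg_left hk hf'
    have e3 : f z * (δ * rr μ ν z + δ) ≤ M * (δ * rr μ ν z + δ) :=
      mul_le_mul_of_nonneg_right hz2 (by positivity)
    nlinarith
  have hi4 : Integrable (fun z => δ * M * rr μ ν z + δ * M) μ :=
    ((integrable_rr μ ν).const_mul _).add (integrable_const _)
  rw [integral_add h4 hi2, integral_add (hi3.const_mul 2) hi4,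
    integral_add ((integrable_rr μ ν).const_mul _) (integrable_const _), integral_const_mul,
    integral_const_mul, integral_const, smul_eq_mul] at h6
  rw [h3, integral_gm]
  nlinarith

/-- A continuous almost optimal weight. -/
lemma gm_approx {Y : Type*} [MetricSpace Y] [MeasurableSpace Y] [BorelSpace Y]
    (μ ν : Measure Y) [IsFiniteMeasure μ] [IsFiniteMeasure ν] {f : Y → ℝ}
    (hf : Measurable f) (hf0 : ∀ z, 0 ≤ f z) {M : ℝ} (hM : 0 ≤ M) (hμ : ∀ᵐ z ∂μ, f z ≤ M)
    (hν : ∀ᵐ z ∂ν, f z ≤ M) {ε : ℝ} (hε : 0 < ε) :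
    ∃ u : Y → ℝ, Continuous u ∧ (∀ z, 0 < u z) ∧
      ∫ z, f z / u z ∂ν + ∫ z, f z * u z ∂μ ≤ 2 * ∫ z, f z ∂(gm μ ν) + ε := by
  set C := M * (ν.real univ + ∫ z, rr μ ν z ∂μ + μ.real univ) with hC
  have hC0 : 0 ≤ C := by
    have : 0 ≤ ∫ z, rr μ ν z ∂μ := integral_nonneg fun z => rr_nonneg μ ν z
    positivity
  obtain ⟨δ, h0, h1, hδ⟩ : ∃ δ : ℝ, 0 < δ ∧ δ ≤ 1 ∧ δ * C ≤ ε / 2 := by
    refine ⟨min 1 (ε / 2 / (C + 1)), lt_min one_pos (by positivity), min_le_left _ _, ?_⟩
    have ha : min 1 (ε / 2 / (C + 1)) ≤ ε / 2 / (C + 1) := min_le_right _ _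
    have hb : ε / 2 / (C + 1) * C ≤ ε / 2 := by
      rw [div_mul_eq_mul_div, div_le_iff₀ (by positivity)]
      nlinarith
    exact (mul_le_mul_of_nonneg_right ha hC0).trans hb
  obtain ⟨u₀, hum, hub, hu₀⟩ := gm_approx_meas μ ν hf hf0 hM hμ hν h0 h1
  have hi0 : Integrable u₀ (μ + ν) := by
    refine integrable_of_bdd hum (C := δ⁻¹) (Eventually.of_forall fun z => ?_)
    rw [abs_of_nonneg (h0.le.trans (hub z).1)]
    exact (hub z).2
  set A := M / δ ^ 2 + M with hA
  have hA0 : 0 ≤ A := by positivity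
  obtain ⟨g, hg1, hg2⟩ := hi0.exists_boundedContinuous_integral_sub_le
    (ε := ε / 2 / (A + 1)) (by positivity)
  let u : Y → ℝ := fun z => cl δ (g z)
  have huc : Continuous u := (continuous_cl δ).comp g.continuous
  have hub' : ∀ z, δ ≤ u z ∧ u z ≤ δ⁻¹ := fun z => ⟨le_cl _ _, cl_le h0 h1 _⟩
  have hd : ∀ z, |u z - u₀ z| ≤ ‖u₀ z - g z‖ := by
    intro z
    have := cl_lip δ (g z) (u₀ z)
    rw [cl_eq (hub z).1 (hub z).2] at this
    rw [Real.norm_eq_abs, abs_sub_comm (u₀ z)]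
    exact this
  have hint : Integrable (fun z => ‖u₀ z - g z‖) (μ + ν) := (hi0.sub hg2).norm
  rw [integrable_add_measure] at hint
  rw [integral_add_measure hint.1 hint.2] at hg1
  have hn1 : 0 ≤ ∫ z, ‖u₀ z - g z‖ ∂μ := integral_nonneg fun z => norm_nonneg _
  have hn2 : 0 ≤ ∫ z, ‖u₀ z - g z‖ ∂ν := integral_nonneg fun z => norm_nonneg _
  have key1 : ∀ v : Y → ℝ, Measurable v → (∀ z, δ ≤ v z ∧ v z ≤ δ⁻¹) →
      Integrable (fun z => f z / v z) ν := by
    intro v hv hvb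
    refine integrable_of_bdd (hf.div hv) (C := M / δ) ?_
    filter_upwards [hν] with z hz
    rw [abs_of_nonneg (div_nonneg (hf0 z) (h0.le.trans (hvb z).1))]
    exact div_le_div₀ hM hz h0 (hvb z).1
  have key2 : ∀ v : Y → ℝ, Measurable v → (∀ z, δ ≤ v z ∧ v z ≤ δ⁻¹) →
      Integrable (fun z => f z * v z) μ := by
    intro v hv hvb
    refine integrable_of_bdd (hf.mul hv) (C := M * δ⁻¹) ?_
    filter_upwards [hμ] with z hz
    rw [abs_of_nonneg (mul_nonneg (hf0 z) (h0.le.trans (hvb z).1))]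
    exact mul_le_mul hz (hvb z).2 (h0.le.trans (hvb z).1) hM
  have e1 : ∫ z, f z / u z ∂ν ≤ ∫ z, (f z / u₀ z + M / δ ^ 2 * ‖u₀ z - g z‖) ∂ν := by
    refine integral_mono_ae (key1 u huc.measurable hub')
      ((key1 u₀ hum hub).add (hint.2.const_mul _)) ?_
    filter_upwards [hν] with z hz
    have ha := (hub z).1
    have hb := (hub' z).1
    have ha' : 0 < u₀ z := h0.trans_le ha
    have hb' : 0 < u z := h0.trans_le hb
    have hc : f z / u z - f z / u₀ z = f z * (u₀ z - u z) / (u z * u₀ z) := by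
      field_simp
    have hd' : u₀ z - u z ≤ ‖u₀ z - g z‖ := by
      have := hd z
      rw [abs_le] at this
      linarith [this.1]
    have he : f z * (u₀ z - u z) / (u z * u₀ z) ≤ M * ‖u₀ z - g z‖ / δ ^ 2 := by
      refine div_le_div₀ (by positivity) ?_ (by positivity) ?_
      · exact (mul_le_mul_of_nonneg_left hd' (hf0 z)).trans
          (mul_le_mul_of_nonneg_right hz (norm_nonneg _))
      · rw [sq]
        exact mul_le_mul hb ha h0.le hb'.le
    have hg : M * ‖u₀ z - g z‖ / δ ^ 2 = M / δ ^ 2 * ‖u₀ z - g z‖ := by ring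
    show f z / u z ≤ f z / u₀ z + M / δ ^ 2 * ‖u₀ z - g z‖
    linarith
  have e2 : ∫ z, f z * u z ∂μ ≤ ∫ z, (f z * u₀ z + M * ‖u₀ z - g z‖) ∂μ := by
    refine integral_mono_ae (key2 u huc.measurable hub')
      ((key2 u₀ hum hub).add (hint.1.const_mul _)) ?_
    filter_upwards [hμ] with z hz
    have hd' : u z - u₀ z ≤ ‖u₀ z - g z‖ := (le_abs_self _).trans (hd z)
    have he : f z * (u z - u₀ z) ≤ M * ‖u₀ z - g z‖ :=
      (mul_le_mul_of_nonneg_left hd' (hf0 z)).trans
          (mul_le_mul_of_nonneg_right hz (norm_nonneg _))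
    show f z * u z ≤ f z * u₀ z + M * ‖u₀ z - g z‖
    linarith
  rw [integral_add (key1 u₀ hum hub) (hint.2.const_mul _), integral_const_mul] at e1
  rw [integral_add (key2 u₀ hum hub) (hint.1.const_mul _), integral_const_mul] at e2
  refine ⟨u, huc, fun z => h0.trans_le (hub' z).1, ?_⟩
  have e3 : M / δ ^ 2 * ∫ z, ‖u₀ z - g z‖ ∂ν + M * ∫ z, ‖u₀ z - g z‖ ∂μ ≤ ε / 2 := by
    have ha : 0 ≤ M / δ ^ 2 := by positivity
    have hb : A * (∫ z, ‖u₀ z - g z‖ ∂μ + ∫ z, ‖u₀ z - g z‖ ∂ν) ≤ A * (ε / 2 / (A + 1)) :=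
      mul_le_mul_of_nonneg_left hg1 hA0
    have hc : A * (ε / 2 / (A + 1)) ≤ ε / 2 := by
      rw [← mul_div_assoc, div_le_iff₀ (by positivity)]
      nlinarith
    have hd := mul_nonneg ha hn1
    have he := mul_nonneg hM hn2
    rw [hA] at hb
    nlinarith
  linarith

/-- A measure is concentrated on a compact set. -/
def CS {Y : Type*} [TopologicalSpace Y] [MeasurableSpace Y] (μ : Measure Y) : Prop :=
  ∃ C : Set Y, IsCompact C ∧ ∀ᵐ z ∂μ, z ∈ C

lemma CS.bdd {Y : Type*} [TopologicalSpace Y] [MeasurableSpace Y] {μ : Measure Y} (h : CS μ)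
    {G : Type*} [NormedAddCommGroup G] {f : Y → G} (hf : Continuous f) :
    ∃ M : ℝ, 0 ≤ M ∧ ∀ᵐ z ∂μ, ‖f z‖ ≤ M := by
  obtain ⟨C, hC, h⟩ := h
  obtain ⟨M, hM⟩ := hC.exists_bound_of_continuousOn hf.continuousOn
  refine ⟨max M 0, le_max_right _ _, ?_⟩
  filter_upwards [h] with z hz
  exact (hM z hz).trans (le_max_left _ _)

lemma CS.integrable {Y : Type*} [TopologicalSpace Y] [MeasurableSpace Y] [OpensMeasurableSpace Y]
    {μ : Measure Y} [IsFiniteMeasure μ] (h : CS μ) {G : Type*} [NormedAddCommGroup G]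
    [SecondCountableTopology G] {f : Y → G} (hf : Continuous f) : Integrable f μ := by
  obtain ⟨M, -, hM⟩ := h.bdd hf
  exact Integrable.mono' (integrable_const M) hf.aestronglyMeasurable hM

lemma CS.gm {Y : Type*} [TopologicalSpace Y] [MeasurableSpace Y] {μ : Measure Y} (h : CS μ)
    (ν : Measure Y) : CS (gm μ ν) := by
  obtain ⟨C, hC, h⟩ := h
  exact ⟨C, hC, (gm_ac μ ν).ae_le h⟩

lemma CS.add {Y : Type*} [TopologicalSpace Y] [MeasurableSpace Y] {μ ν : Measure Y} (h : CS μ)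
    (h' : CS ν) : CS (μ + ν) := by
  obtain ⟨C, hC, h⟩ := h
  obtain ⟨C', hC', h'⟩ := h'
  refine ⟨C ∪ C', hC.union hC', ?_⟩
  rw [ae_add_measure_iff]
  exact ⟨h.mono fun z hz => Or.inl hz, h'.mono fun z hz => Or.inr hz⟩

/-- Upper semicontinuity of the geometric mean. -/
lemma gm_usc {Y : Type*} [MetricSpace Y] [MeasurableSpace Y] [BorelSpace Y]
    (μ ν : Measure Y) [IsFiniteMeasure μ] [IsFiniteMeasure ν] (hμ : CS μ) (hν : CS ν)
    (μs νs : ℕ → Measure Y) [∀ j, IsFiniteMeasure (μs j)] [∀ j, IsFiniteMeasure (νs j)]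
    (hμs : ∀ j, CS (μs j)) (hνs : ∀ j, CS (νs j))
    (h1 : ∀ F : Y → ℝ, Continuous F →
      Tendsto (fun j => ∫ z, F z ∂(μs j)) atTop (𝓝 (∫ z, F z ∂μ)))
    (h2 : ∀ F : Y → ℝ, Continuous F →
      Tendsto (fun j => ∫ z, F z ∂(νs j)) atTop (𝓝 (∫ z, F z ∂ν)))
    {f : Y → ℝ} (hf : Continuous f) (hf0 : ∀ z, 0 ≤ f z) {ε : ℝ} (hε : 0 < ε) :
    ∀ᶠ j in atTop, ∫ z, f z ∂(gm (μs j) (νs j)) ≤ ∫ z, f z ∂(gm μ ν) + ε := by
  obtain ⟨M, hM, hb⟩ := (hμ.add hν).bdd hf
  rw [ae_add_measure_iff] at hb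
  obtain ⟨u, huc, hu0, hu⟩ := gm_approx μ ν hf.measurable hf0 hM
    (hb.1.mono fun z hz => (le_abs_self _).trans hz)
    (hb.2.mono fun z hz => (le_abs_self _).trans hz) hε
  have c1 : Continuous fun z => f z / u z := hf.div huc fun z => (hu0 z).ne'
  have c2 : Continuous fun z => f z * u z := hf.mul huc
  have ht := (h2 _ c1).add (h1 _ c2)
  have hlt : ∫ z, f z / u z ∂ν + ∫ z, f z * u z ∂μ < 2 * ∫ z, f z ∂(gm μ ν) + 2 * ε := by
    linarith
  filter_upwards [ht.eventually (gt_mem_nhds hlt)] with j hj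
  have := gm_le (μs j) (νs j) hf0 hu0 ((hνs j).integrable c1) ((hμs j).integrable c2)
  linarith

end Pool.Agent.H52Z
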