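import Mathlib
import Pool.Agent.H52Z.GM

/-!
# Cone measures on the set of normal pairs of a gauge
-/

set_option autoImplicit false

open MeasureTheory Set Filter Topology
open scoped ENNReal NNReal Pointwise

namespace Pool.Agent.H52Z

variable {n : ℕ}

/-- `a` lies below the function `p`. -/
def Below (p : (Fin n → ℝ) → ℝ) (a : Fin n → ℝ) : Prop := ∀ ζ, ζ ⬝ᵥ a ≤ p ζ

/-- Positive sublinear functions. -/
structure Gauge (p : (Fin n → ℝ) → ℝ) : Prop where
  sub : ∀ η, ∃ a, Below p a ∧ η ⬝ᵥ a = p η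
  bdd : ∃ R : ℝ, 0 < R ∧ ∀ ζ, p ζ ≤ R * ‖ζ‖
  pos : ∃ r : ℝ, 0 < r ∧ ∀ ζ, r * ‖ζ‖ ≤ p ζ

lemma Gauge.nonneg {p : (Fin n → ℝ) → ℝ} (hp : Gauge p) (η : Fin n → ℝ) : 0 ≤ p η := by
  obtain ⟨r, hr, h⟩ := hp.pos
  exact (mul_nonneg hr.le (norm_nonneg _)).trans (h η)

lemma Gauge.pos' {p : (Fin n → ℝ) → ℝ} (hp : Gauge p) {η : Fin n → ℝ} (hη : η ≠ 0) : 0 < p η := by
  obtain ⟨r, hr, h⟩ := hp.pos
  exact (mul_pos hr (norm_pos_iff.2 hη)).trans_le (h η)

lemma Gauge.homog {p : (Fin n → ℝ) → ℝ} (hp : Gauge p) {t : ℝ} (ht : 0 ≤ t) (η : Fin n → ℝ) :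
    p (t • η) = t * p η := by
  obtain ⟨a, ha, ha'⟩ := hp.sub η
  obtain ⟨b, hb, hb'⟩ := hp.sub (t • η)
  apply le_antisymm
  · rw [← hb', smul_dotProduct, smul_eq_mul]
    exact mul_le_mul_of_nonneg_left (hb η) ht
  · have := ha (t • η)
    rwa [smul_dotProduct, smul_eq_mul, ha'] at this

lemma Gauge.lipschitz {p : (Fin n → ℝ) → ℝ} (hp : Gauge p) : ∃ C : ℝ≥0, LipschitzWith C p := by
  obtain ⟨R, hR, h⟩ := hp.bdd
  refine ⟨⟨R, hR.le⟩, LipschitzWith.of_le_add_mul _ fun x y => ?_⟩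
  obtain ⟨a, ha, ha'⟩ := hp.sub x
  have h1 := ha y
  have h2 := ha (x - y)
  have h3 := h (x - y)
  rw [sub_dotProduct] at h2
  rw [dist_eq_norm]
  show p x ≤ p y + R * ‖x - y‖
  linarith

lemma Gauge.continuous {p : (Fin n → ℝ) → ℝ} (hp : Gauge p) : Continuous p := by
  obtain ⟨C, hC⟩ := hp.lipschitz
  exact hC.continuous

lemma Gauge.ae_diff {p : (Fin n → ℝ) → ℝ} (hp : Gauge p) :
    ∀ᵐ η ∂(volume : Measure (Fin n → ℝ)), DifferentiableAt ℝ p η := by
  obtain ⟨C, hC⟩ := hp.lipschitz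
  exact hC.ae_differentiableAt

lemma norm_le_of_below {p : (Fin n → ℝ) → ℝ} {R : ℝ} (hR : 0 ≤ R) (h : ∀ ζ, p ζ ≤ R * ‖ζ‖)
    {a : Fin n → ℝ} (ha : Below p a) : ‖a‖ ≤ R := by
  rw [pi_norm_le_iff_of_nonneg hR]
  intro i
  have h1 := (ha (Pi.single i 1)).trans (h _)
  have h2 := (ha (-Pi.single i 1)).trans (h _)
  rw [neg_dotProduct, norm_neg] at h2
  simp only [single_dotProduct, one_mul, Pi.norm_single, norm_one, mul_one] at h1 h2
  rw [Real.norm_eq_abs, abs_le]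
  constructor <;> linarith

/-- The gradient as a vector. -/
noncomputable def grad (p : (Fin n → ℝ) → ℝ) (η : Fin n → ℝ) : Fin n → ℝ :=
  fun i => fderiv ℝ p η (Pi.single i 1)

lemma measurable_grad (p : (Fin n → ℝ) → ℝ) : Measurable (grad p) :=
  measurable_pi_lambda _ fun i => measurable_fderiv_apply_const ℝ p (Pi.single i 1)

lemma grad_eq {p : (Fin n → ℝ) → ℝ} {η a : Fin n → ℝ} (hd : DifferentiableAt ℝ p η)
    (ha : Below p a) (ha' : η ⬝ᵥ a = p η) : grad p η = a := by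
  let L : (Fin n → ℝ) →L[ℝ] ℝ := LinearMap.toContinuousLinearMap
    { toFun := fun ζ => ζ ⬝ᵥ a
      map_add' := fun x y => add_dotProduct x y a
      map_smul' := fun c x => smul_dotProduct c x a }
  have hL : ∀ ζ, L ζ = ζ ⬝ᵥ a := fun ζ => rfl
  have hmin : IsLocalMin (fun ζ => p ζ - L ζ) η := by
    refine Eventually.of_forall fun ζ => ?_
    have := ha ζ
    simp only [hL]
    linarith
  have hder : HasFDerivAt (fun ζ => p ζ - L ζ) (fderiv ℝ p η - L) η :=
    hd.hasFDerivAt.sub L.hasFDerivAt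
  have h0 := hmin.hasFDerivAt_eq_zero hder
  rw [sub_eq_zero] at h0
  funext i
  simp only [grad, h0, hL, single_dotProduct, one_mul]

lemma Gauge.grad_spec {p : (Fin n → ℝ) → ℝ} (hp : Gauge p) {η : Fin n → ℝ}
    (hd : DifferentiableAt ℝ p η) : Below p (grad p η) ∧ η ⬝ᵥ grad p η = p η := by
  obtain ⟨a, ha, ha'⟩ := hp.sub η
  rw [grad_eq hd ha ha']
  exact ⟨ha, ha'⟩

/-- The normal pair over `η`. -/
noncomputable def FF (p : (Fin n → ℝ) → ℝ) (η : Fin n → ℝ) : (Fin n → ℝ) × (Fin n → ℝ) :=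
  (grad p η, (p η)⁻¹ • η)

lemma Gauge.measurable_FF {p : (Fin n → ℝ) → ℝ} (hp : Gauge p) : Measurable (FF p) :=
  (measurable_grad p).prodMk (hp.continuous.measurable.inv.smul measurable_id)

/-- The weight measure. -/
noncomputable def wm (p : (Fin n → ℝ) → ℝ) : Measure (Fin n → ℝ) :=
  volume.withDensity fun η => ENNReal.ofReal (1 - p η)

/-- The cone measure of `p`. -/
noncomputable def cm (p : (Fin n → ℝ) → ℝ) : Measure ((Fin n → ℝ) × (Fin n → ℝ)) :=
  (wm p).map (FF p)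

/-- The normal pairs. -/
def MM (p : (Fin n → ℝ) → ℝ) : Set ((Fin n → ℝ) × (Fin n → ℝ)) :=
  {z | Below p z.1 ∧ z.2 ⬝ᵥ z.1 = 1 ∧ p z.2 = 1}

lemma wm_ac (p : (Fin n → ℝ) → ℝ) : wm p ≪ volume := withDensity_absolutelyContinuous _ _

lemma Gauge.measurable_w {p : (Fin n → ℝ) → ℝ} (hp : Gauge p) :
    Measurable fun η => ENNReal.ofReal (1 - p η) :=
  (measurable_const.sub hp.continuous.measurable).ennreal_ofReal

lemma Gauge.integrable_w {p : (Fin n → ℝ) → ℝ} (hp : Gauge p) :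
    Integrable (fun η => max (1 - p η) 0) (volume : Measure (Fin n → ℝ)) := by
  obtain ⟨r, hr, h⟩ := hp.pos
  refine Continuous.integrable_of_hasCompactSupport
    ((continuous_const.sub hp.continuous).max continuous_const) ?_
  refine HasCompactSupport.intro (isCompact_closedBall (0 : Fin n → ℝ) r⁻¹) fun η hη => ?_
  rw [mem_closedBall_zero_iff, not_le] at hη
  have h1 : 1 < r * ‖η‖ := by
    have := mul_lt_mul_of_pos_left hη hr
    rwa [mul_inv_cancel₀ hr.ne'] at this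
  exact max_eq_right (by linarith [h η])

lemma Gauge.finite_wm {p : (Fin n → ℝ) → ℝ} (hp : Gauge p) : IsFiniteMeasure (wm p) := by
  have := isFiniteMeasure_withDensity_ofReal hp.integrable_w.2
  unfold wm
  have e : (fun η => ENNReal.ofReal (1 - p η)) = fun η => ENNReal.ofReal (max (1 - p η) 0) := by
    funext η
    rcases le_total (1 - p η) 0 with h | h
    · rw [max_eq_right h, ENNReal.ofReal_zero, ENNReal.ofReal_eq_zero.2 h]
    · rw [max_eq_left h]
  rw [e]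
  exact this

lemma Gauge.finite_cm {p : (Fin n → ℝ) → ℝ} (hp : Gauge p) : IsFiniteMeasure (cm p) := by
  have := hp.finite_wm
  unfold cm
  infer_instance

lemma ae_ne_zero (hn : 0 < n) : ∀ᵐ η ∂(volume : Measure (Fin n → ℝ)), η ≠ 0 := by
  have : Nonempty (Fin n) := ⟨⟨0, hn⟩⟩
  rw [ae_iff]
  simp

lemma Gauge.FF_mem {p : (Fin n → ℝ) → ℝ} (hp : Gauge p) {η : Fin n → ℝ} (hη : η ≠ 0)
    (hd : DifferentiableAt ℝ p η) : FF p η ∈ MM p := by
  obtain ⟨h1, h2⟩ := hp.grad_spec hd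
  have h3 := hp.pos' hη
  refine ⟨h1, ?_, ?_⟩
  · show ((p η)⁻¹ • η) ⬝ᵥ grad p η = 1
    rw [smul_dotProduct, h2, smul_eq_mul, inv_mul_cancel₀ h3.ne']
  · show p ((p η)⁻¹ • η) = 1
    rw [hp.homog (inv_nonneg.2 h3.le), inv_mul_cancel₀ h3.ne']

lemma Gauge.isClosed_MM {p : (Fin n → ℝ) → ℝ} (hp : Gauge p) : IsClosed (MM p) := by
  have : MM p = (⋂ ζ, {z : (Fin n → ℝ) × (Fin n → ℝ) | ζ ⬝ᵥ z.1 ≤ p ζ}) ∩
      ({z | z.2 ⬝ᵥ z.1 = 1} ∩ {z | p z.2 = 1}) := by
    ext z
    simp [MM, Below]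
  rw [this]
  refine (isClosed_iInter fun ζ => isClosed_le (by fun_prop) continuous_const).inter
    ((isClosed_eq (by fun_prop) continuous_const).inter
      (isClosed_eq (hp.continuous.comp continuous_snd) continuous_const))

lemma MM_subset {p : (Fin n → ℝ) → ℝ} {R r : ℝ} (hR : 0 ≤ R) (h : ∀ ζ, p ζ ≤ R * ‖ζ‖) (hr : 0 < r)
    (h' : ∀ ζ, r * ‖ζ‖ ≤ p ζ) :
    MM p ⊆ Metric.closedBall 0 R ×ˢ Metric.closedBall 0 r⁻¹ := by
  rintro z ⟨h1, -, h3⟩
  refine ⟨mem_closedBall_zero_iff.2 (norm_le_of_below hR h h1), mem_closedBall_zero_iff.2 ?_⟩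
  have := h' z.2
  rw [h3] at this
  rw [← one_div, le_div_iff₀ hr]
  linarith

lemma Gauge.ae_mem {p : (Fin n → ℝ) → ℝ} (hp : Gauge p) (hn : 0 < n) : ∀ᵐ z ∂(cm p), z ∈ MM p := by
  unfold cm
  refine (ae_map_iff hp.measurable_FF.aemeasurable hp.isClosed_MM.measurableSet).2 ?_
  refine (wm_ac p).ae_le ?_
  filter_upwards [hp.ae_diff, ae_ne_zero hn] with η h1 h2
  exact hp.FF_mem h2 h1

lemma Gauge.cs {p : (Fin n → ℝ) → ℝ} (hp : Gauge p) (hn : 0 < n) : CS (cm p) := by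
  obtain ⟨R, hR, h⟩ := hp.bdd
  obtain ⟨r, hr, h'⟩ := hp.pos
  refine ⟨_, (isCompact_closedBall 0 R).prod (isCompact_closedBall 0 r⁻¹), ?_⟩
  filter_upwards [hp.ae_mem hn] with z hz
  exact MM_subset hR.le h hr h' hz

lemma FF_eq_of_mem {p q : (Fin n → ℝ) → ℝ} (hp : Gauge p) (hq : Gauge q) {η : Fin n → ℝ}
    (hη : η ≠ 0) (hd : DifferentiableAt ℝ q η) (h : FF p η ∈ MM q) :
    FF q η = FF p η ∧ q η = p η := by
  obtain ⟨h1, h2, h3⟩ := h
  have h4 := hp.pos' hη
  have h5 : q η = p η := by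
    change q ((p η)⁻¹ • η) = 1 at h3
    rw [hq.homog (inv_nonneg.2 h4.le)] at h3
    field_simp at h3
    exact h3
  refine ⟨?_, h5⟩
  have h6 : η ⬝ᵥ grad p η = q η := by
    change ((p η)⁻¹ • η) ⬝ᵥ grad p η = 1 at h2
    rw [smul_dotProduct, smul_eq_mul] at h2
    field_simp at h2
    rw [h2, h5]
  have h7 : grad q η = grad p η := grad_eq hd h1 h6
  unfold FF
  rw [h7, h5]

lemma cm_apply {p : (Fin n → ℝ) → ℝ} (hp : Gauge p) {s : Set ((Fin n → ℝ) × (Fin n → ℝ))}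
    (hs : MeasurableSet s) :
    cm p s = ∫⁻ η, (FF p ⁻¹' s).indicator (fun η => ENNReal.ofReal (1 - p η)) η := by
  unfold cm wm
  rw [Measure.map_apply hp.measurable_FF hs, withDensity_apply _ (hp.measurable_FF hs),
    lintegral_indicator (hp.measurable_FF hs)]

/-- Locality of the cone measure. -/
lemma cm_local {p q : (Fin n → ℝ) → ℝ} (hp : Gauge p) (hq : Gauge q) (hn : 0 < n)
    {s : Set ((Fin n → ℝ) × (Fin n → ℝ))} (hs : MeasurableSet s) (h1 : s ⊆ MM p) (h2 : s ⊆ MM q) :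
    (cm p).restrict s = (cm q).restrict s := by
  ext t ht
  rw [Measure.restrict_apply ht, Measure.restrict_apply ht, cm_apply hp (ht.inter hs),
    cm_apply hq (ht.inter hs)]
  refine lintegral_congr_ae ?_
  filter_upwards [hp.ae_diff, hq.ae_diff, ae_ne_zero hn] with η e1 e2 e3
  by_cases ha : FF p η ∈ t ∩ s
  · obtain ⟨hb, hc⟩ := FF_eq_of_mem hp hq e3 e2 (h2 ha.2)
    have hb' : FF q η ∈ t ∩ s := hb ▸ ha
    rw [indicator_of_mem (show η ∈ FF p ⁻¹' (t ∩ s) from ha),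
      indicator_of_mem (show η ∈ FF q ⁻¹' (t ∩ s) from hb'), hc]
  · have hb' : FF q η ∉ t ∩ s := by
      intro hb
      obtain ⟨hc, -⟩ := FF_eq_of_mem hq hp e3 e1 (h1 hb.2)
      exact ha (hc ▸ hb)
    rw [indicator_of_notMem (show η ∉ FF p ⁻¹' (t ∩ s) from ha),
      indicator_of_notMem (show η ∉ FF q ⁻¹' (t ∩ s) from hb')]

lemma measurePreserving_mulVec (S : Matrix (Fin n) (Fin n) ℝ) (hS : S.det = 1) :
    MeasurePreserving (fun η => S.mulVec η) (volume : Measure (Fin n → ℝ)) volume := by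
  have h := Real.map_matrix_volume_pi_eq_smul_volume_pi (M := S) (by rw [hS]; exact one_ne_zero)
  rw [hS] at h
  simp only [inv_one, abs_one, ENNReal.ofReal_one, one_smul] at h
  exact ⟨(Matrix.toLin' S).continuous_of_finiteDimensional.measurable, h⟩

/-- Equivariance of the cone measure. -/
lemma cm_map {p q : (Fin n → ℝ) → ℝ} (hp : Gauge p) (hq : Gauge q)
    (S R : Matrix (Fin n) (Fin n) ℝ) (hS : S.det = 1) (hR : R * S.transpose = 1)
    (h : ∀ η, q η = p (S.transpose.mulVec η)) :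
    cm q = (cm p).map (fun z => (S.mulVec z.1, R.mulVec z.2)) := by
  have hG : Measurable (fun z : (Fin n → ℝ) × (Fin n → ℝ) => (S.mulVec z.1, R.mulVec z.2)) := by
    refine Continuous.measurable ?_
    fun_prop
  have hmp := measurePreserving_mulVec S.transpose (by rw [Matrix.det_transpose, hS])
  ext t ht
  rw [Measure.map_apply hG ht, cm_apply hq ht, cm_apply hp (hG ht),
    ← hmp.lintegral_comp (hp.measurable_w.indicator (hp.measurable_FF (hG ht)))]
  refine lintegral_congr_ae ?_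
  filter_upwards [hq.ae_diff, hmp.quasiMeasurePreserving.ae hp.ae_diff] with η e1 e2
  obtain ⟨h1, h2⟩ := hp.grad_spec e2
  have h3 : grad q η = S.mulVec (grad p (S.transpose.mulVec η)) := by
    refine grad_eq e1 (fun ζ => ?_) ?_
    · rw [h, Matrix.dotProduct_mulVec, ← Matrix.mulVec_transpose]
      exact h1 _
    · rw [h, Matrix.dotProduct_mulVec, ← Matrix.mulVec_transpose]
      exact h2
  have h4 : FF q η = (S.mulVec (FF p (S.transpose.mulVec η)).1,
      R.mulVec (FF p (S.transpose.mulVec η)).2) := by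
    unfold FF
    simp only [h3, Matrix.mulVec_smul, Matrix.mulVec_mulVec, hR, Matrix.one_mulVec, h]
  by_cases ha : FF q η ∈ t
  · rw [indicator_of_mem (show η ∈ FF q ⁻¹' t from ha), indicator_of_mem, h]
    simp only [mem_preimage]
    rwa [← h4]
  · rw [indicator_of_notMem (show η ∉ FF q ⁻¹' t from ha), indicator_of_notMem]
    simp only [mem_preimage]
    rwa [← h4]

lemma integral_cm {p : (Fin n → ℝ) → ℝ} (hp : Gauge p) {F : (Fin n → ℝ) × (Fin n → ℝ) → ℝ}
    (hF : Continuous F) : ∫ z, F z ∂(cm p) = ∫ η, max (1 - p η) 0 * F (FF p η) := by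
  unfold cm wm
  rw [integral_map hp.measurable_FF.aemeasurable hF.aestronglyMeasurable,
    integral_withDensity_eq_integral_toReal_smul hp.measurable_w
      (Eventually.of_forall fun z => ENNReal.ofReal_lt_top)]
  refine integral_congr_ae (Eventually.of_forall fun η => ?_)
  simp only [smul_eq_mul, ENNReal.toReal_ofReal']

lemma cm_ne_zero {p : (Fin n → ℝ) → ℝ} (hp : Gauge p) : cm p ≠ 0 := by
  intro h0
  have h1 := integral_cm hp (F := fun _ => 1) continuous_const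
  rw [h0, integral_zero_measure] at h1
  simp only [mul_one] at h1
  have hc : Continuous fun η => max (1 - p η) 0 :=
    (continuous_const.sub hp.continuous).max continuous_const
  have h2 := (integral_eq_zero_iff_of_nonneg (fun η => le_max_right (1 - p η) 0)
    hp.integrable_w).1 h1.symm
  have h3 := (hc.ae_eq_iff_eq volume continuous_zero).1 h2
  have h4 := congrFun h3 0
  have h5 : p 0 = 0 := by
    have := hp.homog (t := 0) le_rfl 0
    simpa using this
  simp [h5] at h4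

/-- Convergence of gauges. -/
def GConv (ps : ℕ → (Fin n → ℝ) → ℝ) (p : (Fin n → ℝ) → ℝ) : Prop :=
  ∀ ε : ℝ, 0 < ε → ∀ᶠ j in atTop, ∀ η, ps j η ≤ (1 + ε) * p η ∧ p η ≤ (1 + ε) * ps j η

lemma GConv.tendsto {ps : ℕ → (Fin n → ℝ) → ℝ} {p : (Fin n → ℝ) → ℝ} (h : GConv ps p)
    (hp : Gauge p) (hps : ∀ j, Gauge (ps j)) (η : Fin n → ℝ) :
    Tendsto (fun j => ps j η) atTop (𝓝 (p η)) := by
  rw [Metric.tendsto_nhds]
  intro δ hδ
  have h0 := hp.nonneg η
  set ε := min 1 (δ / (2 * p η + 1)) with hε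
  have hε0 : 0 < ε := lt_min one_pos (by positivity)
  have hε1 : ε ≤ 1 := min_le_left _ _
  have hε2 : ε * (2 * p η + 1) ≤ δ := by
    rw [← le_div_iff₀ (by positivity)]
    exact min_le_right _ _
  filter_upwards [h ε hε0] with j hj
  obtain ⟨h1, h2⟩ := hj η
  have h3 := (hps j).nonneg η
  rw [Real.dist_eq, abs_lt]
  constructor <;> nlinarith

lemma GConv.tendsto_grad {ps : ℕ → (Fin n → ℝ) → ℝ} {p : (Fin n → ℝ) → ℝ} (h : GConv ps p)
    (hp : Gauge p) (hps : ∀ j, Gauge (ps j)) {η : Fin n → ℝ} (hd : DifferentiableAt ℝ p η)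
    (hds : ∀ j, DifferentiableAt ℝ (ps j) η) :
    Tendsto (fun j => grad (ps j) η) atTop (𝓝 (grad p η)) := by
  obtain ⟨R, hR, hb⟩ := hp.bdd
  have hbd : ∀ᶠ j in atTop, grad (ps j) η ∈ Metric.closedBall (0 : Fin n → ℝ) (2 * R) := by
    filter_upwards [h 1 one_pos] with j hj
    rw [mem_closedBall_zero_iff]
    refine norm_le_of_below (p := ps j) (by positivity) (fun ζ => ?_) ((hps j).grad_spec (hds j)).1
    have := (hj ζ).1
    have := hb ζ
    linarith
  refine tendsto_of_subseq_tendsto fun ns hns => ?_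
  obtain ⟨a, -, ψ, hψ, hlim⟩ := tendsto_subseq_of_frequently_bounded Metric.isBounded_closedBall
    (hns.eventually hbd).frequently
  refine ⟨ψ, ?_⟩
  have hdot : ∀ ζ, Tendsto (fun k => ζ ⬝ᵥ grad (ps (ns (ψ k))) η) atTop (𝓝 (ζ ⬝ᵥ a)) := by
    intro ζ
    have hc : Continuous fun a : Fin n → ℝ => ζ ⬝ᵥ a := by fun_prop
    exact (hc.tendsto a).comp hlim
  have hpt : ∀ ζ, Tendsto (fun k => ps (ns (ψ k)) ζ) atTop (𝓝 (p ζ)) := fun ζ =>
    (h.tendsto hp hps ζ).comp (hns.comp hψ.tendsto_atTop)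
  have h1 : Below p a := fun ζ =>
    le_of_tendsto_of_tendsto' (hdot ζ) (hpt ζ) fun k => ((hps _).grad_spec (hds _)).1 ζ
  have h2 : η ⬝ᵥ a = p η := by
    refine tendsto_nhds_unique (hdot η) ((hpt η).congr fun k => ?_)
    exact ((hps _).grad_spec (hds _)).2.symm
  rw [grad_eq hd h1 h2]
  exact hlim

/-- Weak continuity of the cone measure. -/
lemma cm_tendsto {ps : ℕ → (Fin n → ℝ) → ℝ} {p : (Fin n → ℝ) → ℝ} (h : GConv ps p)
    (hp : Gauge p) (hps : ∀ j, Gauge (ps j)) (hn : 0 < n) {F : (Fin n → ℝ) × (Fin n → ℝ) → ℝ}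
    (hF : Continuous F) :
    Tendsto (fun j => ∫ z, F z ∂(cm (ps j))) atTop (𝓝 (∫ z, F z ∂(cm p))) := by
  obtain ⟨R, hR, hb⟩ := hp.bdd
  obtain ⟨r, hr, hl⟩ := hp.pos
  have hK : IsCompact (Metric.closedBall (0 : Fin n → ℝ) (2 * R) ×ˢ
      Metric.closedBall (0 : Fin n → ℝ) (r / 2)⁻¹) :=
    (isCompact_closedBall _ _).prod (isCompact_closedBall _ _)
  obtain ⟨C, hC⟩ := hK.exists_bound_of_continuousOn hF.continuousOn
  simp only [integral_cm hp hF, integral_cm (hps _) hF]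
  have hall : ∀ᵐ η ∂(volume : Measure (Fin n → ℝ)), ∀ j, DifferentiableAt ℝ (ps j) η :=
    ae_all_iff.2 fun j => (hps j).ae_diff
  refine tendsto_integral_filter_of_dominated_convergence
    ((Metric.closedBall (0 : Fin n → ℝ) (r / 2)⁻¹).indicator fun _ => C) ?_ ?_ ?_ ?_
  · refine Eventually.of_forall fun j => Measurable.aestronglyMeasurable ?_
    exact ((measurable_const.sub (hps j).continuous.measurable).max measurable_const).mul
      (hF.measurable.comp (hps j).measurable_FF)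
  · filter_upwards [h 1 one_pos] with j hj
    have hb' : ∀ ζ, ps j ζ ≤ 2 * R * ‖ζ‖ := fun ζ => by
      have := (hj ζ).1
      have := hb ζ
      linarith
    have hl' : ∀ ζ, r / 2 * ‖ζ‖ ≤ ps j ζ := fun ζ => by
      have := (hj ζ).2
      have := hl ζ
      linarith
    filter_upwards [hall, ae_ne_zero hn] with η e1 e2
    have h1 := hC _ (MM_subset (by positivity) hb' (by positivity) hl' ((hps j).FF_mem e2 (e1 j)))
    by_cases hη : η ∈ Metric.closedBall (0 : Fin n → ℝ) (r / 2)⁻¹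
    · rw [indicator_of_mem hη, norm_mul]
      have h2 : ‖max (1 - ps j η) 0‖ ≤ 1 := by
        rw [Real.norm_eq_abs, abs_of_nonneg (le_max_right _ _)]
        exact max_le (by linarith [(hps j).nonneg η]) zero_le_one
      calc _ ≤ 1 * C := mul_le_mul h2 h1 (norm_nonneg _) zero_le_one
        _ = C := one_mul C
    · rw [indicator_of_notMem hη]
      rw [mem_closedBall_zero_iff, not_le] at hη
      have h2 : 1 < r / 2 * ‖η‖ := by
        have := mul_lt_mul_of_pos_left hη (show 0 < r / 2 by positivity)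
        rwa [mul_inv_cancel₀ (show r / 2 ≠ 0 by positivity)] at this
      rw [max_eq_right (by linarith [hl' η])]
      simp
  · rw [integrable_indicator_iff Metric.isClosed_closedBall.measurableSet]
    exact integrableOn_const (isCompact_closedBall _ _).measure_lt_top.ne
  · filter_upwards [hall, hp.ae_diff, ae_ne_zero hn] with η e1 e2 e3
    have t1 := h.tendsto hp hps η
    have t2 := h.tendsto_grad hp hps e2 e1
    have t3 : Tendsto (fun j => FF (ps j) η) atTop (𝓝 (FF p η)) :=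
      t2.prodMk_nhds ((t1.inv₀ (hp.pos' e3).ne').smul_const η)
    exact ((tendsto_const_nhds.sub t1).max tendsto_const_nhds).mul ((hF.tendsto _).comp t3)

end Pool.Agent.H52Z
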