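import Mathlib
import Pool.Agent.H52Z.GM
import Pool.Agent.H52Z.Cone

/-!
# Convex bodies, support functions, polars and normal pairs
-/

set_option autoImplicit false

open MeasureTheory Set Filter Topology
open scoped ENNReal NNReal Pointwise

namespace Pool.Agent.H52Z

variable {n : ℕ}

/-- Convex bodies with the origin in the interior. -/
structure Body (K : Set (Fin n → ℝ)) : Prop where
  cpt : IsCompact K
  cvx : Convex ℝ K
  zero : (0 : Fin n → ℝ) ∈ interior K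

/-- The support function. -/
noncomputable def sf (A : Set (Fin n → ℝ)) (η : Fin n → ℝ) : ℝ := sSup ((fun a => η ⬝ᵥ a) '' A)

/-- The polar body. -/
def pol (K : Set (Fin n → ℝ)) : Set (Fin n → ℝ) := {ξ | ∀ x ∈ K, ξ ⬝ᵥ x ≤ 1}

/-- The normal pairs of a body. -/
def NN (K : Set (Fin n → ℝ)) : Set ((Fin n → ℝ) × (Fin n → ℝ)) :=
  {z | z.1 ∈ K ∧ z.2 ∈ pol K ∧ z.2 ⬝ᵥ z.1 = 1}

lemma Body.zero_mem {K : Set (Fin n → ℝ)} (hK : Body K) : (0 : Fin n → ℝ) ∈ K :=
  interior_subset hK.zero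

lemma sf_eq {A : Set (Fin n → ℝ)} {η a : Fin n → ℝ} (ha : a ∈ A)
    (h : ∀ b ∈ A, η ⬝ᵥ b ≤ η ⬝ᵥ a) : sf A η = η ⬝ᵥ a := by
  refine IsGreatest.csSup_eq ⟨⟨a, ha, rfl⟩, ?_⟩
  rintro _ ⟨b, hb, rfl⟩
  exact h b hb

lemma exists_max {A : Set (Fin n → ℝ)} (hA : IsCompact A) (hne : A.Nonempty) (η : Fin n → ℝ) :
    ∃ a ∈ A, ∀ b ∈ A, η ⬝ᵥ b ≤ η ⬝ᵥ a := by
  have hc : Continuous fun a : Fin n → ℝ => η ⬝ᵥ a := by fun_prop
  obtain ⟨a, ha, h⟩ := hA.exists_isMaxOn hne hc.continuousOn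
  exact ⟨a, ha, fun b hb => h hb⟩

lemma le_sf {A : Set (Fin n → ℝ)} (hA : IsCompact A) {b : Fin n → ℝ} (hb : b ∈ A)
    (η : Fin n → ℝ) : η ⬝ᵥ b ≤ sf A η := by
  obtain ⟨a, ha, h⟩ := exists_max hA ⟨b, hb⟩ η
  rw [sf_eq ha h]
  exact h b hb

lemma exists_sf {A : Set (Fin n → ℝ)} (hA : IsCompact A) (hne : A.Nonempty) (η : Fin n → ℝ) :
    ∃ a ∈ A, sf A η = η ⬝ᵥ a := by
  obtain ⟨a, ha, h⟩ := exists_max hA hne η
  exact ⟨a, ha, sf_eq ha h⟩

lemma dot_le (η a : Fin n → ℝ) : η ⬝ᵥ a ≤ n * (‖η‖ * ‖a‖) := by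
  unfold dotProduct
  calc ∑ i, η i * a i ≤ ∑ _i : Fin n, ‖η‖ * ‖a‖ := by
        refine Finset.sum_le_sum fun i _ => (le_abs_self _).trans ?_
        rw [abs_mul]
        exact mul_le_mul (norm_le_pi_norm η i) (norm_le_pi_norm a i) (abs_nonneg _) (norm_nonneg _)
    _ = n * (‖η‖ * ‖a‖) := by simp

lemma Body.gauge {K : Set (Fin n → ℝ)} (hK : Body K) : Gauge (sf K) := by
  refine ⟨fun η => ?_, ?_, ?_⟩
  · obtain ⟨a, ha, h⟩ := exists_sf hK.cpt ⟨0, hK.zero_mem⟩ η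
    exact ⟨a, fun ζ => le_sf hK.cpt ha ζ, h.symm⟩
  · obtain ⟨R, hR⟩ := hK.cpt.isBounded.exists_norm_le
    have hR0 : 0 ≤ R := by simpa using hR 0 hK.zero_mem
    refine ⟨n * R + 1, by positivity, fun ζ => ?_⟩
    obtain ⟨a, ha, h⟩ := exists_sf hK.cpt ⟨0, hK.zero_mem⟩ ζ
    rw [h]
    have h1 := dot_le ζ a
    have h2 : ‖ζ‖ * ‖a‖ ≤ ‖ζ‖ * R := mul_le_mul_of_nonneg_left (hR a ha) (norm_nonneg _)
    have h3 : (n : ℝ) * (‖ζ‖ * ‖a‖) ≤ n * (‖ζ‖ * R) :=
      mul_le_mul_of_nonneg_left h2 (Nat.cast_nonneg n)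
    nlinarith [norm_nonneg ζ]
  · obtain ⟨r, hr, h⟩ := Metric.mem_nhds_iff.1 (mem_interior_iff_mem_nhds.1 hK.zero)
    refine ⟨r / 2, by positivity, fun ζ => ?_⟩
    have h0 : 0 ≤ sf K ζ := by simpa using le_sf hK.cpt hK.zero_mem ζ
    have h1 : ‖ζ‖ ≤ sf K ζ / (r / 2) := by
      rw [pi_norm_le_iff_of_nonneg (by positivity)]
      intro i
      have m1 : Pi.single i (r / 2) ∈ K := by
        apply h
        rw [mem_ball_zero_iff, Pi.norm_single, Real.norm_eq_abs, abs_of_pos (by positivity)]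
        linarith
      have m2 : Pi.single i (-(r / 2)) ∈ K := by
        apply h
        rw [mem_ball_zero_iff, Pi.norm_single, norm_neg, Real.norm_eq_abs,
          abs_of_pos (by positivity)]
        linarith
      have e1 := le_sf hK.cpt m1 ζ
      have e2 := le_sf hK.cpt m2 ζ
      rw [dotProduct_single] at e1 e2
      rw [Real.norm_eq_abs, le_div_iff₀ (by positivity)]
      rcases abs_cases (ζ i) with ⟨h3, -⟩ | ⟨h3, -⟩ <;> rw [h3] <;> linarith
    rw [le_div_iff₀ (by positivity)] at h1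
    linarith

lemma clm_eq_dot (f : (Fin n → ℝ) →L[ℝ] ℝ) (x : Fin n → ℝ) :
    f x = (fun i => f (Pi.single i 1)) ⬝ᵥ x := by
  conv_lhs => rw [pi_eq_sum_univ' x]
  simp [map_sum, dotProduct, mul_comm]

lemma Body.below_iff {K : Set (Fin n → ℝ)} (hK : Body K) {a : Fin n → ℝ} :
    Below (sf K) a ↔ a ∈ K := by
  refine ⟨fun h => ?_, fun h ζ => le_sf hK.cpt h ζ⟩
  by_contra hn
  obtain ⟨f, u, h1, h2⟩ := geometric_hahn_banach_closed_point hK.cvx hK.cpt.isClosed hn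
  obtain ⟨b, hb, hb'⟩ := exists_sf hK.cpt ⟨0, hK.zero_mem⟩ (fun i => f (Pi.single i 1))
  have h3 := h (fun i => f (Pi.single i 1))
  rw [hb', ← clm_eq_dot, ← clm_eq_dot] at h3
  linarith [h1 b hb]

lemma Body.mem_pol_iff {K : Set (Fin n → ℝ)} (hK : Body K) {ξ : Fin n → ℝ} :
    ξ ∈ pol K ↔ sf K ξ ≤ 1 := by
  constructor
  · intro h
    obtain ⟨a, ha, h'⟩ := exists_sf hK.cpt ⟨0, hK.zero_mem⟩ ξ
    rw [h']
    exact h a ha
  · intro h x hx
    exact (le_sf hK.cpt hx ξ).trans h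

lemma Body.pol {K : Set (Fin n → ℝ)} (hK : Body K) : Body (pol K) := by
  obtain ⟨R, hR, hb⟩ := hK.gauge.bdd
  obtain ⟨r, hr, hl⟩ := hK.gauge.pos
  have e : H52Z.pol K = {ξ | sf K ξ ≤ 1} := by
    ext ξ
    exact hK.mem_pol_iff
  refine ⟨?_, ?_, ?_⟩
  · refine Metric.isCompact_of_isClosed_isBounded ?_ ?_
    · rw [e]
      exact isClosed_le hK.gauge.continuous continuous_const
    · refine (Metric.isBounded_closedBall (x := (0 : Fin n → ℝ)) (r := r⁻¹)).subset fun ξ hξ => ?_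
      rw [mem_closedBall_zero_iff, ← one_div, le_div_iff₀ hr]
      have := hK.mem_pol_iff.1 hξ
      have := hl ξ
      linarith
  · intro x hx y hy a b ha hb hab z hz
    rw [add_dotProduct, smul_dotProduct, smul_dotProduct, smul_eq_mul, smul_eq_mul]
    have h1 := mul_le_mul_of_nonneg_left (hx z hz) ha
    have h2 := mul_le_mul_of_nonneg_left (hy z hz) hb
    linarith
  · rw [mem_interior_iff_mem_nhds]
    refine mem_of_superset (Metric.ball_mem_nhds 0 (inv_pos.2 hR)) fun ξ hξ => ?_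
    rw [mem_ball_zero_iff, ← one_div, lt_div_iff₀ hR] at hξ
    rw [hK.mem_pol_iff]
    have := hb ξ
    linarith

lemma Body.bipolar {K : Set (Fin n → ℝ)} (hK : Body K) : H52Z.pol (H52Z.pol K) = K := by
  ext x
  constructor
  · intro hx
    rw [← hK.below_iff]
    intro ζ
    by_cases hζ : ζ = 0
    · rw [hζ, zero_dotProduct]
      exact hK.gauge.nonneg 0
    · have h1 := hK.gauge.pos' hζ
      have h2 : (sf K ζ)⁻¹ • ζ ∈ H52Z.pol K := by
        rw [hK.mem_pol_iff, hK.gauge.homog (inv_nonneg.2 h1.le), inv_mul_cancel₀ h1.ne']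
      have h3 := hx _ h2
      rw [dotProduct_smul, smul_eq_mul, dotProduct_comm, inv_mul_le_iff₀ h1, mul_one] at h3
      exact h3
  · intro hx ξ hξ
    rw [dotProduct_comm]
    exact hξ x hx

lemma Body.MM_eq {K : Set (Fin n → ℝ)} (hK : Body K) : MM (sf K) = NN K := by
  ext z
  constructor
  · rintro ⟨h1, h2, h3⟩
    exact ⟨hK.below_iff.1 h1, hK.mem_pol_iff.2 h3.le, h2⟩
  · rintro ⟨h1, h2, h3⟩
    refine ⟨hK.below_iff.2 h1, h3, le_antisymm (hK.mem_pol_iff.1 h2) ?_⟩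
    rw [← h3]
    exact le_sf hK.cpt h1 _

lemma Body.isClosed_NN {K : Set (Fin n → ℝ)} (hK : Body K) : IsClosed (NN K) := by
  rw [← hK.MM_eq]
  exact hK.gauge.isClosed_MM

lemma Body.swap_mem {K : Set (Fin n → ℝ)} (hK : Body K) {z : (Fin n → ℝ) × (Fin n → ℝ)} :
    z.swap ∈ NN K ↔ z ∈ NN (H52Z.pol K) := by
  unfold NN
  simp only [mem_ofPred_eq, Prod.fst_swap, Prod.snd_swap, hK.bipolar]
  rw [dotProduct_comm]
  tauto

/-- The cone volume measure of `K`, on normal pairs. -/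
noncomputable def muK (K : Set (Fin n → ℝ)) : Measure ((Fin n → ℝ) × (Fin n → ℝ)) :=
  (cm (sf (pol K))).map Prod.swap

/-- The cone volume measure of the polar body, on normal pairs. -/
noncomputable def nuK (K : Set (Fin n → ℝ)) : Measure ((Fin n → ℝ) × (Fin n → ℝ)) := cm (sf K)

/-- The centro-affine surface area measure, on normal pairs. -/
noncomputable def rhoK (K : Set (Fin n → ℝ)) : Measure ((Fin n → ℝ) × (Fin n → ℝ)) :=
  gm (muK K) (nuK K)

lemma Body.finite_mu {K : Set (Fin n → ℝ)} (hK : Body K) : IsFiniteMeasure (muK K) := by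
  have := hK.pol.gauge.finite_cm
  unfold muK
  infer_instance

lemma Body.finite_nu {K : Set (Fin n → ℝ)} (hK : Body K) : IsFiniteMeasure (nuK K) :=
  hK.gauge.finite_cm

lemma Body.finite_rho {K : Set (Fin n → ℝ)} (hK : Body K) : IsFiniteMeasure (rhoK K) := by
  have := hK.finite_mu
  have := hK.finite_nu
  unfold rhoK
  infer_instance

lemma Body.ae_nu {K : Set (Fin n → ℝ)} (hK : Body K) (hn : 0 < n) : ∀ᵐ z ∂(nuK K), z ∈ NN K := by
  rw [← hK.MM_eq]
  exact hK.gauge.ae_mem hn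

lemma Body.ae_mu {K : Set (Fin n → ℝ)} (hK : Body K) (hn : 0 < n) : ∀ᵐ z ∂(muK K), z ∈ NN K := by
  refine (ae_map_iff measurable_swap.aemeasurable hK.isClosed_NN.measurableSet).2 ?_
  filter_upwards [hK.pol.ae_nu hn] with z hz
  exact hK.swap_mem.2 hz

lemma Body.ae_rho {K : Set (Fin n → ℝ)} (hK : Body K) (hn : 0 < n) :
    ∀ᵐ z ∂(rhoK K), z ∈ NN K := (gm_ac _ _).ae_le (hK.ae_mu hn)

lemma Body.isCompact_NN {K : Set (Fin n → ℝ)} (hK : Body K) : IsCompact (NN K) :=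
  (hK.cpt.prod hK.pol.cpt).of_isClosed_subset hK.isClosed_NN fun _ hz => ⟨hz.1, hz.2.1⟩

lemma Body.cs_nu {K : Set (Fin n → ℝ)} (hK : Body K) (hn : 0 < n) : CS (nuK K) :=
  ⟨_, hK.isCompact_NN, hK.ae_nu hn⟩

lemma Body.cs_mu {K : Set (Fin n → ℝ)} (hK : Body K) (hn : 0 < n) : CS (muK K) :=
  ⟨_, hK.isCompact_NN, hK.ae_mu hn⟩

lemma Body.cs_rho {K : Set (Fin n → ℝ)} (hK : Body K) (hn : 0 < n) : CS (rhoK K) :=
  ⟨_, hK.isCompact_NN, hK.ae_rho hn⟩

lemma rho_local {K L : Set (Fin n → ℝ)} (hK : Body K) (hL : Body L) (hn : 0 < n)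
    {s : Set ((Fin n → ℝ) × (Fin n → ℝ))} (hs : MeasurableSet s) (h1 : s ⊆ NN K) (h2 : s ⊆ NN L) :
    (rhoK K).restrict s = (rhoK L).restrict s := by
  have := hK.finite_mu
  have := hK.finite_nu
  have := hL.finite_mu
  have := hL.finite_nu
  have e1 : (nuK K).restrict s = (nuK L).restrict s :=
    cm_local hK.gauge hL.gauge hn hs (hK.MM_eq ▸ h1) (hL.MM_eq ▸ h2)
  have e2 : (muK K).restrict s = (muK L).restrict s := by
    unfold muK
    rw [Measure.restrict_map measurable_swap hs, Measure.restrict_map measurable_swap hs,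
      cm_local hK.pol.gauge hL.pol.gauge hn (measurable_swap hs)]
    · rw [hK.pol.MM_eq]
      exact fun z hz => hK.swap_mem.1 (h1 hz)
    · rw [hL.pol.MM_eq]
      exact fun z hz => hL.swap_mem.1 (h2 hz)
  unfold rhoK
  rw [gm_restrict _ _ hs, gm_restrict _ _ hs, e1, e2]

/-! ### The valuation property -/

lemma Body.union {K L : Set (Fin n → ℝ)} (hK : Body K) (hL : Body L) (h : Convex ℝ (K ∪ L)) :
    Body (K ∪ L) :=
  ⟨hK.cpt.union hL.cpt, h, interior_mono subset_union_left hK.zero⟩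

lemma Body.inter {K L : Set (Fin n → ℝ)} (hK : Body K) (hL : Body L) : Body (K ∩ L) :=
  ⟨hK.cpt.inter_right hL.cpt.isClosed, hK.cvx.inter hL.cvx, by
    rw [interior_inter]; exact ⟨hK.zero, hL.zero⟩⟩

lemma NN_inter (K L : Set (Fin n → ℝ)) : NN (K ∪ L) ∩ NN (K ∩ L) = NN K ∩ NN L := by
  ext z
  constructor
  · rintro ⟨⟨-, h2, h3⟩, ⟨h4, -, -⟩⟩
    exact ⟨⟨h4.1, fun x hx => h2 x (Or.inl hx), h3⟩, ⟨h4.2, fun x hx => h2 x (Or.inr hx), h3⟩⟩
  · rintro ⟨⟨h1, h2, h3⟩, ⟨h4, h5, -⟩⟩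
    exact ⟨⟨Or.inl h1, fun x hx => hx.elim (h2 x) (h5 x), h3⟩,
      ⟨⟨h1, h4⟩, fun x hx => h2 x hx.1, h3⟩⟩

lemma NN_sub_aux {K L : Set (Fin n → ℝ)} (hL : Body L) (h : Convex ℝ (K ∪ L)) :
    NN K ⊆ NN (K ∪ L) ∪ NN (K ∩ L) := by
  rintro z ⟨h1, h2, h3⟩
  by_cases hz : z.1 ∈ L
  · exact Or.inr ⟨⟨h1, hz⟩, fun x hx => h2 x hx.1, h3⟩
  · refine Or.inl ⟨Or.inl h1, fun b hb => ?_, h3⟩
    rcases hb with hb | hb
    · exact h2 b hb
    by_contra hlt
    rw [not_le] at hlt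
    apply hz
    have hc : Continuous fun t : ℝ => z.1 + t • (b - z.1) := by fun_prop
    have ht : Tendsto (fun t : ℝ => z.1 + t • (b - z.1)) (𝓝[>] 0) (𝓝 z.1) := by
      have := hc.tendsto 0
      simp only [zero_smul, add_zero] at this
      exact this.mono_left nhdsWithin_le_nhds
    refine hL.cpt.isClosed.mem_of_tendsto ht ?_
    filter_upwards [Ioo_mem_nhdsGT (show (0 : ℝ) < 1 by norm_num)] with t ht'
    have hm : z.1 + t • (b - z.1) ∈ K ∪ L :=
      h.add_smul_sub_mem (Or.inl h1) (Or.inr hb) ⟨ht'.1.le, ht'.2.le⟩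
    rcases hm with hm | hm
    · exfalso
      have := h2 _ hm
      rw [dotProduct_add, dotProduct_smul, dotProduct_sub, h3, smul_eq_mul] at this
      have := mul_pos ht'.1 (sub_pos.2 hlt)
      linarith
    · exact hm

lemma NN_union {K L : Set (Fin n → ℝ)} (hK : Body K) (hL : Body L) (h : Convex ℝ (K ∪ L)) :
    NN (K ∪ L) ∪ NN (K ∩ L) = NN K ∪ NN L := by
  apply Subset.antisymm
  · rintro z (⟨h1, h2, h3⟩ | ⟨h1, h2, h3⟩)
    · rcases h1 with h1 | h1
      · exact Or.inl ⟨h1, fun x hx => h2 x (Or.inl hx), h3⟩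
      · exact Or.inr ⟨h1, fun x hx => h2 x (Or.inr hx), h3⟩
    · by_contra hn
      rw [mem_union, not_or] at hn
      have ha : ∃ a ∈ K, 1 < z.2 ⬝ᵥ a := by
        by_contra hc
        push Not at hc
        exact hn.1 ⟨h1.1, hc, h3⟩
      have hb : ∃ b ∈ L, 1 < z.2 ⬝ᵥ b := by
        by_contra hc
        push Not at hc
        exact hn.2 ⟨h1.2, hc, h3⟩
      obtain ⟨a, ha, ha'⟩ := ha
      obtain ⟨b, hb, hb'⟩ := hb
      have hp : IsPreconnected (segment ℝ a b) := (convex_segment a b).isPreconnected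
      obtain ⟨x, hx1, hx2⟩ := isPreconnected_closed_iff.1 hp K L hK.cpt.isClosed hL.cpt.isClosed
        (h.segment_subset (Or.inl ha) (Or.inr hb)) ⟨a, left_mem_segment ℝ a b, ha⟩
        ⟨b, right_mem_segment ℝ a b, hb⟩
      obtain ⟨s, t, hs, ht, hst, rfl⟩ := hx1
      have := h2 _ hx2
      rw [dotProduct_add, dotProduct_smul, dotProduct_smul, smul_eq_mul, smul_eq_mul] at this
      have e1 := mul_le_mul_of_nonneg_left ha'.le hs
      have e2 := mul_le_mul_of_nonneg_left hb'.le ht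
      rcases hs.eq_or_lt with h0 | h0
      · have ht1 : t = 1 := by linarith
        rw [← h0, ht1] at this
        linarith
      · have := mul_lt_mul_of_pos_left ha' h0
        linarith
  · rintro z (hz | hz)
    · exact NN_sub_aux hL h hz
    · have := NN_sub_aux (K := L) (L := K) hK (union_comm K L ▸ h) hz
      rwa [union_comm L K, inter_comm L K] at this

lemma measure_val {X : Type*} [MeasurableSpace X] {a b c d : Measure X} {A B C D : Set X}
    (hA : MeasurableSet A) (hB : MeasurableSet B) (hC : MeasurableSet C) (hD : MeasurableSet D)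
    (ha : ∀ᵐ z ∂a, z ∈ A) (hb : ∀ᵐ z ∂b, z ∈ B) (hc : ∀ᵐ z ∂c, z ∈ C) (hd : ∀ᵐ z ∂d, z ∈ D)
    (hu : C ∪ D = A ∪ B) (hi : C ∩ D = A ∩ B)
    (hca : ∀ s, MeasurableSet s → s ⊆ C → s ⊆ A → c.restrict s = a.restrict s)
    (hcb : ∀ s, MeasurableSet s → s ⊆ C → s ⊆ B → c.restrict s = b.restrict s)
    (hda : ∀ s, MeasurableSet s → s ⊆ D → s ⊆ A → d.restrict s = a.restrict s)
    (hdb : ∀ s, MeasurableSet s → s ⊆ D → s ⊆ B → d.restrict s = b.restrict s) :
    c + d = a + b := by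
  have key : ∀ z, (z ∈ C ∨ z ∈ D ↔ z ∈ A ∨ z ∈ B) ∧ (z ∈ C ∧ z ∈ D ↔ z ∈ A ∧ z ∈ B) := fun z =>
    ⟨by rw [← mem_union, ← mem_union, hu], by rw [← mem_inter_iff, ← mem_inter_iff, hi]⟩
  have split : ∀ (m : Measure X) (M S T : Set X), MeasurableSet T → (∀ᵐ z ∂m, z ∈ M) →
      Disjoint S T → M = S ∪ T → m = m.restrict S + m.restrict T := by
    intro m M S T hT hm hST hM
    rw [← Measure.restrict_union hST hT, ← hM, Measure.restrict_eq_self_of_ae_mem hm]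
  have e1 := split c C (C ∩ A) (C \ A) (hC.diff hA) hc (by
    rw [Set.disjoint_left]; rintro z ⟨-, h1⟩ ⟨-, h2⟩; exact h2 h1) (by simp)
  have e2 := split d D (D ∩ B) (D \ B) (hD.diff hB) hd (by
    rw [Set.disjoint_left]; rintro z ⟨-, h1⟩ ⟨-, h2⟩; exact h2 h1) (by simp)
  have e3 := split a A (C ∩ A) (D \ B) (hD.diff hB) ha (by
    rw [Set.disjoint_left]; rintro z ⟨h1, h2⟩ ⟨h3, h4⟩; have := key z; tauto) (by
    ext z; simp only [mem_union, mem_inter_iff, Set.mem_sdiff]; have := key z; tauto)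
  have e4 := split b B (D ∩ B) (C \ A) (hC.diff hA) hb (by
    rw [Set.disjoint_left]; rintro z ⟨h1, h2⟩ ⟨h3, h4⟩; have := key z; tauto) (by
    ext z; simp only [mem_union, mem_inter_iff, Set.mem_sdiff]; have := key z; tauto)
  have f1 := hca (C ∩ A) (hC.inter hA) inter_subset_left inter_subset_right
  have f2 := hcb (C \ A) (hC.diff hA) sdiff_subset (by
    rintro z ⟨h1, h2⟩; have := key z; tauto)
  have f3 := hdb (D ∩ B) (hD.inter hB) inter_subset_left inter_subset_right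
  have f4 := hda (D \ B) (hD.diff hB) sdiff_subset (by
    rintro z ⟨h1, h2⟩; have := key z; tauto)
  rw [f1, f2] at e1
  rw [f3, f4] at e2
  calc c + d = (a.restrict (C ∩ A) + b.restrict (C \ A)) +
        (b.restrict (D ∩ B) + a.restrict (D \ B)) := by rw [← e1, ← e2]
    _ = (a.restrict (C ∩ A) + a.restrict (D \ B)) +
        (b.restrict (D ∩ B) + b.restrict (C \ A)) := by abel
    _ = a + b := by rw [← e3, ← e4]

lemma rho_val {K L : Set (Fin n → ℝ)} (hK : Body K) (hL : Body L) (hn : 0 < n)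
    (h : Convex ℝ (K ∪ L)) : rhoK (K ∪ L) + rhoK (K ∩ L) = rhoK K + rhoK L := by
  have hU := hK.union hL h
  have hI := hK.inter hL
  exact measure_val hK.isClosed_NN.measurableSet hL.isClosed_NN.measurableSet
    hU.isClosed_NN.measurableSet hI.isClosed_NN.measurableSet (hK.ae_rho hn) (hL.ae_rho hn)
    (hU.ae_rho hn) (hI.ae_rho hn) (NN_union hK hL h) (NN_inter K L)
    (fun s hs h1 h2 => rho_local hU hK hn hs h1 h2) (fun s hs h1 h2 => rho_local hU hL hn hs h1 h2)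
    (fun s hs h1 h2 => rho_local hI hK hn hs h1 h2) (fun s hs h1 h2 => rho_local hI hL hn hs h1 h2)

end Pool.Agent.H52Z
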