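import Mathlib
import Pool.Agent.H52Z.GM
import Pool.Agent.H52Z.Cone
import Pool.Agent.H52Z.Body

/-!
# Equivariance, semicontinuity, polytopes and the ball
-/

set_option autoImplicit false

open MeasureTheory Set Filter Topology
open scoped ENNReal NNReal Pointwise

namespace Pool.Agent.H52Z

variable {n : ℕ}

lemma sf_image {A : Set (Fin n → ℝ)} (S : Matrix (Fin n) (Fin n) ℝ) (η : Fin n → ℝ) :
    sf (S.mulVec '' A) η = sf A (S.transpose.mulVec η) := by
  unfold sf
  rw [image_image]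
  congr 2
  funext a
  rw [Matrix.dotProduct_mulVec, ← Matrix.mulVec_transpose]

lemma Body.image {K : Set (Fin n → ℝ)} (hK : Body K) {S R : Matrix (Fin n) (Fin n) ℝ}
    (hR : R * S.transpose = 1) : Body (S.mulVec '' K) := by
  have h1 : S * R.transpose = 1 := by
    have := congrArg Matrix.transpose hR
    rwa [Matrix.transpose_mul, Matrix.transpose_transpose, Matrix.transpose_one] at this
  refine ⟨hK.cpt.image (by fun_prop), hK.cvx.linear_image (Matrix.mulVecLin S), ?_⟩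
  rw [mem_interior_iff_mem_nhds]
  have hc : Continuous fun x : Fin n → ℝ => R.transpose.mulVec x := by fun_prop
  have h2 := hc.continuousAt (x := 0)
  have h3 : K ∈ 𝓝 (R.transpose.mulVec (0 : Fin n → ℝ)) := by
    rw [Matrix.mulVec_zero]
    exact mem_interior_iff_mem_nhds.1 hK.zero
  refine mem_of_superset (h2 h3) fun x hx => ⟨R.transpose.mulVec x, hx, ?_⟩
  rw [Matrix.mulVec_mulVec, h1, Matrix.one_mulVec]

lemma pol_image {K : Set (Fin n → ℝ)} {S R : Matrix (Fin n) (Fin n) ℝ}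
    (hR : R * S.transpose = 1) : pol (S.mulVec '' K) = R.mulVec '' pol K := by
  have h2 : S.transpose * R = 1 := mul_eq_one_comm.1 hR
  ext ξ
  constructor
  · intro h
    refine ⟨S.transpose.mulVec ξ, fun x hx => ?_, ?_⟩
    · have := h _ ⟨x, hx, rfl⟩
      rwa [Matrix.dotProduct_mulVec, ← Matrix.mulVec_transpose] at this
    · rw [Matrix.mulVec_mulVec, hR, Matrix.one_mulVec]
  · rintro ⟨ζ, hζ, rfl⟩ _ ⟨x, hx, rfl⟩
    rw [Matrix.dotProduct_mulVec, ← Matrix.mulVec_transpose, Matrix.mulVec_mulVec, h2,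
      Matrix.one_mulVec]
    exact hζ x hx

/-- The action on pairs as a measurable equivalence. -/
noncomputable def actE (S R : Matrix (Fin n) (Fin n) ℝ) (hR : R * S.transpose = 1) :
    ((Fin n → ℝ) × (Fin n → ℝ)) ≃ᵐ ((Fin n → ℝ) × (Fin n → ℝ)) where
  toFun z := (S.mulVec z.1, R.mulVec z.2)
  invFun z := (R.transpose.mulVec z.1, S.transpose.mulVec z.2)
  left_inv z := by
    have h2 : S.transpose * R = 1 := mul_eq_one_comm.1 hR
    have h1 : R.transpose * S = 1 := by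
      have := congrArg Matrix.transpose h2
      rwa [Matrix.transpose_mul, Matrix.transpose_transpose, Matrix.transpose_one] at this
    simp only [Matrix.mulVec_mulVec, h1, h2, Matrix.one_mulVec]
  right_inv z := by
    have h1 : S * R.transpose = 1 := by
      have := congrArg Matrix.transpose hR
      rwa [Matrix.transpose_mul, Matrix.transpose_transpose, Matrix.transpose_one] at this
    simp only [Matrix.mulVec_mulVec, h1, hR, Matrix.one_mulVec]
  measurable_toFun := by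
    refine Continuous.measurable ?_
    show Continuous fun z : (Fin n → ℝ) × (Fin n → ℝ) => (S.mulVec z.1, R.mulVec z.2)
    fun_prop
  measurable_invFun := by
    refine Continuous.measurable ?_
    show Continuous fun z : (Fin n → ℝ) × (Fin n → ℝ) =>
      (R.transpose.mulVec z.1, S.transpose.mulVec z.2)
    fun_prop

lemma rho_image {K : Set (Fin n → ℝ)} (hK : Body K) {S R : Matrix (Fin n) (Fin n) ℝ}
    (hS : S.det = 1) (hR : R * S.transpose = 1) :
    rhoK (S.mulVec '' K) = (rhoK K).map (actE S R hR) := by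
  have h1 : S * R.transpose = 1 := by
    have := congrArg Matrix.transpose hR
    rwa [Matrix.transpose_mul, Matrix.transpose_transpose, Matrix.transpose_one] at this
  have hRd : R.det = 1 := by
    have := congrArg Matrix.det hR
    rwa [Matrix.det_mul, Matrix.det_transpose, hS, mul_one, Matrix.det_one] at this
  have hK' := hK.image hR
  have := hK.finite_mu
  have := hK.finite_nu
  have e1 : nuK (S.mulVec '' K) = (nuK K).map (actE S R hR) :=
    cm_map hK.gauge hK'.gauge S R hS hR (sf_image S)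
  have e2 : muK (S.mulVec '' K) = (muK K).map (actE S R hR) := by
    unfold muK
    have hG : Measurable (fun z : (Fin n → ℝ) × (Fin n → ℝ) => (R.mulVec z.1, S.mulVec z.2)) := by
      refine Continuous.measurable ?_
      fun_prop
    rw [pol_image hR, cm_map hK.pol.gauge (hK.pol.image h1).gauge R S hRd h1 (sf_image R),
      Measure.map_map measurable_swap hG, Measure.map_map (actE S R hR).measurable measurable_swap]
    rfl
  unfold rhoK
  rw [e1, e2, gm_map]

/-! ### Convergence -/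

lemma sf_le_of_hausdorff {K L : Set (Fin n → ℝ)} (hK : Body K) (hL : Body L) {d : ℝ}
    (h : Metric.hausdorffDist K L < d) (η : Fin n → ℝ) : sf K η ≤ sf L η + n * d * ‖η‖ := by
  obtain ⟨a, ha, ha'⟩ := exists_sf hK.cpt ⟨0, hK.zero_mem⟩ η
  obtain ⟨b, hb, hb'⟩ := Metric.exists_dist_lt_of_hausdorffDist_lt ha h
    (Metric.hausdorffEDist_ne_top_of_nonempty_of_bounded ⟨0, hK.zero_mem⟩ ⟨0, hL.zero_mem⟩
      hK.cpt.isBounded hL.cpt.isBounded)
  have h1 := le_sf hL.cpt hb η
  have h2 := dot_le η (a - b)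
  rw [dotProduct_sub] at h2
  rw [dist_eq_norm] at hb'
  have h3 : (n : ℝ) * (‖η‖ * ‖a - b‖) ≤ n * (‖η‖ * d) :=
    mul_le_mul_of_nonneg_left (mul_le_mul_of_nonneg_left hb'.le (norm_nonneg _)) (Nat.cast_nonneg n)
  rw [ha']
  nlinarith

lemma gconv_of_hausdorff {Ks : ℕ → Set (Fin n → ℝ)} {K : Set (Fin n → ℝ)} (hK : Body K)
    (hKs : ∀ j, Body (Ks j))
    (h : Tendsto (fun j => Metric.hausdorffDist (Ks j) K) atTop (𝓝 0)) :
    GConv (fun j => sf (Ks j)) (sf K) := by
  intro ε hε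
  obtain ⟨r, hr, hl⟩ := hK.gauge.pos
  set d := r * (ε / (1 + ε)) / (n + 1) with hd
  have hd0 : 0 < d := by positivity
  have hd1 : (n : ℝ) * d ≤ r * (ε / (1 + ε)) := by
    have : (n + 1 : ℝ) * d = r * (ε / (1 + ε)) := by
      rw [hd]
      field_simp
    nlinarith
  filter_upwards [h.eventually (gt_mem_nhds hd0)] with j hj η
  have h1 := sf_le_of_hausdorff (hKs j) hK hj η
  have h2 := sf_le_of_hausdorff hK (hKs j) (by rwa [Metric.hausdorffDist_comm]) η
  have h3 : (n : ℝ) * d * ‖η‖ ≤ ε / (1 + ε) * sf K η := by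
    have e1 : (n : ℝ) * d * ‖η‖ ≤ r * (ε / (1 + ε)) * ‖η‖ :=
      mul_le_mul_of_nonneg_right hd1 (norm_nonneg _)
    have e2 : ε / (1 + ε) * (r * ‖η‖) ≤ ε / (1 + ε) * sf K η :=
      mul_le_mul_of_nonneg_left (hl η) (by positivity)
    linarith
  have h4 := hK.gauge.nonneg η
  have h5 : ε / (1 + ε) ≤ ε := div_le_self hε.le (by linarith)
  constructor
  · have := mul_le_mul_of_nonneg_right h5 h4
    linarith
  · have e1 : sf K η - ε / (1 + ε) * sf K η ≤ sf (Ks j) η := by linarith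
    have e2 : (1 + ε) * (sf K η - ε / (1 + ε) * sf K η) = sf K η := by
      field_simp
      ring
    have := mul_le_mul_of_nonneg_left e1 (show 0 ≤ 1 + ε by linarith)
    linarith

lemma sf_pol_le {K L : Set (Fin n → ℝ)} (hK : Body K) (hL : Body L) {c : ℝ} (hc : 0 < c)
    (h : ∀ η, sf K η ≤ c * sf L η) (y : Fin n → ℝ) : sf (pol L) y ≤ c * sf (pol K) y := by
  obtain ⟨ξ, hξ, hξ'⟩ := exists_sf hL.pol.cpt ⟨0, hL.pol.zero_mem⟩ y
  have h1 : c⁻¹ • ξ ∈ pol K := by
    rw [hK.mem_pol_iff, hK.gauge.homog (inv_nonneg.2 hc.le), inv_mul_le_iff₀ hc]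
    exact (h ξ).trans (mul_le_mul_of_nonneg_left (hL.mem_pol_iff.1 hξ) hc.le)
  have h2 := le_sf hK.pol.cpt h1 y
  rw [dotProduct_smul, smul_eq_mul, inv_mul_le_iff₀ hc] at h2
  rwa [hξ']

lemma gconv_pol {Ks : ℕ → Set (Fin n → ℝ)} {K : Set (Fin n → ℝ)} (hK : Body K)
    (hKs : ∀ j, Body (Ks j)) (h : GConv (fun j => sf (Ks j)) (sf K)) :
    GConv (fun j => sf (pol (Ks j))) (sf (pol K)) := by
  intro ε hε
  filter_upwards [h ε hε] with j hj η
  exact ⟨sf_pol_le hK (hKs j) (by linarith) (fun ζ => (hj ζ).2) η,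
    sf_pol_le (hKs j) hK (by linarith) (fun ζ => (hj ζ).1) η⟩

lemma rho_usc {Ks : ℕ → Set (Fin n → ℝ)} {K : Set (Fin n → ℝ)} (hK : Body K)
    (hKs : ∀ j, Body (Ks j)) (hn : 0 < n)
    (h : Tendsto (fun j => Metric.hausdorffDist (Ks j) K) atTop (𝓝 0))
    (f : (Fin n → ℝ) × (Fin n → ℝ) → ℝ) (hf : Continuous f) (hf0 : ∀ z, 0 ≤ f z) (ε : ℝ)
    (hε : 0 < ε) : ∀ᶠ j in atTop, ∫ z, f z ∂(rhoK (Ks j)) ≤ ∫ z, f z ∂(rhoK K) + ε := by
  have := hK.finite_mu
  have := hK.finite_nu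
  have := fun j => (hKs j).finite_mu
  have := fun j => (hKs j).finite_nu
  have g1 := gconv_of_hausdorff hK hKs h
  have g2 := gconv_pol hK hKs g1
  refine gm_usc (muK K) (nuK K) (hK.cs_mu hn) (hK.cs_nu hn) (fun j => muK (Ks j))
    (fun j => nuK (Ks j)) (fun j => (hKs j).cs_mu hn) (fun j => (hKs j).cs_nu hn) ?_ ?_ hf hf0 hε
  · intro F hF
    unfold muK
    simp only [integral_map measurable_swap.aemeasurable hF.aestronglyMeasurable]
    exact cm_tendsto g2 hK.pol.gauge (fun j => (hKs j).pol.gauge) hn (hF.comp continuous_swap)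
  · intro F hF
    exact cm_tendsto g1 hK.gauge (fun j => (hKs j).gauge) hn hF

/-! ### Polytopes -/

lemma rho_polytope (hn : 2 ≤ n) {A : Set (Fin n → ℝ)} (hA : A.Finite)
    (hK : Body (convexHull ℝ A)) : rhoK (convexHull ℝ A) = 0 := by
  have hne : A.Nonempty := convexHull_nonempty_iff.1 ⟨0, hK.zero_mem⟩
  have hs : MeasurableSet {z : (Fin n → ℝ) × (Fin n → ℝ) | z.1 ∈ A} :=
    measurable_fst hA.measurableSet
  apply gm_singular
  refine ⟨{z | z.1 ∈ A}ᶜ, hs.compl, ?_, ?_⟩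
  · have : ∀ᵐ z ∂(nuK (convexHull ℝ A)), z ∈ {z : (Fin n → ℝ) × (Fin n → ℝ) | z.1 ∈ A} := by
      refine (ae_map_iff hK.gauge.measurable_FF.aemeasurable hs).2 ((wm_ac _).ae_le ?_)
      filter_upwards [hK.gauge.ae_diff] with η hη
      obtain ⟨a, ha, ha'⟩ := exists_max hA.isCompact hne η
      have hcv : Convex ℝ {b : Fin n → ℝ | η ⬝ᵥ b ≤ η ⬝ᵥ a} := by
        intro x hx y hy s t hs ht hst
        show η ⬝ᵥ (s • x + t • y) ≤ η ⬝ᵥ a
        rw [dotProduct_add, dotProduct_smul, dotProduct_smul, smul_eq_mul, smul_eq_mul]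
        have h1 := mul_le_mul_of_nonneg_left (show η ⬝ᵥ x ≤ η ⬝ᵥ a from hx) hs
        have h2 := mul_le_mul_of_nonneg_left (show η ⬝ᵥ y ≤ η ⬝ᵥ a from hy) ht
        have : s * (η ⬝ᵥ a) + t * (η ⬝ᵥ a) = η ⬝ᵥ a := by rw [← add_mul, hst, one_mul]
        linarith
      have hsub : convexHull ℝ A ⊆ {b : Fin n → ℝ | η ⬝ᵥ b ≤ η ⬝ᵥ a} := convexHull_min ha' hcv
      have ha2 : a ∈ convexHull ℝ A := subset_convexHull ℝ A ha
      have h3 := grad_eq hη (hK.below_iff.2 ha2) (sf_eq ha2 fun b hb => hsub hb).symm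
      show grad (sf (convexHull ℝ A)) η ∈ A
      rwa [h3]
    exact this
  · rw [compl_compl]
    have : ∀ᵐ z ∂(muK (convexHull ℝ A)), z ∈ {z : (Fin n → ℝ) × (Fin n → ℝ) | z.1 ∈ A}ᶜ := by
      refine (ae_map_iff measurable_swap.aemeasurable hs.compl).2 ?_
      refine (ae_map_iff hK.pol.gauge.measurable_FF.aemeasurable (measurable_swap hs.compl)).2
        ((wm_ac _).ae_le ?_)
      have h1 : ∀ a ∈ A, ∀ᵐ η ∂(volume : Measure (Fin n → ℝ)), η ∉ Submodule.span ℝ {a} := by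
        intro a _
        have h2 : Submodule.span ℝ {a} ≠ ⊤ := by
          intro h
          have h3 : Module.finrank ℝ (Submodule.span ℝ {a}) ≤ 1 := by
            simpa using finrank_span_le_card (R := ℝ) ({a} : Set (Fin n → ℝ))
          rw [h, finrank_top, Module.finrank_fin_fun] at h3
          omega
        have := Measure.addHaar_submodule volume _ h2
        exact measure_eq_zero_iff_ae_notMem.1 this
      filter_upwards [(ae_ball_iff hA.countable).2 h1, ae_ne_zero (show 0 < n by omega)]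
        with η e1 e2
      intro hm
      have hm' : (sf (pol (convexHull ℝ A)) η)⁻¹ • η ∈ A := hm
      apply e1 _ hm'
      have h4 := hK.pol.gauge.pos' e2
      rw [Submodule.mem_span_singleton]
      exact ⟨_, smul_inv_smul₀ h4.ne' η⟩
    rw [ae_iff] at this
    simpa using this

/-! ### The Euclidean ball -/

/-- The Euclidean unit ball. -/
def BB (n : ℕ) : Set (Fin n → ℝ) := {x | x ⬝ᵥ x ≤ 1}

lemma dot_self_nonneg (x : Fin n → ℝ) : 0 ≤ x ⬝ᵥ x :=
  Finset.sum_nonneg fun i _ => mul_self_nonneg (x i)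

lemma two_dot_le (x y : Fin n → ℝ) : 2 * (x ⬝ᵥ y) ≤ x ⬝ᵥ x + y ⬝ᵥ y := by
  have := dot_self_nonneg (x - y)
  rw [sub_dotProduct, dotProduct_sub, dotProduct_sub, dotProduct_comm y x] at this
  linarith

lemma body_BB : Body (BB n) := by
  have hc : Continuous fun x : Fin n → ℝ => x ⬝ᵥ x := by fun_prop
  refine ⟨Metric.isCompact_of_isClosed_isBounded (isClosed_le hc continuous_const) ?_, ?_, ?_⟩
  · refine (Metric.isBounded_closedBall (x := (0 : Fin n → ℝ)) (r := 1)).subset fun x hx => ?_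
    rw [mem_closedBall_zero_iff, pi_norm_le_iff_of_nonneg zero_le_one]
    intro i
    have h1 : x i * x i ≤ x ⬝ᵥ x :=
      Finset.single_le_sum (f := fun i => x i * x i) (fun i _ => mul_self_nonneg (x i))
        (Finset.mem_univ i)
    have h2 : x i * x i ≤ 1 := h1.trans hx
    rw [Real.norm_eq_abs]
    exact abs_le_one_iff_mul_self_le_one.2 h2
  · intro x hx y hy a b ha hb hab
    show (a • x + b • y) ⬝ᵥ (a • x + b • y) ≤ 1
    simp only [add_dotProduct, dotProduct_add, smul_dotProduct, dotProduct_smul, smul_eq_mul]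
    have h1 := two_dot_le x y
    have hx' : x ⬝ᵥ x ≤ 1 := hx
    have hy' : y ⬝ᵥ y ≤ 1 := hy
    rw [dotProduct_comm y x]
    have e1 := mul_le_mul_of_nonneg_left hx' (mul_nonneg ha ha)
    have e2 := mul_le_mul_of_nonneg_left hy' (mul_nonneg hb hb)
    have e3 := mul_le_mul_of_nonneg_left (show x ⬝ᵥ y ≤ 1 by linarith) (mul_nonneg ha hb)
    have e4 : (a + b) * (a + b) = 1 := by rw [hab, one_mul]
    nlinarith
  · rw [mem_interior_iff_mem_nhds]
    have : {x : Fin n → ℝ | x ⬝ᵥ x < 1} ∈ 𝓝 (0 : Fin n → ℝ) :=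
      (isOpen_lt hc continuous_const).mem_nhds (by simp)
    exact mem_of_superset this fun x hx => (show x ⬝ᵥ x ≤ 1 from le_of_lt hx)

lemma pol_BB : pol (BB n) = BB n := by
  ext ξ
  constructor
  · intro h
    by_contra hn
    have h1 : 1 < ξ ⬝ᵥ ξ := not_le.1 hn
    set s := Real.sqrt (ξ ⬝ᵥ ξ) with hs
    have hs1 : 1 < s := by
      rw [hs, Real.lt_sqrt zero_le_one]
      simpa using h1
    have hs2 : s * s = ξ ⬝ᵥ ξ := Real.mul_self_sqrt (by linarith)
    have h2 : s⁻¹ • ξ ∈ BB n := by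
      show (s⁻¹ • ξ) ⬝ᵥ (s⁻¹ • ξ) ≤ 1
      rw [smul_dotProduct, dotProduct_smul, smul_eq_mul, smul_eq_mul, ← hs2]
      apply le_of_eq
      field_simp
    have h3 := h _ h2
    rw [dotProduct_smul, smul_eq_mul, ← hs2, ← mul_assoc, inv_mul_cancel₀ (by linarith),
      one_mul] at h3
    linarith
  · intro h x hx
    have h1 := two_dot_le ξ x
    have hx' : x ⬝ᵥ x ≤ 1 := hx
    have hy' : ξ ⬝ᵥ ξ ≤ 1 := h
    linarith

lemma rho_BB_ne_zero (hn : 0 < n) : rhoK (BB n) ≠ 0 := by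
  have hB : Body (BB n) := body_BB
  have e : muK (BB n) = nuK (BB n) := by
    unfold muK
    rw [pol_BB]
    have : (Prod.swap : (Fin n → ℝ) × (Fin n → ℝ) → _) =ᵐ[nuK (BB n)] id := by
      filter_upwards [hB.ae_nu hn] with z hz
      obtain ⟨h1, h2, h3⟩ := hz
      rw [pol_BB] at h2
      have h4 : (z.1 - z.2) ⬝ᵥ (z.1 - z.2) = 0 := by
        apply le_antisymm _ (dot_self_nonneg _)
        rw [sub_dotProduct, dotProduct_sub, dotProduct_sub, dotProduct_comm z.1 z.2, h3]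
        have hx' : z.1 ⬝ᵥ z.1 ≤ 1 := h1
        have hy' : z.2 ⬝ᵥ z.2 ≤ 1 := h2
        linarith
      rw [dotProduct_self_eq_zero, sub_eq_zero] at h4
      exact Prod.ext h4.symm h4
    exact (Measure.map_congr this).trans Measure.map_id
  have := hB.finite_nu
  unfold rhoK
  rw [e, gm_self]
  exact cm_ne_zero hB.gauge

lemma exists_polytope {K : Set (Fin n → ℝ)} (hK : Body K) {δ : ℝ} (hδ : 0 < δ) :
    ∃ A : Set (Fin n → ℝ), A.Finite ∧ Body (convexHull ℝ A) ∧
      Metric.hausdorffDist (convexHull ℝ A) K ≤ δ := by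
  obtain ⟨r, hr, hl⟩ := hK.gauge.pos
  set d := min δ (r / 2 / (n + 1)) with hd
  have hd0 : 0 < d := lt_min hδ (by positivity)
  have hd1 : (n : ℝ) * d ≤ r / 2 := by
    have h1 : d ≤ r / 2 / (n + 1) := min_le_right _ _
    rw [le_div_iff₀ (by positivity)] at h1
    nlinarith
  obtain ⟨A, hAK, hA, hcov⟩ := finite_cover_balls_of_compact hK.cpt hd0
  have hsub : convexHull ℝ A ⊆ K := convexHull_min hAK hK.cvx
  have hnear : ∀ x ∈ K, ∃ a ∈ A, dist x a < d := by
    intro x hx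
    simpa using hcov hx
  have hcpt : IsCompact (convexHull ℝ A) := hA.isCompact_convexHull ℝ
  refine ⟨A, hA, ⟨hcpt, convex_convexHull ℝ A, ?_⟩, ?_⟩
  · rw [mem_interior_iff_mem_nhds]
    refine mem_of_superset (Metric.ball_mem_nhds 0 (show 0 < r / 2 / (n + 1) by positivity))
      fun x hx => ?_
    by_contra hx'
    obtain ⟨f, u, h1, h2⟩ :=
      geometric_hahn_banach_closed_point (convex_convexHull ℝ A) hcpt.isClosed hx'
    set ζ : Fin n → ℝ := fun i => f (Pi.single i 1) with hζ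
    obtain ⟨b, hb, hb'⟩ := exists_sf hK.cpt ⟨0, hK.zero_mem⟩ ζ
    obtain ⟨a, ha, ha'⟩ := hnear b hb
    have e1 := h1 a (subset_convexHull ℝ A ha)
    rw [clm_eq_dot, ← hζ] at e1 h2
    have e2 := dot_le ζ (b - a)
    rw [dotProduct_sub] at e2
    rw [dist_eq_norm] at ha'
    have e3 : (n : ℝ) * (‖ζ‖ * ‖b - a‖) ≤ n * (‖ζ‖ * d) :=
      mul_le_mul_of_nonneg_left (mul_le_mul_of_nonneg_left ha'.le (norm_nonneg _))
        (Nat.cast_nonneg n)
    have e4 := dot_le ζ x
    rw [mem_ball_zero_iff, lt_div_iff₀ (by positivity)] at hx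
    have e5 := hl ζ
    have e6 : (n : ℝ) * d * ‖ζ‖ ≤ r / 2 * ‖ζ‖ := mul_le_mul_of_nonneg_right hd1 (norm_nonneg _)
    have e7 : (n : ℝ) * ‖x‖ ≤ r / 2 := by nlinarith [norm_nonneg x]
    have e8 : (n : ℝ) * ‖x‖ * ‖ζ‖ ≤ r / 2 * ‖ζ‖ := mul_le_mul_of_nonneg_right e7 (norm_nonneg _)
    nlinarith
  · refine Metric.hausdorffDist_le_of_mem_dist hδ.le (fun x hx => ⟨x, hsub hx, by simpa using hδ.le⟩)
      fun x hx => ?_
    obtain ⟨a, ha, ha'⟩ := hnear x hx
    exact ⟨a, subset_convexHull ℝ A ha, ha'.le.trans (min_le_left _ _)⟩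

end Pool.Agent.H52Z
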