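import Mathlib
import Pool.Agent.H52Z.GM

/-!
# Zonoids generated by a measure
-/

set_option autoImplicit false

open MeasureTheory Set Filter Topology
open scoped ENNReal NNReal Pointwise

namespace Pool.Agent.H52Z

variable {Y : Type*} [MetricSpace Y] [MeasurableSpace Y] [BorelSpace Y]
variable {W : Type*} [NormedAddCommGroup W] [NormedSpace ℝ W] [FiniteDimensional ℝ W]

/-- The support function of the zonoid. -/
noncomputable def zs (τ : Y → W) (ρ : Measure Y) (ℓ : W →L[ℝ] ℝ) : ℝ :=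
  ∫ z, max (ℓ (τ z)) 0 ∂ρ

/-- The zonoid. -/
def zon (τ : Y → W) (ρ : Measure Y) : Set W := {w | ∀ ℓ : W →L[ℝ] ℝ, ℓ w ≤ zs τ ρ ℓ}

omit [MetricSpace Y] [BorelSpace Y] [FiniteDimensional ℝ W] in
lemma zs_nonneg (τ : Y → W) (ρ : Measure Y) (ℓ : W →L[ℝ] ℝ) : 0 ≤ zs τ ρ ℓ :=
  integral_nonneg fun _ => le_max_right _ _

omit [MetricSpace Y] [BorelSpace Y] [FiniteDimensional ℝ W] in
lemma zero_mem_zon (τ : Y → W) (ρ : Measure Y) : (0 : W) ∈ zon τ ρ := by
  intro ℓ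
  rw [map_zero]
  exact zs_nonneg τ ρ ℓ

omit [MetricSpace Y] [BorelSpace Y] [FiniteDimensional ℝ W] in
lemma convex_zon (τ : Y → W) (ρ : Measure Y) : Convex ℝ (zon τ ρ) := by
  intro x hx y hy a b ha hb hab ℓ
  rw [map_add, map_smul, map_smul, smul_eq_mul, smul_eq_mul]
  have h1 := mul_le_mul_of_nonneg_left (hx ℓ) ha
  have h2 := mul_le_mul_of_nonneg_left (hy ℓ) hb
  have : a * zs τ ρ ℓ + b * zs τ ρ ℓ = zs τ ρ ℓ := by rw [← add_mul, hab, one_mul]
  linarith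

omit [MetricSpace Y] [BorelSpace Y] [FiniteDimensional ℝ W] in
lemma isClosed_zon (τ : Y → W) (ρ : Measure Y) : IsClosed (zon τ ρ) := by
  have : zon τ ρ = ⋂ ℓ : W →L[ℝ] ℝ, {w | ℓ w ≤ zs τ ρ ℓ} := by
    ext w
    simp [zon]
  rw [this]
  exact isClosed_iInter fun ℓ => isClosed_le ℓ.continuous continuous_const

omit [MeasurableSpace Y] [BorelSpace Y] [FiniteDimensional ℝ W] in
lemma continuous_pos {τ : Y → W} (hτ : Continuous τ) (ℓ : W →L[ℝ] ℝ) :
    Continuous fun z => max (ℓ (τ z)) 0 := (ℓ.continuous.comp hτ).max continuous_const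

omit [FiniteDimensional ℝ W] in
lemma norm_le_of_mem_zon {τ : Y → W} (hτ : Continuous τ) {ρ : Measure Y} [IsFiniteMeasure ρ]
    (hρ : CS ρ) {w : W} (hw : w ∈ zon τ ρ) : ‖w‖ ≤ ∫ z, ‖τ z‖ ∂ρ := by
  obtain ⟨g, hg1, hg2⟩ := exists_dual_vector'' ℝ w
  have h1 := hw g
  have h2 : zs τ ρ g ≤ ∫ z, ‖τ z‖ ∂ρ := by
    refine integral_mono (hρ.integrable (continuous_pos hτ g)) (hρ.integrable hτ.norm) fun z => ?_
    refine max_le ?_ (norm_nonneg _)
    have := g.le_opNorm (τ z)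
    have h3 : ‖g‖ * ‖τ z‖ ≤ ‖τ z‖ := mul_le_of_le_one_left (norm_nonneg _) hg1
    exact (le_abs_self _).trans (this.trans h3)
  have h3 : g w = ‖w‖ := by simpa using hg2
  linarith

lemma isCompact_zon {τ : Y → W} (hτ : Continuous τ) {ρ : Measure Y} [IsFiniteMeasure ρ]
    (hρ : CS ρ) : IsCompact (zon τ ρ) := by
  haveI := FiniteDimensional.proper_real W
  refine Metric.isCompact_of_isClosed_isBounded (isClosed_zon τ ρ) ?_
  refine (Metric.isBounded_closedBall (x := (0 : W)) (r := ∫ z, ‖τ z‖ ∂ρ)).subset fun w hw => ?_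
  rw [mem_closedBall_zero_iff]
  exact norm_le_of_mem_zon hτ hρ hw

lemma exists_attain {τ : Y → W} (hτ : Continuous τ) {ρ : Measure Y} [IsFiniteMeasure ρ]
    (hρ : CS ρ) (ℓ : W →L[ℝ] ℝ) : ∃ w ∈ zon τ ρ, ℓ w = zs τ ρ ℓ := by
  haveI := FiniteDimensional.proper_real W
  have hs : MeasurableSet {z | 0 < ℓ (τ z)} :=
    (isOpen_lt continuous_const (ℓ.continuous.comp hτ)).measurableSet
  have hi : Integrable τ ρ := hρ.integrable hτ
  have hi' : Integrable ({z | 0 < ℓ (τ z)}.indicator τ) ρ := hi.indicator hs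
  refine ⟨∫ z, {z | 0 < ℓ (τ z)}.indicator τ z ∂ρ, fun ℓ' => ?_, ?_⟩
  · rw [← ℓ'.integral_comp_comm hi']
    refine integral_mono (ℓ'.integrable_comp hi') (hρ.integrable (continuous_pos hτ ℓ')) fun z => ?_
    by_cases hz : z ∈ {z | 0 < ℓ (τ z)}
    · simp only [indicator_of_mem hz]
      exact le_max_left _ _
    · simp only [indicator_of_notMem hz, map_zero]
      exact le_max_right _ _
  · rw [← ℓ.integral_comp_comm hi']
    refine integral_congr_ae (Eventually.of_forall fun z => ?_)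
    by_cases hz : z ∈ {z | 0 < ℓ (τ z)}
    · simp only [indicator_of_mem hz]
      exact (max_eq_left (le_of_lt hz)).symm
    · simp only [indicator_of_notMem hz, map_zero]
      exact (max_eq_right (not_lt.1 hz)).symm

lemma zon_add {τ : Y → W} (hτ : Continuous τ) {ρ σ : Measure Y} [IsFiniteMeasure ρ]
    [IsFiniteMeasure σ] (hρ : CS ρ) (hσ : CS σ) : zon τ (ρ + σ) = zon τ ρ + zon τ σ := by
  have hz : ∀ ℓ, zs τ (ρ + σ) ℓ = zs τ ρ ℓ + zs τ σ ℓ := fun ℓ =>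
    integral_add_measure (hρ.integrable (continuous_pos hτ ℓ)) (hσ.integrable (continuous_pos hτ ℓ))
  ext w
  constructor
  · intro hw
    by_contra hn
    have hc : IsCompact (zon τ ρ + zon τ σ) := (isCompact_zon hτ hρ).add (isCompact_zon hτ hσ)
    have hv : Convex ℝ (zon τ ρ + zon τ σ) := (convex_zon τ ρ).add (convex_zon τ σ)
    obtain ⟨ℓ, u, h1, h2⟩ := geometric_hahn_banach_closed_point hv hc.isClosed hn
    obtain ⟨a, ha, ha'⟩ := exists_attain hτ hρ ℓ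
    obtain ⟨b, hb, hb'⟩ := exists_attain hτ hσ ℓ
    have h3 := h1 (a + b) (add_mem_add ha hb)
    have h4 := hw ℓ
    rw [map_add, ha', hb'] at h3
    rw [hz] at h4
    linarith
  · rintro ⟨a, ha, b, hb, rfl⟩ ℓ
    rw [map_add, hz]
    exact add_le_add (ha ℓ) (hb ℓ)

omit [FiniteDimensional ℝ W] in
lemma zon_map {τ : Y → W} (hτ : Continuous τ) (ρ : Measure Y) (e : Y ≃ᵐ Y) (L : W ≃L[ℝ] W)
    (h : ∀ z, τ (e z) = L (τ z)) : zon τ (ρ.map e) = L '' zon τ ρ := by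
  have hz : ∀ ℓ : W →L[ℝ] ℝ, zs τ (ρ.map e) ℓ = zs τ ρ (ℓ.comp (L : W →L[ℝ] W)) := by
    intro ℓ
    unfold zs
    rw [integral_map e.measurable.aemeasurable (continuous_pos hτ ℓ).aestronglyMeasurable]
    simp [h]
  ext w
  constructor
  · intro hw
    refine ⟨L.symm w, fun ℓ => ?_, by simp⟩
    have := hw (ℓ.comp (L.symm : W →L[ℝ] W))
    rw [hz] at this
    have e1 : (ℓ.comp (L.symm : W →L[ℝ] W)).comp (L : W →L[ℝ] W) = ℓ := by
      ext x
      simp
    rw [e1] at this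
    simpa using this
  · rintro ⟨v, hv, rfl⟩ ℓ
    rw [hz]
    simpa using hv (ℓ.comp (L : W →L[ℝ] W))

omit [MetricSpace Y] [BorelSpace Y] [FiniteDimensional ℝ W] in
lemma zon_zero (τ : Y → W) : zon τ (0 : Measure Y) = {0} := by
  ext w
  constructor
  · intro hw
    obtain ⟨g, hg1, hg2⟩ := exists_dual_vector'' ℝ w
    have h1 := hw g
    have h3 : g w = ‖w‖ := by simpa using hg2
    simp only [zs, integral_zero_measure] at h1
    rw [mem_singleton_iff, ← norm_le_zero_iff]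
    linarith
  · rintro rfl
    exact zero_mem_zon τ 0

lemma eq_zero_of_zon {τ : Y → W} (hτ : Continuous τ) {ρ : Measure Y} [IsFiniteMeasure ρ]
    (hρ : CS ρ) (h0 : ∀ᵐ z ∂ρ, τ z ≠ 0) (h : zon τ ρ = {0}) : ρ = 0 := by
  have h1 : ∀ ℓ : W →L[ℝ] ℝ, ∀ᵐ z ∂ρ, ℓ (τ z) ≤ 0 := by
    intro ℓ
    obtain ⟨w, hw, hw'⟩ := exists_attain hτ hρ ℓ
    rw [h, mem_singleton_iff] at hw
    rw [hw, map_zero] at hw'
    have := (integral_eq_zero_iff_of_nonneg (fun z => le_max_right (ℓ (τ z)) 0)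
      (hρ.integrable (continuous_pos hτ ℓ))).1 hw'.symm
    filter_upwards [this] with z hz
    have h2 : max (ℓ (τ z)) 0 = 0 := hz
    exact h2 ▸ le_max_left _ _
  let b := Module.finBasis ℝ W
  have h2 : ∀ i, ∀ᵐ z ∂ρ, b.coord i (τ z) = 0 := by
    intro i
    filter_upwards [h1 (LinearMap.toContinuousLinearMap (b.coord i)),
      h1 (-LinearMap.toContinuousLinearMap (b.coord i))] with z hz1 hz2
    simp only [LinearMap.coe_toContinuousLinearMap', ContinuousLinearMap.neg_apply] at hz1 hz2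
    linarith
  have h3 : ∀ᵐ z ∂ρ, False := by
    filter_upwards [ae_all_iff.2 h2, h0] with z hz1 hz2
    exact hz2 (b.forall_coord_eq_zero_iff.1 hz1)
  rw [← ae_eq_bot]
  exact eventually_false_iff_eq_bot.1 h3

lemma zon_usc {τ : Y → W} (hτ : Continuous τ) (ρ : Measure Y) (ρs : ℕ → Measure Y)
    [∀ j, IsFiniteMeasure (ρs j)] (hρs : ∀ j, CS (ρs j))
    (h : ∀ f : Y → ℝ, Continuous f → (∀ z, 0 ≤ f z) → ∀ ε : ℝ, 0 < ε →
      ∀ᶠ j in atTop, ∫ z, f z ∂(ρs j) ≤ ∫ z, f z ∂ρ + ε)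
    {D : Set W} (hD : (0 : W) ∈ interior D) : ∀ᶠ j in atTop, zon τ (ρs j) ⊆ zon τ ρ + D := by
  haveI := FiniteDimensional.proper_real W
  by_contra hn
  rw [not_eventually] at hn
  have hb := h (fun z => ‖τ z‖) hτ.norm (fun z => norm_nonneg _) 1 one_pos
  obtain ⟨φ, hφ, hφ'⟩ := extraction_of_frequently_atTop (hn.and_eventually hb)
  have hw : ∀ k, ∃ w, w ∈ zon τ (ρs (φ k)) ∧ w ∉ zon τ ρ + D := fun k => not_subset.1 (hφ' k).1
  choose w hw1 hw2 using hw
  have hwb : ∀ k, w k ∈ Metric.closedBall (0 : W) (∫ z, ‖τ z‖ ∂ρ + 1) := by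
    intro k
    rw [mem_closedBall_zero_iff]
    exact (norm_le_of_mem_zon hτ (hρs _) (hw1 k)).trans (hφ' k).2
  obtain ⟨a, -, ψ, hψ, hlim⟩ := tendsto_subseq_of_bounded Metric.isBounded_closedBall hwb
  have ha : a ∈ zon τ ρ := by
    intro ℓ
    refine le_of_forall_pos_le_add fun ε hε => ?_
    have h1 := h _ (continuous_pos hτ ℓ) (fun z => le_max_right _ _) ε hε
    have h2 := (hφ.comp hψ).tendsto_atTop.eventually h1
    refine le_of_tendsto ((ℓ.continuous.tendsto a).comp hlim) ?_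
    filter_upwards [h2] with k hk
    exact (hw1 (ψ k) ℓ).trans hk
  have h3 : Tendsto (fun k => w (ψ k) - a) atTop (𝓝 0) := by
    have := hlim.sub_const a
    rwa [sub_self] at this
  have h4 := h3.eventually (mem_interior_iff_mem_nhds.1 hD)
  obtain ⟨k, hk⟩ := h4.exists
  exact hw2 (ψ k) ⟨a, ha, w (ψ k) - a, hk, by simp⟩

end Pool.Agent.H52Z
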