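import Mathlib
import Pool.Agent.H52Z.GM
import Pool.Agent.H52Z.Zon
import Pool.Agent.H52Z.Cone
import Pool.Agent.H52Z.Body
import Pool.Agent.H52Z.Body2

/-!
# Upper semicontinuous, discontinuous invariant Minkowski valuations
-/

set_option autoImplicit false

open MeasureTheory Set Filter Topology
open scoped ENNReal NNReal Pointwise

namespace Pool.Agent.H52Z

variable {n : ℕ}

/-- The general construction: an equivariant continuous map `τ` on pairs (vector, covector) that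
does not vanish on pairs with pairing one gives an invariant Minkowski valuation that is upper
semicontinuous and not continuous. -/
theorem main_general (hn : 2 ≤ n) {W : Type*} [NormedAddCommGroup W] [NormedSpace ℝ W]
    [FiniteDimensional ℝ W] (τ : (Fin n → ℝ) × (Fin n → ℝ) → W) (hτ : Continuous τ)
    (hτ0 : ∀ z : (Fin n → ℝ) × (Fin n → ℝ), z.2 ⬝ᵥ z.1 = 1 → τ z ≠ 0)
    (act : Matrix.SpecialLinearGroup (Fin n) ℝ → W → W)
    (hact : ∀ T : Matrix.SpecialLinearGroup (Fin n) ℝ, ∃ L : W ≃L[ℝ] W, ∀ w, act T w = L w)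
    (heq : ∀ (T : Matrix.SpecialLinearGroup (Fin n) ℝ) (x ξ : Fin n → ℝ),
      τ ((T : Matrix (Fin n) (Fin n) ℝ).mulVec x,
        ((T⁻¹ : Matrix.SpecialLinearGroup (Fin n) ℝ) : Matrix (Fin n) (Fin n) ℝ).transpose.mulVec ξ)
        = act T (τ (x, ξ))) :
    ∃ Φ : Set (Fin n → ℝ) → Set W,
      (∀ K : Set (Fin n → ℝ), IsCompact K → Convex ℝ K → (0 : Fin n → ℝ) ∈ interior K →
        (Φ K).Nonempty ∧ IsCompact (Φ K) ∧ Convex ℝ (Φ K)) ∧
      (∀ (T : Matrix.SpecialLinearGroup (Fin n) ℝ) (K : Set (Fin n → ℝ)),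
        IsCompact K → Convex ℝ K → (0 : Fin n → ℝ) ∈ interior K →
        act T ''
          Φ (Matrix.mulVec ((T⁻¹ : Matrix.SpecialLinearGroup (Fin n) ℝ) :
              Matrix (Fin n) (Fin n) ℝ) '' K) = Φ K) ∧
      (∀ K L : Set (Fin n → ℝ),
        IsCompact K → Convex ℝ K → (0 : Fin n → ℝ) ∈ interior K →
        IsCompact L → Convex ℝ L → (0 : Fin n → ℝ) ∈ interior L →
        Convex ℝ (K ∪ L) → Φ (K ∪ L) + Φ (K ∩ L) = Φ K + Φ L) ∧
      (∃ K : Set (Fin n → ℝ), IsCompact K ∧ Convex ℝ K ∧ (0 : Fin n → ℝ) ∈ interior K ∧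
        Φ K ≠ {0}) ∧
      (∀ D : Set W, IsCompact D → Convex ℝ D → (0 : W) ∈ interior D →
        ∀ (Ks : ℕ → Set (Fin n → ℝ)) (K : Set (Fin n → ℝ)),
          (∀ j, IsCompact (Ks j) ∧ Convex ℝ (Ks j) ∧ (0 : Fin n → ℝ) ∈ interior (Ks j)) →
          IsCompact K → Convex ℝ K → (0 : Fin n → ℝ) ∈ interior K →
          Filter.Tendsto (fun j => Metric.hausdorffDist (Ks j) K) Filter.atTop (nhds 0) →
          ∃ j0 : ℕ, ∀ j, j0 ≤ j → Φ (Ks j) ⊆ Φ K + D) ∧
      ¬ (∀ (Ks : ℕ → Set (Fin n → ℝ)) (K : Set (Fin n → ℝ)),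
          (∀ j, IsCompact (Ks j) ∧ Convex ℝ (Ks j) ∧ (0 : Fin n → ℝ) ∈ interior (Ks j)) →
          IsCompact K → Convex ℝ K → (0 : Fin n → ℝ) ∈ interior K →
          Filter.Tendsto (fun j => Metric.hausdorffDist (Ks j) K) Filter.atTop (nhds 0) →
          Filter.Tendsto (fun j => Metric.hausdorffDist (Φ (Ks j)) (Φ K))
            Filter.atTop (nhds 0)) := by
  have hn0 : 0 < n := by omega
  have hB : Body (BB n) := body_BB
  have hne : zon τ (rhoK (BB n)) ≠ {0} := by
    intro h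
    have := hB.finite_rho
    refine rho_BB_ne_zero hn0 (eq_zero_of_zon hτ (hB.cs_rho hn0) ?_ h)
    filter_upwards [hB.ae_rho hn0] with z hz
    exact hτ0 z hz.2.2
  refine ⟨fun K => zon τ (rhoK K), ?_, ?_, ?_, ⟨BB n, hB.cpt, hB.cvx, hB.zero, hne⟩, ?_, ?_⟩
  · intro K h1 h2 h3
    have hK : Body K := ⟨h1, h2, h3⟩
    have := hK.finite_rho
    exact ⟨⟨0, zero_mem_zon _ _⟩, isCompact_zon hτ (hK.cs_rho hn0), convex_zon _ _⟩
  · intro T K h1 h2 h3
    have hK : Body K := ⟨h1, h2, h3⟩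
    set S : Matrix (Fin n) (Fin n) ℝ := (T : Matrix (Fin n) (Fin n) ℝ) with hS
    set S' : Matrix (Fin n) (Fin n) ℝ :=
      ((T⁻¹ : Matrix.SpecialLinearGroup (Fin n) ℝ) : Matrix (Fin n) (Fin n) ℝ) with hS'
    have e1 : S * S' = 1 := by
      rw [hS, hS', ← Matrix.SpecialLinearGroup.coe_mul, mul_inv_cancel,
        Matrix.SpecialLinearGroup.coe_one]
    have e2 : S'.transpose * S.transpose = 1 := by
      rw [← Matrix.transpose_mul, e1, Matrix.transpose_one]
    have e3 : S.transpose * S'.transpose = 1 := mul_eq_one_comm.1 e2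
    have hK' : Body (S'.mulVec '' K) := hK.image e3
    have e4 : S.mulVec '' (S'.mulVec '' K) = K := by
      rw [image_image]
      simp only [Matrix.mulVec_mulVec, e1, Matrix.one_mulVec, image_id']
    obtain ⟨L, hL⟩ := hact T
    have e5 := rho_image hK' (S := S) (R := S'.transpose) T.det_coe e2
    rw [e4] at e5
    show act T '' zon τ (rhoK (S'.mulVec '' K)) = zon τ (rhoK K)
    rw [e5, zon_map hτ _ _ L (fun z => by rw [← hL]; exact heq T z.1 z.2)]
    congr 1
    funext w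
    exact hL w
  · intro K L h1 h2 h3 h4 h5 h6 h7
    have hK : Body K := ⟨h1, h2, h3⟩
    have hL : Body L := ⟨h4, h5, h6⟩
    have hU := hK.union hL h7
    have hI := hK.inter hL
    have := hK.finite_rho
    have := hL.finite_rho
    have := hU.finite_rho
    have := hI.finite_rho
    show zon τ (rhoK (K ∪ L)) + zon τ (rhoK (K ∩ L)) = zon τ (rhoK K) + zon τ (rhoK L)
    rw [← zon_add hτ (hU.cs_rho hn0) (hI.cs_rho hn0), ← zon_add hτ (hK.cs_rho hn0) (hL.cs_rho hn0),
      rho_val hK hL hn0 h7]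
  · intro D _ _ hD Ks K hKs h1 h2 h3 h
    have hK : Body K := ⟨h1, h2, h3⟩
    have hKs' : ∀ j, Body (Ks j) := fun j => ⟨(hKs j).1, (hKs j).2.1, (hKs j).2.2⟩
    have := fun j => (hKs' j).finite_rho
    have := zon_usc hτ (rhoK K) (fun j => rhoK (Ks j)) (fun j => (hKs' j).cs_rho hn0)
      (rho_usc hK hKs' hn0 h) hD
    exact eventually_atTop.1 this
  · intro h
    have hP : ∀ j : ℕ, ∃ A : Set (Fin n → ℝ), A.Finite ∧ Body (convexHull ℝ A) ∧
        Metric.hausdorffDist (convexHull ℝ A) (BB n) ≤ 1 / ((j : ℝ) + 1) := fun j =>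
      exists_polytope hB Nat.one_div_pos_of_nat
    choose A hA1 hA2 hA3 using hP
    have h1 := h (fun j => convexHull ℝ (A j)) (BB n)
      (fun j => ⟨(hA2 j).cpt, (hA2 j).cvx, (hA2 j).zero⟩) hB.cpt hB.cvx hB.zero
      (squeeze_zero (fun j => Metric.hausdorffDist_nonneg) hA3
        tendsto_one_div_add_atTop_nhds_zero_nat)
    simp only [rho_polytope hn (hA1 _) (hA2 _), zon_zero] at h1
    have h2 := tendsto_nhds_unique h1 tendsto_const_nhds
    have := hB.finite_rho
    have hc := isCompact_zon hτ (hB.cs_rho hn0)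
    have h3 := (IsClosed.hausdorffDist_zero_iff_eq isClosed_singleton hc.isClosed
      (Metric.hausdorffEDist_ne_top_of_nonempty_of_bounded (singleton_nonempty (0 : W))
        ⟨0, zero_mem_zon _ _⟩ Bornology.isBounded_singleton hc.isBounded)).1 h2.symm
    exact hne h3.symm

end Pool.Agent.H52Z
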