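import Mathlib
import Pool.Agent.H52Z.Main

/-!
# The adjoint representation on traceless matrices
-/

set_option autoImplicit false

open Set Filter Topology Matrix
open scoped Pointwise

namespace Pool.Agent.H52Z

/-- Traceless matrices. -/
def W0 (n : ℕ) : Submodule ℝ (Matrix (Fin n) (Fin n) ℝ) :=
  LinearMap.ker (Matrix.traceLinearMap (Fin n) ℝ ℝ)

lemma mem_W0 {n : ℕ} {A : Matrix (Fin n) (Fin n) ℝ} : A ∈ W0 n ↔ A.trace = 0 := Iff.rfl

lemma sl_mul_inv {n : ℕ} (T : Matrix.SpecialLinearGroup (Fin n) ℝ) :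
    (T : Matrix (Fin n) (Fin n) ℝ) * ((T⁻¹ : Matrix.SpecialLinearGroup (Fin n) ℝ) : Matrix _ _ ℝ) = 1 := by
  rw [← Matrix.SpecialLinearGroup.coe_mul, mul_inv_cancel, Matrix.SpecialLinearGroup.coe_one]

lemma sl_inv_mul {n : ℕ} (T : Matrix.SpecialLinearGroup (Fin n) ℝ) :
    ((T⁻¹ : Matrix.SpecialLinearGroup (Fin n) ℝ) : Matrix _ _ ℝ) * (T : Matrix (Fin n) (Fin n) ℝ) = 1 := by
  rw [← Matrix.SpecialLinearGroup.coe_mul, inv_mul_cancel, Matrix.SpecialLinearGroup.coe_one]

lemma conj_mem_W0 {n : ℕ} (T : Matrix.SpecialLinearGroup (Fin n) ℝ) {A : Matrix (Fin n) (Fin n) ℝ}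
    (hA : A ∈ W0 n) : (T : Matrix (Fin n) (Fin n) ℝ) * A *
      ((T⁻¹ : Matrix.SpecialLinearGroup (Fin n) ℝ) : Matrix _ _ ℝ) ∈ W0 n := by
  rw [mem_W0] at hA ⊢
  rw [trace_mul_cycle, sl_inv_mul, one_mul, hA]

/-- Conjugation on traceless matrices. -/
noncomputable def ad {n : ℕ} (T : Matrix.SpecialLinearGroup (Fin n) ℝ) : W0 n →ₗ[ℝ] W0 n where
  toFun A := ⟨(T : Matrix (Fin n) (Fin n) ℝ) * A.1 *
      ((T⁻¹ : Matrix.SpecialLinearGroup (Fin n) ℝ) : Matrix _ _ ℝ), conj_mem_W0 T A.2⟩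
  map_add' A B := by
    apply Subtype.ext
    simp only [Submodule.coe_add, Matrix.mul_add, Matrix.add_mul]
  map_smul' c A := by
    apply Subtype.ext
    simp only [Submodule.coe_smul, Matrix.mul_smul, Matrix.smul_mul, RingHom.id_apply]

lemma ad_val {n : ℕ} (T : Matrix.SpecialLinearGroup (Fin n) ℝ) (A : W0 n) :
    (ad T A).1 = (T : Matrix (Fin n) (Fin n) ℝ) * A.1 *
      ((T⁻¹ : Matrix.SpecialLinearGroup (Fin n) ℝ) : Matrix _ _ ℝ) := rfl

/-- Conjugation as a monoid homomorphism. -/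
noncomputable def adHom (n : ℕ) : Matrix.SpecialLinearGroup (Fin n) ℝ →* Module.End ℝ (W0 n) where
  toFun := ad
  map_one' := by
    ext1 A
    apply Subtype.ext
    rw [ad_val]
    simp
  map_mul' S T := by
    ext1 A
    apply Subtype.ext
    rw [Module.End.mul_apply, ad_val, ad_val, ad_val, _root_.mul_inv_rev, Matrix.SpecialLinearGroup.coe_mul,
      Matrix.SpecialLinearGroup.coe_mul]
    simp only [Matrix.mul_assoc]

/-- The traceless part of `x ξᵀ`. -/
noncomputable def tau {n : ℕ} (z : (Fin n → ℝ) × (Fin n → ℝ)) : Matrix (Fin n) (Fin n) ℝ :=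
  vecMulVec z.1 z.2 - ((z.2 ⬝ᵥ z.1) / n) • (1 : Matrix (Fin n) (Fin n) ℝ)

lemma tau_mem {n : ℕ} (hn : 0 < n) (z : (Fin n → ℝ) × (Fin n → ℝ)) : tau z ∈ W0 n := by
  rw [mem_W0, tau, trace_sub, trace_smul, trace_one, trace_vecMulVec, dotProduct_comm,
    Fintype.card_fin, smul_eq_mul]
  have : (n : ℝ) ≠ 0 := by positivity
  field_simp
  ring

lemma continuous_tau {n : ℕ} : Continuous (tau (n := n)) := by
  unfold tau
  have h : Continuous fun z : (Fin n → ℝ) × (Fin n → ℝ) => (z.2 ⬝ᵥ z.1) / (n : ℝ) := by fun_prop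
  refine Continuous.sub ?_ (h.smul continuous_const)
  exact continuous_fst.matrix_vecMulVec continuous_snd

lemma tau_ne_zero {n : ℕ} (hn : 2 ≤ n) {z : (Fin n → ℝ) × (Fin n → ℝ)} (hz : z.2 ⬝ᵥ z.1 = 1) :
    tau z ≠ 0 := by
  intro h
  rw [tau, sub_eq_zero, hz] at h
  let i : Fin n := ⟨0, by omega⟩
  let j : Fin n := ⟨1, by omega⟩
  have hij : i ≠ j := by simp [i, j]
  have h1 := congrFun (congrFun h i) i
  have h2 := congrFun (congrFun h j) j
  have h3 := congrFun (congrFun h i) j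
  simp only [vecMulVec_apply, Matrix.smul_apply, one_apply_eq, smul_eq_mul, mul_one,
    one_apply_ne hij, mul_zero] at h1 h2 h3
  have hn' : (1 : ℝ) / n ≠ 0 := by
    have : (0 : ℝ) < n := by exact_mod_cast (show 0 < n by omega)
    positivity
  rcases mul_eq_zero.1 h3 with h4 | h4
  · rw [h4, zero_mul] at h1
    exact hn' h1.symm
  · rw [h4, mul_zero] at h2
    exact hn' h2.symm

lemma tau_equiv {n : ℕ} (T : Matrix.SpecialLinearGroup (Fin n) ℝ) (x ξ : Fin n → ℝ) :
    tau ((T : Matrix (Fin n) (Fin n) ℝ).mulVec x,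
      ((T⁻¹ : Matrix.SpecialLinearGroup (Fin n) ℝ) : Matrix (Fin n) (Fin n) ℝ).transpose.mulVec ξ) =
    (T : Matrix (Fin n) (Fin n) ℝ) * tau (x, ξ) *
      ((T⁻¹ : Matrix.SpecialLinearGroup (Fin n) ℝ) : Matrix _ _ ℝ) := by
  unfold tau
  simp only
  rw [Matrix.mul_sub, Matrix.sub_mul, Matrix.mul_smul, Matrix.smul_mul, Matrix.mul_one, sl_mul_inv,
    mul_vecMulVec, vecMulVec_mul, mulVec_transpose, ← dotProduct_mulVec, mulVec_mulVec, sl_inv_mul,
    one_mulVec]

lemma finrank_W0 : Module.finrank ℝ (W0 3) = 8 := by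
  have h := LinearMap.finrank_range_add_finrank_ker (Matrix.traceLinearMap (Fin 3) ℝ ℝ)
  have h1 : LinearMap.range (Matrix.traceLinearMap (Fin 3) ℝ ℝ) = ⊤ := by
    rw [LinearMap.range_eq_top]
    intro c
    exact ⟨single 0 0 c, by simp⟩
  rw [h1, finrank_top, Module.finrank_self, Module.finrank_matrix] at h
  simp only [Fintype.card_fin, Module.finrank_self] at h
  unfold W0
  omega

lemma finrank_hom (p : ℕ) :
    Module.finrank ℝ (MvPolynomial.homogeneousSubmodule (Fin 3) ℝ p) = (p + 2).choose 2 := by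
  classical
  have e1 : MvPolynomial.homogeneousSubmodule (Fin 3) ℝ p =
      MvPolynomial.restrictSupport ℝ
        (↑((Finset.univ : Finset (Fin 3)).finsuppAntidiag p) : Set (Fin 3 →₀ ℕ)) := by
    rw [MvPolynomial.homogeneousSubmodule_eq_finsupp_supported]
    unfold MvPolynomial.restrictSupport
    congr 1
    ext d
    simp [Finsupp.degree_eq_sum]
  rw [e1, Module.finrank_eq_card_basis (MvPolynomial.basisRestrictSupport ℝ _)]
  simp only [Finset.coe_sort_coe, Fintype.card_coe, Finset.card_finsuppAntidiag_nat_eq_choose,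
    Finset.card_univ, Fintype.card_fin]
  rw [show 3 + p - 1 = p + 2 by omega, Nat.choose_symm_add]

lemma choose_ne_eight (p : ℕ) : (p + 2).choose 2 ≠ 8 := by
  rcases Nat.lt_or_ge p 3 with h | h
  · interval_cases p <;> decide
  · have : (3 + 2).choose 2 ≤ (p + 2).choose 2 := Nat.choose_le_choose 2 (by omega)
    have h2 : (3 + 2).choose 2 = 10 := by decide
    omega

lemma irred (U : Submodule ℝ (Matrix (Fin 3) (Fin 3) ℝ)) (htr : ∀ A ∈ U, A.trace = 0)
    (hinv : ∀ S S' : Matrix (Fin 3) (Fin 3) ℝ, S.det = 1 → S * S' = 1 → ∀ A ∈ U, S * A * S' ∈ U)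
    {A : Matrix (Fin 3) (Fin 3) ℝ} (hA : A ∈ U) (hA0 : A ≠ 0) (B : Matrix (Fin 3) (Fin 3) ℝ)
    (hB : B.trace = 0) : B ∈ U := by
  have key : ∀ i j : Fin 3, i ≠ j → ∀ C ∈ U,
      single i j (1 : ℝ) * C - C * single i j (1 : ℝ) ∈ U ∧
        single i j (1 : ℝ) * C * single i j (1 : ℝ) ∈ U := by
    intro i j hij C hC
    have h1 := hinv (transvection i j 1) (transvection i j (-1)) (det_transvection_of_ne i j hij 1)
      (by rw [transvection_mul_transvection_same i j hij]; simp) C hC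
    have h2 := hinv (transvection i j (-1)) (transvection i j 1)
      (det_transvection_of_ne i j hij (-1))
      (by rw [transvection_mul_transvection_same i j hij]; simp) C hC
    unfold transvection at h1 h2
    rw [← single_neg] at h1 h2
    set E : Matrix (Fin 3) (Fin 3) ℝ := single i j (1 : ℝ)
    constructor
    · have : E * C - C * E = (1 / 2 : ℝ) • ((1 + E) * C * (1 + -E) - (1 + -E) * C * (1 + E)) := by
        have e : (1 + E) * C * (1 + -E) - (1 + -E) * C * (1 + E) =
            (E * C - C * E) + (E * C - C * E) := by noncomm_ring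
        rw [e, ← two_smul ℝ, smul_smul]
        norm_num
      rw [this]
      exact U.smul_mem _ (U.sub_mem h1 h2)
    · have : E * C * E = (1 / 2 : ℝ) • (C + C -
          ((1 + E) * C * (1 + -E) + (1 + -E) * C * (1 + E))) := by
        have e : C + C - ((1 + E) * C * (1 + -E) + (1 + -E) * C * (1 + E)) =
            E * C * E + E * C * E := by noncomm_ring
        rw [e, ← two_smul ℝ, smul_smul]
        norm_num
      rw [this]
      exact U.smul_mem _ (U.sub_mem (U.add_mem hC hC) (U.add_mem h1 h2))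
  have resc : ∀ (i j : Fin 3) (c : ℝ), c ≠ 0 → single i j c ∈ U → single i j (1 : ℝ) ∈ U := by
    intro i j c hc h
    have := U.smul_mem c⁻¹ h
    rwa [smul_single, smul_eq_mul, inv_mul_cancel₀ hc] at this
  have diag : ∀ (i j : Fin 3), i ≠ j → ∀ d : Fin 3 → ℝ, diagonal d ∈ U → d i ≠ d j →
      single i j (1 : ℝ) ∈ U := by
    intro i j hij d hd hne
    have h1 := (key i j hij _ hd).1
    have e : single i j (1 : ℝ) * diagonal d - diagonal d * single i j (1 : ℝ) =
        single i j (d j - d i) := by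
      ext a b
      simp only [Matrix.sub_apply, mul_diagonal, diagonal_mul, single_apply]
      split_ifs with h
      · rw [← h.1, ← h.2]; ring
      · ring
    rw [e] at h1
    exact resc i j _ (sub_ne_zero.2 hne.symm) h1
  have step1 : ∃ i j : Fin 3, i ≠ j ∧ single i j (1 : ℝ) ∈ U := by
    by_cases h : ∃ i j : Fin 3, i ≠ j ∧ A j i ≠ 0
    · obtain ⟨i, j, hij, hne⟩ := h
      have h1 := (key i j hij A hA).2
      rw [single_mul_mul_single] at h1
      exact ⟨i, j, hij, resc i j _ (by simpa using hne) h1⟩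
    · push Not at h
      have e : A = diagonal fun i => A i i := by
        ext a b
        by_cases hab : a = b
        · subst hab; simp
        · rw [diagonal_apply_ne _ hab]
          exact h b a (Ne.symm hab)
      by_cases h' : ∃ i j : Fin 3, i ≠ j ∧ A i i ≠ A j j
      · obtain ⟨i, j, hij, hne⟩ := h'
        exact ⟨i, j, hij, diag i j hij (fun i => A i i) (e ▸ hA) hne⟩
      · push Not at h'
        exfalso
        apply hA0
        have t := htr A hA
        rw [trace_fin_three] at t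
        have a1 := h' 0 1 (by decide)
        have a2 := h' 0 2 (by decide)
        have z0 : A 0 0 = 0 := by linarith
        have z1 : A 1 1 = 0 := by linarith
        have z2 : A 2 2 = 0 := by linarith
        rw [e]
        ext a b
        fin_cases a <;> fin_cases b <;> simp [z0, z1, z2]
  have dd : ∀ i j : Fin 3, i ≠ j → single i j (1 : ℝ) ∈ U →
      single j j (1 : ℝ) - single i i (1 : ℝ) ∈ U := by
    intro i j hij h
    have h1 := (key j i hij.symm _ h).1
    rwa [single_mul_single_same, single_mul_single_same, mul_one] at h1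
  have step2 : ∀ k l : Fin 3, k ≠ l → single k l (1 : ℝ) ∈ U := by
    obtain ⟨i, j, hij, h⟩ := step1
    have h1 := dd i j hij h
    rw [← diagonal_single, ← diagonal_single, diagonal_sub] at h1
    intro k l hkl
    refine diag k l hkl _ h1 ?_
    fin_cases i <;> fin_cases j <;> fin_cases k <;> fin_cases l <;>
      first | (exact absurd rfl hij) | (exact absurd rfl hkl) | norm_num [Pi.single_apply, Fin.ext_iff]
  rw [trace_fin_three] at hB
  have e : B = B 0 1 • single 0 1 (1 : ℝ) + B 0 2 • single 0 2 (1 : ℝ) + B 1 0 • single 1 0 (1 : ℝ)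
      + B 1 2 • single 1 2 (1 : ℝ) + B 2 0 • single 2 0 (1 : ℝ) + B 2 1 • single 2 1 (1 : ℝ)
      + B 1 1 • (single 1 1 (1 : ℝ) - single 0 0 (1 : ℝ))
      + B 2 2 • (single 2 2 (1 : ℝ) - single 0 0 (1 : ℝ)) := by
    ext a b
    fin_cases a <;> fin_cases b <;> simp
    linarith
  rw [e]
  refine U.add_mem (U.add_mem (U.add_mem (U.add_mem (U.add_mem (U.add_mem (U.add_mem
    (U.smul_mem _ ?_) (U.smul_mem _ ?_)) (U.smul_mem _ ?_)) (U.smul_mem _ ?_)) (U.smul_mem _ ?_))
    (U.smul_mem _ ?_)) (U.smul_mem _ ?_)) (U.smul_mem _ ?_)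
  · exact step2 _ _ (by decide)
  · exact step2 _ _ (by decide)
  · exact step2 _ _ (by decide)
  · exact step2 _ _ (by decide)
  · exact step2 _ _ (by decide)
  · exact step2 _ _ (by decide)
  · exact dd 0 1 (by decide) (step2 _ _ (by decide))
  · exact dd 0 2 (by decide) (step2 _ _ (by decide))

/-- A basis of the traceless `3 × 3` matrices. -/
noncomputable def b8 : Module.Basis (Fin 8) ℝ (W0 3) := Module.finBasisOfFinrankEq ℝ (W0 3) finrank_W0

/-- The adjoint representation of `SL(3, ℝ)` in coordinates. -/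
noncomputable def rho8 : Matrix.SpecialLinearGroup (Fin 3) ℝ →* Matrix.GeneralLinearGroup (Fin 8) ℝ :=
  ((LinearMap.toMatrixAlgEquiv b8).toMulEquiv.toMonoidHom.comp (adHom 3)).toHomUnits

lemma rho8_val (T : Matrix.SpecialLinearGroup (Fin 3) ℝ) :
    (rho8 T).val = LinearMap.toMatrix b8 b8 (ad T) := rfl

lemma rho8_mulVec (T : Matrix.SpecialLinearGroup (Fin 3) ℝ) (A : W0 3) :
    (rho8 T).val.mulVec (b8.equivFun A) = b8.equivFun (ad T A) := by
  rw [rho8_val]
  exact LinearMap.toMatrix_mulVec_repr b8 b8 (ad T) A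

lemma continuous_rho8 : Continuous (fun A : {A : Matrix (Fin 3) (Fin 3) ℝ // A.det = 1} =>
    (rho8 (⟨A.1, A.2⟩ : Matrix.SpecialLinearGroup (Fin 3) ℝ)).val) := by
  refine continuous_matrix fun i j => ?_
  have h1 : Continuous (b8.coord i) := LinearMap.continuous_of_finiteDimensional _
  have h2 : Continuous (fun A : {A : Matrix (Fin 3) (Fin 3) ℝ // A.det = 1} =>
      ad (⟨A.1, A.2⟩ : Matrix.SpecialLinearGroup (Fin 3) ℝ) (b8 j)) := by
    refine Continuous.subtype_mk (f := fun A : {A : Matrix (Fin 3) (Fin 3) ℝ // A.det = 1} =>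
      A.1 * (b8 j).1 * adjugate A.1) ?_ _
    exact (continuous_subtype_val.matrix_mul continuous_const).matrix_mul
      continuous_subtype_val.matrix_adjugate
  refine (h1.comp h2).congr fun A => ?_
  exact (LinearMap.toMatrix_apply b8 b8 _ i j).symm

lemma irred_rho8 (U : Submodule ℝ (Fin 8 → ℝ))
    (hU : ∀ T : Matrix.SpecialLinearGroup (Fin 3) ℝ, ∀ w ∈ U, Matrix.mulVec (rho8 T).val w ∈ U) :
    U = ⊥ ∨ U = ⊤ := by
  by_cases h0 : U = ⊥
  · exact Or.inl h0
  right
  obtain ⟨w, hw, hw0⟩ := Submodule.exists_mem_ne_zero_of_ne_bot h0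
  let U' : Submodule ℝ (Matrix (Fin 3) (Fin 3) ℝ) :=
    (U.comap (b8.equivFun : W0 3 →ₗ[ℝ] (Fin 8 → ℝ))).map (W0 3).subtype
  have htr : ∀ A ∈ U', A.trace = 0 := by
    rintro _ ⟨A, -, rfl⟩
    exact A.2
  have hinv : ∀ S S' : Matrix (Fin 3) (Fin 3) ℝ, S.det = 1 → S * S' = 1 → ∀ A ∈ U',
      S * A * S' ∈ U' := by
    rintro S S' hS hSS' _ ⟨A, hA, rfl⟩
    let T : Matrix.SpecialLinearGroup (Fin 3) ℝ := ⟨S, hS⟩
    have e : ((T⁻¹ : Matrix.SpecialLinearGroup (Fin 3) ℝ) : Matrix (Fin 3) (Fin 3) ℝ) = S' := by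
      have h1 := sl_inv_mul T
      calc _ = ((T⁻¹ : Matrix.SpecialLinearGroup (Fin 3) ℝ) : Matrix (Fin 3) (Fin 3) ℝ) * (S * S') := by
            rw [hSS', mul_one]
        _ = S' := by
            rw [← mul_assoc]
            change _ * (T : Matrix (Fin 3) (Fin 3) ℝ) * S' = S'
            rw [h1, one_mul]
    refine ⟨ad T A, ?_, ?_⟩
    · have := hU T _ hA
      change (rho8 T).val.mulVec (b8.equivFun A) ∈ U at this
      rw [rho8_mulVec] at this
      exact this
    · change (ad T A).1 = _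
      rw [ad_val, e]
      rfl
  have hA : (b8.equivFun.symm w).1 ∈ U' := by
    refine ⟨b8.equivFun.symm w, ?_, rfl⟩
    change b8.equivFun (b8.equivFun.symm w) ∈ U
    rwa [LinearEquiv.apply_symm_apply]
  have hA0 : (b8.equivFun.symm w).1 ≠ 0 := by
    intro h
    apply hw0
    have : b8.equivFun.symm w = 0 := Subtype.ext h
    have h2 := congrArg b8.equivFun this
    rwa [LinearEquiv.apply_symm_apply, map_zero] at h2
  rw [eq_top_iff]
  intro v _
  obtain ⟨B, hB, hB'⟩ := irred U' htr hinv hA hA0 (b8.equivFun.symm v).1 (b8.equivFun.symm v).2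
  have : B = b8.equivFun.symm v := Subtype.ext hB'
  rw [this] at hB
  change b8.equivFun (b8.equivFun.symm v) ∈ U at hB
  rwa [LinearEquiv.apply_symm_apply] at hB

end Pool.Agent.H52Z
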