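import Mathlib
import Pool.Agent.H52Z.Rep

/-!
# The valuation with values in the adjoint representation of `SL(3, ℝ)`, in coordinates
-/

set_option autoImplicit false

open Set Filter Topology
open scoped Pointwise

namespace Pool.Agent.H52Z

/-- The traceless part of `x ξᵀ` in coordinates. -/
noncomputable def tau8 (z : (Fin 3 → ℝ) × (Fin 3 → ℝ)) : Fin 8 → ℝ :=
  b8.equivFun ⟨tau z, tau_mem (by norm_num) z⟩

lemma continuous_tau8 : Continuous tau8 := by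
  have h1 : Continuous (b8.equivFun : W0 3 →ₗ[ℝ] (Fin 8 → ℝ)) :=
    LinearMap.continuous_of_finiteDimensional _
  exact h1.comp (continuous_tau.subtype_mk _)

lemma tau8_ne_zero (z : (Fin 3 → ℝ) × (Fin 3 → ℝ)) (hz : z.2 ⬝ᵥ z.1 = 1) : tau8 z ≠ 0 := by
  intro h
  have h1 := (LinearEquiv.map_eq_zero_iff b8.equivFun).1 h
  exact tau_ne_zero (by norm_num) hz (congrArg Subtype.val h1)

lemma act8 (T : Matrix.SpecialLinearGroup (Fin 3) ℝ) :
    ∃ L : (Fin 8 → ℝ) ≃L[ℝ] (Fin 8 → ℝ), ∀ w, Matrix.mulVec (rho8 T).val w = L w :=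
  ⟨(Matrix.toLin'OfInv (rho8 T).val_inv (rho8 T).inv_val).symm.toContinuousLinearEquiv,
    fun _ => rfl⟩

lemma tau8_equiv (T : Matrix.SpecialLinearGroup (Fin 3) ℝ) (x ξ : Fin 3 → ℝ) :
    tau8 ((T : Matrix (Fin 3) (Fin 3) ℝ).mulVec x,
      ((T⁻¹ : Matrix.SpecialLinearGroup (Fin 3) ℝ) : Matrix (Fin 3) (Fin 3) ℝ).transpose.mulVec ξ)
      = Matrix.mulVec (rho8 T).val (tau8 (x, ξ)) := by
  unfold tau8
  rw [rho8_mulVec]
  congr 1
  exact Subtype.ext (tau_equiv T x ξ)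

lemma no_equiv (p : ℕ) (e : (Fin 8 → ℝ) ≃ₗ[ℝ] MvPolynomial.homogeneousSubmodule (Fin 3) ℝ p) :
    False := by
  have h := e.finrank_eq
  rw [finrank_hom, Module.finrank_fin_fun] at h
  exact choose_ne_eight p h.symm

end Pool.Agent.H52Z
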