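import Mathlib

/-!
# Sign sequences with small correlations at all lags
-/

set_option autoImplicit false

open Finset

namespace Pool.Agent.H52Z.IP

/-- order-connected finite sets of naturals -/
def OC (s : Finset ℕ) : Prop := ∀ x ∈ s, ∀ z ∈ s, ∀ y, x ≤ y → y ≤ z → y ∈ s

lemma OC.eq_Ico {s : Finset ℕ} (h : OC s) (hs : s.Nonempty) :
    s = Ico (s.min' hs) (s.max' hs + 1) := by
  ext y
  rw [mem_Ico]
  constructor
  · intro hy
    exact ⟨min'_le _ _ hy, Nat.lt_succ_of_le (le_max' _ _ hy)⟩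
  · rintro ⟨h1, h2⟩
    exact h _ (min'_mem _ hs) _ (max'_mem _ hs) y h1 (Nat.le_of_lt_succ h2)

lemma shift_sum (φ : ℕ → ℝ) (hφ : ∀ u, |φ u| ≤ 1) (a b i : ℕ) (hab : a ≤ b) :
    |∑ u ∈ Ico a b, φ u - ∑ u ∈ Ico a b, φ (u + i)| ≤ 2 * i := by
  induction i with
  | zero => simp
  | succ i ih =>
    have h1 : ∑ u ∈ Ico a b, φ (u + i) - ∑ u ∈ Ico a b, φ (u + (i + 1)) =
        φ (a + i) - φ (b + i) := by
      rw [← sum_sub_distrib]
      clear ih
      induction b, hab using Nat.le_induction with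
      | base => simp
      | succ b hab ih2 =>
        rw [sum_Ico_succ_top hab, ih2, show b + (i + 1) = b + 1 + i by ring]
        ring
    have h2 := abs_le.1 (hφ (a + i))
    have h3 := abs_le.1 (hφ (b + i))
    have h4 := abs_le.1 ih
    push_cast
    rw [abs_le]
    constructor <;> linarith [h2.1, h2.2, h3.1, h3.2, h4.1, h4.2]

lemma exists_seq {η : ℝ} (hη : 0 < η) : ∃ (N : ℕ) (θ : ℕ → ℝ), 2 ≤ N ∧
    (∀ u, θ u = 1 ∨ θ u = -1) ∧ ∀ (v : ℕ) (s : Finset ℕ), 1 ≤ v → OC s → (∀ u ∈ s, u + v < 2 * N) →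
      |∑ u ∈ s, θ (u + v) * θ u| ≤ η * N := by
  classical
  obtain ⟨n, hn⟩ := exists_nat_gt (32 / η ^ 2)
  have hn0 : (0 : ℝ) < n := lt_trans (by positivity) hn
  obtain ⟨e, he⟩ := pow_unbounded_of_one_lt (max (4 * n / η) (max n 2) : ℝ) (one_lt_two (α := ℝ))
  have he1 : 4 * n / η < 2 ^ e := lt_of_le_of_lt (le_max_left _ _) he
  have he2 : n < 2 ^ e := by
    have : (n : ℝ) < 2 ^ e := lt_of_le_of_lt ((le_max_left _ _).trans (le_max_right _ _)) he
    exact_mod_cast this
  have he3 : 2 < 2 ^ e := by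
    have : (2 : ℝ) < 2 ^ e := lt_of_le_of_lt ((le_max_right _ _).trans (le_max_right _ _)) he
    exact_mod_cast this
  let F := GaloisField 2 (e + 2)
  let : Fintype F := Fintype.ofFinite F
  have hcard : Fintype.card F = 4 * 2 ^ e := by
    rw [← Nat.card_eq_fintype_card, GaloisField.card 2 (e + 2) (by omega)]
    ring
  obtain ⟨g, hg⟩ := IsCyclic.exists_generator (α := Fˣ)
  have hord : orderOf g = 4 * 2 ^ e - 1 := by
    rw [orderOf_eq_card_of_forall_mem_zpowers hg, Nat.card_eq_fintype_card, Fintype.card_units,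
      hcard]
  have hinj : ∀ i j : ℕ, i < 2 * 2 ^ e → j < 2 * 2 ^ e → (g : F) ^ i = (g : F) ^ j → i = j := by
    intro i j hi hj h
    have h1 : g ^ i = g ^ j := Units.ext (by simpa using h)
    exact pow_injOn_Iio_orderOf (by rw [hord, Set.mem_Iio]; omega)
      (by rw [hord, Set.mem_Iio]; omega) h1
  let ψ := AddChar.FiniteField.primitiveChar_to_Complex F
  have hψ : ψ.IsPrimitive := AddChar.FiniteField.primitiveChar_to_Complex_isPrimitive F
  have hsq : ∀ x, ψ x = 1 ∨ ψ x = -1 := by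
    intro x
    have : ψ x * ψ x = 1 := by
      rw [← AddChar.map_add_eq_mul, CharTwo.add_self_eq_zero, AddChar.map_zero_eq_one]
    exact mul_self_eq_one_iff.1 this
  let χ : F → ℝ := fun x => (ψ x).re
  have hχ : ∀ x, ((χ x : ℝ) : ℂ) = ψ x := by
    intro x
    rcases hsq x with h | h <;> simp [χ, h]
  have hχ1 : ∀ x, χ x = 1 ∨ χ x = -1 := by
    intro x
    rcases hsq x with h | h <;> simp [χ, h]
  have hχabs : ∀ x, |χ x| ≤ 1 := by
    intro x
    rcases hχ1 x with h | h <;> simp [h]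
  have hχadd : ∀ x y, χ (x + y) = χ x * χ y := by
    intro x y
    apply Complex.ofReal_injective
    rw [Complex.ofReal_mul, hχ, hχ, hχ, AddChar.map_add_eq_mul]
  have hχsum : ∀ b : F, ∑ x : F, χ (x * b) = if b = 0 then (4 * 2 ^ e : ℝ) else 0 := by
    intro b
    apply Complex.ofReal_injective
    rw [Complex.ofReal_sum]
    simp_rw [hχ]
    rw [AddChar.sum_mulShift b hψ, hcard]
    split_ifs <;> simp
  have hL2 : ∑ x : F, (∑ i ∈ range n, χ (x * (g : F) ^ i)) ^ 2 = 4 * 2 ^ e * n := by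
    simp_rw [sq, sum_mul_sum, ← hχadd, ← mul_add]
    rw [sum_comm]
    have : ∀ i ∈ range n, ∑ x : F, ∑ j ∈ range n, χ (x * ((g : F) ^ i + (g : F) ^ j)) =
        4 * 2 ^ e := by
      intro i hi
      rw [sum_comm, sum_eq_single i]
      · rw [hχsum, if_pos (CharTwo.add_self_eq_zero _)]
      · intro j hj hji
        rw [hχsum, if_neg]
        intro h
        rw [CharTwo.add_eq_zero] at h
        rw [mem_range] at hi hj
        exact hji (hinj i j (by omega) (by omega) h).symm
      · intro h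
        exact absurd hi h
    rw [sum_congr rfl this, sum_const, card_range, nsmul_eq_mul]
    ring
  refine ⟨2 ^ e, fun u => χ ((g : F) ^ u), he3.le, fun u => hχ1 _, fun v s hv hs hsv => ?_⟩
  rcases s.eq_empty_or_nonempty with rfl | hne
  · simp only [sum_empty, abs_zero]
    positivity
  have hv2 : v < 2 * 2 ^ e := by
    obtain ⟨u, hu⟩ := hne
    have := hsv u hu
    omega
  set c : F := (g : F) ^ v + 1 with hc
  have hc0 : c ≠ 0 := by
    intro h
    rw [hc, CharTwo.add_eq_zero, ← pow_zero (g : F)] at h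
    have := hinj v 0 hv2 (by omega) h
    omega
  have e1 : ∀ u, χ ((g : F) ^ (u + v)) * χ ((g : F) ^ u) = χ (c * (g : F) ^ u) := by
    intro u
    rw [← hχadd, hc]
    congr 1
    ring
  simp only [e1]
  set S := ∑ u ∈ s, χ (c * (g : F) ^ u) with hS
  have h1 : ∀ i ∈ range n, |S - ∑ u ∈ s, χ (c * (g : F) ^ u * (g : F) ^ i)| ≤ 2 * n := by
    intro i hi
    have := shift_sum (fun u => χ (c * (g : F) ^ u)) (fun u => hχabs _) (s.min' hne)
      (s.max' hne + 1) i ((min'_le_max' _ _).trans (Nat.le_succ _))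
    rw [← hs.eq_Ico hne] at this
    simp only [pow_add, ← mul_assoc] at this
    have h2 : (i : ℝ) ≤ n := by exact_mod_cast (mem_range.1 hi).le
    linarith
  set B := ∑ u ∈ s, ∑ i ∈ range n, χ (c * (g : F) ^ u * (g : F) ^ i) with hB
  have h2 : |n * S - B| ≤ n * (2 * n) := by
    rw [hB, sum_comm]
    have : (n : ℝ) * S = ∑ _i ∈ range n, S := by rw [sum_const, card_range, nsmul_eq_mul]
    rw [this, ← sum_sub_distrib]
    refine (abs_sum_le_sum_abs _ _).trans ((sum_le_sum h1).trans ?_)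
    rw [sum_const, card_range, nsmul_eq_mul]
  have hcs : (s.card : ℝ) ≤ 2 * 2 ^ e := by
    have : s ⊆ range (2 * 2 ^ e) := fun u hu => mem_range.2 (by have := hsv u hu; omega)
    have := card_le_card this
    rw [card_range] at this
    exact_mod_cast this
  have h3 : B ^ 2 ≤ 2 * 2 ^ e * (4 * 2 ^ e * n) := by
    refine (sq_sum_le_card_mul_sum_sq).trans ?_
    refine mul_le_mul hcs ?_ (sum_nonneg fun _ _ => sq_nonneg _) (by positivity)
    rw [← hL2]
    have hi : Set.InjOn (fun u : ℕ => c * (g : F) ^ u) s := by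
      intro u hu u' hu' h
      have h4 := hsv u hu
      have h5 := hsv u' hu'
      exact hinj u u' (by omega) (by omega) (mul_left_cancel₀ hc0 h)
    rw [← sum_image (f := fun x : F => (∑ i ∈ range n, χ (x * (g : F) ^ i)) ^ 2) hi]
    exact sum_le_sum_of_subset_of_nonneg (subset_univ _) fun _ _ _ => sq_nonneg _
  push_cast
  set X : ℝ := 2 ^ e
  have hX : 0 < X := by positivity
  have h4 : |B| ≤ n * (η * X / 2) := by
    refine abs_le_of_sq_le_sq' ?_ (by positivity) |> abs_le.2
    refine h3.trans ?_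
    rw [div_lt_iff₀ (by positivity)] at hn
    have h5 : 0 ≤ X ^ 2 * n := by positivity
    nlinarith
  have h5 : 2 * n ≤ η * X / 2 := by
    rw [div_lt_iff₀ hη] at he1
    linarith
  have h6 : |n * S| ≤ n * (η * X) := by
    have := abs_add_le (n * S - B) B
    rw [sub_add_cancel] at this
    nlinarith
  rw [abs_mul, abs_of_pos hn0] at h6
  exact le_of_mul_le_mul_left h6 hn0

end Pool.Agent.H52Z.IP
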