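import Mathlib
import Pool.Agent.H52Z.IP1

/-!
# A rank one block structure with a sign cocycle, and its twisted correlations
-/

set_option autoImplicit false

open Finset
open scoped ComplexConjugate

namespace Pool.Agent.H52Z.IP

noncomputable def NN (j : ℕ) : ℕ :=
  (exists_seq (η := (1 / 2 : ℝ) ^ (j + 1)) (by positivity)).choose

noncomputable def th (j : ℕ) : ℕ → ℝ :=
  (exists_seq (η := (1 / 2 : ℝ) ^ (j + 1)) (by positivity)).choose_spec.choose

lemma seq_spec (j : ℕ) : 2 ≤ NN j ∧ (∀ u, th j u = 1 ∨ th j u = -1) ∧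
    ∀ (v : ℕ) (s : Finset ℕ), 1 ≤ v → OC s → (∀ u ∈ s, u + v < 2 * NN j) →
      |∑ u ∈ s, th j (u + v) * th j u| ≤ (1 / 2 : ℝ) ^ (j + 1) * NN j :=
  (exists_seq (η := (1 / 2 : ℝ) ^ (j + 1)) (by positivity)).choose_spec.choose_spec

lemma two_le_NN (j : ℕ) : 2 ≤ NN j := (seq_spec j).1

lemma th_mul_self (j u : ℕ) : th j u * th j u = 1 := by
  rcases (seq_spec j).2.1 u with h | h <;> simp [h]

lemma exists_th (j : ℕ) {σ : ℝ} (hσ : σ = 1 ∨ σ = -1) : ∃ u, u < 2 * NN j ∧ th j u = σ := by
  by_contra hn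
  push Not at hn
  have h2 := two_le_NN j
  have h1 : ∀ u, u < 2 * NN j → th j u = -σ := by
    intro u hu
    have := hn u hu
    rcases (seq_spec j).2.1 u with h | h <;> rcases hσ with rfl | rfl <;> simp_all
  have h3 := (seq_spec j).2.2 1 (range (NN j)) le_rfl
    (fun x _ z hz y _ h => mem_range.2 (lt_of_le_of_lt h (mem_range.1 hz)))
    (fun u hu => by have := mem_range.1 hu; omega)
  have h4 : ∑ u ∈ range (NN j), th j (u + 1) * th j u = NN j := by
    rw [sum_congr rfl (g := fun _ => (1 : ℝ))]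
    · simp
    · intro u hu
      have := mem_range.1 hu
      rw [h1 _ (by omega), h1 _ (by omega)]
      rcases hσ with rfl | rfl <;> norm_num
  have h5 : (0 : ℝ) < NN j := by exact_mod_cast (by omega : 0 < NN j)
  have h6 : (1 / 2 : ℝ) ^ (j + 1) < 1 := pow_lt_one₀ (by norm_num) (by norm_num) (by omega)
  rw [h4, abs_of_pos h5] at h3
  nlinarith

noncomputable def h : ℕ → ℕ
  | 0 => 1
  | j + 1 => 2 * NN j * h j + 1

lemma h_succ (j : ℕ) : h (j + 1) = 2 * (NN j * h j) + 1 := by
  rw [h, mul_assoc]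

lemma h_pos (j : ℕ) : 0 < h j := by
  cases j <;> simp [h]

lemma two_h_le (j : ℕ) : 2 * h j ≤ NN j * h j := Nat.mul_le_mul_right _ (two_le_NN j)

lemma h_succ_ge (j : ℕ) : 4 * h j + 1 ≤ h (j + 1) := by
  have := two_h_le j
  rw [h_succ]
  omega

lemma h_mono : Monotone h := monotone_nat_of_le_succ fun j => by
  have := h_succ_ge j
  omega

lemma pow_le_h (j : ℕ) : 2 ^ j ≤ h j := by
  induction j with
  | zero => simp [h]
  | succ j ih =>
    have := h_succ_ge j
    rw [pow_succ]
    omega

lemma lt_h (j : ℕ) : j < h j := lt_of_lt_of_le Nat.lt_two_pow_self (pow_le_h j)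

noncomputable def un (j p : ℕ) : ℕ := if p < NN j * h j then p else p - 1

noncomputable def pj (j p : ℕ) : ℕ :=
  if p = NN j * h j ∨ h (j + 1) ≤ p then h j else un j p % h j

noncomputable def idx (j p : ℕ) : ℕ := un j p / h j

noncomputable def st (j u : ℕ) : ℕ := if u < NN j then u * h j else u * h j + 1

lemma pj_le (j p : ℕ) : pj j p ≤ h j := by
  unfold pj
  split_ifs
  · exact le_rfl
  · exact (Nat.mod_lt _ (h_pos j)).le

lemma st_spec {j u y : ℕ} (hu : u < 2 * NN j) (hy : y < h j) :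
    pj j (st j u + y) = y ∧ idx j (st j u + y) = u ∧ st j u + y < h (j + 1) := by
  have e1 : (u * h j + y) % h j = y := by
    rw [mul_comm, Nat.mul_add_mod, Nat.mod_eq_of_lt hy]
  have e2 : (u * h j + y) / h j = u := by
    rw [mul_comm, Nat.mul_add_div (h_pos j), Nat.div_eq_of_lt hy, add_zero]
  have e3 : (u + 1) * h j ≤ 2 * NN j * h j := Nat.mul_le_mul_right _ hu
  rw [add_mul, one_mul, mul_assoc] at e3
  unfold pj idx un st
  rw [h_succ]
  by_cases h1 : u < NN j
  · have e4 : (u + 1) * h j ≤ NN j * h j := Nat.mul_le_mul_right _ h1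
    rw [add_mul, one_mul] at e4
    rw [if_pos h1, if_neg (by omega), if_pos (by omega), e1, e2]
    exact ⟨rfl, rfl, by omega⟩
  · have e4 : NN j * h j ≤ u * h j := Nat.mul_le_mul_right _ (not_lt.1 h1)
    rw [if_neg h1, if_neg (by omega), if_neg (by omega),
      show u * h j + 1 + y - 1 = u * h j + y by omega, e1, e2]
    exact ⟨rfl, rfl, by omega⟩

lemma eq_st {j p : ℕ} (hp : pj j p < h j) :
    idx j p < 2 * NN j ∧ p = st j (idx j p) + pj j p := by
  have h0 : ¬ (p = NN j * h j ∨ h (j + 1) ≤ p) := by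
    intro h1
    rw [pj, if_pos h1] at hp
    omega
  have e0 : pj j p = un j p % h j := by rw [pj, if_neg h0]
  rw [h_succ] at h0
  have e1 := Nat.div_add_mod (un j p) (h j)
  rw [e0, st, idx]
  by_cases h1 : p < NN j * h j
  · have e2 : un j p = p := if_pos h1
    have e3 : un j p / h j < NN j := by
      rw [Nat.div_lt_iff_lt_mul (h_pos j), e2]
      exact h1
    rw [if_pos e3, mul_comm (un j p / h j)]
    omega
  · have e2 : un j p = p - 1 := if_neg h1
    have e3 : ¬ un j p / h j < NN j := by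
      rw [Nat.div_lt_iff_lt_mul (h_pos j), e2]
      omega
    rw [if_neg e3, mul_comm (un j p / h j), Nat.div_lt_iff_lt_mul (h_pos j), mul_assoc]
    omega

lemma copy {k p t : ℕ} (ht : pj k p + t < h k) :
    pj k (p + t) = pj k p + t ∧ idx k (p + t) = idx k p ∧ p + t < h (k + 1) := by
  obtain ⟨h1, h2⟩ := eq_st (j := k) (p := p) (by omega)
  have := st_spec h1 ht
  rwa [← add_assoc, ← h2] at this

lemma st_zero (j : ℕ) : st j 0 = 0 := by
  have := two_le_NN j
  rw [st, if_pos (by omega), zero_mul]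

lemma pj_small {j p : ℕ} (hp : p < h j) : pj j p = p := by
  have h1 := two_le_NN j
  have := (st_spec (j := j) (u := 0) (by omega) hp).1
  rwa [st_zero, zero_add] at this

lemma pj_top (j : ℕ) : pj j (h (j + 1)) = h j := if_pos (Or.inr le_rfl)

def Step (k p p' : ℕ) : Prop :=
  (p + 1 < h k ∧ p' = p + 1) ∨ (p + 1 = h k ∧ (p' = 0 ∨ p' = h k)) ∨ (p = h k ∧ p' = 0)

lemma Step.proj {k p p' : ℕ} (hs : Step (k + 1) p p') : Step k (pj k p) (pj k p') := by
  have hp := h_pos k
  have h2 := two_le_NN k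
  have h3 := two_h_le k
  have h0 : pj k 0 = 0 := pj_small hp
  rcases hs with ⟨h1, rfl⟩ | ⟨h1, h4⟩ | ⟨rfl, rfl⟩
  · rcases lt_trichotomy (pj k p + 1) (h k) with h5 | h5 | h5
    · exact Or.inl ⟨h5, (copy h5).1⟩
    · refine Or.inr (Or.inl ⟨h5, ?_⟩)
      obtain ⟨h6, h7⟩ := eq_st (j := k) (p := p) (by omega)
      by_cases h8 : idx k p + 1 = NN k
      · right
        rw [st, if_pos (by omega)] at h7
        have : p + 1 = NN k * h k := by
          rw [← h8, add_mul]
          omega
        exact if_pos (Or.inl this)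
      · left
        have h9 : p + 1 = st k (idx k p + 1) + 0 := by
          unfold st at h7 ⊢
          rw [add_mul]
          split_ifs at h7 ⊢ <;> omega
        have h10 : idx k p + 1 < 2 * NN k := by
          by_contra h11
          have h12 : idx k p + 1 = 2 * NN k := by omega
          rw [h12, st, if_neg (by omega), mul_assoc] at h9
          rw [h_succ] at h1
          omega
        rw [h9]
        exact (st_spec h10 hp).1
    · have h6 : pj k p = h k := by have := pj_le k p; omega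
      refine Or.inr (Or.inr ⟨h6, ?_⟩)
      have h7 : p = NN k * h k := by
        by_contra h8
        rw [pj, if_neg (by omega)] at h6
        have := Nat.mod_lt (un k p) hp
        omega
      have h9 : p + 1 = st k (NN k) + 0 := by rw [st, if_neg (lt_irrefl _), h7]
      rw [h9]
      exact (st_spec (by omega) hp).1
  · have h5 : p = st k (2 * NN k - 1) + (h k - 1) := by
      rw [st, if_neg (by omega), Nat.sub_mul, mul_assoc]
      rw [h_succ] at h1
      omega
    have h6 : pj k p = h k - 1 := by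
      rw [h5]
      exact (st_spec (by omega) (by omega)).1
    refine Or.inr (Or.inl ⟨by omega, ?_⟩)
    rcases h4 with rfl | rfl
    · exact Or.inl h0
    · exact Or.inr (pj_top k)
  · exact Or.inr (Or.inr ⟨pj_top k, h0⟩)

noncomputable def Φ : ℕ → ℕ → ℝ
  | 0, _ => 1
  | j + 1, p => th j (idx j p) * Φ j (pj j p)

lemma Φ_sign (j p : ℕ) : Φ j p = 1 ∨ Φ j p = -1 := by
  induction j generalizing p with
  | zero => exact Or.inl rfl
  | succ j ih =>
    rw [Φ]
    rcases (seq_spec j).2.1 (idx j p) with h1 | h1 <;> rcases ih (pj j p) with h2 | h2 <;>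
      simp [h1, h2]

lemma Φ_mul_self (j p : ℕ) : Φ j p * Φ j p = 1 := by
  rcases Φ_sign j p with h | h <;> simp [h]

lemma norm_Φ (j p : ℕ) : ‖(Φ j p : ℂ)‖ = 1 := by
  rcases Φ_sign j p with h | h <;> simp [h]

noncomputable def pr (j : ℕ) : ℕ → ℕ → ℕ
  | 0, p => p
  | k + 1, p => if k + 1 ≤ j then p else pr j k (pj k p)

lemma pr_of_le {j k : ℕ} (hk : k ≤ j) (p : ℕ) : pr j k p = p := by
  cases k with
  | zero => rfl
  | succ k => rw [pr, if_pos hk]

lemma pr_succ {j k : ℕ} (hk : j ≤ k) (p : ℕ) : pr j (k + 1) p = pr j k (pj k p) := by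
  rw [pr, if_neg (by omega)]

def CB (A B : ℕ → ℂ) (H d : ℕ) (E : ℝ) : Prop :=
  ∀ s : Finset ℕ, OC s → (∀ p ∈ s, p + d < H) → ‖∑ p ∈ s, A (p + d) * B p‖ ≤ E

lemma uns (j : ℕ) {A B : ℕ → ℂ} (hA : ∀ p, ‖A p‖ ≤ 1) (hB : ∀ p, ‖B p‖ ≤ 1) {d : ℕ} {E : ℝ}
    (s : Finset ℕ) (hs : OC s) (hd : ∀ p ∈ s, p + d < 2 * (NN j * h j)) (U : Finset ℕ)
    (hU : ∀ p ∈ s, (p + d) / h j = p / h j → p / h j ∈ U) (hE : ∀ u ∈ U, CB A B (h j) d E) :
    ‖∑ p ∈ s, ((th j ((p + d) / h j) : ℂ) * A ((p + d) % h j)) *
      ((th j (p / h j) : ℂ) * B (p % h j))‖ ≤ U.card * E + (1 / 2 : ℝ) ^ (j + 1) * NN j * h j := by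
  have hp := h_pos j
  set H := h j with hH
  rw [← sum_filter_add_sum_filter_not s fun p => (p + d) / H = p / H]
  refine (norm_add_le _ _).trans (add_le_add ?_ ?_)
  · rw [← sum_fiberwise_of_maps_to (t := U) (g := fun p => p / H)
      fun p hp => hU p (mem_filter.1 hp).1 (mem_filter.1 hp).2]
    refine (norm_sum_le _ _).trans ?_
    rw [← nsmul_eq_mul, ← sum_const]
    refine sum_le_sum fun u hu => ?_
    have key : ∀ y, y + d < H → (u * H + y) / H = u ∧ (u * H + y + d) / H = u ∧
        (u * H + y) % H = y ∧ (u * H + y + d) % H = y + d := by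
      intro y hy
      refine ⟨?_, ?_, ?_, ?_⟩
      · rw [mul_comm, Nat.mul_add_div hp, Nat.div_eq_of_lt (by omega), add_zero]
      · rw [add_assoc, mul_comm, Nat.mul_add_div hp, Nat.div_eq_of_lt hy, add_zero]
      · rw [mul_comm, Nat.mul_add_mod, Nat.mod_eq_of_lt (by omega)]
      · rw [add_assoc, mul_comm, Nat.mul_add_mod, Nat.mod_eq_of_lt hy]
    have h1 := hE u hu ((range H).filter fun y => y + d < H ∧ u * H + y ∈ s) (by
      intro x hx z hz y h1 h2
      simp only [mem_filter, mem_range] at hx hz ⊢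
      exact ⟨by omega, by omega, hs _ hx.2.2 _ hz.2.2 _ (by omega) (by omega)⟩)
      (fun p hp => (mem_filter.1 hp).2.1)
    refine le_trans (le_of_eq ?_) h1
    congr 1
    symm
    refine sum_bij (fun y _ => u * H + y) ?_ ?_ ?_ ?_
    · intro y hy
      simp only [mem_filter, mem_range] at hy ⊢
      obtain ⟨k1, k2, -, -⟩ := key y hy.2.1
      exact ⟨⟨hy.2.2, by rw [k1, k2]⟩, k1⟩
    · intro y _ y' _ hyy
      omega
    · intro p hp'
      simp only [mem_filter] at hp'
      obtain ⟨⟨k1, k2⟩, k3⟩ := hp'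
      have e1 := Nat.div_add_mod p H
      have e2 := Nat.div_add_mod (p + d) H
      have e3 := Nat.mod_lt (p + d) hp
      rw [k2] at e2
      rw [k3, mul_comm] at e1 e2
      refine ⟨p % H, ?_, e1⟩
      simp only [mem_filter, mem_range]
      exact ⟨Nat.mod_lt _ hp, by omega, by rwa [e1]⟩
    · intro y hy
      simp only [mem_filter, mem_range] at hy
      obtain ⟨k1, k2, k3, k4⟩ := key y hy.2.1
      rw [k1, k2, k3, k4]
      have e1 : ((th j u : ℝ) : ℂ) * th j u = 1 := by
        rw [← Complex.ofReal_mul, th_mul_self, Complex.ofReal_one]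
      linear_combination (-(A (y + d) * B y)) * e1
  · rw [← sum_fiberwise_of_maps_to (t := range H) (g := fun p => p % H)
      fun p _ => mem_range.2 (Nat.mod_lt _ hp)]
    refine (norm_sum_le _ _).trans ?_
    have : (1 / 2 : ℝ) ^ (j + 1) * NN j * H = ∑ _y ∈ range H, (1 / 2 : ℝ) ^ (j + 1) * NN j := by
      rw [sum_const, card_range, nsmul_eq_mul]
      ring
    rw [this]
    refine sum_le_sum fun y hy => ?_
    rw [mem_range] at hy
    have key : ∀ u, (u * H + y) / H = u ∧ (u * H + y + d) / H = u + (y + d) / H ∧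
        (u * H + y) % H = y ∧ (u * H + y + d) % H = (y + d) % H := by
      intro u
      refine ⟨?_, ?_, ?_, ?_⟩
      · rw [mul_comm, Nat.mul_add_div hp, Nat.div_eq_of_lt hy, add_zero]
      · rw [add_assoc, mul_comm, Nat.mul_add_div hp]
      · rw [mul_comm, Nat.mul_add_mod, Nat.mod_eq_of_lt hy]
      · rw [add_assoc, mul_comm, Nat.mul_add_mod]
    rcases Nat.eq_zero_or_pos ((y + d) / H) with hv | hv
    · rw [sum_eq_zero, norm_zero]
      · positivity
      · intro p hp'
        simp only [mem_filter] at hp'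
        obtain ⟨⟨k1, k2⟩, k3⟩ := hp'
        have e1 := Nat.div_add_mod p H
        rw [k3, mul_comm] at e1
        have e2 := (key (p / H)).2.1
        rw [e1, hv] at e2
        exact absurd e2 k2
    have hlt : ∀ u, u * H + y ∈ s → u + (y + d) / H < 2 * NN j := by
      intro u hu
      rw [← (key u).2.1, Nat.div_lt_iff_lt_mul hp, mul_assoc]
      exact hd _ hu
    have h1 := (seq_spec j).2.2 ((y + d) / H) ((range (2 * NN j)).filter fun u => u * H + y ∈ s) hv
      (by
        intro x hx z hz w h1 h2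
        simp only [mem_filter, mem_range] at hx hz ⊢
        have e1 := Nat.mul_le_mul_right H h1
        have e2 := Nat.mul_le_mul_right H h2
        exact ⟨by omega, hs _ hx.2 _ hz.2 _ (by omega) (by omega)⟩)
      (fun u hu => hlt u (mem_filter.1 hu).2)
    have h2 : ∑ p ∈ (s.filter fun p => ¬ (p + d) / H = p / H) with p % H = y,
        ((th j ((p + d) / H) : ℂ) * A ((p + d) % H)) * ((th j (p / H) : ℂ) * B (p % H)) =
        (A ((y + d) % H) * B y) * ((∑ u ∈ (range (2 * NN j)).filter fun u => u * H + y ∈ s,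
          th j (u + (y + d) / H) * th j u : ℝ) : ℂ) := by
      rw [Complex.ofReal_sum, mul_sum]
      symm
      refine sum_bij (fun u _ => u * H + y) ?_ ?_ ?_ ?_
      · intro u hu
        simp only [mem_filter, mem_range] at hu ⊢
        obtain ⟨k1, k2, k3, -⟩ := key u
        exact ⟨⟨hu.2, by rw [k1, k2]; omega⟩, k3⟩
      · intro u _ u' _ huu
        exact Nat.eq_of_mul_eq_mul_right hp (by omega)
      · intro p hp'
        simp only [mem_filter] at hp'
        obtain ⟨⟨k1, -⟩, k3⟩ := hp'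
        have e1 := Nat.div_add_mod p H
        rw [k3, mul_comm] at e1
        refine ⟨p / H, ?_, e1⟩
        simp only [mem_filter, mem_range]
        have e2 := hlt (p / H) (by rwa [e1])
        exact ⟨by omega, by rwa [e1]⟩
      · intro u _
        obtain ⟨k1, k2, k3, k4⟩ := key u
        rw [k1, k2, k3, k4]
        push_cast
        ring
    rw [h2, norm_mul, norm_mul, Complex.norm_real, Real.norm_eq_abs]
    have h3 := mul_le_mul (mul_le_one₀ (hA ((y + d) % H)) (norm_nonneg _) (hB y)) h1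
      (abs_nonneg _) zero_le_one
    rwa [one_mul] at h3

noncomputable def lift (j : ℕ) (A : ℕ → ℂ) (p : ℕ) : ℂ := (th j (idx j p) : ℂ) * A (pj j p)

lemma norm_th (j u : ℕ) : ‖(th j u : ℂ)‖ = 1 := by
  rcases (seq_spec j).2.1 u with h | h <;> simp [h]

lemma lift_lo {j p : ℕ} (A : ℕ → ℂ) (hp : p < NN j * h j) :
    lift j A p = (th j (p / h j) : ℂ) * A (p % h j) := by
  rw [lift, idx, pj, if_neg (by rw [h_succ]; omega), un, if_pos hp]

lemma lift_hi {j p : ℕ} (A : ℕ → ℂ) (hp : NN j * h j ≤ p) (hp' : p + 1 < h (j + 1)) :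
    lift j A (p + 1) = (th j (p / h j) : ℂ) * A (p % h j) := by
  rw [lift, idx, pj, if_neg (by omega), un, if_neg (by omega), Nat.add_sub_cancel]

lemma CB.lift (j : ℕ) {A B : ℕ → ℂ} (hA : ∀ p, ‖A p‖ ≤ 1) (hB : ∀ p, ‖B p‖ ≤ 1) {d : ℕ} {E : ℝ}
    (hE : CB A B (h j) d E) :
    CB (lift j A) (lift j B) (h (j + 1)) d
      (2 * NN j * E + 3 * ((1 / 2 : ℝ) ^ (j + 1) * NN j * h j) + 2) := by
  classical
  intro s hs hd
  have hp := h_pos j
  set M := NN j * h j with hM
  have hH : h (j + 1) = 2 * M + 1 := h_succ j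
  set f : ℕ → ℂ := fun p => IP.lift j A (p + d) * IP.lift j B p with hf
  have hf1 : ∀ p, ‖f p‖ ≤ 1 := by
    intro p
    simp only [hf, IP.lift, norm_mul, norm_th, one_mul]
    exact mul_le_one₀ (hA _) (norm_nonneg _) (hB _)
  have hsplit : ∑ p ∈ s, f p = ∑ p ∈ s with p + d < M, f p + ∑ p ∈ s with (p < M ∧ M < p + d), f p +
      ∑ p ∈ s with M < p, f p + ∑ p ∈ s with (p = M ∨ p + d = M), f p := by
    simp only [sum_filter, ← sum_add_distrib]
    refine sum_congr rfl fun p _ => ?_
    split_ifs <;> first | omega | simp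
  have h1 : ‖∑ p ∈ s with p + d < M, f p‖ ≤ NN j * E + (1 / 2 : ℝ) ^ (j + 1) * NN j * h j := by
    have := uns j hA hB (s.filter fun p => p + d < M) (by
        intro x hx z hz y h1 h2
        simp only [mem_filter] at hx hz ⊢
        exact ⟨hs _ hx.1 _ hz.1 _ h1 h2, by omega⟩)
      (fun p hp => by have := (mem_filter.1 hp).2; omega) (range (NN j))
      (fun p hp' _ => by
        have := (mem_filter.1 hp').2
        rw [mem_range, Nat.div_lt_iff_lt_mul hp]
        omega) (fun _ _ => hE)
    rw [card_range] at this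
    refine le_trans (le_of_eq ?_) this
    congr 1
    refine sum_congr rfl fun p hp' => ?_
    have := (mem_filter.1 hp').2
    simp only [hf]
    rw [lift_lo A (by omega), lift_lo B (by omega)]
  have h2 : ‖∑ p ∈ s with (p < M ∧ M < p + d), f p‖ ≤ (1 / 2 : ℝ) ^ (j + 1) * NN j * h j := by
    have := uns j hA hB (d := d - 1) (E := E) (s.filter fun p => p < M ∧ M < p + d) (by
        intro x hx z hz y h1 h2
        simp only [mem_filter] at hx hz ⊢
        exact ⟨hs _ hx.1 _ hz.1 _ h1 h2, by omega⟩)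
      (fun p hp => by
        have := (mem_filter.1 hp).2
        have := hd p (mem_filter.1 hp).1
        omega) ∅
      (fun p hp' h3 => by
        have h4 := (mem_filter.1 hp').2
        have h5 : p / h j < NN j := by
          rw [Nat.div_lt_iff_lt_mul hp]
          omega
        rw [← h3, Nat.div_lt_iff_lt_mul hp] at h5
        omega) (fun u hu => absurd hu (notMem_empty u))
    rw [card_empty, Nat.cast_zero, zero_mul, zero_add] at this
    refine le_trans (le_of_eq ?_) this
    congr 1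
    refine sum_congr rfl fun p hp' => ?_
    have h4 := (mem_filter.1 hp').2
    have h5 := hd p (mem_filter.1 hp').1
    simp only [hf]
    rw [show p + d = p + (d - 1) + 1 by omega, lift_hi A (by omega) (by omega),
      lift_lo B (by omega)]
  have h3 : ‖∑ p ∈ s with M < p, f p‖ ≤ NN j * E + (1 / 2 : ℝ) ^ (j + 1) * NN j * h j := by
    have := uns j hA hB (d := d) (E := E) ((range (2 * M)).filter fun p => M ≤ p ∧ p + 1 ∈ s) (by
        intro x hx z hz y h1 h2
        simp only [mem_filter, mem_range] at hx hz ⊢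
        exact ⟨by omega, by omega, hs _ hx.2.2 _ hz.2.2 _ (by omega) (by omega)⟩)
      (fun p hp => by
        have := hd _ (mem_filter.1 hp).2.2
        omega) (Ico (NN j) (2 * NN j))
      (fun p hp' _ => by
        simp only [mem_filter, mem_range] at hp'
        rw [mem_Ico, Nat.div_lt_iff_lt_mul hp, Nat.le_div_iff_mul_le hp, mul_assoc]
        omega) (fun _ _ => hE)
    rw [Nat.card_Ico, show 2 * NN j - NN j = NN j by omega] at this
    refine le_trans (le_of_eq ?_) this
    congr 1
    symm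
    refine sum_bij (fun p _ => p + 1) ?_ ?_ ?_ ?_
    · intro p hp'
      simp only [mem_filter, mem_range] at hp' ⊢
      exact ⟨hp'.2.2, by omega⟩
    · intro p _ p' _ hpp
      omega
    · intro p hp'
      simp only [mem_filter] at hp'
      have := hd p hp'.1
      refine ⟨p - 1, ?_, by omega⟩
      simp only [mem_filter, mem_range]
      exact ⟨by omega, by omega, by rw [show p - 1 + 1 = p by omega]; exact hp'.1⟩
    · intro p hp'
      simp only [mem_filter, mem_range] at hp'
      have := hd _ hp'.2.2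
      simp only [hf]
      rw [show p + 1 + d = p + d + 1 by omega, lift_hi A (by omega) (by omega),
        lift_hi B (by omega) (by omega)]
  have h4 : ‖∑ p ∈ s with (p = M ∨ p + d = M), f p‖ ≤ 2 := by
    refine (norm_sum_le _ _).trans ((sum_le_card_nsmul _ _ 1 fun p _ => hf1 p).trans ?_)
    rw [nsmul_eq_mul, mul_one]
    have h5 : (s.filter fun p => p = M ∨ p + d = M) ⊆ {M, M - d} := by
      intro p hp'
      have := (mem_filter.1 hp').2
      simp only [mem_insert, mem_singleton]
      omega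
    exact_mod_cast (card_le_card h5).trans card_le_two
  change ‖∑ p ∈ s, f p‖ ≤ _
  rw [hsplit]
  refine (norm_add_le _ _).trans ?_
  refine (add_le_add ((norm_add_le _ _).trans (add_le_add (norm_add_le _ _) le_rfl)) le_rfl).trans ?_
  linarith

noncomputable def Ψ (r : ℕ) (H : ℕ → ℂ) (k p : ℕ) : ℂ := (Φ k p : ℂ) * H (pr r k p)

lemma corr {r j : ℕ} (hrj : r ≤ j) {H : ℕ → ℂ} (hH : ∀ p, ‖H p‖ ≤ 1) {d : ℕ} (hd : h j ≤ d)
    {k : ℕ} (hk : j ≤ k) :
    CB (Ψ r H k) (fun p => conj (Ψ r H k p)) (h k) d ((4 * (1 / 2) ^ j - 4 * (1 / 2) ^ k) * h k) := by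
  have hΨ : ∀ k p, ‖Ψ r H k p‖ ≤ 1 := fun k p => by
    rw [Ψ, norm_mul, norm_Φ, one_mul]
    exact hH _
  induction k, hk using Nat.le_induction with
  | base =>
    intro s _ hs
    rw [sum_eq_zero, norm_zero, sub_self, zero_mul]
    intro p hp
    have := hs p hp
    omega
  | succ k hk ih =>
    have h1 := ih.lift k (hΨ k) (fun p => by rw [Complex.norm_conj]; exact hΨ k p)
    have e1 : Ψ r H (k + 1) = lift k (Ψ r H k) := by
      funext p
      rw [Ψ, lift, Ψ, Φ, pr_succ (hrj.trans hk)]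
      push_cast
      ring
    have e2 : (fun p => conj (Ψ r H (k + 1) p)) = lift k fun p => conj (Ψ r H k p) := by
      funext p
      rw [e1, lift, lift, map_mul, Complex.conj_ofReal]
    rw [e2, e1]
    intro s hs hsd
    refine (h1 s hs hsd).trans ?_
    have h2 : (h (k + 1) : ℝ) = 2 * (NN k * h k) + 1 := by
      rw [h_succ]
      push_cast
      ring
    have h3 : (1 : ℝ) ≤ (1 / 2) ^ (k + 1) * h (k + 1) := by
      have : ((2 ^ (k + 1) : ℕ) : ℝ) ≤ h (k + 1) := by exact_mod_cast pow_le_h (k + 1)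
      push_cast at this
      rw [one_div, inv_pow, ← div_eq_inv_mul, le_div_iff₀ (by positivity)]
      linarith
    have h4 : (1 / 2 : ℝ) ^ k ≤ (1 / 2) ^ j := pow_le_pow_of_le_one (by norm_num) (by norm_num) hk
    have h5 : (0 : ℝ) < (1 / 2) ^ k := by positivity
    rw [h2, pow_succ] at h3
    rw [h2, pow_succ]
    have h6 : (0 : ℝ) ≤ NN k * h k := by positivity
    have h7 := mul_nonneg h5.le h6
    nlinarith

end Pool.Agent.H52Z.IP
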