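import Mathlib
import Pool.Agent.H52Z.IP2

/-!
# Points of the rank one system
-/

set_option autoImplicit false

open Finset

namespace Pool.Agent.H52Z.IP

structure Pt where
  P : ℕ → ℕ → ℕ
  proj : ∀ k t, pj k (P (k + 1) t) = P k t
  step : ∀ k t, Step k (P k t) (P k (t + 1))
  fin : ∀ t, ∃ k, P k t + 1 < h k

lemma pr_proj {j k : ℕ} (hk : j + 1 ≤ k) (p : ℕ) : pj j (pr (j + 1) k p) = pr j k p := by
  induction k, hk using Nat.le_induction generalizing p with
  | base => rw [pr_of_le le_rfl, pr_succ le_rfl, pr_of_le le_rfl]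
  | succ k hk ih => rw [pr_succ hk, pr_succ (by omega), ih]

lemma pr_pr {j k l : ℕ} (hjk : j ≤ k) (hkl : k ≤ l) (p : ℕ) : pr j k (pr k l p) = pr j l p := by
  induction l, hkl using Nat.le_induction generalizing p with
  | base => rw [pr_of_le le_rfl]
  | succ l hl ih => rw [pr_succ hl, pr_succ (hjk.trans hl), ih]

lemma Step.pr {j k p p' : ℕ} (hk : j ≤ k) (hs : Step k p p') : Step j (pr j k p) (pr j k p') := by
  induction k, hk using Nat.le_induction generalizing p p' with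
  | base => rwa [pr_of_le le_rfl, pr_of_le le_rfl]
  | succ k hk ih =>
    rw [pr_succ hk, pr_succ hk]
    exact ih hs.proj

namespace Pt

variable (x : Pt)

lemma le (k t : ℕ) : x.P k t ≤ h k := by
  rw [← x.proj]
  exact pj_le _ _

lemma pr_eq {j k : ℕ} (hk : j ≤ k) (t : ℕ) : pr j k (x.P k t) = x.P j t := by
  induction k, hk using Nat.le_induction with
  | base => exact pr_of_le le_rfl _
  | succ k hk ih => rw [pr_succ hk, x.proj, ih]

lemma add {k t n : ℕ} (hn : x.P k t + n < h k) : x.P k (t + n) = x.P k t + n := by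
  induction n with
  | zero => rfl
  | succ n ih =>
    have h1 := ih (by omega)
    have h2 := x.step k (t + n)
    rw [← add_assoc]
    unfold Step at h2
    omega

lemma back {k t n : ℕ} (h1 : n ≤ x.P k (t + n)) (h2 : x.P k (t + n) < h k) :
    x.P k t + n = x.P k (t + n) := by
  induction n with
  | zero => rfl
  | succ n ih =>
    have h3 := x.step k (t + n)
    rw [show t + (n + 1) = t + n + 1 from rfl] at h1 h2 ⊢
    unfold Step at h3
    have := ih (by omega) (by omega)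
    omega

lemma up {k t n : ℕ} (hn : x.P k t + n < h k) {l : ℕ} (hl : k ≤ l) : x.P l t + n < h l := by
  induction l, hl using Nat.le_induction with
  | base => exact hn
  | succ l _ ih =>
    rw [← x.proj] at ih
    exact (copy ih).2.2

lemma fin' (t n : ℕ) : ∃ κ, ∀ k, κ ≤ k → x.P k t + n < h k := by
  induction n with
  | zero =>
    obtain ⟨k, hk⟩ := x.fin t
    exact ⟨k, fun l hl => by have := x.up hk hl; omega⟩
  | succ n ih =>
    obtain ⟨κ, hκ⟩ := ih
    obtain ⟨k, hk⟩ := x.fin (t + n)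
    refine ⟨max κ k, fun l hl => ?_⟩
    have h1 := x.add (hκ l (le_of_max_le_left hl))
    have h2 := x.up hk (le_of_max_le_right hl)
    omega

lemma next (k t : ℕ) : ∃ n, t < n ∧ n ≤ t + h k + 1 ∧ x.P k n = 0 := by
  have h0 := x.le k t
  have hp := h_pos k
  rcases h0.eq_or_lt with h1 | h1
  · have h2 := x.step k t
    unfold Step at h2
    exact ⟨t + 1, by omega, by omega, by omega⟩
  · have h2 := x.add (k := k) (t := t) (n := h k - 1 - x.P k t) (by omega)
    have h3 := x.step k (t + (h k - 1 - x.P k t))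
    have h4 := x.step k (t + (h k - 1 - x.P k t) + 1)
    unfold Step at h3 h4
    by_cases h5 : x.P k (t + (h k - 1 - x.P k t) + 1) = 0
    · exact ⟨_, by omega, by omega, h5⟩
    · exact ⟨t + (h k - 1 - x.P k t) + 1 + 1, by omega, by omega, by omega⟩

lemma occ {k q : ℕ} (hq : q < h k) (t : ℕ) : ∃ n, t < n ∧ n ≤ t + 2 * h k ∧ x.P k n = q := by
  obtain ⟨n, h1, h2, h3⟩ := x.next k t
  have := x.add (k := k) (t := n) (n := q) (by omega)
  exact ⟨n + q, by omega, by omega, by omega⟩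

lemma back3 {k t n : ℕ} (hn : n ≤ h k) : x.P k (t + n) = x.P k t + n ∨
    (x.P k (t + n) + h k = x.P k t + n ∧ x.P k t < h k) ∨
      x.P k (t + n) + h k + 1 = x.P k t + n := by
  induction n with
  | zero => exact Or.inl rfl
  | succ n ih =>
    have h1 := ih (by omega)
    have h2 := x.step k (t + n)
    have h3 := x.le k t
    rw [← add_assoc]
    unfold Step at h2
    omega

lemma card_hits (k a R : ℕ) : ((range R).filter fun t => x.P k t = a).card ≤ R / h k + 1 := by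
  rw [← card_range (R / h k + 1)]
  have key : ∀ t t', t < t' → x.P k t = x.P k t' → t / h k < t' / h k := by
    intro t t' h1 h2
    have h3 : t + h k ≤ t' := by
      by_contra h4
      have := x.back3 (k := k) (t := t) (n := t' - t) (by omega)
      rw [show t + (t' - t) = t' by omega] at this
      omega
    have := Nat.div_le_div_right (c := h k) h3
    rw [Nat.add_div_right _ (h_pos k)] at this
    omega
  refine card_le_card_of_injOn (fun t => t / h k) ?_ ?_
  · intro t ht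
    simp only [coe_filter, mem_range, Set.mem_ofPred_eq, coe_range, Set.mem_Iio] at ht ⊢
    have := Nat.div_le_div_right (c := h k) ht.1.le
    omega
  · intro t ht t' ht' htt
    simp only [coe_filter, mem_range, Set.mem_ofPred_eq] at ht ht' htt
    rcases lt_trichotomy t t' with h1 | h1 | h1
    · have := key t t' h1 (by omega)
      omega
    · exact h1
    · have := key t' t h1 (by omega)
      omega

def sh (n : ℕ) : Pt where
  P k t := x.P k (n + t)
  proj k t := x.proj k (n + t)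
  step k t := x.step k (n + t)
  fin t := x.fin (n + t)

lemma sh_P (n k t : ℕ) : (x.sh n).P k t = x.P k (n + t) := rfl

noncomputable def wt (t : ℕ) : ℝ :=
  Φ (Nat.find (x.fin t)) (x.P (Nat.find (x.fin t)) t + 1) *
    Φ (Nat.find (x.fin t)) (x.P (Nat.find (x.fin t)) t)

lemma wt_eq {k t : ℕ} (hk : x.P k t + 1 < h k) : x.wt t = Φ k (x.P k t + 1) * Φ k (x.P k t) := by
  have h1 : Nat.find (x.fin t) ≤ k := Nat.find_min' _ hk
  clear hk
  induction k, h1 using Nat.le_induction with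
  | base => rfl
  | succ k hk ih =>
    have h2 := x.up (Nat.find_spec (x.fin t)) hk
    rw [← x.proj] at h2
    obtain ⟨h3, h4, -⟩ := copy h2
    rw [ih, Φ, Φ, h3, h4, x.proj]
    linear_combination (-(Φ k (x.P k t + 1) * Φ k (x.P k t))) * th_mul_self k (idx k (x.P (k + 1) t))

lemma wt_sh (n t : ℕ) : (x.sh n).wt t = x.wt (n + t) := rfl

lemma wt_sign (t : ℕ) : x.wt t = 1 ∨ x.wt t = -1 := by
  obtain ⟨k, hk⟩ := x.fin t
  rw [x.wt_eq hk]
  rcases Φ_sign k (x.P k t + 1) with h1 | h1 <;>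
    rcases Φ_sign k (x.P k t) with h2 | h2 <;> simp [h1, h2]

noncomputable def W (n : ℕ) : ℝ := ∏ s ∈ range n, x.wt s

lemma W_add (c n : ℕ) : x.W (c + n) = x.W c * (x.sh c).W n := prod_range_add _ _ _

lemma W_succ (n : ℕ) : x.W (n + 1) = x.W n * x.wt n := prod_range_succ _ _

lemma W_sign (n : ℕ) : x.W n = 1 ∨ x.W n = -1 := by
  induction n with
  | zero => exact Or.inl rfl
  | succ n ih =>
    rw [W_succ]
    rcases ih with h1 | h1 <;> rcases x.wt_sign n with h2 | h2 <;> simp [h1, h2]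

lemma norm_W (n : ℕ) : ‖(x.W n : ℂ)‖ = 1 := by
  rcases x.W_sign n with h | h <;> simp [h]

lemma W_eq {k n : ℕ} (hk : x.P k 0 + n < h k) : x.W n = Φ k (x.P k 0 + n) * Φ k (x.P k 0) := by
  induction n with
  | zero => rw [add_zero, Φ_mul_self]; rfl
  | succ n ih =>
    have h1 := x.add (k := k) (t := 0) (n := n) (by omega)
    rw [zero_add] at h1
    rw [W_succ, ih (by omega), x.wt_eq (k := k) (by omega), h1, ← add_assoc]
    linear_combination (Φ k (x.P k 0 + n + 1) * Φ k (x.P k 0)) * Φ_mul_self k (x.P k 0 + n)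

lemma ret {k : ℕ} (hk : x.P k 0 < h k) : ∃ m, ∀ t, ∃ n, t < n ∧ n ≤ t + m ∧
    x.P k n = x.P k 0 ∧ x.W n = 1 := by
  refine ⟨2 * h (k + 1) + 1, fun t => ?_⟩
  obtain ⟨c, h1, h2, h3⟩ := x.next (k + 1) t
  have hσ : x.W c * Φ k (x.P k 0) * Φ (k + 1) 0 = 1 ∨ x.W c * Φ k (x.P k 0) * Φ (k + 1) 0 = -1 := by
    rcases x.W_sign c with h1 | h1 <;> rcases Φ_sign k (x.P k 0) with h2 | h2 <;>
      rcases Φ_sign (k + 1) 0 with h3 | h3 <;> simp [h1, h2, h3]
  obtain ⟨u, hu, h4⟩ := exists_th k hσ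
  obtain ⟨h5, h6, h7⟩ := st_spec hu hk
  have h8 := x.add (k := k + 1) (t := c) (n := st k u + x.P k 0) (by omega)
  refine ⟨c + (st k u + x.P k 0), by omega, by omega, ?_, ?_⟩
  · rw [← x.proj, h8, h3, zero_add, h5]
  · have h9 : (x.sh c).P (k + 1) 0 = 0 := h3
    rw [W_add, (x.sh c).W_eq (k := k + 1) (by omega), h9, zero_add, Φ, h5, h6, h4]
    rcases hσ with h10 | h10
    · linear_combination (x.W c * Φ k (x.P k 0) * Φ (k + 1) 0 + 1) * h10
    · linear_combination (x.W c * Φ k (x.P k 0) * Φ (k + 1) 0 - 1) * h10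

end Pt

lemma exists_pt (y : ℕ → ℕ) (hy : ∀ k, pj k (y (k + 1)) = y k) (hm : ∀ t, ∃ k, y k + t < h k) :
    ∃ x : Pt, ∀ k t, y k + t < h k → x.P k t = y k + t := by
  have hB : ∀ j k t, j ≤ k → y k + t < h k → ∀ l, k ≤ l →
      y l + t < h l ∧ pr j l (y l + t) = pr j k (y k + t) := by
    intro j k t hjk ht l hl
    induction l, hl using Nat.le_induction with
    | base => exact ⟨ht, rfl⟩
    | succ l hl ih =>
      have h1 := ih.1
      rw [← hy] at h1
      obtain ⟨h2, -, h3⟩ := copy h1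
      rw [pr_succ (hjk.trans hl), h2, hy]
      exact ⟨h3, ih.2⟩
  choose K hK using hm
  let P : ℕ → ℕ → ℕ := fun j t => pr j (max j (K t)) (y (max j (K t)) + t)
  have hP : ∀ j k t, j ≤ k → y k + t < h k → P j t = pr j k (y k + t) := by
    intro j k t hjk ht
    have h1 := (hB 0 (K t) t (Nat.zero_le _) (hK t) _ (le_max_right j _)).1
    rw [← (hB j k t hjk ht (max k (max j (K t))) (le_max_left _ _)).2]
    exact (hB j _ t (le_max_left _ _) h1 _ (le_max_right _ _)).2.symm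
  refine ⟨⟨P, fun j t => ?_, fun j t => ?_, fun t => ⟨K (t + 1), ?_⟩⟩, fun k t ht => ?_⟩
  · have h1 := (hB 0 (K t) t (Nat.zero_le _) (hK t) _ (le_max_right (j + 1) _)).1
    rw [hP (j + 1) _ t (le_max_left _ _) h1, hP j _ t (by omega) h1, pr_proj (le_max_left _ _)]
  · have h1 := (hB 0 (K (t + 1)) (t + 1) (Nat.zero_le _) (hK _) _ (le_max_right j _)).1
    rw [hP j _ (t + 1) (le_max_left _ _) h1, hP j (max j (K (t + 1))) t (le_max_left _ _) (by omega)]
    exact Step.pr (le_max_left _ _) (Or.inl ⟨by omega, by omega⟩)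
  · have h1 := hK (t + 1)
    rw [hP _ (K (t + 1)) t le_rfl (by omega), pr_of_le le_rfl]
    omega
  · change P k t = _
    rw [hP k k t le_rfl ht, pr_of_le le_rfl]

lemma exists_om : ∃ x : Pt, ∀ k t, t < h k → x.P k t = t := by
  obtain ⟨x, hx⟩ := exists_pt (fun _ => 0) (fun k => pj_small (h_pos k))
    fun t => ⟨t, by simpa using lt_h t⟩
  exact ⟨x, fun k t ht => by simpa using hx k t (by simpa using ht)⟩

noncomputable def om : Pt := exists_om.choose

lemma om_P {k t : ℕ} (ht : t < h k) : om.P k t = t := exists_om.choose_spec k t ht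

lemma pr_eq_om {j k p : ℕ} (hk : j ≤ k) (hp : p < h k) : pr j k p = om.P j p := by
  rw [← om.pr_eq hk, om_P hp]

lemma Pt.selfsim (x : Pt) {J c i j : ℕ} (hc : x.P J c = 0) (hi : i < h J) (hj : j ≤ J) :
    x.P j (c + i) = om.P j i := by
  rw [← x.pr_eq hj, x.add (by omega), hc, zero_add, pr_eq_om hj hi]

lemma om_st {j u : ℕ} (hu : u < 2 * NN j) : om.P j (st j u) = 0 ∧ st j u + h j ≤ h (j + 1) := by
  have hp := h_pos j
  obtain ⟨h1, -, h2⟩ := st_spec hu hp
  obtain ⟨-, -, h3⟩ := st_spec (y := h j - 1) hu (by omega)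
  rw [add_zero] at h1 h2
  exact ⟨by rw [← om.proj, om_P h2, h1], by omega⟩

lemma thick (J L : ℕ) : ∃ n0 J', J ≤ J' ∧ ∀ l ≤ L, ∃ a, a + n0 + l < h J' ∧ om.P J a = 0 ∧
    om.P J (a + n0 + l) = 0 := by
  induction L with
  | zero =>
    refine ⟨0, J, le_rfl, fun l hl => ⟨0, ?_, om_P (h_pos J), ?_⟩⟩
    · have := h_pos J
      omega
    · obtain rfl : l = 0 := by omega
      exact om_P (h_pos J)
  | succ L ih =>
    obtain ⟨n0, J', hJ, ih⟩ := ih
    have h2 := two_le_NN J'
    refine ⟨n0 + h J', J' + 1, by omega, fun l hl => ?_⟩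
    by_cases h1 : l ≤ L
    · obtain ⟨a, h3, h4, h5⟩ := ih l h1
      obtain ⟨h6, h7⟩ := om_st (j := J') (u := 1) (by omega)
      rw [st, if_pos (by omega), one_mul] at h6 h7
      refine ⟨a, by omega, h4, ?_⟩
      rw [show a + (n0 + h J') + l = h J' + (a + n0 + l) by ring, om.selfsim h6 h3 hJ, h5]
    · obtain ⟨a, h3, h4, h5⟩ := ih L le_rfl
      obtain ⟨h6, h7⟩ := om_st (j := J') (u := NN J' - 1) (by omega)
      obtain ⟨h8, h9⟩ := om_st (j := J') (u := NN J') (by omega)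
      have e : st J' (NN J') = st J' (NN J' - 1) + h J' + 1 := by
        rw [st, st, if_neg (lt_irrefl _), if_pos (by omega), Nat.sub_mul]
        have := two_h_le J'
        omega
      refine ⟨st J' (NN J' - 1) + a, by omega, ?_, ?_⟩
      · rw [om.selfsim h6 (by omega) hJ, h4]
      · rw [show st J' (NN J' - 1) + a + (n0 + h J') + l = st J' (NN J') + (a + n0 + L) by omega,
          om.selfsim h8 h3 hJ, h5]

lemma exists_IP (Q : ℕ → Prop) (Inv : Finset ℕ → Prop) (h0 : Inv {0})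
    (step : ∀ S, Inv S → ∃ n, 0 < n ∧ Inv (S ∪ S.image fun s => n + s) ∧ ∀ s ∈ S, Q (n + s)) :
    ∃ x : ℕ → ℕ, (∀ k, 0 < x k) ∧ ∀ F : Finset ℕ, F.Nonempty → Q (∑ k ∈ F, x k) := by
  choose! n h1 h2 h3 using step
  let S : ℕ → Finset ℕ := fun i => Nat.rec {0} (fun _ S => S ∪ S.image fun s => n S + s) i
  have hS : ∀ i, S (i + 1) = S i ∪ (S i).image fun s => n (S i) + s := fun i => rfl
  have hI : ∀ i, Inv (S i) := by
    intro i
    induction i with
    | zero => exact h0
    | succ i ih => exact h2 _ ih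
  have hm : ∀ i, ∀ F : Finset ℕ, F ⊆ range i → ∑ k ∈ F, n (S k) ∈ S i := by
    intro i
    induction i with
    | zero =>
      intro F hF
      obtain rfl : F = ∅ := by simpa using hF
      exact mem_singleton_self 0
    | succ i ih =>
      intro F hF
      have h4 : F.erase i ⊆ range i := by
        intro k hk
        have := mem_range.1 (hF (mem_of_mem_erase hk))
        have := ne_of_mem_erase hk
        exact mem_range.2 (by omega)
      rw [hS, mem_union]
      by_cases h5 : i ∈ F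
      · right
        rw [← add_sum_erase _ _ h5]
        exact mem_image.2 ⟨_, ih _ h4, rfl⟩
      · left
        rw [erase_eq_of_notMem h5] at h4
        exact ih _ h4
  refine ⟨fun k => n (S k), fun k => h1 _ (hI k), fun F hF => ?_⟩
  rw [← add_sum_erase _ _ (max'_mem F hF)]
  refine h3 _ (hI _) _ (hm _ _ fun k hk => mem_range.2 ?_)
  exact lt_of_le_of_ne (le_max' _ _ (mem_of_mem_erase hk)) (ne_of_mem_erase hk)

lemma Pt.exists_IP (x : Pt) {r q : ℕ} (hq : q < h r) :
    ∃ n : ℕ → ℕ, (∀ k, 0 < n k) ∧ ∀ F : Finset ℕ, F.Nonempty → x.P r (∑ k ∈ F, n k) = q := by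
  refine IP.exists_IP (fun n => x.P r n = q) (fun S => ∃ y, ∀ s ∈ S, om.P r (y + s) = q)
    ⟨q, by simpa using om_P hq⟩ ?_
  rintro S ⟨y, hy⟩
  let J := max r (y + S.sup id)
  have hJ : ∀ s ∈ S, y + s < h J := fun s hs => by
    have h1 : s ≤ S.sup id := le_sup (f := id) hs
    have h2 := lt_h J
    have h3 : y + S.sup id ≤ J := le_max_right _ _
    omega
  obtain ⟨n0, J', hJJ, hth⟩ := thick J (h J + 1)
  obtain ⟨c, h1, -, h2⟩ := om.next J' y
  obtain ⟨e, h3, h4, h5⟩ := x.next J (n0 + c - y - 1)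
  obtain ⟨a, h6, h7, h8⟩ := hth (e + y - (n0 + c)) (by omega)
  refine ⟨e + y, by omega, ⟨a + y, fun s hs => ?_⟩, fun s hs => ?_⟩
  · rcases mem_union.1 hs with hs | hs
    · rw [add_assoc, om.selfsim h7 (hJ s hs) (le_max_left _ _), hy s hs]
    · obtain ⟨s', hs', rfl⟩ := mem_image.1 hs
      have h9 := om.selfsim h2 h6 hJJ
      rw [h8] at h9
      rw [show a + y + (e + y + s') = c + (a + n0 + (e + y - (n0 + c))) + (y + s') by omega,
        om.selfsim h9 (hJ s' hs') (le_max_left _ _), hy s' hs']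
  · rw [add_assoc, x.selfsim h5 (hJ s hs) (le_max_left _ _), hy s hs]

structure Adm where
  k : ℕ → ℕ
  a : ℕ → ℕ
  mono : Monotone k
  big : ∀ i, i + 3 ≤ k i
  lo : ∀ i, 10 * (i + 1) ≤ a i
  hi : ∀ i, a i + 10 * (i + 1) < h (k i)
  dense : ∀ j p t, p < h j → ∃ i, j ≤ k i ∧ t ≤ a i ∧ pr j (k i) (a i - t) = p

lemma design_step (y : Pt) (Hv : ℕ → Finset ℕ) (B : ℕ) (hB : ∀ k, (Hv k).card ≤ B)
    (i j p t0 k0 : ℕ) (hp : p < h j) : ∃ k a, k0 ≤ k ∧ i + 3 ≤ k ∧ 10 * (i + 1) ≤ a ∧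
      a + 10 * (i + 1) < h k ∧ (j ≤ k ∧ t0 ≤ a ∧ pr j k (a - t0) = p) ∧ a ∉ Hv k ∧
      ∀ t ≤ 10 * (i + 1), ∃ s, a + s < h k ∧ pr i k (a + s) = 0 ∧ y.P i (t + s) = 0 := by
  set L := 10 * (i + 1) with hL
  set G := 2 * h j with hG
  obtain ⟨n0, J', hJ, hth⟩ := thick i (L + (B + 1) * G)
  obtain ⟨c, h1, -, h2⟩ := y.next J' L
  set J := max (max J' (c + L + t0)) (max (max k0 (i + 3)) j) with hJdef
  have hJ1 : J' ≤ J := (le_max_left _ _).trans (le_max_left _ _)
  have hJ2 : c + L + t0 < h J :=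
    lt_of_le_of_lt ((le_max_right _ _).trans (le_max_left _ _)) (lt_h J)
  have hJ3 : k0 ≤ J := ((le_max_left _ _).trans (le_max_left _ _)).trans (le_max_right _ _)
  have hJ4 : i + 3 ≤ J := ((le_max_right _ _).trans (le_max_left _ _)).trans (le_max_right _ _)
  have hJ5 : j ≤ J := (le_max_right _ _).trans (le_max_right _ _)
  have hh := h_mono hJ1
  have hh2 := h_succ_ge J
  have h3 := two_le_NN J
  obtain ⟨h4, -⟩ := om_st (j := J) (u := 1) (by omega)
  rw [st, if_pos (by omega), one_mul] at h4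
  have h5 : om.P J' (h J) = 0 := by
    rw [← om.pr_eq hJ1, h4, pr_eq_om hJ1 (h_pos J), om_P (h_pos J')]
  obtain ⟨a0, h6, -⟩ := hth _ le_rfl
  set b := h J - c + n0 + L with hb
  have hocc : ∀ u : ℕ, ∃ n, b - t0 + u * G < n ∧ n ≤ b - t0 + u * G + G ∧ om.P j n = p :=
    fun u => om.occ hp _
  choose n hn1 hn2 hn3 using hocc
  have hinj : Function.Injective fun u => n u + t0 := by
    refine (strictMono_nat_of_lt_succ fun u => ?_).injective
    have := hn1 (u + 1)
    have := hn2 u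
    rw [add_mul] at *
    omega
  obtain ⟨u, hu, hu2⟩ : ∃ u ∈ range (B + 1), n u + t0 ∉ Hv (J + 1) := by
    by_contra hc
    push Not at hc
    have := card_le_card_of_injOn (fun u => n u + t0) (fun u hu => hc u hu) hinj.injOn
    rw [card_range] at this
    have := hB (J + 1)
    omega
  have h7 : (u + 1) * G ≤ (B + 1) * G := Nat.mul_le_mul_right _ (mem_range.1 hu)
  have h8 := hn1 u
  have h9 := hn2 u
  rw [add_mul u, one_mul] at h7
  refine ⟨J + 1, n u + t0, by omega, by omega, by omega, by omega, ⟨by omega, by omega, ?_⟩, hu2,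
    fun t ht => ?_⟩
  · rw [Nat.add_sub_cancel, pr_eq_om (by omega) (by omega), hn3]
  · obtain ⟨a, g1, g2, g3⟩ := hth (n u + t0 + L - b - t) (by omega)
    have e : n u + t0 + (c + a - t) = h J + (a + n0 + (n u + t0 + L - b - t)) := by omega
    refine ⟨c + a - t, by omega, ?_, ?_⟩
    · rw [pr_eq_om (by omega) (by omega), e, om.selfsim h5 g1 hJ, g3]
    · rw [show t + (c + a - t) = c + a by omega, y.selfsim h2 (by omega) hJ, g2]

lemma design (y : Pt) (Hv : ℕ → Finset ℕ) (B : ℕ) (hB : ∀ k, (Hv k).card ≤ B) (r0 : ℕ) :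
    ∃ α : Adm, (∀ i, r0 ≤ α.k i ∧ α.a i ∉ Hv (α.k i)) ∧ ∀ i, ∀ t ≤ 10 * (i + 1), ∃ s,
      α.a i + s < h (α.k i) ∧ pr i (α.k i) (α.a i + s) = 0 ∧ y.P i (t + s) = 0 := by
  let e : ℕ → ℕ × ℕ × ℕ := Denumerable.ofNat _
  choose K A h1 h2 h3 h4 h5 h6 h7 using fun i k0 => design_step y Hv B hB i (e i).1
    ((e i).2.1 % h (e i).1) (e i).2.2 k0 (Nat.mod_lt _ (h_pos _))
  let k0 : ℕ → ℕ := fun i => Nat.rec r0 (fun i k => K i k) i
  have hk0 : ∀ i, k0 (i + 1) = K i (k0 i) := fun i => rfl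
  have hmono : Monotone k0 := monotone_nat_of_le_succ fun i => h1 i _
  refine ⟨⟨fun i => K i (k0 i), fun i => A i (k0 i), fun i i' hi => hmono (Nat.succ_le_succ hi),
    fun i => h2 _ _, fun i => h3 _ _, fun i => h4 _ _, fun j p t hp => ?_⟩,
    fun i => ⟨hmono (Nat.zero_le (i + 1)), h6 _ _⟩, fun i => h7 _ _⟩
  refine ⟨Encodable.encode (j, p, t), ?_⟩
  have := h5 (Encodable.encode (j, p, t)) (k0 (Encodable.encode (j, p, t)))
  simp only [e, Denumerable.ofNat_encode, Nat.mod_eq_of_lt hp] at this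
  exact this

def Adm.Mem (α : Adm) (x : Pt) : Prop := ∀ t, ∃ i, x.P (α.k i) t = α.a i

lemma common (e : ℕ → Adm) : ∃ x : Pt, ∀ n, (e n).Mem x := by
  have hs : ∀ (n j p : ℕ), p < h j → ∃ i, j + 1 ≤ (e n.unpair.1).k i ∧ n.unpair.2 ≤ (e n.unpair.1).a i ∧
      pr (j + 1) ((e n.unpair.1).k i) ((e n.unpair.1).a i - n.unpair.2) = p := fun n j p hp =>
    (e n.unpair.1).dense (j + 1) p _ (lt_of_lt_of_le hp (h_mono (Nat.le_succ j)))
  choose! I h1 h2 h3 using hs
  obtain ⟨s, hs0, hs⟩ : ∃ s : ℕ → ℕ × ℕ, s 0 = (0, 0) ∧ ∀ n, s (n + 1) =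
      ((e n.unpair.1).k (I n (s n).1 (s n).2),
        (e n.unpair.1).a (I n (s n).1 (s n).2) - n.unpair.2) :=
    ⟨fun n => Nat.rec (0, 0) (fun n q =>
      ((e n.unpair.1).k (I n q.1 q.2), (e n.unpair.1).a (I n q.1 q.2) - n.unpair.2)) n,
      rfl, fun n => rfl⟩
  have g1 : ∀ n, (s n).2 < h (s n).1 := by
    intro n
    cases n with
    | zero => rw [hs0]; exact h_pos 0
    | succ n =>
      rw [hs]
      have := (e n.unpair.1).hi (I n (s n).1 (s n).2)
      simp only
      omega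
  have g2 : ∀ n, (s n).1 + 1 ≤ (s (n + 1)).1 := fun n => by rw [hs]; exact h1 n _ _ (g1 n)
  have g3 : StrictMono fun n => (s n).1 := strictMono_nat_of_lt_succ g2
  have g3' : ∀ n, n ≤ (s n).1 := g3.id_le
  have g3'' : ∀ {m n}, m ≤ n → (s m).1 ≤ (s n).1 := fun h => g3.monotone h
  have g4 : ∀ m n, m ≤ n → pr (s m).1 (s n).1 (s n).2 = (s m).2 := by
    intro m n hmn
    induction n, hmn using Nat.le_induction with
    | base => exact pr_of_le le_rfl _
    | succ n hmn ih =>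
      have h4 : pr ((s n).1 + 1) (s (n + 1)).1 (s (n + 1)).2 = (s n).2 := by
        rw [hs]; exact h3 n _ _ (g1 n)
      rw [← pr_pr (g3'' hmn) (g3'' (Nat.le_succ n)), ← pr_proj (g2 n), h4,
        pj_small (g1 n), ih]
  have g5 : ∀ j n, j ≤ n → pr j (s n).1 (s n).2 = pr j (s j).1 (s j).2 := by
    intro j n hjn
    rw [← g4 j n hjn, pr_pr (g3' j) (g3'' hjn)]
  have g6 : ∀ n, pr (s n).1 (s (s n).1).1 (s (s n).1).2 = (s n).2 := fun n => g4 _ _ (g3' n)
  have g7 : ∀ n, (s (n + 1)).2 + n.unpair.2 = (e n.unpair.1).a (I n (s n).1 (s n).2) := by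
    intro n
    have := h2 n _ _ (g1 n)
    rw [hs]
    simp only
    omega
  have g8 : ∀ n, (s (n + 1)).2 + n.unpair.2 < h (s (n + 1)).1 := by
    intro n
    have := (e n.unpair.1).hi (I n (s n).1 (s n).2)
    rw [g7, hs]
    simp only
    omega
  obtain ⟨x, hx⟩ := exists_pt (fun j => pr j (s j).1 (s j).2)
    (fun j => by
      rw [pr_proj (g3' (j + 1)), g5 j (j + 1) (Nat.le_succ j)])
    (fun t => ⟨(s (Nat.pair 0 t + 1)).1, by
      have := g8 (Nat.pair 0 t)
      rw [Nat.unpair_pair] at this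
      rw [g6]
      exact this⟩)
  refine ⟨x, fun n t => ⟨I (Nat.pair n t) (s (Nat.pair n t)).1 (s (Nat.pair n t)).2, ?_⟩⟩
  have h4 := hx (s (Nat.pair n t + 1)).1 (Nat.pair n t).unpair.2 (by rw [g6]; exact g8 _)
  rw [g6, g7, hs] at h4
  simpa only [Nat.unpair_pair] using h4

end Pool.Agent.H52Z.IP
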