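import Mathlib
import Pool.Agent.H52Z.IP3

/-!
# The Lipschitz space attached to an admissible sequence of letters
-/

set_option autoImplicit false

open Finset Filter Topology
open scoped ENNReal ComplexConjugate

namespace Pool.Agent.H52Z.IP

variable (α : Adm)

def Om : Type := {x : Pt // α.Mem x}

variable {α}

def Om.P (x : Om α) (k t : ℕ) : ℕ := x.1.P k t

noncomputable def Om.rk (x : Om α) (t : ℕ) : ℕ := Nat.find (x.2 t)

def Om.sh (x : Om α) (n : ℕ) : Om α := ⟨x.1.sh n, fun t => x.2 (n + t)⟩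

lemma Om.rk_sh (x : Om α) (n t : ℕ) : (x.sh n).rk t = x.rk (n + t) := rfl

lemma Om.rk_spec (x : Om α) (t : ℕ) : x.1.P (α.k (x.rk t)) t = α.a (x.rk t) := Nat.find_spec (x.2 t)

lemma Om.lt_rk (x : Om α) (t κ : ℕ) : κ < x.rk t ↔ ∀ i ≤ κ, x.1.P (α.k i) t ≠ α.a i :=
  Nat.lt_find_iff _ _

lemma Om.sh_sh (x : Om α) (n : ℕ) : (x.sh n).sh 1 = x.sh (n + 1) := by
  refine Subtype.ext ?_
  change (x.1.sh n).sh 1 = x.1.sh (n + 1)
  unfold Pt.sh
  simp only [add_assoc]

lemma Om.sh_zero (x : Om α) : x.sh 0 = x := by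
  refine Subtype.ext ?_
  change x.1.sh 0 = x.1
  unfold Pt.sh
  simp only [zero_add]

lemma wt_of_rk {x x' : Om α} {t t' : ℕ} (hr : x.rk t = x'.rk t') : x.1.wt t = x'.1.wt t' := by
  have h1 := x.rk_spec t
  have h2 := x'.rk_spec t'
  have h3 := α.hi (x.rk t)
  rw [← hr] at h2
  rw [x.1.wt_eq (k := α.k (x.rk t)) (by omega), x'.1.wt_eq (k := α.k (x.rk t)) (by omega), h1, h2]

lemma edge {x x' : Om α} {s l : ℕ} (hr : x.rk s = x'.rk s) (hl : h l ≤ x.1.P l s + 1) :
    x'.1.P l s = x.1.P l s := by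
  have h1 := x.rk_spec s
  have h2 := x'.rk_spec s
  have h3 := α.hi (x.rk s)
  rw [← hr] at h2
  rcases le_or_gt (α.k (x.rk s)) l with h4 | h4
  · have := x.1.up (k := α.k (x.rk s)) (t := s) (n := 1) (by omega) h4
    omega
  · rw [← x.1.pr_eq h4.le, ← x'.1.pr_eq h4.le, h1, h2]

def R (j : ℕ) (x x' : Om α) : Prop :=
  ∀ s ≤ j, x.rk s = x'.rk s ∧ ∀ k ≤ j, x.1.P k s = x'.1.P k s

lemma R.mono {i j : ℕ} (hij : i ≤ j) {x x' : Om α} (hR : R j x x') : R i x x' :=
  fun s hs => ⟨(hR s (hs.trans hij)).1, fun k hk => (hR s (hs.trans hij)).2 k (hk.trans hij)⟩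

lemma R.symm {j : ℕ} {x x' : Om α} (hR : R j x x') : R j x' x :=
  fun s hs => ⟨(hR s hs).1.symm, fun k hk => ((hR s hs).2 k hk).symm⟩

lemma R.sh {j : ℕ} {x x' : Om α} (hR : R (j + 1) x x') : R j (x.sh 1) (x'.sh 1) :=
  fun s hs => ⟨(hR (1 + s) (by omega)).1, fun k hk => (hR (1 + s) (by omega)).2 k (by omega)⟩

lemma R.W {j n : ℕ} {x x' : Om α} (hR : R j x x') (hn : n ≤ j) : x.1.W n = x'.1.W n :=
  prod_congr rfl fun s hs => wt_of_rk (hR s (by have := mem_range.1 hs; omega)).1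

open Classical in
noncomputable def wa : ℕ × Om α × Om α → ℂ
  | (0, _) => 1
  | (j + 1, p) => if R j p.1 p.2 then 2 ^ j else 0

open Classical in
noncomputable def wb : ℕ × Om α × Om α → ℂ
  | (0, _) => 0
  | (j + 1, p) => if R j p.1 p.2 then 2 ^ j else 0

noncomputable def comp (b : Om α → ℂ) (p : ℕ × Om α × Om α) : ℂ := wa p * b p.2.1 - wb p * b p.2.2

lemma comp_zero (b : Om α → ℂ) (x x' : Om α) : comp b (0, x, x') = b x := by simp [comp, wa, wb]

lemma comp_pos (b : Om α → ℂ) {j : ℕ} {x x' : Om α} (hR : R j x x') :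
    comp b (j + 1, x, x') = 2 ^ j * (b x - b x') := by
  simp only [comp, wa, wb, if_pos hR]
  ring

lemma comp_neg (b : Om α → ℂ) {j : ℕ} {x x' : Om α} (hR : ¬ R j x x') :
    comp b (j + 1, x, x') = 0 := by
  simp [comp, wa, wb, if_neg hR]

variable (α)

abbrev L : Type := lp (fun _ : ℕ × Om α × Om α => ℂ) ∞

variable {α}

noncomputable def evL (p : ℕ × Om α × Om α) : L α →L[ℂ] ℂ :=
  lp.evalCLM ℂ (fun _ : ℕ × Om α × Om α => ℂ) ∞ p

variable (α)

noncomputable def Zs : Submodule ℂ (L α) where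
  carrier := {F | ∀ p, evL p F = comp (fun x => evL (0, x, x) F) p}
  add_mem' := by
    intro F G hF hG p
    have h1 := hF p
    have h2 := hG p
    simp only [comp, map_add] at h1 h2 ⊢
    rw [h1, h2]
    ring
  zero_mem' := by
    intro p
    simp [comp]
  smul_mem' := by
    intro c F hF p
    have h1 := hF p
    simp only [comp, map_smul, smul_eq_mul] at h1 ⊢
    rw [h1]
    ring

def Z : Type := ↥(Zs α)

noncomputable instance : NormedAddCommGroup (Z α) := inferInstanceAs (NormedAddCommGroup ↥(Zs α))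

noncomputable instance : NormedSpace ℂ (Z α) := inferInstanceAs (NormedSpace ℂ ↥(Zs α))

variable {α}

def Z.toL (F : Z α) : L α := Subtype.val F

noncomputable def cp (p : ℕ × Om α × Om α) : Z α →L[ℂ] ℂ :=
  ((evL p).comp (Zs α).subtypeL : ↥(Zs α) →L[ℂ] ℂ)

noncomputable def ev (x : Om α) : Z α →L[ℂ] ℂ := cp (0, x, x)

lemma cp_apply (p : ℕ × Om α × Om α) (F : Z α) : cp p F = comp (fun x => ev x F) p :=
  Subtype.property (p := fun x => x ∈ Zs α) F p

lemma norm_cp_le (p : ℕ × Om α × Om α) (F : Z α) : ‖cp p F‖ ≤ ‖F‖ :=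
  lp.norm_apply_le_norm ENNReal.top_ne_zero F.toL p

lemma norm_ev_le (x : Om α) (F : Z α) : ‖ev x F‖ ≤ ‖F‖ := norm_cp_le _ _

lemma ev_sub {j : ℕ} {x x' : Om α} (hR : R j x x') (F : Z α) :
    2 ^ j * ‖ev x F - ev x' F‖ ≤ ‖F‖ := by
  have := norm_cp_le (j + 1, x, x') F
  rwa [cp_apply, comp_pos _ hR, norm_mul, norm_pow, Complex.norm_two] at this

lemma Z_ext {F G : Z α} (hFG : ∀ x, ev x F = ev x G) : F = G := by
  refine Subtype.ext (lp.ext (funext fun p => ?_))
  change cp p F = cp p G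
  rw [cp_apply, cp_apply, funext hFG]

lemma exists_Z (b : Om α → ℂ) {C : ℝ} (hC : 0 ≤ C) (h1 : ∀ x, ‖b x‖ ≤ C)
    (h2 : ∀ j x x', R j x x' → 2 ^ j * ‖b x - b x'‖ ≤ C) :
    ∃ F : Z α, ‖F‖ ≤ C ∧ ∀ x, ev x F = b x := by
  have h3 : ∀ p, ‖comp b p‖ ≤ C := by
    rintro ⟨j, x, x'⟩
    cases j with
    | zero => rw [comp_zero]; exact h1 x
    | succ j =>
      by_cases hR : R j x x'
      · rw [comp_pos _ hR, norm_mul, norm_pow, Complex.norm_two]
        exact h2 j x x' hR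
      · rw [comp_neg _ hR, norm_zero]
        exact hC
  have hm : Memℓp (comp b) ∞ := memℓp_infty ⟨C, by rintro _ ⟨p, rfl⟩; exact h3 p⟩
  let F : L α := ⟨comp b, hm⟩
  have hF : ∀ p, evL p F = comp b p := fun p => rfl
  have hb : (fun x => evL (0, x, x) F) = b := funext fun x => by rw [hF, comp_zero]
  exact ⟨⟨F, fun p => by rw [hb, hF]⟩, lp.norm_le_of_forall_le (f := F) hC h3,
    fun x => congrFun hb x⟩

lemma exists_Z' (b : Om α → ℂ) {C : ℝ} (hC : 0 ≤ C) (j : ℕ) (h1 : ∀ x, ‖b x‖ ≤ C)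
    (h2 : ∀ x x', R j x x' → b x = b x') : ∃ F : Z α, ‖F‖ ≤ 2 ^ j * C ∧ ∀ x, ev x F = b x := by
  have h0 : (1 : ℝ) ≤ 2 ^ j := one_le_pow₀ one_le_two
  refine exists_Z b (by positivity) (fun x => (h1 x).trans (by nlinarith)) fun i x x' hR => ?_
  rcases le_or_gt j i with h3 | h3
  · rw [h2 x x' (hR.mono h3), sub_self, norm_zero, mul_zero]
    positivity
  · have h4 : (2 : ℝ) ^ (i + 1) ≤ 2 ^ j := pow_le_pow_right₀ one_le_two h3
    have h5 := norm_sub_le (b x) (b x')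
    have h6 := h1 x
    have h7 := h1 x'
    have h8 : (0 : ℝ) < 2 ^ i := by positivity
    rw [pow_succ] at h4
    nlinarith

lemma norm_wt (x : Pt) (t : ℕ) : ‖(x.wt t : ℂ)‖ = 1 := by
  rcases x.wt_sign t with h | h <;> simp [h]

lemma exists_shift (F : Z α) :
    ∃ G : Z α, ‖G‖ ≤ 2 * ‖F‖ ∧ ∀ x, ev x G = (x.1.wt 0 : ℂ) * ev (x.sh 1) F := by
  have h0 := norm_nonneg F
  refine exists_Z _ (by positivity) (fun x => ?_) fun j x x' hR => ?_
  · rw [norm_mul, norm_wt, one_mul]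
    have := norm_ev_le (x.sh 1) F
    linarith
  · rw [wt_of_rk (hR 0 (Nat.zero_le _)).1, ← mul_sub, norm_mul, norm_wt, one_mul]
    cases j with
    | zero =>
      have h1 := norm_sub_le (ev (x.sh 1) F) (ev (x'.sh 1) F)
      have h2 := norm_ev_le (x.sh 1) F
      have h3 := norm_ev_le (x'.sh 1) F
      linarith
    | succ j =>
      have := ev_sub hR.sh F
      rw [pow_succ]
      linarith

noncomputable def shiftFun (F : Z α) : Z α := (exists_shift F).choose

lemma ev_shiftFun (F : Z α) (x : Om α) : ev x (shiftFun F) = (x.1.wt 0 : ℂ) * ev (x.sh 1) F :=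
  (exists_shift F).choose_spec.2 x

noncomputable def shiftLin : Z α →ₗ[ℂ] Z α where
  toFun := shiftFun
  map_add' F G := Z_ext fun x => by
    simp only [map_add, ev_shiftFun, mul_add]
  map_smul' c F := Z_ext fun x => by
    simp only [map_smul, ev_shiftFun, RingHom.id_apply, smul_eq_mul]
    ring

variable (α)

noncomputable def SS : Z α →L[ℂ] Z α :=
  shiftLin.mkContinuous 2 fun F => (exists_shift F).choose_spec.1

variable {α}

lemma ev_SS (F : Z α) (x : Om α) : ev x (SS α F) = (x.1.wt 0 : ℂ) * ev (x.sh 1) F :=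
  (exists_shift F).choose_spec.2 x

lemma norm_SS (F : Z α) : ‖SS α F‖ ≤ 2 * ‖F‖ := (exists_shift F).choose_spec.1

lemma ev_SS_pow (n : ℕ) (F : Z α) (x : Om α) :
    ev x ((SS α ^ n) F) = (x.1.W n : ℂ) * ev (x.sh n) F := by
  induction n generalizing F with
  | zero => simp [Pt.W, Om.sh_zero]
  | succ n ih =>
    rw [pow_succ]
    change ev x ((SS α ^ n) (SS α F)) = _
    rw [ih, ev_SS, Om.sh_sh, Pt.W_succ]
    push_cast
    rw [mul_assoc]
    rfl

lemma exists_ind (k p : ℕ) : ∃ F : Z α, ‖F‖ ≤ 2 ^ k * 1 ∧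
    ∀ x, ev x F = if x.1.P k 0 = p then 1 else 0 :=
  exists_Z' _ zero_le_one k (fun x => by split_ifs <;> simp)
    fun x x' hR => by rw [(hR 0 (Nat.zero_le _)).2 k le_rfl]

variable (α)

noncomputable def ind (k p : ℕ) : Z α := (exists_ind k p).choose

noncomputable def lev (k : ℕ) (H : ℕ → ℂ) : Z α := ∑ p ∈ range (h k + 1), H p • ind α k p

variable {α}

lemma ev_ind (k p : ℕ) (x : Om α) : ev x (ind α k p) = if x.1.P k 0 = p then 1 else 0 :=
  (exists_ind k p).choose_spec.2 x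

lemma norm_ind (k p : ℕ) : ‖ind α k p‖ ≤ 2 ^ k := by
  have : ‖ind α k p‖ ≤ 2 ^ k * 1 := (exists_ind (α := α) k p).choose_spec.1
  rwa [mul_one] at this

lemma ev_lev (k : ℕ) (H : ℕ → ℂ) (x : Om α) : ev x (lev α k H) = H (x.1.P k 0) := by
  rw [lev, map_sum, sum_eq_single (x.1.P k 0)]
  · simp [ev_ind]
  · intro p _ hp
    simp [ev_ind, hp.symm]
  · intro hp
    exact absurd (mem_range.2 (Nat.lt_succ_of_le (x.1.le k 0))) hp

lemma apply_lev (f : Z α →L[ℂ] ℂ) (k : ℕ) (H : ℕ → ℂ) :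
    f (lev α k H) = ∑ p ∈ range (h k + 1), H p * f (ind α k p) := by
  simp [lev, map_sum]

lemma lev_refine {j k : ℕ} (hk : j ≤ k) (H : ℕ → ℂ) :
    lev α j H = lev α k fun p => H (pr j k p) :=
  Z_ext fun x => by rw [ev_lev, ev_lev, x.1.pr_eq hk]

lemma transport {k p t : ℕ} (hp : p + t < h k) :
    (SS α ^ t) (ind α k (p + t)) = ((Φ k (p + t) * Φ k p : ℝ) : ℂ) • ind α k p :=
  Z_ext fun x => by
    rw [ev_SS_pow, map_smul, ev_ind, ev_ind, smul_eq_mul]
    change _ * (if x.1.P k (t + 0) = p + t then 1 else 0) = _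
    by_cases h1 : x.1.P k 0 = p
    · have h2 := x.1.add (k := k) (t := 0) (n := t) (by omega)
      rw [zero_add] at h2
      rw [if_pos h1, add_zero, if_pos (by omega), x.1.W_eq (k := k) (by omega), h1]
    · rw [if_neg h1, if_neg, mul_zero, mul_zero]
      intro h2
      rw [add_zero] at h2
      have := x.1.back (k := k) (t := 0) (n := t) (by rw [zero_add]; omega) (by rw [zero_add]; omega)
      rw [zero_add] at this
      omega

lemma exists_sign (G : ℕ → ℂ) : ∃ H : ℕ → ℂ, (∀ p, ‖H p‖ ≤ 1) ∧ ∀ p, H p * G p = (‖G p‖ : ℝ) := by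
  refine ⟨fun p => conj (G p) / (‖G p‖ : ℝ), fun p => ?_, fun p => ?_⟩
  · rw [norm_div, Complex.norm_conj, Complex.norm_real, norm_norm]
    exact div_self_le_one _
  · by_cases h0 : G p = 0
    · simp [h0]
    · have : ((‖G p‖ : ℝ) : ℂ) ≠ 0 := by simpa using h0
      rw [div_mul_eq_mul_div, Complex.conj_mul', div_eq_iff this]
      ring

noncomputable def TV (f : Z α →L[ℂ] ℂ) (k : ℕ) : ℝ := ∑ p ∈ range (h k + 1), ‖f (ind α k p)‖

lemma norm_lev_le (f : Z α →L[ℂ] ℂ) (k : ℕ) {H : ℕ → ℂ} (E : ℕ → Prop) [DecidablePred E]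
    (hH : ∀ p, ‖H p * f (ind α k p)‖ ≤ if E p then ‖f (ind α k p)‖ else 0) :
    ‖f (lev α k H)‖ ≤ ∑ p ∈ range (h k + 1) with E p, ‖f (ind α k p)‖ := by
  rw [apply_lev, sum_filter]
  exact (norm_sum_le _ _).trans (sum_le_sum fun p _ => hH p)

lemma exists_lev (f : Z α →L[ℂ] ℂ) (k : ℕ) (E : ℕ → Prop) [DecidablePred E] :
    ∃ H : ℕ → ℂ, (∀ p, ‖H p‖ ≤ if E p then 1 else 0) ∧
      f (lev α k H) = (∑ p ∈ range (h k + 1) with E p, ‖f (ind α k p)‖ : ℝ) := by
  obtain ⟨H, h1, h2⟩ := exists_sign fun p => f (ind α k p)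
  refine ⟨fun p => if E p then H p else 0, fun p => by by_cases hp : E p <;> simp [hp, h1], ?_⟩
  rw [apply_lev, sum_filter, Complex.ofReal_sum]
  refine sum_congr rfl fun p _ => ?_
  split_ifs
  · exact h2 p
  · simp

lemma refine_le (f : Z α →L[ℂ] ℂ) {k l : ℕ} (hl : k ≤ l) (E : ℕ → Prop) [DecidablePred E] :
    ∑ p ∈ range (h k + 1) with E p, ‖f (ind α k p)‖ ≤
      ∑ p ∈ range (h l + 1) with E (pr k l p), ‖f (ind α l p)‖ := by
  obtain ⟨H, h1, h2⟩ := exists_lev f k E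
  have h3 := norm_lev_le f l (H := fun p => H (pr k l p)) (fun p => E (pr k l p)) fun p => by
    have := h1 (pr k l p)
    rw [norm_mul]
    split_ifs at this ⊢
    · exact mul_le_of_le_one_left (norm_nonneg _) this
    · rw [norm_le_zero_iff.1 this, norm_zero, zero_mul]
  rw [← lev_refine hl, h2, Complex.norm_real] at h3
  exact (le_abs_self _).trans h3

lemma TV_mono (f : Z α →L[ℂ] ℂ) : Monotone (TV f) := fun k l hl => by
  simpa [TV] using refine_le f hl fun _ => True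

lemma noncancel (f : Z α →L[ℂ] ℂ) {k l : ℕ} (hl : k ≤ l) (E : ℕ → Prop) [DecidablePred E] :
    ∑ p ∈ range (h l + 1) with E (pr k l p), ‖f (ind α l p)‖ ≤
      ∑ p ∈ range (h k + 1) with E p, ‖f (ind α k p)‖ + (TV f l - TV f k) := by
  have h1 := refine_le f hl fun p => ¬ E p
  have h2 := sum_filter_add_sum_filter_not (range (h l + 1)) (fun p => E (pr k l p))
    fun p => ‖f (ind α l p)‖
  have h3 := sum_filter_add_sum_filter_not (range (h k + 1)) E fun p => ‖f (ind α k p)‖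
  unfold TV
  linarith

lemma ind_eq_zero {k p : ℕ} (hp : ∀ x : Om α, x.1.P k 0 ≠ p) : ind α k p = 0 :=
  Z_ext fun x => by rw [ev_ind, if_neg (hp x), map_zero]

lemma noncancel' (f : Z α →L[ℂ] ℂ) {k l : ℕ} (hl : k ≤ l) (p : ℕ) :
    ‖f (ind α l p)‖ ≤ ‖f (ind α k (pr k l p))‖ + (TV f l - TV f k) := by
  have h0 := TV_mono f hl
  by_cases hp : p ≤ h l
  · have h1 := noncancel f hl fun q => q = pr k l p
    have h2 : ‖f (ind α l p)‖ ≤ ∑ p' ∈ range (h l + 1) with pr k l p' = pr k l p,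
        ‖f (ind α l p')‖ :=
      single_le_sum (f := fun p' => ‖f (ind α l p')‖) (fun _ _ => norm_nonneg _)
        (mem_filter.2 ⟨mem_range.2 (by omega), rfl⟩)
    have h3 : ∑ q ∈ range (h k + 1) with q = pr k l p, ‖f (ind α k q)‖ ≤
        ∑ q ∈ {pr k l p}, ‖f (ind α k q)‖ :=
      sum_le_sum_of_subset_of_nonneg (fun q hq => mem_singleton.2 (mem_filter.1 hq).2)
        fun _ _ _ => norm_nonneg _
    rw [sum_singleton] at h3
    linarith
  · rw [ind_eq_zero fun x hx => hp (by rw [← hx]; exact x.1.le l 0), map_zero, norm_zero]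
    have := norm_nonneg (f (ind α k (pr k l p)))
    linarith

lemma card_good (x : Om α) (κ : ℕ) :
    5 * (κ + 1) ≤ ((range (10 * (κ + 1))).filter fun t => κ < x.rk t).card := by
  set Rr := 10 * (κ + 1) with hR
  have h1 := card_filter_add_card_filter_not (s := range Rr) fun t => κ < x.rk t
  have h2 : ((range Rr).filter fun t => ¬ κ < x.rk t) ⊆ (range (κ + 1)).biUnion
      fun i => (range Rr).filter fun t => x.1.P (α.k i) t = α.a i := by
    intro t ht
    rw [mem_filter] at ht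
    exact mem_biUnion.2 ⟨x.rk t, mem_range.2 (by omega), mem_filter.2 ⟨ht.1, x.rk_spec t⟩⟩
  have h3 := (card_le_card h2).trans card_biUnion_le
  have h4 : ((∑ i ∈ range (κ + 1), ((range Rr).filter fun t => x.1.P (α.k i) t = α.a i).card : ℕ) : ℝ)
      ≤ ∑ i ∈ range (κ + 1), ((Rr : ℝ) / 8 * (1 / 2) ^ i + 1) := by
    rw [Nat.cast_sum]
    refine sum_le_sum fun i _ => ?_
    have h5 : (((range Rr).filter fun t => x.1.P (α.k i) t = α.a i).card : ℝ) ≤
        ((Rr / h (α.k i) : ℕ) : ℝ) + 1 := by exact_mod_cast x.1.card_hits (α.k i) (α.a i) Rr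
    have h6 : ((2 ^ (i + 3) : ℕ) : ℝ) ≤ h (α.k i) := by
      exact_mod_cast (pow_le_h _).trans (h_mono (α.big i))
    have h7 : (Rr : ℝ) / h (α.k i) ≤ Rr / ((2 ^ (i + 3) : ℕ) : ℝ) :=
      div_le_div_of_nonneg_left (Nat.cast_nonneg _) (by positivity) h6
    have h8 : (Rr : ℝ) / ((2 ^ (i + 3) : ℕ) : ℝ) = Rr / 8 * (1 / 2) ^ i := by
      push_cast
      rw [pow_add, one_div, inv_pow]
      field_simp
      norm_num
    have h9 : ((Rr / h (α.k i) : ℕ) : ℝ) ≤ (Rr : ℝ) / h (α.k i) := Nat.cast_div_le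
    linarith
  rw [sum_add_distrib, ← mul_sum, sum_const, card_range, nsmul_eq_mul, mul_one] at h4
  have h5 : ∑ i ∈ range (κ + 1), (1 / 2 : ℝ) ^ i ≤ 2 := sum_geometric_two_le _
  have h6 : (Rr : ℝ) = 10 * (κ + 1) := by rw [hR]; push_cast; ring
  have h7 : (((range Rr).filter fun t => ¬ κ < x.rk t).card : ℝ) ≤ 5 * (κ + 1) := by
    refine (Nat.cast_le.2 h3).trans (h4.trans ?_)
    have h8 : (0 : ℝ) ≤ κ := Nat.cast_nonneg _
    push_cast
    rw [h6]
    nlinarith
  have h8 : ((range Rr).filter fun t => ¬ κ < x.rk t).card ≤ 5 * (κ + 1) := by exact_mod_cast h7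
  rw [card_range] at h1
  omega

lemma determ {x x' : Om α} {κ t : ℕ} (ht : t < 10 * (κ + 1)) (hr : x.rk t = x'.rk t)
    (hκ : κ < x.rk t) : (∀ s < 10 * (κ + 1), ∀ k ≤ α.k (x.rk t), x.1.P k s = x'.1.P k s) ∧
      x.1.W t = x'.1.W t := by
  have h1 := x.rk_spec t
  have h2 := x'.rk_spec t
  rw [← hr] at h2
  have h3 := α.hi (x.rk t)
  have h4 := α.lo (x.rk t)
  have h5 := x.1.back (k := α.k (x.rk t)) (t := 0) (n := t) (by rw [zero_add]; omega)
    (by rw [zero_add]; omega)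
  have h6 := x'.1.back (k := α.k (x.rk t)) (t := 0) (n := t) (by rw [zero_add]; omega)
    (by rw [zero_add]; omega)
  rw [zero_add] at h5 h6
  have h7 : x.1.P (α.k (x.rk t)) 0 = x'.1.P (α.k (x.rk t)) 0 := by omega
  refine ⟨fun s hs k hk => ?_, ?_⟩
  · have h8 := x.1.add (k := α.k (x.rk t)) (t := 0) (n := s) (by omega)
    have h9 := x'.1.add (k := α.k (x.rk t)) (t := 0) (n := s) (by omega)
    rw [zero_add] at h8 h9
    rw [← x.1.pr_eq hk, ← x'.1.pr_eq hk, h8, h9, h7]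
  · rw [x.1.W_eq (k := α.k (x.rk t)) (by omega), x'.1.W_eq (k := α.k (x.rk t)) (by omega), h7]

lemma TV_le (f : Z α →L[ℂ] ℂ) {M : ℝ} (hM : ∀ t F, ‖f ((SS α ^ t) F)‖ ≤ M * ‖F‖) (hM0 : 0 ≤ M)
    (k : ℕ) : TV f k ≤ 2 * M := by
  classical
  obtain ⟨H, h1, h2⟩ := exists_lev f k fun _ => True
  simp only [if_true, filter_true] at h1 h2
  set Rr := 10 * (k + 1) with hR
  let N : Om α → ℕ := fun x => ((range Rr).filter fun t => k < x.rk t).card
  have hN : ∀ x, (5 * (k + 1) : ℝ) ≤ N x := fun x => by exact_mod_cast card_good x k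
  have hk : (0 : ℝ) < 5 * (k + 1) := by positivity
  let b : ℕ → Om α → ℂ := fun t x =>
    if k < x.rk t then H (x.1.P k 0) * x.1.W t / N x else 0
  have hb : ∀ t x, ‖b t x‖ ≤ 1 / (5 * (k + 1)) := by
    intro t x
    simp only [b]
    split_ifs
    · rw [norm_div, norm_mul, x.1.norm_W, mul_one, Complex.norm_natCast]
      exact div_le_div₀ zero_le_one (h1 _) hk (hN x)
    · rw [norm_zero]
      positivity
  have hdet : ∀ t < Rr, ∀ x x' : Om α, x.rk t = x'.rk t → b t x = b t x' := by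
    intro t ht x x' hr
    simp only [b, ← hr]
    split_ifs with hκ
    · obtain ⟨h3, h4⟩ := determ ht hr hκ
      have h5 := α.big (x.rk t)
      have h6 : N x = N x' := by
        refine congrArg card (filter_congr fun s hs => ?_)
        rw [Om.lt_rk, Om.lt_rk]
        refine forall₂_congr fun i hi => ?_
        rw [h3 s (mem_range.1 hs) _ (α.mono (by omega))]
      rw [h3 0 (by omega) k (by omega), h4, h6]
    · rfl
  let γ : ℕ → ℕ → ℂ := fun t i => if hx : ∃ x : Om α, x.rk t = i then b t hx.choose else 0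
  have hγ : ∀ t < Rr, ∀ x : Om α, γ t (x.rk t) = b t x := by
    intro t ht x
    have hx : ∃ x' : Om α, x'.rk t = x.rk t := ⟨x, rfl⟩
    simp only [γ, dif_pos hx]
    exact hdet t ht _ _ hx.choose_spec
  have hg : ∀ t, ∃ F : Z α, ‖F‖ ≤ 2 ^ 0 * (1 / (5 * (k + 1))) ∧ ∀ x, ev x F = γ t (x.rk 0) :=
    fun t => exists_Z' _ (by positivity) 0 (fun x => by
      simp only [γ]
      split_ifs
      · exact hb _ _
      · rw [norm_zero]
        positivity) fun x x' hR => by rw [(hR 0 le_rfl).1]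
  choose g hg1 hg2 using hg
  have h3 : lev α k H = ∑ t ∈ range Rr, (SS α ^ t) (g t) := by
    refine Z_ext fun x => ?_
    have h4 : ∀ t ∈ range Rr, ev x ((SS α ^ t) (g t)) =
        if k < x.rk t then H (x.1.P k 0) / N x else 0 := by
      intro t ht
      rw [ev_SS_pow, hg2, Om.rk_sh, add_zero, hγ t (mem_range.1 ht)]
      simp only [b]
      split_ifs
      · rcases x.1.W_sign t with h5 | h5 <;> rw [h5] <;> push_cast <;> ring
      · simp
    have h5 : (N x : ℂ) ≠ 0 := by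
      have := hN x
      rw [Nat.cast_ne_zero]
      rintro h6
      rw [h6, Nat.cast_zero] at this
      linarith
    rw [ev_lev, map_sum, sum_congr rfl h4, ← sum_filter, sum_const, nsmul_eq_mul]
    change _ = (N x : ℂ) * _
    field_simp
  have h4 : ‖f (lev α k H)‖ ≤ ∑ _t ∈ range Rr, M * (1 / (5 * (k + 1))) := by
    rw [h3, map_sum]
    refine (norm_sum_le _ _).trans (sum_le_sum fun t _ => (hM t _).trans ?_)
    have := hg1 t
    rw [pow_zero, one_mul] at this
    exact mul_le_mul_of_nonneg_left this hM0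
  rw [h2, Complex.norm_real, sum_const, card_range, nsmul_eq_mul, hR] at h4
  refine (le_abs_self _).trans (h4.trans (le_of_eq ?_))
  push_cast
  field_simp
  ring

end Pool.Agent.H52Z.IP
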