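import Mathlib
import Pool.Agent.H52Z.IP4

/-!
# Uniformly recurrent functionals have atoms
-/

set_option autoImplicit false

open Finset Filter Topology
open scoped ComplexConjugate

namespace Pool.Agent.H52Z.IP

variable {α : Adm}

noncomputable def Tn (n : ℕ) (f : Z α →L[ℂ] ℂ) : Z α →L[ℂ] ℂ := f.comp (SS α ^ n)

lemma Tn_apply (n : ℕ) (f : Z α →L[ℂ] ℂ) (F : Z α) : Tn n f F = f ((SS α ^ n) F) := rfl

lemma Tn_zero (f : Z α →L[ℂ] ℂ) : Tn 0 f = f := by
  ext F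
  simp [Tn_apply]

lemma Tn_add (m n : ℕ) (f : Z α →L[ℂ] ℂ) : Tn (m + n) f = Tn n (Tn m f) := by
  ext F
  rw [Tn_apply, pow_add]
  rfl

lemma norm_SS_pow (n : ℕ) (F : Z α) : ‖(SS α ^ n) F‖ ≤ 2 ^ n * ‖F‖ := by
  induction n with
  | zero => simp
  | succ n ih =>
    rw [pow_succ']
    refine (norm_SS ((SS α ^ n) F)).trans ?_
    rw [pow_succ]
    linarith

def Tight (f : Z α →L[ℂ] ℂ) : Prop :=
  ∀ (F : ℕ → Z α) (C : ℝ), (∀ l, ‖F l‖ ≤ C) → (∀ x, ∀ᶠ l in atTop, ev x (F l) = 0) →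
    Tendsto (fun l => f (F l)) atTop (𝓝 0)

lemma Tight.Tn {f : Z α →L[ℂ] ℂ} (hf : Tight f) (n : ℕ) : Tight (Tn n f) := by
  intro F C h1 h2
  refine hf (fun l => (SS α ^ n) (F l)) (2 ^ n * C)
    (fun l => (norm_SS_pow n _).trans (mul_le_mul_of_nonneg_left (h1 l) (by positivity)))
    fun x => (h2 (x.sh n)).mono fun l hl => by rw [ev_SS_pow, hl, mul_zero]

lemma Tight.ev_lt {g : Z α →L[ℂ] ℂ} (hg : Tight g) (Q : ℕ → ℕ → Prop) {C : ℝ} (hC : 0 ≤ C)
    (hn : ∀ k q, Q k q → ‖ind α k q‖ ≤ C)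
    (h0 : ∀ x : Om α, ∀ᶠ k in atTop, ∀ q, Q k q → x.1.P k 0 ≠ q) {η : ℝ} (hη : 0 < η) :
    ∀ᶠ k in atTop, ∀ q, Q k q → ‖g (ind α k q)‖ < η := by
  classical
  let F : ℕ → Z α := fun k =>
    if hq : ∃ q, Q k q ∧ η ≤ ‖g (ind α k q)‖ then ind α k hq.choose else 0
  have h1 := hg F C (fun k => by
      simp only [F]
      split_ifs with hq
      · exact hn _ _ hq.choose_spec.1
      · simpa using hC)
    fun x => (h0 x).mono fun k hk => by
      simp only [F]
      split_ifs with hq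
      · rw [ev_ind, if_neg (hk _ hq.choose_spec.1)]
      · exact map_zero _
  refine (h1.norm.eventually (gt_mem_nhds (by simpa using hη))).mono fun k hk q hq => ?_
  by_contra h2
  have h3 : ∃ q, Q k q ∧ η ≤ ‖g (ind α k q)‖ := ⟨q, hq, not_lt.1 h2⟩
  simp only [F, dif_pos h3] at hk
  exact absurd h3.choose_spec.2 (not_le.2 hk)

lemma edge2 {x x' : Om α} {n l : ℕ} (hR : R n x x') (hl : h l ≤ x.1.P l 0 + n) :
    x'.1.P l 0 = x.1.P l 0 := by
  have h0 := x.1.le l 0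
  rcases h0.eq_or_lt with h1 | h1
  · exact edge (hR 0 (Nat.zero_le _)).1 (by omega)
  · have h2 := x.1.add (k := l) (t := 0) (n := h l - 1 - x.1.P l 0) (by omega)
    rw [zero_add] at h2
    have h3 := edge (l := l) (hR (h l - 1 - x.1.P l 0) (by omega)).1 (by omega)
    have h4 := x'.1.back (k := l) (t := 0) (n := h l - 1 - x.1.P l 0)
      (by rw [zero_add]; omega) (by rw [zero_add]; omega)
    rw [zero_add] at h4
    omega

lemma norm_le_of_meas (F : Z α) (j : ℕ) (h1 : ∀ x, ‖ev x F‖ ≤ 1)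
    (h2 : ∀ x x', R j x x' → ev x F = ev x' F) : ‖F‖ ≤ 2 ^ j := by
  obtain ⟨G, h3, h4⟩ := exists_Z' (fun x => ev x F) zero_le_one j h1 h2
  rw [← Z_ext h4]
  rwa [mul_one] at h3

lemma norm_ev_ind (k p : ℕ) (x : Om α) : ‖ev x (ind α k p)‖ ≤ 1 := by
  rw [ev_ind]
  split_ifs <;> simp

lemma norm_ind_edge {k q t : ℕ} (hq : h k ≤ q + t) : ‖ind α k q‖ ≤ 2 ^ t :=
  norm_le_of_meas _ t (norm_ev_ind k q) fun x x' hR => by
    rw [ev_ind, ev_ind]
    by_cases h1 : x.1.P k 0 = q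
    · rw [edge2 hR (by omega)]
    · by_cases h2 : x'.1.P k 0 = q
      · rw [edge2 hR.symm (by omega)]
      · rw [if_neg h1, if_neg h2]

lemma Tight.edge_lt {g : Z α →L[ℂ] ℂ} (hg : Tight g) (t : ℕ) {η : ℝ} (hη : 0 < η) :
    ∀ᶠ k in atTop, ∀ q, h k ≤ q + t → ‖g (ind α k q)‖ < η :=
  hg.ev_lt (fun k q => h k ≤ q + t) (C := 2 ^ t) (by positivity) (fun _ _ hq => norm_ind_edge hq)
    (fun x => by
      obtain ⟨κ, hκ⟩ := x.1.fin' 0 t
      exact (eventually_ge_atTop κ).mono fun k hk q hq => by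
        have := hκ k hk
        omega) hη

lemma Tight.low {g : Z α →L[ℂ] ℂ} (hg : Tight g) {η : ℝ} (hη : 0 < η) :
    ∀ᶠ k in atTop, ∀ q, η ≤ ‖g (ind α k q)‖ → ∃ i, α.k i ≤ k ∧ pr (α.k i) k q = α.a i := by
  have key : ∀ (x : Om α) k q, (¬ ∃ i, α.k i ≤ k ∧ pr (α.k i) k q = α.a i) → α.k (x.rk 0) ≤ k →
      x.1.P k 0 ≠ q := by
    intro x k q h1 h2 h3
    exact h1 ⟨x.rk 0, h2, by rw [← h3, x.1.pr_eq h2, x.rk_spec]⟩
  refine (hg.ev_lt (fun k q => ¬ ∃ i, α.k i ≤ k ∧ pr (α.k i) k q = α.a i) (C := 2 ^ 0)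
    (by positivity) (fun k q hq => norm_le_of_meas _ 0 (norm_ev_ind k q) fun x x' hR => ?_)
    (fun x => (eventually_ge_atTop _).mono fun k hk q hq => key x k q hq hk) hη).mono
    fun k hk q hq => ?_
  · have h1 := (hR 0 le_rfl).1
    rw [ev_ind, ev_ind]
    rcases le_or_gt (α.k (x.rk 0)) k with h2 | h2
    · rw [if_neg (key x k q hq h2), if_neg (key x' k q hq (h1 ▸ h2))]
    · rw [← x.1.pr_eq h2.le, ← x'.1.pr_eq h2.le, x.rk_spec, h1, x'.rk_spec]
  · by_contra h1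
    exact absurd (hk q h1) (not_lt.2 hq)

lemma dom {f : Z α →L[ℂ] ℂ} (hf : Tight f) {M : ℝ} (hM : ∀ k, TV f k ≤ M) (n k : ℕ)
    {H : ℕ → ℂ} (hH : ∀ p, ‖H p‖ ≤ 1) (E : ℕ → Prop) [DecidablePred E]
    (hE : ∀ x : Om α, H (x.1.P k n) ≠ 0 → E (x.1.P k 0)) :
    ‖Tn n f (lev α k H)‖ ≤ ∑ q ∈ range (h k + 1) with E q, ‖f (ind α k q)‖ + (M - TV f k) := by
  let c : ℕ → ℕ → ℂ := fun l p =>
    if p + n < h l then ((Φ l (p + n) * Φ l p : ℝ) : ℂ) * H (pr k l (p + n)) else 0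
  let Rem : ℕ → Z α := fun l => if k ≤ l then (SS α ^ n) (lev α k H) - lev α l (c l) else 0
  have hRem : ∀ l, k ≤ l → ∀ x : Om α, ev x (Rem l) =
      if x.1.P l 0 + n < h l then 0 else (x.1.W n : ℂ) * H (x.1.P k n) := by
    intro l hl x
    simp only [Rem, if_pos hl, c]
    rw [map_sub, ev_SS_pow, ev_lev, ev_lev]
    change _ * H (x.1.P k (n + 0)) - _ = _
    rw [add_zero]
    split_ifs with h1
    · have h2 := x.1.add h1
      rw [zero_add] at h2
      rw [← x.1.W_eq h1, ← h2, x.1.pr_eq hl, sub_self]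
    · rw [sub_zero]
  have h1 := hf Rem (2 ^ max n k) (fun l => by
      by_cases hl : k ≤ l
      · refine norm_le_of_meas _ _ (fun x => ?_) fun x x' hR => ?_
        · rw [hRem l hl]
          split_ifs
          · simp
          · rw [norm_mul, x.1.norm_W, one_mul]
            exact hH _
        · rw [hRem l hl, hRem l hl, hR.W (le_max_left _ _),
            (hR n (le_max_left _ _)).2 k (le_max_right _ _)]
          by_cases h2 : x.1.P l 0 + n < h l
          · by_cases h3 : x'.1.P l 0 + n < h l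
            · rw [if_pos h2, if_pos h3]
            · rw [edge2 (hR.symm.mono (le_max_left _ _)) (not_lt.1 h3)]
          · rw [edge2 (hR.mono (le_max_left _ _)) (not_lt.1 h2)]
      · simp only [Rem, if_neg hl, norm_zero]
        positivity)
    fun x => by
      obtain ⟨κ, hκ⟩ := x.1.fin' 0 n
      exact (eventually_ge_atTop (max κ k)).mono fun l hl => by
        rw [hRem l (le_of_max_le_right hl), if_pos (hκ l (le_of_max_le_left hl))]
  have h2 := h1.norm.const_add (∑ q ∈ range (h k + 1) with E q, ‖f (ind α k q)‖ + (M - TV f k))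
  rw [norm_zero, add_zero] at h2
  refine ge_of_tendsto h2 ((eventually_ge_atTop k).mono fun l hl => ?_)
  have h3 : Tn n f (lev α k H) = f (lev α l (c l)) + f (Rem l) := by
    simp only [Rem, if_pos hl]
    rw [map_sub, Tn_apply]
    ring
  have h4 := norm_lev_le f l (H := c l) (fun p => E (pr k l p)) fun p => by
    have h5 : ‖c l p‖ ≤ 1 := by
      simp only [c]
      split_ifs
      · rw [norm_mul, Complex.ofReal_mul, norm_mul, norm_Φ, norm_Φ, one_mul, one_mul]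
        exact hH _
      · simp
    split_ifs with h6
    · rw [norm_mul]
      exact mul_le_of_le_one_left (norm_nonneg _) h5
    · by_cases h7 : ∃ x : Om α, x.1.P l 0 = p
      · obtain ⟨x, rfl⟩ := h7
        simp only [c]
        split_ifs with h8
        · have h9 := x.1.add h8
          rw [zero_add] at h9
          rw [x.1.pr_eq hl] at h6
          rw [← h9, x.1.pr_eq hl, not_not.1 (mt (hE x) h6)]
          simp
        · simp
      · rw [ind_eq_zero fun x hx => h7 ⟨x, hx⟩]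
        simp
  have h5 := noncancel f hl E
  have h6 := hM l
  have h7 := norm_add_le (f (lev α l (c l))) (f (Rem l))
  rw [h3]
  linarith

lemma TV_Tn_le {f : Z α →L[ℂ] ℂ} (hf : Tight f) {M : ℝ} (hM : ∀ k, TV f k ≤ M) (n k : ℕ) :
    TV (Tn n f) k ≤ M := by
  obtain ⟨H, h1, h2⟩ := exists_lev (Tn n f) k fun _ => True
  simp only [if_true, filter_true] at h1 h2
  have h3 := dom hf hM n k h1 (fun _ => True) fun _ _ => trivial
  rw [h2, Complex.norm_real, filter_true] at h3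
  have h4 := (le_abs_self _).trans h3
  unfold TV at h4 ⊢
  linarith

lemma back_mass {f : Z α →L[ℂ] ℂ} (hf : Tight f) {M : ℝ} (hM : ∀ k, TV f k ≤ M) {n k : ℕ}
    (hn : n ≤ h k) (p : ℕ) :
    ∃ q, ‖Tn n f (ind α k p)‖ ≤ 3 * ‖f (ind α k q)‖ + (M - TV f k) := by
  have h1 : ind α k p = lev α k fun q => if q = p then 1 else 0 :=
    Z_ext fun x => by rw [ev_ind, ev_lev]
  have h2 := dom hf hM n k (H := fun q => if q = p then 1 else 0)
    (fun q => by split_ifs <;> simp)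
    (fun q => q ∈ ({p - n, p + h k - n, p + h k + 1 - n} : Finset ℕ)) fun x hx => by
      have h3 : x.1.P k n = p := by
        by_contra h4
        exact hx (if_neg h4)
      have h4 := x.1.back3 (k := k) (t := 0) hn
      rw [zero_add] at h4
      simp only [mem_insert, mem_singleton]
      omega
  rw [← h1] at h2
  obtain ⟨q, hq, h3⟩ := exists_max_image ({p - n, p + h k - n, p + h k + 1 - n} : Finset ℕ)
    (fun q => ‖f (ind α k q)‖) (insert_nonempty _ _)
  refine ⟨q, h2.trans (add_le_add ?_ le_rfl)⟩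
  refine (sum_le_sum_of_subset_of_nonneg (fun q hq => (mem_filter.1 hq).2)
    fun _ _ _ => norm_nonneg _).trans ((sum_le_card_nsmul _ _ _ h3).trans ?_)
  rw [nsmul_eq_mul]
  exact mul_le_mul_of_nonneg_right (by exact_mod_cast card_le_three) (norm_nonneg _)

lemma bilin (F Ψ : ℕ → ℂ) (hΨ : ∀ p, ‖Ψ p‖ ≤ 1) (B T H D : ℕ) (hBT : B + T ≤ H) {E η : ℝ}
    (hE0 : 0 ≤ E) (hη : 0 ≤ η) (hF : ∀ p, ‖F p‖ ≤ η)
    (hE : ∀ d, D ≤ d → CB Ψ (fun p => conj (Ψ p)) H d E) :
    ∑ t ∈ range T, ‖∑ p ∈ range B, F p * Ψ (p + t)‖ ^ 2 ≤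
      (∑ p ∈ range B, ‖F p‖) * (T * (2 * D * η) + (∑ p ∈ range B, ‖F p‖) * E) := by
  let K : ℕ → ℕ → ℂ := fun p p' => ∑ t ∈ range T, Ψ (p + t) * conj (Ψ (p' + t))
  have hK1 : ∀ p p', ‖K p p'‖ ≤ T := by
    intro p p'
    refine (norm_sum_le _ _).trans ((sum_le_card_nsmul _ _ 1 fun t _ => ?_).trans (by simp))
    rw [norm_mul, Complex.norm_conj]
    exact mul_le_one₀ (hΨ _) (norm_nonneg _) (hΨ _)
  have hK2 : ∀ p < B, ∀ p', p' + D ≤ p → ‖K p p'‖ ≤ E := by
    intro p hp p' hp'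
    have := hE (p - p') (by omega) (Ico p' (p' + T))
      (fun x hx z hz y h1 h2 => by
        rw [mem_Ico] at hx hz ⊢
        omega)
      (fun s hs => by
        rw [mem_Ico] at hs
        omega)
    rw [sum_Ico_eq_sum_range, Nat.add_sub_cancel_left] at this
    refine le_trans (le_of_eq ?_) this
    congr 1
    refine sum_congr rfl fun t _ => ?_
    rw [show p' + t + (p - p') = p + t by omega]
  have hK3 : ∀ p p', ‖K p p'‖ = ‖K p' p‖ := by
    intro p p'
    rw [← Complex.norm_conj, map_sum]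
    congr 1
    refine sum_congr rfl fun t _ => ?_
    rw [map_mul, Complex.conj_conj, mul_comm]
  have e1 : ((∑ t ∈ range T, ‖∑ p ∈ range B, F p * Ψ (p + t)‖ ^ 2 : ℝ) : ℂ) =
      ∑ p ∈ range B, ∑ p' ∈ range B, F p * conj (F p') * K p p' := by
    push_cast
    simp only [← Complex.mul_conj', map_sum, sum_mul_sum]
    simp only [K, mul_sum, map_mul]
    rw [sum_comm]
    refine sum_congr rfl fun p _ => ?_
    rw [sum_comm]
    refine sum_congr rfl fun p' _ => sum_congr rfl fun t _ => by ring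
  have e2 := congrArg norm e1
  rw [Complex.norm_real] at e2
  refine (le_abs_self _).trans ((le_of_eq e2).trans ((norm_sum_le _ _).trans ?_))
  rw [sum_mul]
  refine sum_le_sum fun p hp => (norm_sum_le _ _).trans ?_
  have h1 : ∀ p' ∈ range B, ‖F p * conj (F p') * K p p'‖ ≤
      ‖F p‖ * ((if p' ∈ Ico (p - D) (p + D) then T * η else 0) + ‖F p'‖ * E) := by
    intro p' hp'
    rw [norm_mul, norm_mul, Complex.norm_conj, mul_assoc]
    refine mul_le_mul_of_nonneg_left ?_ (norm_nonneg _)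
    have h2 := norm_nonneg (F p')
    have h3 := mul_nonneg h2 hE0
    split_ifs with h4
    · have := mul_le_mul (hF p') (hK1 p p') (norm_nonneg _) hη
      linarith
    · rw [mem_Ico] at h4
      rw [zero_add]
      refine mul_le_mul_of_nonneg_left ?_ h2
      by_cases h5 : p' + D ≤ p
      · exact hK2 p (mem_range.1 hp) p' h5
      · rw [hK3]
        exact hK2 p' (mem_range.1 hp') p (by omega)
  refine (sum_le_sum h1).trans ?_
  rw [← mul_sum, sum_add_distrib, ← sum_mul, ← sum_filter]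
  refine mul_le_mul_of_nonneg_left (add_le_add ?_ le_rfl) (norm_nonneg _)
  rw [sum_const, nsmul_eq_mul]
  have h2 : (((range B).filter fun p' => p' ∈ Ico (p - D) (p + D)).card : ℝ) ≤ 2 * D := by
    have h3 := card_le_card (fun q hq => (mem_filter.1 hq).2 :
      ((range B).filter fun p' => p' ∈ Ico (p - D) (p + D)) ⊆ Ico (p - D) (p + D))
    rw [Nat.card_Ico] at h3
    exact_mod_cast h3.trans (by omega)
  have := mul_le_mul_of_nonneg_right h2 (show (0 : ℝ) ≤ T * η by positivity)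
  linarith

lemma Tn_ind (g : Z α →L[ℂ] ℂ) {k p t : ℕ} (hp : p + t < h k) :
    Tn t g (ind α k (p + t)) = ((Φ k (p + t) * Φ k p : ℝ) : ℂ) * g (ind α k p) := by
  rw [Tn_apply, transport hp, map_smul, smul_eq_mul]

lemma norm_Tn_ind (g : Z α →L[ℂ] ℂ) {k p t : ℕ} (hp : p + t < h k) :
    ‖Tn t g (ind α k (p + t))‖ = ‖g (ind α k p)‖ := by
  rw [Tn_ind g hp, norm_mul, Complex.ofReal_mul, norm_mul, norm_Φ, norm_Φ, one_mul, one_mul]

lemma split (g : Z α →L[ℂ] ℂ) {k B t : ℕ} (hB : B + t ≤ h k) {H : ℕ → ℂ} (hH : ∀ p, ‖H p‖ ≤ 1) :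
    ‖Tn t g (lev α k H)‖ ≤ ‖∑ p ∈ range B, ((Φ k p : ℂ) * g (ind α k p)) *
      ((Φ k (p + t) : ℂ) * H (p + t))‖ + (TV (Tn t g) k - ∑ p ∈ range B, ‖g (ind α k p)‖) := by
  have hs : (range B).image (fun p => p + t) ⊆ range (h k + 1) := by
    intro q hq
    obtain ⟨p, hp, rfl⟩ := mem_image.1 hq
    have := mem_range.1 hp
    exact mem_range.2 (by omega)
  have hi : Set.InjOn (fun p => p + t) (range B) := fun _ _ _ _ h => Nat.add_right_cancel h
  rw [apply_lev, TV, ← sum_sdiff hs, ← sum_sdiff hs, sum_image hi, sum_image hi, add_comm]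
  refine (norm_add_le _ _).trans (add_le_add (le_of_eq ?_) ?_)
  · congr 1
    refine sum_congr rfl fun p hp => ?_
    have := mem_range.1 hp
    rw [Tn_ind g (by omega)]
    push_cast
    ring
  · have h1 : ∑ p ∈ range B, ‖Tn t g (ind α k (p + t))‖ = ∑ p ∈ range B, ‖g (ind α k p)‖ :=
      sum_congr rfl fun p hp => norm_Tn_ind g (by have := mem_range.1 hp; omega)
    rw [h1, add_sub_cancel_right]
    refine (norm_sum_le _ _).trans (sum_le_sum fun p _ => ?_)
    rw [norm_mul]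
    exact mul_le_of_le_one_left (norm_nonneg _) (hH p)

lemma norm_lev_le_TV (f : Z α →L[ℂ] ℂ) {r k : ℕ} (hk : r ≤ k) {H : ℕ → ℂ} (hH : ∀ p, ‖H p‖ ≤ 1) :
    ‖f (lev α r H)‖ ≤ TV f r ∧ TV f r ≤ TV f k := by
  refine ⟨?_, TV_mono f hk⟩
  have := norm_lev_le f r (H := H) (fun _ => True) fun p => by
    rw [if_pos trivial, norm_mul]
    exact mul_le_of_le_one_left (norm_nonneg _) (hH p)
  rwa [filter_true] at this

def UR (f : Z α →L[ℂ] ℂ) : Prop :=
  ∀ ε : ℝ, 0 < ε → ∃ m : ℕ, ∀ t, ∃ n, t < n ∧ n ≤ t + m ∧ ‖Tn n f - f‖ < ε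

structure Good (f : Z α →L[ℂ] ℂ) (M : ℝ) : Prop where
  tight : Tight f
  le : ∀ k, TV f k ≤ M
  lim : ∀ γ : ℝ, 0 < γ → ∀ᶠ k in atTop, M - γ ≤ TV f k

lemma exists_good {f : Z α →L[ℂ] ℂ} (hf : Tight f) (hU : UR f) : ∃ M, Good f M := by
  obtain ⟨m, hm⟩ := hU 1 one_pos
  have h1 : ∀ t F, ‖f ((SS α ^ t) F)‖ ≤ (‖f‖ + 1) * 2 ^ m * ‖F‖ := by
    intro t F
    obtain ⟨n, i, h2, h3, rfl⟩ : ∃ n i, ‖Tn n f‖ ≤ ‖f‖ + 1 ∧ i ≤ m ∧ t = n + i := by
      by_cases ht : t ≤ m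
      · exact ⟨0, t, by rw [Tn_zero]; linarith, ht, by omega⟩
      · obtain ⟨n, h2, h3, h4⟩ := hm (t - m - 1)
        refine ⟨n, t - n, ?_, by omega, by omega⟩
        have := norm_add_le (Tn n f - f) f
        rw [sub_add_cancel] at this
        linarith
    rw [← Tn_apply, Tn_add, Tn_apply, mul_assoc]
    refine ((Tn n f).le_opNorm _).trans (mul_le_mul h2 ((norm_SS_pow i F).trans ?_)
      (norm_nonneg _) (by positivity))
    exact mul_le_mul_of_nonneg_right (pow_le_pow_right₀ one_le_two h3) (norm_nonneg _)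
  have h2 : BddAbove (Set.range (TV f)) :=
    ⟨_, by rintro _ ⟨k, rfl⟩; exact TV_le f h1 (by positivity) k⟩
  refine ⟨⨆ k, TV f k, hf, le_ciSup h2, fun γ hγ => ?_⟩
  exact ((tendsto_atTop_ciSup (TV_mono f) h2).eventually
    (lt_mem_nhds (sub_lt_self _ hγ))).mono fun k hk => hk.le

lemma test {f : Z α →L[ℂ] ℂ} (r : ℕ) {γ : ℝ} (hγ : 0 < γ) :
    ∃ H : ℕ → ℂ, (∀ p, ‖H p‖ ≤ 1) ∧ ∃ ε : ℝ, 0 < ε ∧ ε ≤ γ ∧ ∀ g : Z α →L[ℂ] ℂ, ‖g - f‖ < ε →
      TV f r - γ ≤ ‖g (lev α r H)‖ := by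
  obtain ⟨H, h1, h2⟩ := exists_lev f r fun _ => True
  simp only [if_true, filter_true] at h1 h2
  have h0 := norm_nonneg (lev α r H)
  refine ⟨H, h1, γ / (‖lev α r H‖ + 1), by positivity, div_le_self hγ.le (by linarith),
    fun g hg => ?_⟩
  have h3 := (g - f).le_opNorm (lev α r H)
  rw [lt_div_iff₀ (by positivity)] at hg
  have h4 := norm_sub_le (g (lev α r H)) ((g - f) (lev α r H))
  have h5 : g (lev α r H) - (g - f) (lev α r H) = f (lev α r H) := by
    change _ - (g _ - f _) = _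
    ring
  rw [h5, h2, Complex.norm_real] at h4
  have h6 := (le_abs_self _).trans h4
  have h7 := norm_nonneg (g - f)
  unfold TV
  nlinarith

lemma cluster {f : Z α →L[ℂ] ℂ} {M : ℝ} (hf : Good f M) (hM : 0 < M) (hU : UR f) :
    ∃ η : ℝ, 0 < η ∧ ∀ᶠ k in atTop, ∃ t0 ≤ h k, ∃ p, η ≤ ‖Tn t0 f (ind α k p)‖ := by
  obtain ⟨r, hr⟩ := (hf.lim (M / 20) (by positivity)).exists
  obtain ⟨H, hH, ε, hε, hε', hV⟩ := test (f := f) r (show 0 < M / 20 by positivity)
  obtain ⟨m, hm⟩ := hU ε hε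
  have hm0 : 0 < m := by
    obtain ⟨n, h1, h2, -⟩ := hm 0
    omega
  have hm0' : (0 : ℝ) < m := Nat.cast_pos.2 hm0
  obtain ⟨j0, hj0⟩ := exists_pow_lt_of_lt_one (show (0 : ℝ) < 1 / (3200 * m) by positivity)
    (show (1 / 2 : ℝ) < 1 by norm_num)
  set j := max j0 r with hj
  have hj1 : (1 / 2 : ℝ) ^ j ≤ 1 / (3200 * m) :=
    (pow_le_pow_of_le_one (by norm_num) (by norm_num) (le_max_left _ _)).trans hj0.le
  have hhj : (0 : ℝ) < h j := Nat.cast_pos.2 (h_pos j)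
  refine ⟨M / (1000 * m * h j), by positivity, ?_⟩
  filter_upwards [eventually_ge_atTop j, eventually_ge_atTop (8 * m + 16),
    hf.tight.edge_lt 0 (show 0 < M / 20 by positivity)] with k hk1 hk2 hk3
  have hk4 := lt_h k
  have hrk : r ≤ k := (le_max_right _ _).trans hk1
  set B := h k / 2 + m + 1 with hB
  obtain ⟨t0, ht0, hmass⟩ : ∃ t0 ≤ h k, M / 3 ≤ ∑ p ∈ range B, ‖Tn t0 f (ind α k p)‖ := by
    by_cases h1 : M / 3 ≤ ∑ p ∈ range B, ‖f (ind α k p)‖
    · exact ⟨0, Nat.zero_le _, by rwa [Tn_zero]⟩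
    obtain ⟨n, h2, h3, h4⟩ := hm (h k / 2)
    refine ⟨n, by omega, ?_⟩
    have h5 := hV _ h4
    obtain ⟨h6, h7⟩ := norm_lev_le_TV (Tn n f) hrk hH
    have h8 : TV (Tn n f) k = ∑ p ∈ range n, ‖Tn n f (ind α k p)‖ +
        ∑ p ∈ range (h k - n), ‖f (ind α k p)‖ + ‖Tn n f (ind α k (h k))‖ := by
      rw [TV, sum_range_succ]
      congr 1
      conv_lhs => rw [show h k = n + (h k - n) by omega]
      rw [sum_range_add]
      congr 1
      refine sum_congr rfl fun p hp => ?_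
      have := mem_range.1 hp
      rw [add_comm n p, norm_Tn_ind f (by omega)]
    have h9 : ∑ p ∈ range n, ‖Tn n f (ind α k p)‖ ≤ ∑ p ∈ range B, ‖Tn n f (ind α k p)‖ :=
      sum_le_sum_of_subset_of_nonneg (range_mono (by omega)) fun _ _ _ => norm_nonneg _
    have h10 : ∑ p ∈ range (h k - n), ‖f (ind α k p)‖ ≤ ∑ p ∈ range B, ‖f (ind α k p)‖ :=
      sum_le_sum_of_subset_of_nonneg (range_mono (by omega)) fun _ _ _ => norm_nonneg _
    have h11 := hk3 (h k) le_rfl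
    have h12 := (Tn n f - f).le_opNorm (ind α k (h k))
    have h13 : ‖ind α k (h k)‖ ≤ 2 ^ 0 := norm_ind_edge le_rfl
    have h14 := mul_le_mul h4.le h13 (norm_nonneg _) hε.le
    have h15 := norm_add_le ((Tn n f - f) (ind α k (h k))) (f (ind α k (h k)))
    have h16 : (Tn n f - f) (ind α k (h k)) + f (ind α k (h k)) = Tn n f (ind α k (h k)) := by
      change (Tn n f _ - f _) + _ = _
      ring
    rw [h16] at h15
    linarith
  refine ⟨t0, ht0, ?_⟩
  by_contra hn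
  push Not at hn
  set T := h k - B with hT
  set g := Tn t0 f with hg
  have h1 := bilin (fun p => (Φ k p : ℂ) * g (ind α k p)) (Ψ r H k)
    (fun p => by rw [Ψ, norm_mul, norm_Φ, one_mul]; exact hH _) B T (h k) (h j) (by omega)
    (E := 4 * (1 / 2) ^ j * h k) (η := M / (1000 * m * h j)) (by positivity) (by positivity)
    (fun p => by rw [norm_mul, norm_Φ, one_mul]; exact (hn p).le)
    (fun d hd s hs hsd => (corr (le_max_right _ _) hH hd hk1 s hs hsd).trans (by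
      have : (0 : ℝ) ≤ (1 / 2) ^ k * h k := by positivity
      linarith))
  simp only [norm_mul, norm_Φ, one_mul] at h1
  have h2 : ∑ p ∈ range B, ‖g (ind α k p)‖ ≤ M :=
    (sum_le_sum_of_subset_of_nonneg (range_mono (by omega)) fun _ _ _ => norm_nonneg _).trans
      (TV_Tn_le hf.tight hf.le t0 k)
  choose n hn1 hn2 hn3 using fun i => hm (t0 + i * m)
  set I := (T - 1) / m with hI
  have hI1 : I * m ≤ T - 1 := Nat.div_mul_le_self _ _
  have hI2 : T - 1 < I * m + m := by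
    have := Nat.lt_div_mul_add (a := T - 1) hm0
    omega
  have hinj : Function.Injective fun i => n i - t0 := by
    refine (strictMono_nat_of_lt_succ fun i => ?_).injective
    have := hn1 (i + 1)
    have := hn1 i
    have := hn2 i
    rw [add_mul] at *
    omega
  have hlt : ∀ i ∈ range I, n i - t0 < T := by
    intro i hi
    have h3 : (i + 1) * m ≤ I * m := Nat.mul_le_mul_right _ (mem_range.1 hi)
    have := hn2 i
    rw [add_mul] at h3
    omega
  have h3 : ∀ i ∈ range I, (M / 5) ^ 2 ≤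
      ‖∑ p ∈ range B, (Φ k p : ℂ) * g (ind α k p) * Ψ r H k (p + (n i - t0))‖ ^ 2 := by
    intro i hi
    refine pow_le_pow_left₀ (by positivity) ?_ 2
    have h4 := hlt i hi
    have h5 := split g (k := k) (B := B) (t := n i - t0) (by omega)
      (H := fun p => H (pr r k p)) fun p => hH _
    have h6 : Tn (n i - t0) g = Tn (n i) f := by
      have := hn1 i
      rw [hg, ← Tn_add, show t0 + (n i - t0) = n i by omega]
    rw [h6, ← lev_refine hrk] at h5
    have h7 := hV _ (hn3 i)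
    have h8 := TV_Tn_le hf.tight hf.le (n i) k
    unfold Ψ
    linarith
  have h4 : (I : ℝ) * (M / 5) ^ 2 ≤ ∑ t ∈ range T,
      ‖∑ p ∈ range B, (Φ k p : ℂ) * g (ind α k p) * Ψ r H k (p + t)‖ ^ 2 := by
    have h5 := card_nsmul_le_sum _ _ _ h3
    rw [card_range, nsmul_eq_mul, ← sum_image (f := fun t =>
      ‖∑ p ∈ range B, (Φ k p : ℂ) * g (ind α k p) * Ψ r H k (p + t)‖ ^ 2) hinj.injOn] at h5
    refine h5.trans (sum_le_sum_of_subset_of_nonneg (fun t ht => ?_) fun _ _ _ => sq_nonneg _)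
    obtain ⟨i, hi, rfl⟩ := mem_image.1 ht
    exact mem_range.2 (hlt i hi)
  have h5 : (h k : ℝ) ≤ 8 * (I * m) := by exact_mod_cast (by omega : h k ≤ 8 * (I * m))
  have h6 : (T : ℝ) ≤ h k := by exact_mod_cast (by omega : T ≤ h k)
  have h7 : (0 : ℝ) < h k := Nat.cast_pos.2 (h_pos k)
  have h8 : 2 * h j * (M / (1000 * m * h j)) = M / (500 * m) := by
    field_simp
    norm_num
  rw [h8] at h1
  have h9 : 4 * (1 / 2 : ℝ) ^ j * h k ≤ h k / (800 * m) := by
    have := mul_le_mul_of_nonneg_right hj1 h7.le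
    have e : 1 / (3200 * m : ℝ) * h k = h k / (800 * m) / 4 := by
      field_simp
      norm_num
    linarith
  have h10 : (∑ p ∈ range B, ‖g (ind α k p)‖) * (T * (M / (500 * m)) +
      (∑ p ∈ range B, ‖g (ind α k p)‖) * (4 * (1 / 2) ^ j * h k)) ≤
      M * (h k * (M / (500 * m)) + M * (h k / (800 * m))) := by
    have h11 : 0 ≤ ∑ p ∈ range B, ‖g (ind α k p)‖ := sum_nonneg fun _ _ => norm_nonneg _
    gcongr
  have h11 := h4.trans (h1.trans h10)
  have h12 : M * (h k * (M / (500 * m)) + M * (h k / (800 * m))) =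
      M ^ 2 * h k * (13 / 4000) / m := by
    field_simp
    norm_num
  rw [h12, le_div_iff₀ hm0'] at h11
  have h13 : 0 < M ^ 2 * h k := by positivity
  have h14 := mul_le_mul_of_nonneg_left h5 (sq_nonneg M)
  nlinarith

lemma pr_le {j k : ℕ} (hk : j < k) (p : ℕ) : pr j k p ≤ h j := by
  rw [← pr_proj hk]
  exact pj_le _ _

lemma atom {f : Z α →L[ℂ] ℂ} {M : ℝ} (hf : Good f M) (hM : 0 < M) (hU : UR f) :
    ∃ η : ℝ, 0 < η ∧ ∃ x : Om α, ∀ t, ∀ᶠ k in atTop, η ≤ ‖Tn t f (ind α k (x.1.P k t))‖ := by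
  obtain ⟨η, hη, h1⟩ := cluster hf hM hU
  have h2 : ∀ᶠ k in atTop, ∃ q, η / 4 ≤ ‖f (ind α k q)‖ := by
    filter_upwards [h1, hf.lim (η / 4) (by positivity)] with k ⟨t0, h3, p, h4⟩ h5
    obtain ⟨q, h6⟩ := back_mass hf.tight hf.le h3 p
    exact ⟨q, by linarith⟩
  obtain ⟨k0, hk0⟩ := eventually_atTop.1 h2
  choose! q hq using hk0
  have hle : (hyperfilter ℕ : Filter ℕ) ≤ atTop := Nat.hyperfilter_le_atTop
  have h3 : ∀ j, ∃ y, {k | pr j k (q k) = y} ∈ hyperfilter ℕ := by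
    intro j
    have h4 : (⋃ y ∈ Set.Iic (h j), {k | pr j k (q k) = y}) ∈ hyperfilter ℕ := by
      refine mem_of_superset (hle (eventually_gt_atTop j)) fun k hk => ?_
      exact Set.mem_biUnion (pr_le hk (q k)) rfl
    obtain ⟨y, -, hy⟩ := (Ultrafilter.finite_biUnion_mem_iff (Set.finite_Iic _)).1 h4
    exact ⟨y, hy⟩
  choose y hy using h3
  have h4 : ∀ j, pj j (y (j + 1)) = y j := by
    intro j
    obtain ⟨k, ⟨h5, h6⟩, h7⟩ := Ultrafilter.nonempty_of_mem
      (inter_mem (inter_mem (hy j) (hy (j + 1))) (hle (eventually_ge_atTop (j + 1))))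
    rw [← h5, ← h6, pr_proj h7]
  have h5 : ∀ᶠ j in atTop, η / 8 ≤ ‖f (ind α j (y j))‖ := by
    filter_upwards [hf.lim (η / 8) (by positivity)] with j hj
    obtain ⟨k, h6, h7⟩ := Ultrafilter.nonempty_of_mem
      (inter_mem (hy j) (hle (eventually_ge_atTop (max j k0))))
    have h8 := noncancel' f (le_of_max_le_left h7) (q k)
    have h9 := hq k (le_of_max_le_right h7)
    have h10 := hf.le k
    rw [h6] at h8
    linarith
  have h6 : ∀ t, ∀ᶠ k in atTop, y k + t < h k := by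
    intro t
    filter_upwards [h5, hf.tight.edge_lt t (show 0 < η / 8 by positivity)] with k h7 h8
    by_contra h9
    exact absurd (h8 _ (not_lt.1 h9)) (not_lt.2 h7)
  obtain ⟨x, hx⟩ := exists_pt y h4 fun t => (h6 t).exists
  have h7 : ∀ t, ∀ᶠ k in atTop, η / 8 ≤ ‖Tn t f (ind α k (x.P k t))‖ := by
    intro t
    filter_upwards [h5, h6 t] with k h8 h9
    rwa [hx k t h9, norm_Tn_ind f h9]
  refine ⟨η / 8, by positivity, ⟨x, fun t => ?_⟩, h7⟩
  obtain ⟨k, h8, h9⟩ := ((h7 t).and ((hf.tight.Tn t).low (show 0 < η / 8 by positivity))).exists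
  obtain ⟨i, h10, h11⟩ := h9 _ h8
  exact ⟨i, by rw [← h11, x.pr_eq h10]⟩

lemma heavy {f : Z α →L[ℂ] ℂ} {M : ℝ} (hf : Good f M) {η : ℝ} (hη : 0 < η) {x : Pt}
    (hx : ∀ t, ∀ᶠ k in atTop, η ≤ ‖Tn t f (ind α k (x.P k t))‖) :
    ∀ᶠ r in atTop, ∃ ε : ℝ, 0 < ε ∧ ∀ n, ‖Tn n f - f‖ < ε → η / 2 ≤ ‖f (ind α r (x.P r n))‖ := by
  filter_upwards [hf.lim (η / 8) (by positivity)] with r hr
  obtain ⟨H, hH, ε, hε, -, hV⟩ := test (f := f) r (show 0 < η / 8 by positivity)
  refine ⟨min ε (η / 8 / 2 ^ r), lt_min hε (by positivity), fun n hn => ?_⟩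
  have h1 := hV _ (hn.trans_le (min_le_left _ _))
  have h2 := (norm_lev_le_TV (Tn n f) (le_refl r) hH).1
  obtain ⟨k, h3, h4⟩ := ((hx n).and (eventually_ge_atTop r)).exists
  have h5 := noncancel' (Tn n f) h4 (x.P k n)
  rw [x.pr_eq h4] at h5
  have h6 := TV_Tn_le hf.tight hf.le n k
  have h7 := (Tn n f - f).le_opNorm (ind α r (x.P r n))
  have h8 := mul_le_mul (hn.le.trans (min_le_right _ _)) (norm_ind (α := α) r (x.P r n))
    (norm_nonneg _) (by positivity)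
  rw [div_mul_cancel₀ _ (by positivity)] at h8
  have h9 := norm_add_le ((Tn n f - f) (ind α r (x.P r n))) (f (ind α r (x.P r n)))
  have h10 : (Tn n f - f) (ind α r (x.P r n)) + f (ind α r (x.P r n)) =
      Tn n f (ind α r (x.P r n)) := by
    change (Tn n f _ - f _) + _ = _
    ring
  rw [h10] at h9
  linarith

noncomputable def Hv (f : Z α →L[ℂ] ℂ) (η : ℝ) (k : ℕ) : Finset ℕ :=
  (range (h k + 1)).filter fun p => η ≤ ‖f (ind α k p)‖

lemma card_Hv {f : Z α →L[ℂ] ℂ} {M : ℝ} (hf : Good f M) {η : ℝ} (hη : 0 < η) :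
    ∃ B : ℕ, ∀ k, (Hv f η k).card ≤ B := by
  obtain ⟨B, hB⟩ := exists_nat_ge (M / η)
  refine ⟨B, fun k => ?_⟩
  have h1 := card_nsmul_le_sum (Hv f η k) (fun p => ‖f (ind α k p)‖) η
    fun p hp => (mem_filter.1 hp).2
  have h2 : ∑ p ∈ Hv f η k, ‖f (ind α k p)‖ ≤ TV f k :=
    sum_le_sum_of_subset_of_nonneg (filter_subset _ _) fun _ _ _ => norm_nonneg _
  have h3 := hf.le k
  rw [nsmul_eq_mul] at h1
  rw [div_le_iff₀ hη] at hB
  have h4 : ((Hv f η k).card : ℝ) ≤ B := le_of_mul_le_mul_right (by linarith) hη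
  exact_mod_cast h4

variable (α) in
noncomputable def one : Z α := lev α 0 fun _ => 1

lemma ev_one (x : Om α) : ev x (one α) = 1 := ev_lev _ _ _

lemma norm_one_le : ‖one α‖ ≤ 1 := by
  simpa using norm_le_of_meas (one α) 0 (fun x => by simp [ev_one])
    fun x x' _ => by rw [ev_one, ev_one]

lemma Good.pos {f : Z α →L[ℂ] ℂ} {M : ℝ} (hf : Good f M) (h1 : f (one α) ≠ 0) : 0 < M :=
  (norm_pos_iff.2 h1).trans_le
    ((norm_lev_le_TV f le_rfl (H := fun _ => 1) fun _ => by simp).1.trans (hf.le 0))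

end Pool.Agent.H52Z.IP
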