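import Mathlib

/-!
# Recurrence notions in linear dynamics
-/

set_option autoImplicit false

namespace Pool.Agent.H52Z.Rec

/-- A set of natural numbers is syndetic if it has bounded gaps. -/
def Syndetic (A : Set ℕ) : Prop := ∃ m : ℕ, ∀ k : ℕ, ∃ n ∈ A, k ≤ n ∧ n ≤ k + m

/-- A set of natural numbers is `Δ*` if it meets the difference set of every infinite set. -/
def DeltaStar (A : Set ℕ) : Prop :=
  ∀ B : Set ℕ, B.Infinite → ∃ a ∈ B, ∃ b ∈ B, a < b ∧ b - a ∈ A

/-- The uniformly recurrent vectors of an operator. -/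
def URec {X : Type} [NormedAddCommGroup X] [NormedSpace ℂ X] (T : X →L[ℂ] X) : Set X :=
  {x | ∀ U ∈ nhds x, Syndetic {n | (T ^ n) x ∈ U}}

/-- The `Δ*`-recurrent vectors of an operator. -/
def DRec {X : Type} [NormedAddCommGroup X] [NormedSpace ℂ X] (T : X →L[ℂ] X) : Set X :=
  {x | ∀ U ∈ nhds x, DeltaStar {n | (T ^ n) x ∈ U}}

/-- The unimodular eigenvectors of an operator. -/
def UEig {X : Type} [NormedAddCommGroup X] [NormedSpace ℂ X] (T : X →L[ℂ] X) : Set X :=
  {x | x ≠ 0 ∧ ∃ c : ℂ, ‖c‖ = 1 ∧ T x = c • x}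

end Pool.Agent.H52Z.Rec
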