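import Mathlib
import Pool.Agent.H52Z.RecDefs

/-!
# General facts on recurrence
-/

set_option autoImplicit false

open Set Filter Topology

namespace Pool.Agent.H52Z.Rec

lemma exists_unif_rec {Z : Type} [MetricSpace Z] [CompactSpace Z] [Nonempty Z] (F : Z → Z)
    (hF : Continuous F) : ∃ z : Z, ∀ ε : ℝ, 0 < ε → ∃ m : ℕ, ∀ k : ℕ, ∃ n : ℕ,
      k < n ∧ n ≤ k + m ∧ dist (F^[n] z) z < ε := by
  let S : Set (Set Z) := {A | A.Nonempty ∧ IsClosed A ∧ MapsTo F A A}
  have hz : ∀ c ⊆ S, IsChain (· ⊆ ·) c → c.Nonempty → ∃ lb ∈ S, ∀ s ∈ c, lb ⊆ s := by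
    intro c hc hchain hne
    refine ⟨⋂₀ c, ⟨?_, isClosed_sInter fun s hs => (hc hs).2.1, ?_⟩, fun s hs => sInter_subset_of_mem hs⟩
    · have : Nonempty c := hne.to_subtype
      exact IsCompact.nonempty_sInter_of_directed_nonempty_isCompact_isClosed
        (IsChain.directedOn hchain.symm) (fun s hs => (hc hs).1)
        (fun s hs => (hc hs).2.1.isCompact) (fun s hs => (hc hs).2.1)
    · intro x hx s hs
      exact (hc hs).2.2 (hx s hs)
  obtain ⟨A, -, hA⟩ := zorn_superset_nonempty S hz univ ⟨univ_nonempty, isClosed_univ, mapsTo_univ _ _⟩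
  obtain ⟨⟨z, hzA⟩, hcl, hmap⟩ := hA.prop
  refine ⟨z, fun ε hε => ?_⟩
  have key : ∀ y ∈ A, ∃ n : ℕ, dist (F^[n + 1] y) z < ε := by
    intro y hy
    let O : Set Z := range fun n : ℕ => F^[n + 1] y
    have hO : closure O ⊆ A := by
      refine closure_minimal ?_ hcl
      rintro _ ⟨n, rfl⟩
      exact hmap.iterate (n + 1) hy
    have hO2 : closure O ∈ S := by
      refine ⟨⟨_, subset_closure ⟨0, rfl⟩⟩, isClosed_closure, MapsTo.closure ?_ hF⟩
      rintro _ ⟨n, rfl⟩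
      exact ⟨n + 1, Function.iterate_succ_apply' F (n + 1) y⟩
    have h3 : z ∈ closure O := hA.le_of_le hO2 hO hzA
    obtain ⟨_, ⟨n, rfl⟩, hn⟩ := Metric.mem_closure_iff.1 h3 ε hε
    exact ⟨n, by rwa [dist_comm]⟩
  obtain ⟨t, ht⟩ := hcl.isCompact.elim_finite_subcover
    (fun n : ℕ => {y | dist (F^[n + 1] y) z < ε})
    (fun n => isOpen_lt ((hF.iterate (n + 1)).dist continuous_const) continuous_const)
    (fun y hy => mem_iUnion.2 (key y hy))
  refine ⟨t.sup id + 1, fun k => ?_⟩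
  obtain ⟨n, hn, hn'⟩ := mem_iUnion₂.1 (ht (hmap.iterate k hzA))
  have h4 : n ≤ t.sup id := Finset.le_sup (f := id) hn
  refine ⟨n + 1 + k, by omega, by omega, ?_⟩
  rw [Function.iterate_add_apply]
  exact hn'

lemma exists_infinite_pairwise (P : ℕ → Prop) (Inv : ℕ → Finset ℕ → Prop) (h0 : Inv 0 ∅)
    (hlt : ∀ s B, Inv s B → ∀ b ∈ B, b < s)
    (step : ∀ s B, Inv s B → ∃ e s', s ≤ e ∧ Inv s' (insert e B) ∧ ∀ b ∈ B, P (e - b)) :
    ∃ B : Set ℕ, B.Infinite ∧ ∀ a ∈ B, ∀ b ∈ B, a < b → P (b - a) := by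
  choose! e s' h1 h2 h3 using step
  let st : ℕ → ℕ × Finset ℕ := fun j =>
    Nat.rec (0, ∅) (fun _ p => (s' p.1 p.2, insert (e p.1 p.2) p.2)) j
  have hst : ∀ j, Inv (st j).1 (st j).2 := by
    intro j
    induction j with
    | zero => exact h0
    | succ j ih => exact h2 _ _ ih
  let b : ℕ → ℕ := fun j => e (st j).1 (st j).2
  have hmem : ∀ i j, i < j → b i ∈ (st j).2 := by
    intro i j hij
    induction j with
    | zero => omega
    | succ j ih =>
      rcases Nat.lt_succ_iff_lt_or_eq.1 hij with h | h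
      · exact Finset.mem_insert_of_mem (ih h)
      · subst h
        exact Finset.mem_insert_self _ _
  have hmono : StrictMono b := fun i j hij =>
    (hlt _ _ (hst j) _ (hmem i j hij)).trans_le (h1 _ _ (hst j))
  refine ⟨range b, infinite_range_of_injective hmono.injective, ?_⟩
  rintro _ ⟨i, rfl⟩ _ ⟨j, rfl⟩ hij
  exact h3 _ _ (hst j) _ (hmem i j (hmono.lt_iff_lt.1 hij))

lemma DeltaStar.syndetic {A : Set ℕ} (h : DeltaStar A) :
    ∃ m : ℕ, ∀ k : ℕ, ∃ n ∈ A, k < n ∧ n ≤ k + m := by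
  by_contra hn
  push Not at hn
  obtain ⟨B, hB, hP⟩ := exists_infinite_pairwise (fun c => c ∉ A) (fun s B => ∀ b ∈ B, b < s)
    (by simp) (fun s B h => h) (by
      intro s B hs
      obtain ⟨k, hk⟩ := hn s
      refine ⟨k + s, k + s + 1, by omega, ?_, fun b hb hA => ?_⟩
      · intro b hb
        rcases Finset.mem_insert.1 hb with rfl | hb
        · omega
        · have := hs b hb
          omega
      · have h1 := hs b hb
        have := hk _ hA (by omega)
        omega)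
  obtain ⟨a, ha, b, hb, hab, hA⟩ := h B hB
  exact hP a ha b hb hab hA

variable {X : Type} [NormedAddCommGroup X] [NormedSpace ℂ X]

lemma veech (T : X →L[ℂ] X) {x : X} (hx : x ∈ DRec T) {ε : ℝ} (hε : 0 < ε) :
    ∃ δ : ℝ, 0 < δ ∧ ∀ n m : ℕ, m < n → ‖(T ^ n) x - x‖ < δ → ‖(T ^ m) x - x‖ < δ →
      ‖(T ^ (n - m)) x - x‖ < ε := by
  by_contra hn
  push Not at hn
  obtain ⟨B, hB, hP⟩ := exists_infinite_pairwise (fun c => ε / 2 < ‖(T ^ c) x - x‖)
    (fun s B => ∀ b ∈ B, b < s ∧ ε / 2 < ‖(T ^ (s - b)) x - x‖)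
    (by simp) (fun s B h b hb => (h b hb).1) (by
      intro s B hs
      have hev : ∀ᶠ y in 𝓝 x, ∀ b ∈ B, ε / 2 < ‖(T ^ (s - b)) y - x‖ := by
        rw [eventually_all_finset]
        intro b hb
        have hc : Continuous fun y => ‖(T ^ (s - b)) y - x‖ :=
          ((T ^ (s - b)).continuous.sub continuous_const).norm
        exact hc.continuousAt.eventually (lt_mem_nhds (hs b hb).2)
      obtain ⟨δ, hδ, hball⟩ := Metric.eventually_nhds_iff.1 hev
      obtain ⟨n, m, hmn, h1, h2, h3⟩ := hn δ hδ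
      have h1' := hball (y := (T ^ n) x) (by rwa [dist_eq_norm])
      have h2' := hball (y := (T ^ m) x) (by rwa [dist_eq_norm])
      refine ⟨s + m, s + n, by omega, ?_, fun b hb => ?_⟩
      · intro b hb
        rcases Finset.mem_insert.1 hb with rfl | hb
        · refine ⟨by omega, ?_⟩
          rw [show s + n - (s + m) = n - m by omega]
          linarith
        · have h4 := (hs b hb).1
          refine ⟨by omega, ?_⟩
          rw [show s + n - b = (s - b) + n by omega, pow_add]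
          exact h1' b hb
      · have h4 := (hs b hb).1
        show ε / 2 < ‖(T ^ (s + m - b)) x - x‖
        rw [show s + m - b = (s - b) + m by omega, pow_add]
        exact h2' b hb)
  obtain ⟨a, ha, b, hb, hab, hA⟩ := hx (Metric.ball x (ε / 2)) (Metric.ball_mem_nhds x (by positivity)) B hB
  have h1 := hP a ha b hb hab
  have h2 : dist ((T ^ (b - a)) x) x < ε / 2 := hA
  rw [dist_eq_norm] at h2
  linarith

lemma pow_eig (T : X →L[ℂ] X) {x : X} {c : ℂ} (h : T x = c • x) (n : ℕ) :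
    (T ^ n) x = c ^ n • x := by
  induction n with
  | zero => simp
  | succ n ih => rw [pow_succ', ContinuousLinearMap.mul_apply, ih, map_smul, h, smul_smul, pow_succ]

lemma eig_mem_DRec (T : X →L[ℂ] X) {x : X} {c : ℂ} (hc : ‖c‖ = 1) (h : T x = c • x) :
    x ∈ DRec T := by
  intro U hU B hB
  have hcont : Continuous fun t : ℂ => t • x := continuous_id.smul continuous_const
  have h1 : (fun t : ℂ => t • x) ⁻¹' U ∈ 𝓝 (1 : ℂ) := hcont.continuousAt.preimage_mem_nhds (by simpa using hU)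
  obtain ⟨δ, hδ, hball⟩ := Metric.mem_nhds_iff.1 h1
  obtain ⟨t, ht, hcov⟩ := Metric.totallyBounded_iff.1 (isCompact_sphere (0 : ℂ) 1).totallyBounded
    (δ / 2) (by positivity)
  have h2 : ∀ n : ℕ, ∃ y ∈ t, c ^ n ∈ Metric.ball y (δ / 2) := by
    intro n
    have : c ^ n ∈ Metric.sphere (0 : ℂ) 1 := by simp [hc]
    simpa using hcov this
  choose f hf1 hf2 using h2
  obtain ⟨a, ha, b, hb, hab, hfab⟩ := hB.exists_lt_map_eq_of_mapsTo (f := f) (fun n _ => hf1 n) ht
  refine ⟨a, ha, b, hb, hab, ?_⟩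
  show (T ^ (b - a)) x ∈ U
  rw [pow_eig T h]
  apply hball
  have h3 : dist (c ^ b) (c ^ a) < δ := by
    have e1 := hf2 a
    have e2 := hf2 b
    rw [Metric.mem_ball] at e1 e2
    rw [hfab] at e1
    linarith [dist_triangle_right (c ^ b) (c ^ a) (f b)]
  rw [Metric.mem_ball, dist_eq_norm]
  rw [dist_eq_norm] at h3
  have h4 : c ^ b - c ^ a = c ^ a * (c ^ (b - a) - 1) := by
    rw [mul_sub, ← pow_add, Nat.add_sub_cancel' hab.le, mul_one]
  rwa [h4, norm_mul, norm_pow, hc, one_pow, one_mul] at h3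

/-- Strong form of uniform recurrence with balls. -/
def URec' (T : X →L[ℂ] X) : Set X :=
  {x | ∀ ε : ℝ, 0 < ε → ∃ m : ℕ, ∀ k : ℕ, ∃ n : ℕ, k < n ∧ n ≤ k + m ∧ ‖(T ^ n) x - x‖ < ε}

lemma URec'_subset (T : X →L[ℂ] X) : URec' T ⊆ URec T := by
  intro x hx U hU
  obtain ⟨ε, hε, hball⟩ := Metric.mem_nhds_iff.1 hU
  obtain ⟨m, hm⟩ := hx ε hε
  refine ⟨m, fun k => ?_⟩
  obtain ⟨n, h1, h2, h3⟩ := hm k
  exact ⟨n, hball (by rwa [Metric.mem_ball, dist_eq_norm]), h1.le, h2⟩

lemma span_orbit_subset (T : X →L[ℂ] X) {x : X} (hx : x ∈ URec' T) :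
    (Submodule.span ℂ (range fun n : ℕ => (T ^ n) x) : Set X) ⊆ URec' T := by
  have key : ∀ y ∈ Submodule.span ℂ (range fun n : ℕ => (T ^ n) x),
      ∃ C : ℝ, 0 < C ∧ ∀ k : ℕ, ‖(T ^ k) y - y‖ ≤ C * ‖(T ^ k) x - x‖ := by
    intro y hy
    induction hy using Submodule.span_induction with
    | mem y hy =>
      obtain ⟨n, rfl⟩ := hy
      refine ⟨‖T ^ n‖ + 1, by positivity, fun k => ?_⟩
      have e : (T ^ k) ((T ^ n) x) - (T ^ n) x = (T ^ n) ((T ^ k) x - x) := by
        rw [map_sub, ← ContinuousLinearMap.mul_apply, ← ContinuousLinearMap.mul_apply, ← pow_add,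
          ← pow_add, add_comm]
      simp only [e]
      have := (T ^ n).le_opNorm ((T ^ k) x - x)
      nlinarith [norm_nonneg ((T ^ k) x - x)]
    | zero => exact ⟨1, one_pos, fun k => by simp⟩
    | add y z _ _ hy hz =>
      obtain ⟨C, hC, h1⟩ := hy
      obtain ⟨C', hC', h2⟩ := hz
      refine ⟨C + C', by positivity, fun k => ?_⟩
      have e : (T ^ k) (y + z) - (y + z) = ((T ^ k) y - y) + ((T ^ k) z - z) := by
        rw [map_add]; abel
      rw [e]
      have := norm_add_le ((T ^ k) y - y) ((T ^ k) z - z)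
      linarith [h1 k, h2 k]
    | smul c y _ hy =>
      obtain ⟨C, hC, h1⟩ := hy
      refine ⟨(‖c‖ + 1) * C, by positivity, fun k => ?_⟩
      rw [map_smul, ← smul_sub, norm_smul]
      have h2 := mul_le_mul_of_nonneg_left (h1 k) (norm_nonneg c)
      have h3 : 0 ≤ C * ‖(T ^ k) x - x‖ := by positivity
      nlinarith
  intro y hy ε hε
  obtain ⟨C, hC, h⟩ := key y hy
  obtain ⟨m, hm⟩ := hx (ε / C) (by positivity)
  refine ⟨m, fun k => ?_⟩
  obtain ⟨n, h1, h2, h3⟩ := hm k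
  refine ⟨n, h1, h2, (h n).trans_lt ?_⟩
  rwa [lt_div_iff₀' hC] at h3

end Pool.Agent.H52Z.Rec
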