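import Mathlib

/-!
# IP* recurrence in linear dynamics
-/

set_option autoImplicit false

namespace Pool.Agent.H52Z.Rec

/-- A set of natural numbers is `IP*` if it contains a finite sum (over a nonempty finite set of
indices) of every sequence of positive integers, i.e. if it meets every IP set. -/
def IPStar (A : Set ℕ) : Prop :=
  ∀ x : ℕ → ℕ, (∀ k, 0 < x k) → ∃ F : Finset ℕ, F.Nonempty ∧ ∑ k ∈ F, x k ∈ A

/-- The `IP*`-recurrent vectors of an operator. -/
def IPRec {X : Type} [NormedAddCommGroup X] [NormedSpace ℂ X] (T : X →L[ℂ] X) : Set X :=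
  {x | ∀ U ∈ nhds x, IPStar {n | (T ^ n) x ∈ U}}

end Pool.Agent.H52Z.Rec
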