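import Mathlib
import Pool.Agent.H52Z.IP5
import Pool.Agent.H52Z.Rec1
import Pool.Agent.H52Z.RecDefs3

/-!
# The operators, uniform recurrence, and the failure of IP* recurrence
-/

set_option autoImplicit false

open Finset Filter Topology

namespace Pool.Agent.H52Z.IP

open Pool.Agent.H52Z.Rec (URec' URec IPStar IPRec URec'_subset)

section General

variable {E : Type} [NormedAddCommGroup E] [NormedSpace ℂ E]

def Ret (b : Pt) (k n : ℕ) : Prop := b.P k n = b.P k 0 ∧ b.W n = 1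

def Yb (T : E →L[ℂ] E) (b : Pt) : Submodule ℂ E where
  carrier := {g | ∀ ε : ℝ, 0 < ε → ∀ᶠ k in atTop, ∀ n, Ret b k n → ‖(T ^ n) g - g‖ < ε}
  add_mem' := by
    intro f g hf hg ε hε
    filter_upwards [hf _ (half_pos hε), hg _ (half_pos hε)] with k h1 h2 n hn
    have := norm_add_le ((T ^ n) f - f) ((T ^ n) g - g)
    rw [map_add, show (T ^ n) f + (T ^ n) g - (f + g) = (T ^ n) f - f + ((T ^ n) g - g) by abel]
    linarith [h1 n hn, h2 n hn]
  zero_mem' := fun ε hε => Eventually.of_forall fun k n _ => by simpa using hε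
  smul_mem' := by
    intro c f hf ε hε
    filter_upwards [hf (ε / (‖c‖ + 1)) (by positivity)] with k h1 n hn
    have h2 := h1 n hn
    rw [map_smul, ← smul_sub, norm_smul]
    rw [lt_div_iff₀ (by positivity)] at h2
    nlinarith [norm_nonneg ((T ^ n) f - f)]

lemma Yb_pow {T : E →L[ℂ] E} {b : Pt} {g : E} (hg : g ∈ Yb T b) (m : ℕ) : (T ^ m) g ∈ Yb T b := by
  intro ε hε
  filter_upwards [hg (ε / (‖T ^ m‖ + 1)) (by positivity)] with k h1 n hn
  have h2 := h1 n hn
  have h3 : (T ^ n) ((T ^ m) g) - (T ^ m) g = (T ^ m) ((T ^ n) g - g) := by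
    rw [map_sub]
    change (T ^ n * T ^ m) g - _ = (T ^ m * T ^ n) g - _
    rw [← pow_add, ← pow_add, add_comm]
  have h4 := (T ^ m).le_opNorm ((T ^ n) g - g)
  rw [lt_div_iff₀ (by positivity)] at h2
  rw [h3]
  nlinarith [norm_nonneg ((T ^ n) g - g)]

lemma Yb_subset (T : E →L[ℂ] E) (b : Pt) : (Yb T b : Set E) ⊆ URec' T := by
  intro g hg ε hε
  obtain ⟨κ, hκ⟩ := b.fin' 0 0
  obtain ⟨k, h1, h2⟩ := ((hg ε hε).and (eventually_ge_atTop κ)).exists
  obtain ⟨m, hm⟩ := b.ret (hκ k h2)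
  refine ⟨m, fun t => ?_⟩
  obtain ⟨n, h3, h4, h5⟩ := hm t
  exact ⟨n, h3, h4, h1 n h5⟩

end General

lemma IPStar_syndetic {A : Set ℕ} (hA : IPStar A) :
    ∃ m : ℕ, ∀ k : ℕ, ∃ n ∈ A, k < n ∧ n ≤ k + m := by
  by_contra hn
  push Not at hn
  obtain ⟨x, h1, h2⟩ := exists_IP (fun n => n ∉ A) (fun _ => True) trivial fun S _ => by
    obtain ⟨k, hk⟩ := hn (S.sup id + 1)
    refine ⟨k + 1, by omega, trivial, fun s hs hA => ?_⟩
    have h1 : s ≤ S.sup id := le_sup (f := id) hs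
    have := hk _ hA (by omega)
    omega
  obtain ⟨F, h3, h4⟩ := hA x h1
  exact h2 F h3 h4

variable (α : Adm)

noncomputable def Xs : Submodule ℂ (Z α →L[ℂ] ℂ) :=
  (Submodule.span ℂ (Set.range (ev (α := α)))).topologicalClosure

def X : Type := ↥(Xs α)

noncomputable instance : NormedAddCommGroup (X α) := inferInstanceAs (NormedAddCommGroup ↥(Xs α))

noncomputable instance : NormedSpace ℂ (X α) := inferInstanceAs (NormedSpace ℂ ↥(Xs α))

instance : CompleteSpace (X α) :=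
  (Submodule.isClosed_topologicalClosure (Submodule.span ℂ (Set.range (ev (α := α))))).completeSpace_coe

variable {α}

noncomputable def val : X α →L[ℂ] (Z α →L[ℂ] ℂ) := ((Xs α).subtypeL : ↥(Xs α) →L[ℂ] _)

lemma norm_val (f : X α) : ‖val f‖ = ‖f‖ := rfl

lemma val_mem (f : X α) : val f ∈ Xs α := Subtype.property (p := fun x => x ∈ Xs α) f

lemma val_inj {f g : X α} (hfg : val f = val g) : f = g := Subtype.ext hfg

lemma approx (f : X α) {ε : ℝ} (hε : 0 < ε) :
    ∃ g ∈ Submodule.span ℂ (Set.range (ev (α := α))), ‖val f - g‖ < ε := by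
  obtain ⟨g, h1, h2⟩ := Metric.mem_closure_iff.1 (val_mem f) ε hε
  exact ⟨g, h1, by rwa [dist_eq_norm] at h2⟩

lemma tight_val (f : X α) : Tight (val f) := by
  intro F C h1 h2
  have hC : 0 ≤ C := (norm_nonneg _).trans (h1 0)
  have key : ∀ g ∈ Submodule.span ℂ (Set.range (ev (α := α))), ∀ᶠ l in atTop, g (F l) = 0 := by
    intro g hg
    induction hg using Submodule.span_induction with
    | mem g hg =>
      obtain ⟨x, rfl⟩ := hg
      exact h2 x
    | zero => exact Eventually.of_forall fun l => rfl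
    | add g g' _ _ h3 h4 =>
      filter_upwards [h3, h4] with l h5 h6
      change g (F l) + g' (F l) = 0
      rw [h5, h6, add_zero]
    | smul c g _ h3 =>
      filter_upwards [h3] with l h5
      change c * g (F l) = 0
      rw [h5, mul_zero]
  rw [NormedAddGroup.tendsto_nhds_zero]
  intro ε hε
  obtain ⟨g, h3, h4⟩ := approx f (show 0 < ε / (C + 1) by positivity)
  filter_upwards [key g h3] with l h5
  have h6 : val f (F l) = (val f - g) (F l) := by
    change _ = val f (F l) - g (F l)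
    rw [h5, sub_zero]
  have h7 := ((val f - g).le_opNorm (F l)).trans
    (mul_le_mul_of_nonneg_left (h1 l) (norm_nonneg _))
  rw [lt_div_iff₀ (by positivity)] at h4
  rw [h6]
  nlinarith [norm_nonneg (val f - g)]

noncomputable def adj : (Z α →L[ℂ] ℂ) →L[ℂ] (Z α →L[ℂ] ℂ) :=
  (ContinuousLinearMap.compL ℂ (Z α) (Z α) ℂ).flip (SS α)

lemma adj_ev (x : Om α) : adj (ev x) = (x.1.wt 0 : ℂ) • ev (x.sh 1) := by
  ext F
  exact ev_SS F x

lemma adj_mem {f : Z α →L[ℂ] ℂ} (hf : f ∈ Xs α) : adj f ∈ Xs α := by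
  refine map_mem_closure (adj (α := α)).continuous hf fun g hg => ?_
  have : Submodule.span ℂ (Set.range (ev (α := α))) ≤
      (Submodule.span ℂ (Set.range (ev (α := α)))).comap (adj (α := α)).toLinearMap := by
    rw [Submodule.span_le]
    rintro _ ⟨x, rfl⟩
    change adj (ev x) ∈ Submodule.span ℂ (Set.range (ev (α := α)))
    rw [adj_ev]
    exact Submodule.smul_mem _ _ (Submodule.subset_span ⟨_, rfl⟩)
  exact this hg

variable (α) in
noncomputable def TT : X α →L[ℂ] X α :=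
  ((adj.comp val).codRestrict (Xs α) fun f => adj_mem (val_mem f) : X α →L[ℂ] ↥(Xs α))

lemma val_TT (f : X α) (F : Z α) : val (TT α f) F = val f (SS α F) := rfl

lemma norm_TT : ‖TT α‖ ≤ 2 := by
  refine ContinuousLinearMap.opNorm_le_bound _ zero_le_two fun f => ?_
  rw [← norm_val, ← norm_val]
  refine ContinuousLinearMap.opNorm_le_bound _ (by positivity) fun F => ?_
  rw [val_TT]
  have := ((val f).le_opNorm _).trans (mul_le_mul_of_nonneg_left (norm_SS F) (norm_nonneg _))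
  linarith

lemma val_TT_pow (n : ℕ) (f : X α) : val ((TT α ^ n) f) = Tn n (val f) := by
  induction n with
  | zero => rw [Tn_zero]; rfl
  | succ n ih =>
    ext F
    rw [pow_succ', Tn_add, Tn_apply, pow_one, ← ih]
    rfl

lemma norm_ret (n : ℕ) (f : X α) : ‖Tn n (val f) - val f‖ = ‖(TT α ^ n) f - f‖ := by
  rw [← val_TT_pow, ← map_sub, norm_val]

noncomputable def evX (x : Om α) : X α :=
  (⟨ev x, Submodule.le_topologicalClosure _ (Submodule.subset_span ⟨x, rfl⟩)⟩ : ↥(Xs α))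

lemma val_evX (x : Om α) : val (evX x) = ev x := rfl

lemma TT_pow_evX (n : ℕ) (x : Om α) : (TT α ^ n) (evX x) = (x.1.W n : ℂ) • evX (x.sh n) := by
  refine val_inj ?_
  ext F
  rw [val_TT_pow, Tn_apply, val_evX, ev_SS_pow, map_smul]
  rfl

lemma norm_evX_sub {j : ℕ} {x x' : Om α} (hR : R j x x') : ‖evX x - evX x'‖ ≤ (1 / 2) ^ j := by
  rw [← norm_val, map_sub]
  refine ContinuousLinearMap.opNorm_le_bound _ (by positivity) fun F => ?_
  have h1 := ev_sub hR F
  change ‖ev x F - ev x' F‖ ≤ _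
  rw [one_div, inv_pow, ← div_eq_inv_mul, le_div_iff₀ (by positivity)]
  linarith

lemma R_of_P (x : Om α) (j : ℕ) :
    ∀ᶠ k in atTop, ∀ x' : Om α, x'.1.P k 0 = x.1.P k 0 → R j x x' := by
  obtain ⟨κ, hκ⟩ := x.1.fin' 0 j
  filter_upwards [eventually_ge_atTop κ, eventually_ge_atTop j,
    eventually_ge_atTop ((range (j + 1)).sup fun s => α.k (x.rk s))] with k h1 h2 h3 x' hx s hs
  have h4 := hκ k h1
  have h5 := x.1.add (k := k) (t := 0) (n := s) (by omega)
  have h6 := x'.1.add (k := k) (t := 0) (n := s) (by omega)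
  rw [zero_add] at h5 h6
  have h7 : ∀ l ≤ k, x.1.P l s = x'.1.P l s := fun l hl => by
    rw [← x.1.pr_eq hl, ← x'.1.pr_eq hl, h5, h6, hx]
  have h8 : α.k (x.rk s) ≤ k :=
    (le_sup (f := fun s => α.k (x.rk s)) (mem_range.2 (Nat.lt_succ_of_le hs))).trans h3
  refine ⟨le_antisymm ?_ ?_, fun l hl => h7 l (hl.trans h2)⟩
  · by_contra h9
    have h10 := (x.lt_rk s _).1 (not_le.1 h9) _ le_rfl
    rw [h7 _ ((α.mono (not_le.1 h9).le).trans h8)] at h10
    exact h10 (x'.rk_spec s)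
  · by_contra h9
    have h10 := (x'.lt_rk s _).1 (not_le.1 h9) _ le_rfl
    rw [← h7 _ h8] at h10
    exact h10 (x.rk_spec s)

lemma evX_mem (x : Om α) : evX x ∈ Yb (TT α) x.1 := by
  intro ε hε
  obtain ⟨j, hj⟩ := exists_pow_lt_of_lt_one hε (show (1 / 2 : ℝ) < 1 by norm_num)
  filter_upwards [R_of_P x j] with k hk n hn
  rw [TT_pow_evX, hn.2, Complex.ofReal_one, one_smul]
  exact (norm_evX_sub (hk (x.sh n) hn.1).symm).trans_lt hj

lemma dense_Yb (x : Om α) : Dense (Yb (TT α) x.1 : Set (X α)) := by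
  have h1 : ∀ n, evX (x.sh n) ∈ Yb (TT α) x.1 := by
    intro n
    have h2 := (Yb (TT α) x.1).smul_mem (x.1.W n : ℂ) (Yb_pow (evX_mem x) n)
    rw [TT_pow_evX, smul_smul] at h2
    rcases x.1.W_sign n with h3 | h3 <;> simpa [h3] using h2
  have h2 : ∀ x' : Om α, evX x' ∈ (Yb (TT α) x.1).topologicalClosure := by
    intro x'
    refine Metric.mem_closure_iff.2 fun ε hε => ?_
    obtain ⟨j, hj⟩ := exists_pow_lt_of_lt_one hε (show (1 / 2 : ℝ) < 1 by norm_num)
    obtain ⟨κ, hκ⟩ := x'.1.fin' 0 0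
    obtain ⟨k, h3, h4⟩ := ((R_of_P x' j).and (eventually_ge_atTop κ)).exists
    obtain ⟨n, -, -, h5⟩ := x.1.occ (hκ k h4) 0
    refine ⟨_, h1 n, ?_⟩
    rw [dist_eq_norm]
    exact (norm_evX_sub (h3 (x.sh n) h5)).trans_lt hj
  have h3 : ∀ g (hg : g ∈ Submodule.span ℂ (Set.range (ev (α := α)))),
      ∃ g' ∈ (Yb (TT α) x.1).topologicalClosure, val g' = g := by
    intro g hg
    induction hg using Submodule.span_induction with
    | mem g hg =>
      obtain ⟨x', rfl⟩ := hg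
      exact ⟨_, h2 x', rfl⟩
    | zero => exact ⟨0, zero_mem _, map_zero _⟩
    | add g g' _ _ h3 h4 =>
      obtain ⟨u, h5, rfl⟩ := h3
      obtain ⟨v, h6, rfl⟩ := h4
      exact ⟨u + v, add_mem h5 h6, map_add _ _ _⟩
    | smul c g _ h3 =>
      obtain ⟨u, h5, rfl⟩ := h3
      exact ⟨c • u, Submodule.smul_mem _ _ h5, map_smul _ _ _⟩
  rw [← dense_closure]
  intro f
  refine Metric.mem_closure_iff.2 fun ε hε => ?_
  obtain ⟨g, h4, h5⟩ := approx f hε
  obtain ⟨g', h6, rfl⟩ := h3 g h4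
  exact ⟨g', h6, by rwa [dist_eq_norm, ← norm_val, map_sub]⟩

lemma IPRec_kill {f : X α} (hf : f ∈ IPRec (TT α)) : val f (one α) = 0 := by
  by_contra h0
  have hU : UR (val f) := by
    intro ε hε
    obtain ⟨m, hm⟩ := IPStar_syndetic (hf _ (Metric.ball_mem_nhds f hε))
    refine ⟨m, fun t => ?_⟩
    obtain ⟨n, h1, h2, h3⟩ := hm t
    exact ⟨n, h2, h3, by rw [norm_ret]; simpa [dist_eq_norm] using h1⟩
  obtain ⟨M, hM⟩ := exists_good (tight_val f) hU
  obtain ⟨η, hη, x, hx⟩ := atom hM (hM.pos h0) hU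
  obtain ⟨B, hB⟩ := card_Hv hM (half_pos hη)
  obtain ⟨r, ⟨ε, hε, h1⟩, h2⟩ := ((heavy hM hη hx).and (eventually_ge_atTop B)).exists
  obtain ⟨q, h3, h4⟩ := exists_mem_notMem_of_card_lt_card (s := Hv (val f) (η / 2) r)
    (t := range (h r)) (by
      have := hB r
      have := lt_h r
      rw [card_range]
      omega)
  rw [mem_range] at h3
  obtain ⟨n, h5, h6⟩ := x.1.exists_IP h3
  obtain ⟨F, h7, h8⟩ := hf _ (Metric.ball_mem_nhds f hε) n h5
  have h9 := h1 (∑ k ∈ F, n k) (by rw [norm_ret]; simpa [dist_eq_norm] using h8)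
  rw [h6 F h7] at h9
  exact h4 (mem_filter.2 ⟨mem_range.2 (by omega), h9⟩)

noncomputable def α0 : Adm := (design om (fun _ => ∅) 0 (fun _ => le_rfl) 0).choose

lemma Om_nonempty (α : Adm) : Nonempty (Om α) := by
  obtain ⟨x, hx⟩ := common fun _ => α
  exact ⟨⟨x, hx 0⟩⟩

lemma dense_URec (α : Adm) : Dense (URec (TT α)) := by
  obtain ⟨x⟩ := Om_nonempty α
  exact (dense_Yb x).mono ((Yb_subset _ _).trans (URec'_subset _))

lemma not_dense_IPRec (α : Adm) : ¬ Dense (IPRec (TT α)) := by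
  intro hd
  obtain ⟨x⟩ := Om_nonempty α
  have hc : IsClosed {f : X α | val f (one α) = 0} :=
    isClosed_eq ((ContinuousLinearMap.apply ℂ ℂ (one α)).continuous.comp
      (val (α := α)).continuous) continuous_const
  have h1 : val (evX x) (one α) = 0 := closure_minimal (fun _ hf => IPRec_kill hf) hc (hd (evX x))
  rw [val_evX, ev_one] at h1
  exact one_ne_zero h1

lemma X_separable (α : Adm) : TopologicalSpace.SeparableSpace (X α) := by
  obtain ⟨x⟩ := Om_nonempty α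
  have h1 : TopologicalSpace.IsSeparable (Set.range fun n : ℕ => evX (x.sh n)) :=
    (Set.countable_range _).isSeparable
  have h2 : ∀ x' : Om α, evX x' ∈
      (Submodule.span ℂ (Set.range fun n : ℕ => evX (x.sh n))).topologicalClosure := by
    intro x'
    refine Metric.mem_closure_iff.2 fun ε hε => ?_
    obtain ⟨j, hj⟩ := exists_pow_lt_of_lt_one hε (show (1 / 2 : ℝ) < 1 by norm_num)
    obtain ⟨κ, hκ⟩ := x'.1.fin' 0 0
    obtain ⟨k, h3, h4⟩ := ((R_of_P x' j).and (eventually_ge_atTop κ)).exists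
    obtain ⟨n, -, -, h5⟩ := x.1.occ (hκ k h4) 0
    refine ⟨_, Submodule.subset_span ⟨n, rfl⟩, ?_⟩
    rw [dist_eq_norm]
    exact (norm_evX_sub (h3 (x.sh n) h5)).trans_lt hj
  have h3 : ∀ g (hg : g ∈ Submodule.span ℂ (Set.range (ev (α := α)))),
      ∃ g' ∈ (Submodule.span ℂ (Set.range fun n : ℕ => evX (x.sh n))).topologicalClosure,
        val g' = g := by
    intro g hg
    induction hg using Submodule.span_induction with
    | mem g hg =>
      obtain ⟨x', rfl⟩ := hg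
      exact ⟨_, h2 x', rfl⟩
    | zero => exact ⟨0, zero_mem _, map_zero _⟩
    | add g g' _ _ h3 h4 =>
      obtain ⟨u, h5, rfl⟩ := h3
      obtain ⟨v, h6, rfl⟩ := h4
      exact ⟨u + v, add_mem h5 h6, map_add _ _ _⟩
    | smul c g _ h3 =>
      obtain ⟨u, h5, rfl⟩ := h3
      exact ⟨c • u, Submodule.smul_mem _ _ h5, map_smul _ _ _⟩
  refine TopologicalSpace.isSeparable_univ_iff.1
    ((h1.span (R := ℂ)).closure.closure.mono fun f _ => ?_)
  refine Metric.mem_closure_iff.2 fun ε hε => ?_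
  obtain ⟨g, h4, h5⟩ := approx f hε
  obtain ⟨g', h6, rfl⟩ := h3 g h4
  exact ⟨g', h6, by rwa [dist_eq_norm, ← norm_val, map_sub]⟩

lemma joint {β : Adm} (f0 : X β) (h0 : val f0 (one β) ≠ 0) (hU0 : UR (val f0)) :
    ∃ α : Adm, ∀ f : X α, val f (one α) ≠ 0 → ¬ ∀ ε : ℝ, 0 < ε → ∃ m : ℕ, ∀ t, ∃ n, t < n ∧
      n ≤ t + m ∧ ‖(TT β ^ n) f0 - f0‖ < ε ∧ ‖(TT α ^ n) f - f‖ < ε := by
  obtain ⟨M0, hM0⟩ := exists_good (tight_val f0) hU0
  obtain ⟨η0, hη0, y, hy⟩ := atom hM0 (hM0.pos h0) hU0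
  obtain ⟨B, hB⟩ := card_Hv hM0 (show 0 < η0 / 4 by positivity)
  obtain ⟨r0, hr0⟩ := eventually_atTop.1 (hM0.lim (η0 / 4) (by positivity))
  obtain ⟨α, hα1, hα2⟩ := design y.1 (Hv (val f0) (η0 / 4)) B hB r0
  refine ⟨α, fun f h1 hJ => ?_⟩
  have hU : UR (val f) := by
    intro ε hε
    obtain ⟨m, hm⟩ := hJ ε hε
    refine ⟨m, fun t => ?_⟩
    obtain ⟨n, h2, h3, -, h4⟩ := hm t
    exact ⟨n, h2, h3, by rwa [norm_ret]⟩
  obtain ⟨M, hM⟩ := exists_good (tight_val f) hU
  obtain ⟨η, hη, x, hx⟩ := atom hM (hM.pos h1) hU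
  obtain ⟨r, ⟨⟨ε0, hε0, h2⟩, ε, hε, h3⟩, h4⟩ := (((heavy hM0 hη0 hy).and (heavy hM hη hx)).and
    (hM.tight.low (half_pos hη))).exists
  obtain ⟨m, hm⟩ := hJ _ (lt_min hε0 hε)
  obtain ⟨t, ht⟩ := card_pos.1 (lt_of_lt_of_le (by omega) (card_good x (max r m)))
  rw [mem_filter, mem_range] at ht
  have h5 := le_max_left r m
  have h6 := le_max_right r m
  obtain ⟨s, h7, h8, h9⟩ := hα2 (x.rk t) t (by omega)
  have h10 := α.big (x.rk t)
  have h11 : x.1.P (x.rk t) (t + s) = 0 := by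
    rw [← x.1.pr_eq (k := α.k (x.rk t)) (by omega), x.1.add (by rwa [x.rk_spec]), x.rk_spec, h8]
  obtain ⟨n, h12, h13, h14, h15⟩ := hm (t + s)
  have h16 := lt_h (x.rk t)
  have h17 := x.1.selfsim h11 (i := n - (t + s)) (j := r) (by omega) (by omega)
  have h18 := y.1.selfsim h9 (i := n - (t + s)) (j := r) (by omega) (by omega)
  rw [show t + s + (n - (t + s)) = n by omega] at h17 h18
  have h19 := h2 n (by rw [norm_ret]; exact h14.trans_le (min_le_left _ _))
  have h20 := h3 n (by rw [norm_ret]; exact h15.trans_le (min_le_right _ _))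
  obtain ⟨i, h21, h22⟩ := h4 _ h20
  have h23 := noncancel' (val f0) h21 (y.1.P r n)
  rw [h18, ← h17, h22] at h23
  rw [h18, ← h17] at h19
  have h24 := hr0 _ (hα1 i).1
  have h25 := hM0.le r
  have h26 := α.hi i
  exact (hα1 i).2 (mem_filter.2 ⟨mem_range.2 (by omega), by linarith⟩)

end Pool.Agent.H52Z.IP
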