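import Mathlib
import Pool.Agent.H52Z.IP6

/-!
# A uniformly recurrent operator whose uniformly recurrent vectors are not dense lineable
-/

set_option autoImplicit false

open Finset Filter Topology

namespace Pool.Agent.H52Z.IP

open Pool.Agent.H52Z.Rec (URec')

abbrev Ix : Type := Adm × Option (Set (X α0))

def BX : Type := lp (fun ι : Ix => X ι.1) 1

noncomputable instance : NormedAddCommGroup BX :=
  inferInstanceAs (NormedAddCommGroup (lp (fun ι : Ix => X ι.1) 1))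

noncomputable instance : NormedSpace ℂ BX :=
  inferInstanceAs (NormedSpace ℂ (lp (fun ι : Ix => X ι.1) 1))

instance : CompleteSpace BX := inferInstanceAs (CompleteSpace (lp (fun ι : Ix => X ι.1) 1))

noncomputable def co (ι : Ix) : BX →L[ℂ] X ι.1 := lp.evalCLM ℂ (fun ι : Ix => X ι.1) 1 ι

open Classical in
noncomputable def sg (ι : Ix) : X ι.1 →L[ℂ] BX :=
  lp.singleContinuousLinearMap ℂ (fun ι : Ix => X ι.1) 1 ι

noncomputable def BT : BX →L[ℂ] BX :=
  lp.mapCLM 1 (fun ι : Ix => TT ι.1) zero_le_two fun _ => norm_TT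

lemma norm_co_le (ι : Ix) (z : BX) : ‖co ι z‖ ≤ ‖z‖ := lp.norm_apply_le_norm one_ne_zero z ι

lemma BX_ext {z w : BX} (hzw : ∀ ι, co ι z = co ι w) : z = w := lp.ext (funext hzw)

lemma co_BT (ι : Ix) (z : BX) : co ι (BT z) = TT ι.1 (co ι z) := rfl

lemma co_BT_pow (n : ℕ) (ι : Ix) (z : BX) : co ι ((BT ^ n) z) = (TT ι.1 ^ n) (co ι z) := by
  induction n with
  | zero => rfl
  | succ n ih =>
    rw [pow_succ', pow_succ']
    change co ι (BT ((BT ^ n) z)) = TT ι.1 ((TT ι.1 ^ n) (co ι z))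
    rw [co_BT, ih]

lemma co_sg_self (ι : Ix) (g : X ι.1) : co ι (sg ι g) = g := by
  classical
  exact lp.single_apply_self (E := fun ι : Ix => X ι.1) 1 ι g

lemma co_sg_ne {ι ι' : Ix} (hι : ι' ≠ ι) (g : X ι.1) : co ι' (sg ι g) = 0 := by
  classical
  exact lp.single_apply_ne (E := fun ι : Ix => X ι.1) 1 ι g hι

lemma norm_sg (ι : Ix) (g : X ι.1) : ‖sg ι g‖ = ‖g‖ := by
  classical
  exact lp.norm_single (E := fun ι : Ix => X ι.1) one_pos ι g

lemma hasSum_sg (z : BX) : HasSum (fun ι => sg ι (co ι z)) z := by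
  classical
  exact lp.hasSum_single (E := fun ι : Ix => X ι.1) ENNReal.one_ne_top z

lemma BT_pow_sg (n : ℕ) (ι : Ix) (g : X ι.1) : (BT ^ n) (sg ι g) = sg ι ((TT ι.1 ^ n) g) := by
  refine BX_ext fun ι' => ?_
  rw [co_BT_pow]
  by_cases hι : ι' = ι
  · subst hι
    rw [co_sg_self, co_sg_self]
  · rw [co_sg_ne hι, co_sg_ne hι, map_zero]

lemma dense_BT : Dense (URec' BT) := by
  intro z
  refine Metric.mem_closure_iff.2 fun ε hε => ?_
  obtain ⟨s, hs⟩ := ((hasSum_sg z).eventually (Metric.ball_mem_nhds z (half_pos hε))).exists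
  obtain ⟨e, he⟩ := ((s.finite_toSet.image Prod.fst).insert α0).countable.exists_eq_range
    (Set.insert_nonempty _ _)
  obtain ⟨b, hb⟩ := common e
  have h1 : ∀ ι ∈ s, ∃ g ∈ Yb (TT ι.1) b, ‖co ι z - g‖ < ε / 2 / (s.card + 1) := by
    intro ι hι
    obtain ⟨n, hn⟩ : ι.1 ∈ Set.range e := he ▸ Set.mem_insert_of_mem _ ⟨ι, hι, rfl⟩
    obtain ⟨g, h2, h3⟩ := Metric.mem_closure_iff.1 (dense_Yb (α := ι.1) ⟨b, hn ▸ hb n⟩ (co ι z)) _
      (show 0 < ε / 2 / (s.card + 1) by positivity)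
    exact ⟨g, h2, by rwa [dist_eq_norm] at h3⟩
  choose! g h2 h3 using h1
  refine ⟨∑ ι ∈ s, sg ι (g ι), Yb_subset BT b (Submodule.sum_mem _ fun ι hι δ hδ => ?_), ?_⟩
  · filter_upwards [h2 ι hι δ hδ] with k hk n hn
    rw [BT_pow_sg, ← map_sub, norm_sg]
    exact hk n hn
  · have h4 : ‖∑ ι ∈ s, sg ι (co ι z) - ∑ ι ∈ s, sg ι (g ι)‖ ≤ s.card * (ε / 2 / (s.card + 1)) := by
      rw [← sum_sub_distrib, ← nsmul_eq_mul]
      refine (norm_sum_le _ _).trans (sum_le_card_nsmul _ _ _ fun ι hι => ?_)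
      rw [← map_sub, norm_sg]
      exact (h3 ι hι).le
    have h5 : (s.card : ℝ) * (ε / 2 / (s.card + 1)) ≤ ε / 2 := by
      rw [← mul_div_assoc, div_le_iff₀ (by positivity)]
      nlinarith
    have h6 := dist_triangle z (∑ ι ∈ s, sg ι (co ι z)) (∑ ι ∈ s, sg ι (g ι))
    rw [dist_comm z (∑ ι ∈ s, sg ι (co ι z)), dist_eq_norm (∑ ι ∈ s, sg ι (co ι z))
      (∑ ι ∈ s, sg ι (g ι))] at h6
    have h7 : dist (∑ ι ∈ s, sg ι (co ι z)) z < ε / 2 := hs
    linarith

lemma val_one_le {α : Adm} (f : X α) : ‖val f (one α)‖ ≤ ‖f‖ := by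
  have := ((val f).le_opNorm _).trans (mul_le_mul_of_nonneg_left norm_one_le (norm_nonneg _))
  rwa [mul_one] at this

lemma not_lineable (D : Submodule ℂ BX) (hD : Dense (D : Set BX)) : ¬ (D : Set BX) ⊆ URec' BT := by
  intro hU
  have h1 : ∀ ι : Ix, ∃ d ∈ D, ‖val (co ι d) (one ι.1) - 1‖ < 1 / 4 ∧
      ∀ ι', ι' ≠ ι → ‖val (co ι' d) (one ι'.1)‖ < 1 / 4 := by
    intro ι
    obtain ⟨x⟩ := Om_nonempty ι.1
    obtain ⟨d, h2, h3⟩ := Metric.mem_closure_iff.1 (hD (sg ι (evX x))) (1 / 4) (by norm_num)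
    rw [dist_comm, dist_eq_norm] at h3
    refine ⟨d, h2, ?_, fun ι' hι => ?_⟩
    · have h4 := ((val_one_le _).trans (norm_co_le ι _)).trans_lt h3
      rw [map_sub, co_sg_self, map_sub] at h4
      have h5 : val (evX x) (one ι.1) = 1 := ev_one x
      rw [← h5]
      exact h4
    · have h4 := ((val_one_le _).trans (norm_co_le ι' _)).trans_lt h3
      rwa [map_sub, co_sg_ne hι, sub_zero] at h4
  choose d hd1 hd2 hd3 using h1
  have hc : ∀ (z : BX) (ι : Ix) (n : ℕ), ‖(TT ι.1 ^ n) (co ι z) - co ι z‖ ≤ ‖(BT ^ n) z - z‖ := by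
    intro z ι n
    rw [← co_BT_pow, ← map_sub]
    exact norm_co_le _ _
  obtain ⟨α, hα⟩ := joint (co (α0, none) (d (α0, none))) (by
      intro h0
      have := hd2 (α0, none)
      rw [h0] at this
      norm_num at this) (by
      intro ε hε
      obtain ⟨m, hm⟩ := hU (hd1 (α0, none)) ε hε
      refine ⟨m, fun t => ?_⟩
      obtain ⟨n, h2, h3, h4⟩ := hm t
      exact ⟨n, h2, h3, by rw [norm_ret]; exact (hc _ _ _).trans_lt h4⟩)
  obtain ⟨ξ, ξ', h2, h3⟩ := Function.not_injective_iff.1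
    (Function.cantor_injective fun ξ : Set (X α0) => (co (α0, none) (d (α, some ξ)) : X α0))
  set w := d (α0, none) + (d (α, some ξ) - d (α, some ξ')) with hw
  have h4 : co (α0, none) w = co (α0, none) (d (α0, none)) := by
    rw [hw, map_add, map_sub]
    have h5 : co (α0, none) (d (α, some ξ)) = co (α0, none) (d (α, some ξ')) := h2
    rw [h5, sub_self, add_zero]
  refine hα (co (α, some ξ) w) (fun h0 => ?_) fun ε hε => ?_
  · have h5 := hd2 (α, some ξ)
    have h6 := hd3 (α0, none) (α, some ξ) (by simp)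
    have h7 := hd3 (α, some ξ') (α, some ξ) (by simpa using h3)
    rw [hw, map_add, map_sub, map_add, map_sub] at h0
    set a := val (co (α, some ξ) (d (α0, none))) (one α)
    set b := val (co (α, some ξ) (d (α, some ξ))) (one α)
    set c := val (co (α, some ξ) (d (α, some ξ'))) (one α)
    have h8 : a + (b - c) = 0 := h0
    have h9 : (1 : ℂ) = c - a - (b - 1) := by linear_combination h8
    have h10 := norm_sub_le (c - a) (b - 1)
    have h11 := norm_sub_le c a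
    rw [← h9, norm_one] at h10
    linarith
  · obtain ⟨m, hm⟩ := hU (add_mem (hd1 _) (sub_mem (hd1 (α, some ξ)) (hd1 (α, some ξ')))) ε hε
    refine ⟨m, fun t => ?_⟩
    obtain ⟨n, h5, h6, h7⟩ := hm t
    refine ⟨n, h5, h6, ?_, (hc w (α, some ξ) n).trans_lt h7⟩
    rw [← h4]
    exact (hc w (α0, none) n).trans_lt h7

end Pool.Agent.H52Z.IP
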