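import Mathlib

/-!
# Two linearized polynomials over the field with 1024 elements with the same image set
-/

set_option autoImplicit false

open Polynomial

namespace Pool.Agent.H52Z.QPoly

variable {K : Type} [Field K] [Fintype K]

/-- Coefficients of `x ^ 2 + x ^ 64`. -/
def aa (K : Type) [Field K] : Fin 10 → K := ![0, 1, 0, 0, 0, 0, 1, 0, 0, 0]

/-- Coefficients of `x ^ 4 + x ^ 128`. -/
def bb (K : Type) [Field K] : Fin 10 → K := ![0, 0, 1, 0, 0, 0, 0, 1, 0, 0]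

omit [Fintype K] in
lemma sum_aa (x : K) : (∑ k : Fin 10, aa K k * x ^ (2 ^ (k : ℕ))) = x ^ 2 + x ^ 64 := by
  simp [aa, Fin.sum_univ_succ]

omit [Fintype K] in
lemma sum_bb (x : K) : (∑ k : Fin 10, bb K k * x ^ (2 ^ (k : ℕ))) = x ^ 4 + x ^ 128 := by
  simp [bb, Fin.sum_univ_succ]

omit [Fintype K] in
lemma sum_adj (x : K) : (∑ k : Fin 10, (aa K k) ^ (2 ^ (10 - (k : ℕ))) * x ^ (2 ^ (10 - (k : ℕ))))
    = x ^ 512 + x ^ 16 := by
  simp [aa, Fin.sum_univ_succ]

lemma four_terms (hK : Fintype.card K = 2 ^ 10) (c₁ c₂ c₃ c₄ : K) (e₁ e₂ e₃ e₄ : ℕ)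
    (h1 : e₁ < 1024) (h2 : e₂ < 1024) (h3 : e₃ < 1024) (h4 : e₄ < 1024)
    (h12 : e₁ ≠ e₂) (h13 : e₁ ≠ e₃) (h14 : e₁ ≠ e₄)
    (h : ∀ x : K, c₁ * x ^ e₁ + c₂ * x ^ e₂ + c₃ * x ^ e₃ + c₄ * x ^ e₄ = 0) : c₁ = 0 := by
  let p : K[X] := C c₁ * X ^ e₁ + C c₂ * X ^ e₂ + C c₃ * X ^ e₃ + C c₄ * X ^ e₄
  have hd : p.natDegree ≤ 1023 := by
    refine natDegree_add_le_of_degree_le (natDegree_add_le_of_degree_le
      (natDegree_add_le_of_degree_le ?_ ?_) ?_) ?_ <;>
      exact (natDegree_C_mul_X_pow_le _ _).trans (by omega)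
  have hp : p = 0 := by
    refine eq_zero_of_natDegree_lt_card_of_eval_eq_zero p (f := id) Function.injective_id
      (fun x => ?_) (by rw [hK]; omega)
    simpa [p] using h x
  have := congrArg (fun r => r.coeff e₁) hp
  simpa [p, coeff_X_pow, h12, h13, h14] using this

lemma exists_order (hK : Fintype.card K = 2 ^ 10) (d : ℕ) (hd : d ∣ 1023) :
    ∃ μ : K, μ ≠ 0 ∧ ∀ m : ℕ, μ ^ m = 1 ↔ d ∣ m := by
  classical
  have hc : Nat.card Kˣ = 1023 := by
    rw [Nat.card_eq_fintype_card, Fintype.card_units, hK]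
    norm_num
  obtain ⟨g, hg⟩ := IsCyclic.exists_ofOrder_eq_natCard (α := Kˣ)
  rw [hc] at hg
  have ho : orderOf (g ^ (1023 / d)) = d := by
    have := orderOf_pow_orderOf_div (x := g) (n := d) (by rw [hg]; norm_num) (by rw [hg]; exact hd)
    rwa [hg] at this
  refine ⟨(g ^ (1023 / d) : Kˣ), Units.ne_zero _, fun m => ?_⟩
  rw [← Units.val_pow_eq_pow_val, Units.val_eq_one, ← orderOf_dvd_iff_pow_eq_one, ho]

lemma two_eq_zero (hK : Fintype.card K = 2 ^ 10) : (2 : K) = 0 := by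
  have h := FiniteField.cast_card_eq_zero K
  rw [hK] at h
  push_cast at h
  exact pow_eq_zero_iff (by norm_num) |>.1 (show (2 : K) ^ 10 = 0 by rw [← h]; norm_num)

lemma pow_card' (hK : Fintype.card K = 2 ^ 10) (x : K) : x ^ 1024 = x := by
  have := FiniteField.pow_card x
  rwa [hK] at this

lemma frob (hK : Fintype.card K = 2 ^ 10) (x y : K) (k : ℕ) :
    (x + y) ^ (2 ^ k) = x ^ (2 ^ k) + y ^ (2 ^ k) := by
  have h2 := two_eq_zero hK
  induction k with
  | zero => simp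
  | succ k ih =>
    rw [pow_succ, pow_mul, ih, pow_mul, pow_mul]
    linear_combination (x ^ 2 ^ k * y ^ 2 ^ k) * h2

lemma f_eq (hK : Fintype.card K = 2 ^ 10) (x : K) : x ^ 2 + x ^ 64 = (x + x ^ 32) ^ 2 := by
  have := frob hK x (x ^ 32) 1
  rw [← pow_mul] at this
  exact this.symm

lemma g_eq (hK : Fintype.card K = 2 ^ 10) (x : K) : x ^ 4 + x ^ 128 = (x + x ^ 32) ^ 4 := by
  have := frob hK x (x ^ 32) 2
  rw [← pow_mul] at this
  exact this.symm

lemma tr_pow (hK : Fintype.card K = 2 ^ 10) (x : K) : (x + x ^ 32) ^ 32 = x + x ^ 32 := by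
  have := frob hK x (x ^ 32) 5
  rw [← pow_mul] at this
  have h2 := pow_card' hK x
  norm_num at this
  rw [this, h2, add_comm]

omit [Fintype K] in
lemma tr_mul {μ : K} (hμ : μ ^ 32 = μ) (x : K) : μ * x + (μ * x) ^ 32 = μ * (x + x ^ 32) := by
  rw [mul_pow, hμ, mul_add]

lemma images (hK : Fintype.card K = 2 ^ 10) :
    {z : K | ∃ x : K, x ≠ 0 ∧ z = (∑ k : Fin 10, aa K k * x ^ (2 ^ (k : ℕ))) / x} =
      {z : K | ∃ x : K, x ≠ 0 ∧ z = (∑ k : Fin 10, bb K k * x ^ (2 ^ (k : ℕ))) / x} := by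
  simp only [sum_aa, sum_bb, f_eq hK, g_eq hK]
  ext z
  constructor
  · rintro ⟨x, hx, rfl⟩
    by_cases hs : x + x ^ 32 = 0
    · exact ⟨x, hx, by rw [hs]; simp⟩
    · have h1 := tr_pow hK x
      set s := x + x ^ 32 with hs'
      have h2 : (s ^ 20) ^ 32 = s ^ 20 := by rw [← pow_mul, mul_comm, pow_mul, h1]
      refine ⟨s ^ 20 * x, mul_ne_zero (pow_ne_zero _ hs) hx, ?_⟩
      rw [tr_mul h2, ← hs']
      have h3 : s ^ 64 = s ^ 2 := by
        rw [show 64 = 32 * 2 by norm_num, pow_mul, h1]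
      clear_value s
      have h4 : (s ^ 20 * s) ^ 4 = s ^ 20 * s ^ 64 := by ring
      rw [h4, h3, mul_div_mul_left _ _ (pow_ne_zero _ hs)]
  · rintro ⟨x, hx, rfl⟩
    by_cases hs : x + x ^ 32 = 0
    · exact ⟨x, hx, by rw [hs]; simp⟩
    · have h1 := tr_pow hK x
      set s := x + x ^ 32 with hs'
      have h2 : (s ^ 2) ^ 32 = s ^ 2 := by rw [← pow_mul, mul_comm, pow_mul, h1]
      refine ⟨s ^ 2 * x, mul_ne_zero (pow_ne_zero _ hs) hx, ?_⟩
      rw [tr_mul h2, ← hs']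
      field_simp

lemma lin_aa (hK : Fintype.card K = 2 ^ 10) (t : ℕ) (ht : t ∣ 10) (h1 : 1 < t) :
    ¬ ∀ μ : K, μ ^ (2 ^ t) = μ → ∀ x : K,
      (∑ k : Fin 10, aa K k * (μ * x) ^ (2 ^ (k : ℕ))) =
        μ * ∑ k : Fin 10, aa K k * x ^ (2 ^ (k : ℕ)) := by
  intro h
  simp only [sum_aa] at h
  have key : ∀ μ : K, μ ^ (2 ^ t) = μ → μ ^ 2 - μ = 0 := by
    intro μ hμ
    refine four_terms hK _ (μ ^ 64 - μ) 0 0 2 64 0 0 (by norm_num) (by norm_num) (by norm_num)
      (by norm_num) (by norm_num) (by norm_num) (by norm_num) fun x => ?_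
    linear_combination h μ hμ x
  have fin : ∀ d : ℕ, d ∣ 1023 → d ∣ 2 ^ t - 1 → d ∣ 1 := by
    intro d hd hd'
    obtain ⟨μ, h0, hμ⟩ := exists_order hK d hd
    have e : μ ^ (2 ^ t) = μ := by
      have : 2 ^ t = (2 ^ t - 1) + 1 := (Nat.sub_add_cancel Nat.one_le_two_pow).symm
      rw [this, pow_succ, (hμ _).2 hd', one_mul]
    have := key μ e
    rw [← hμ]
    have e2 : μ * (μ ^ 1 - 1) = 0 := by linear_combination this
    exact sub_eq_zero.1 ((mul_eq_zero.1 e2).resolve_left h0)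
  have hle : t ≤ 10 := Nat.le_of_dvd (by norm_num) ht
  interval_cases t
  · exact absurd (fin 3 (by norm_num) (by norm_num)) (by norm_num)
  · exact absurd ht (by norm_num)
  · exact absurd ht (by norm_num)
  · exact absurd (fin 31 (by norm_num) (by norm_num)) (by norm_num)
  · exact absurd ht (by norm_num)
  · exact absurd ht (by norm_num)
  · exact absurd ht (by norm_num)
  · exact absurd ht (by norm_num)
  · exact absurd (fin 31 (by norm_num) (by norm_num)) (by norm_num)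

lemma lin_bb (hK : Fintype.card K = 2 ^ 10) (t : ℕ) (ht : t ∣ 10) (h1 : 1 < t) :
    ¬ ∀ μ : K, μ ^ (2 ^ t) = μ → ∀ x : K,
      (∑ k : Fin 10, bb K k * (μ * x) ^ (2 ^ (k : ℕ))) =
        μ * ∑ k : Fin 10, bb K k * x ^ (2 ^ (k : ℕ)) := by
  intro h
  simp only [sum_bb] at h
  have key : ∀ μ : K, μ ^ (2 ^ t) = μ → μ ^ 128 - μ = 0 := by
    intro μ hμ
    refine four_terms hK _ (μ ^ 4 - μ) 0 0 128 4 0 0 (by norm_num) (by norm_num) (by norm_num)
      (by norm_num) (by norm_num) (by norm_num) (by norm_num) fun x => ?_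
    linear_combination h μ hμ x
  have fin : ∀ d : ℕ, d ∣ 1023 → d ∣ 2 ^ t - 1 → d ∣ 127 := by
    intro d hd hd'
    obtain ⟨μ, h0, hμ⟩ := exists_order hK d hd
    have e : μ ^ (2 ^ t) = μ := by
      have : 2 ^ t = (2 ^ t - 1) + 1 := (Nat.sub_add_cancel Nat.one_le_two_pow).symm
      rw [this, pow_succ, (hμ _).2 hd', one_mul]
    have := key μ e
    rw [← hμ]
    have e2 : μ * (μ ^ 127 - 1) = 0 := by linear_combination this
    exact sub_eq_zero.1 ((mul_eq_zero.1 e2).resolve_left h0)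
  have hle : t ≤ 10 := Nat.le_of_dvd (by norm_num) ht
  interval_cases t
  · exact absurd (fin 3 (by norm_num) (by norm_num)) (by norm_num)
  · exact absurd ht (by norm_num)
  · exact absurd ht (by norm_num)
  · exact absurd (fin 31 (by norm_num) (by norm_num)) (by norm_num)
  · exact absurd ht (by norm_num)
  · exact absurd ht (by norm_num)
  · exact absurd ht (by norm_num)
  · exact absurd ht (by norm_num)
  · exact absurd (fin 31 (by norm_num) (by norm_num)) (by norm_num)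

lemma not_a (hK : Fintype.card K = 2 ^ 10) (σ : K ≃+* K) (c₁ c₂ c₃ c₄ α : K) (i : ℕ)
    (hdet : c₁ * c₄ - c₂ * c₃ ≠ 0) (hi : Nat.Coprime i 10)
    (h : Set.range (fun x : K =>
        (c₁ * σ x + c₂ * σ (∑ k : Fin 10, aa K k * x ^ (2 ^ (k : ℕ))),
         c₃ * σ x + c₄ * σ (∑ k : Fin 10, aa K k * x ^ (2 ^ (k : ℕ))))) =
      Set.range (fun y : K => (y, α * y ^ (2 ^ i)))) : False := by
  simp only [sum_aa, f_eq hK] at h
  have key : ∀ x : K, c₃ * σ x + c₄ * σ ((x + x ^ 32) ^ 2) =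
      α * (c₁ * σ x + c₂ * σ ((x + x ^ 32) ^ 2)) ^ (2 ^ i) := by
    intro x
    have : (c₁ * σ x + c₂ * σ ((x + x ^ 32) ^ 2), c₃ * σ x + c₄ * σ ((x + x ^ 32) ^ 2)) ∈
        Set.range (fun y : K => (y, α * y ^ (2 ^ i))) := h ▸ ⟨x, rfl⟩
    obtain ⟨y, hy⟩ := this
    rw [Prod.mk.injEq] at hy
    rw [← hy.1, ← hy.2]
  have h2 := two_eq_zero hK
  have key2 : ∀ x : K, x ^ 32 = x → c₃ * σ x = α * (c₁ * σ x) ^ (2 ^ i) := by
    intro x hx
    have := key x
    have e : x + x ^ 32 = 0 := by rw [hx]; linear_combination x * h2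
    simpa [e] using this
  have h3 : c₃ = α * c₁ ^ (2 ^ i) := by simpa using key2 1 (one_pow _)
  obtain ⟨μ, h0, hμ⟩ := exists_order hK 31 (by norm_num)
  have e : μ ^ 32 = μ := by rw [show 32 = 31 + 1 by norm_num, pow_succ, (hμ _).2 dvd_rfl, one_mul]
  have h4 := key2 μ e
  rw [mul_pow, ← mul_assoc, ← h3] at h4
  have h5 : c₃ = 0 := by
    by_contra hc
    have h6 := mul_left_cancel₀ hc h4
    rw [← map_pow] at h6
    have h7 := σ.injective h6
    have h8 : μ ^ (2 ^ i - 1) = 1 := by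
      have : 2 ^ i = (2 ^ i - 1) + 1 := (Nat.sub_add_cancel Nat.one_le_two_pow).symm
      rw [this, pow_succ] at h7
      exact (mul_right_cancel₀ h0 (h7.symm.trans (one_mul μ).symm))
    have h9 := (hμ _).1 h8
    have h10 : 2 ^ i ≡ 1 [MOD 31] := ((Nat.modEq_iff_dvd' Nat.one_le_two_pow).2 h9).symm
    have h11 : 2 ^ i ≡ 2 ^ (i % 5) [MOD 31] := by
      conv_lhs => rw [← Nat.div_add_mod i 5, pow_add, pow_mul]
      have : (2 ^ 5) ^ (i / 5) ≡ 1 ^ (i / 5) [MOD 31] := Nat.ModEq.pow _ (by decide)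
      simpa using this.mul_right (2 ^ (i % 5))
    have h12 := h11.symm.trans h10
    have h13 : i % 5 < 5 := Nat.mod_lt _ (by norm_num)
    have h14 : i % 5 = 0 := by
      generalize i % 5 = r at h12 h13
      interval_cases r <;> first | rfl | (exact absurd h12 (by decide))
    have h15 : 5 ∣ Nat.gcd i 10 := Nat.dvd_gcd (Nat.dvd_of_mod_eq_zero h14) (by norm_num)
    rw [hi] at h15
    norm_num at h15
  rw [h5, mul_zero, sub_zero] at hdet
  have hc1 : c₁ ≠ 0 := left_ne_zero_of_mul hdet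
  have hc4 : c₄ ≠ 0 := right_ne_zero_of_mul hdet
  have hα : α = 0 := by
    rw [h5] at h3
    exact (mul_eq_zero.1 h3.symm).resolve_right (pow_ne_zero _ hc1)
  have h6 : (1 : K) = 0 := by
    refine four_terms hK _ 1 0 0 2 64 0 0 (by norm_num) (by norm_num) (by norm_num)
      (by norm_num) (by norm_num) (by norm_num) (by norm_num) fun x => ?_
    have := key x
    rw [h5, hα, zero_mul, zero_mul, zero_add] at this
    have h7 := (mul_eq_zero.1 this).resolve_left hc4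
    rw [map_eq_zero_iff σ σ.injective, ← f_eq hK] at h7
    linear_combination h7
  exact one_ne_zero h6

lemma not_b1 (hK : Fintype.card K = 2 ^ 10) (l : K) (hl : l ≠ 0)
    (h : ∀ x : K, (∑ k : Fin 10, bb K k * x ^ (2 ^ (k : ℕ))) =
      (∑ k : Fin 10, aa K k * (l * x) ^ (2 ^ (k : ℕ))) / l) : False := by
  simp only [sum_aa, sum_bb] at h
  apply hl
  refine four_terms hK l l (-l ^ 2) (-l ^ 64) 4 128 2 64 (by norm_num) (by norm_num) (by norm_num)
    (by norm_num) (by norm_num) (by norm_num) (by norm_num) fun x => ?_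
  have := h x
  rw [eq_div_iff hl] at this
  linear_combination this

lemma not_b2 (hK : Fintype.card K = 2 ^ 10) (l : K) (hl : l ≠ 0)
    (h : ∀ x : K, (∑ k : Fin 10, bb K k * x ^ (2 ^ (k : ℕ))) =
      (∑ k : Fin 10, (aa K k) ^ (2 ^ (10 - (k : ℕ))) * (l * x) ^ (2 ^ (10 - (k : ℕ)))) / l) :
    False := by
  simp only [sum_adj, sum_bb] at h
  apply hl
  refine four_terms hK l l (-l ^ 512) (-l ^ 16) 4 128 512 16 (by norm_num) (by norm_num)
    (by norm_num) (by norm_num) (by norm_num) (by norm_num) (by norm_num) fun x => ?_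
  have := h x
  rw [eq_div_iff hl] at this
  linear_combination this

end Pool.Agent.H52Z.QPoly
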