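import Mathlib

/-!
# Tower systems: parameters and combinatorics
-/

set_option autoImplicit false

open Finset Filter Topology

namespace Pool.Agent.H52Z.RR

def b (J : ℕ) : ℕ := 2 ^ (J + 6)

def P : ℕ → ℕ
  | 0 => 1
  | J + 1 => P J * b J * b J * b J

def H (J : ℕ) : ℕ := P J * 2 ^ (J + 5)

def L (J : ℕ) : ℕ := P J * b J

def G : ℕ → ℕ
  | 0 => 0
  | J + 1 => H J

lemma b_ge (J : ℕ) : 64 ≤ b J := by
  have : 2 ^ 6 ≤ 2 ^ (J + 6) := Nat.pow_le_pow_right two_pos (by omega)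
  exact this

lemma b_succ (J : ℕ) : b (J + 1) = 2 * b J := by
  unfold b
  ring

lemma P_succ (J : ℕ) : P (J + 1) = L J * b J * b J := rfl

lemma P_pos (J : ℕ) : 0 < P J := by
  induction J with
  | zero => exact one_pos
  | succ J ih =>
    have := b_ge J
    rw [P]
    positivity

lemma L_eq (J : ℕ) : L J = 2 * H J := by
  unfold L H b
  ring

lemma H_ge (J : ℕ) : 32 * P J ≤ H J := by
  have : 2 ^ 5 ≤ 2 ^ (J + 5) := Nat.pow_le_pow_right two_pos (by omega)
  rw [H, mul_comm]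
  exact Nat.mul_le_mul_left _ this

lemma lt_H (J : ℕ) : J + 1 ≤ H J := by
  have h1 : J + 5 < 2 ^ (J + 5) := Nat.lt_two_pow_self
  have h2 := P_pos J
  have h3 : 1 * 2 ^ (J + 5) ≤ P J * 2 ^ (J + 5) := Nat.mul_le_mul_right _ h2
  rw [H]
  omega

lemma L_pos (J : ℕ) : 0 < L J := by
  have := lt_H J
  rw [L_eq]
  omega

lemma L_le (J : ℕ) : 64 * (64 * L J) ≤ P (J + 1) := by
  have := b_ge J
  rw [P_succ]
  calc 64 * (64 * L J) = L J * 64 * 64 := by ring
    _ ≤ L J * b J * b J := by gcongr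

lemma H_le (J : ℕ) : 2 * H J ≤ P (J + 1) := by
  have := L_le J
  have := L_eq J
  omega

lemma P_dvd {i j : ℕ} (h : i ≤ j) : P i ∣ P j := by
  induction j, h using Nat.le_induction with
  | base => exact dvd_rfl
  | succ j _ ih => exact ih.trans ⟨b j * b j * b j, by rw [P]; ring⟩

lemma P_mono {i j : ℕ} (h : i ≤ j) : P i ≤ P j := Nat.le_of_dvd (P_pos j) (P_dvd h)

lemma le_P (J : ℕ) : J ≤ P J := by
  cases J with
  | zero => exact Nat.zero_le _
  | succ J =>
    have := H_le J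
    have := lt_H J
    omega

lemma G_le (J : ℕ) : G J ≤ P J := by
  cases J with
  | zero => exact Nat.zero_le _
  | succ J =>
    have := H_le J
    change H J ≤ _
    omega

noncomputable def γ (J : ℕ) : ℝ := 2 ^ J / 2 ^ G J

lemma γ_pos (J : ℕ) : 0 < γ J := by
  unfold γ
  positivity

lemma lin_le (J : ℕ) : 3 * J + 23 ≤ 2 ^ (J + 5) := by
  induction J with
  | zero => norm_num
  | succ J ih =>
    rw [show J + 1 + 5 = (J + 5) + 1 by ring, pow_succ]
    omega

lemma γ_step (J : ℕ) : 4 * (P (J + 1) : ℝ) * γ (J + 1) ≤ γ J := by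
  have h1 : 8 * P (J + 1) * 2 ^ G J ≤ 2 ^ G (J + 1) := by
    have h2 : P J ≤ 2 ^ P J := Nat.lt_two_pow_self.le
    have h3 : P (J + 1) = P J * 2 ^ (3 * J + 18) := by
      rw [P, b]
      ring
    have h4 := G_le J
    have h5 := P_pos J
    have h6 := lin_le J
    calc 8 * P (J + 1) * 2 ^ G J ≤ 8 * (2 ^ P J * 2 ^ (3 * J + 18)) * 2 ^ P J := by
          rw [h3]
          gcongr
          norm_num
      _ = 2 ^ (2 * P J + (3 * J + 21)) := by ring
      _ ≤ 2 ^ G (J + 1) := by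
          refine Nat.pow_le_pow_right two_pos ?_
          change _ ≤ P J * 2 ^ (J + 5)
          nlinarith
  have h2 : 8 * (P (J + 1) : ℝ) * 2 ^ G J ≤ 2 ^ G (J + 1) := by exact_mod_cast h1
  unfold γ
  rw [← mul_div_assoc, div_le_div_iff₀ (by positivity) (by positivity), pow_succ]
  have h3 : (0 : ℝ) < 2 ^ J := by positivity
  nlinarith

lemma γ_quarter (J : ℕ) : 4 * γ (J + 1) ≤ γ J := by
  have h1 := γ_step J
  have h2 : (1 : ℝ) ≤ P (J + 1) := by exact_mod_cast P_pos (J + 1)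
  have h3 := γ_pos (J + 1)
  nlinarith

lemma γ_sum (l K : ℕ) : ∑ J ∈ Ioc l K, 2 * (P J : ℝ) * γ J ≤ γ l := by
  rcases le_or_gt l K with h | h
  · have : ∑ J ∈ Ioc l K, 2 * (P J : ℝ) * γ J ≤ γ l - γ K := by
      induction K, h using Nat.le_induction with
      | base => simp
      | succ K hK ih =>
        rw [sum_Ioc_succ_top hK]
        have h1 := γ_step K
        have h2 := γ_quarter K
        have h3 := γ_pos (K + 1)
        linarith
    linarith [γ_pos K]
  · rw [Ioc_eq_empty (by omega), sum_empty]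
    exact (γ_pos l).le

lemma γ_tendsto : Tendsto γ atTop (𝓝 0) := by
  have h1 : ∀ J, γ J ≤ γ 0 * (1 / 4) ^ J := by
    intro J
    induction J with
    | zero => simp
    | succ J ih =>
      have := γ_quarter J
      rw [pow_succ]
      linarith
  refine squeeze_zero (fun J => (γ_pos J).le) h1 ?_
  simpa using (tendsto_pow_atTop_nhds_zero_of_lt_one (r := (1 / 4 : ℝ)) (by norm_num)
    (by norm_num)).const_mul (γ 0)

structure Sys where
  ty : ℕ → ℕ → Option ℕ
  g : ℕ → ℕ → ℕ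
  ty_lt : ∀ {J u t}, ty J u = some t → t < J
  ty_per : ∀ J u, ty J (u % P J) = ty J u
  ty_blk : ∀ {J u u' t}, ty J u = some t → u / P t = u' / P t → ty J u' = some t
  ty_small : ∀ {J u}, u ≤ H J → ty (J + 1) u = some J
  g_per : ∀ J u, g J (u % P J) = g J u
  g_step : ∀ J u, g J (u + 1) ≤ g J u + 1
  g_zero : ∀ J, g J 0 = 0
  g_small : ∀ {J u}, u ≤ H J → g (J + 1) u = 0
  g_marg : ∀ {J u}, g J u = 0 → u % P J + J ≤ P J

namespace Sys

variable (σ : Sys)

lemma ty_congr {J u u' : ℕ} (h : u ≡ u' [MOD P J]) : σ.ty J u = σ.ty J u' := by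
  rw [← σ.ty_per J u, ← σ.ty_per J u', h]

lemma g_congr {J u u' : ℕ} (h : u ≡ u' [MOD P J]) : σ.g J u = σ.g J u' := by
  rw [← σ.g_per J u, ← σ.g_per J u', h]

lemma g_add (J u k : ℕ) : σ.g J (u + k) ≤ σ.g J u + k := by
  induction k with
  | zero => simp
  | succ k ih => exact (σ.g_step J (u + k)).trans (by omega)

lemma g_le (J u : ℕ) : σ.g J u ≤ u % P J := by
  have := σ.g_add J 0 (u % P J)
  rwa [σ.g_zero, zero_add, σ.g_per] at this

def Rch (u : ℕ) : ℕ → ℕ → Prop := Relation.ReflTransGen fun K t => σ.ty K u = some t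

variable {σ}

lemma Rch.le {u K l : ℕ} (h : σ.Rch u K l) : l ≤ K := by
  induction h with
  | refl => exact le_rfl
  | tail _ h2 ih => exact (σ.ty_lt h2).le.trans ih

lemma Rch.down {u K τ J : ℕ} (h1 : σ.Rch u K τ) (h2 : σ.Rch u K J) (h : J ≤ τ) : σ.Rch u τ J := by
  rcases Relation.ReflTransGen.total_of_right_unique
    (fun _ _ _ h3 h4 => Option.some.inj (h3.symm.trans h4)) h1 h2 with h3 | h3
  · exact h3
  · obtain rfl : J = τ := le_antisymm h (Rch.le h3)
    exact Relation.ReflTransGen.refl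

lemma Rch.congr {u u' K l : ℕ} (h : σ.Rch u K l) (hu : u ≡ u' [MOD P K]) : σ.Rch u' K l := by
  induction h with
  | refl => exact Relation.ReflTransGen.refl
  | tail h1 h2 ih =>
    exact Relation.ReflTransGen.tail ih
      ((σ.ty_congr (hu.of_dvd (P_dvd (Rch.le h1)))).symm.trans h2)

lemma div_eq_of_le {u u' i j : ℕ} (hij : i ≤ j) (h : u / P i = u' / P i) : u / P j = u' / P j := by
  obtain ⟨c, hc⟩ := P_dvd hij
  rw [hc, ← Nat.div_div_eq_div_mul, ← Nat.div_div_eq_div_mul, h]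

lemma Rch.blk {u u' K l : ℕ} (h : σ.Rch u K l) (hu : u / P l = u' / P l) : σ.Rch u' K l := by
  induction h with
  | refl => exact Relation.ReflTransGen.refl
  | tail h1 h2 ih =>
    exact Relation.ReflTransGen.tail (ih (div_eq_of_le (σ.ty_lt h2).le hu)) (σ.ty_blk h2 hu)

lemma rch_top {u τ K : ℕ} (hu : u ≤ H τ) (h : τ ≤ K) : σ.Rch u K τ := by
  induction K, h using Nat.le_induction with
  | base => exact Relation.ReflTransGen.refl
  | succ K hK ih =>
    refine Relation.ReflTransGen.head (σ.ty_small ?_) ih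
    rcases hK.eq_or_lt with rfl | h1
    · exact hu
    · have h2 := H_le τ
      have h3 := P_mono (show τ + 1 ≤ K from h1)
      have h4 := H_ge K
      omega

variable (σ) in
def act (s J : ℕ) : Prop := ∃ K, s ≤ K ∧ σ.Rch s K J

lemma act_iff {s J K : ℕ} (hs : s ≤ H K) (hJ : J ≤ K) : σ.act s J ↔ σ.Rch s K J := by
  constructor
  · rintro ⟨K0, h1, h2⟩
    rcases le_total K0 K with h3 | h3
    · exact (rch_top (by have := lt_H K0; omega) h3).trans h2
    · exact (rch_top hs h3).down h2 hJ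
  · intro h
    exact ⟨s + K, by omega, (rch_top hs (by omega)).trans h⟩

lemma act_small {s J : ℕ} (hs : s ≤ H J) : σ.act s J :=
  (act_iff hs le_rfl).2 Relation.ReflTransGen.refl

lemma act.rch {s τ J : ℕ} (h1 : σ.act s τ) (h2 : σ.act s J) (h : J ≤ τ) : σ.Rch s τ J := by
  have h3 : s ≤ H (s + τ) := by have := lt_H (s + τ); omega
  exact ((act_iff h3 (by omega)).1 h1).down ((act_iff h3 (by omega)).1 h2) h

lemma act.of_rch {s τ J : ℕ} (h1 : σ.act s τ) (h2 : σ.Rch s τ J) : σ.act s J := by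
  obtain ⟨K, h3, h4⟩ := h1
  exact ⟨K, h3, h4.trans h2⟩

lemma act.step {s τ J : ℕ} (h1 : σ.act s τ) (h2 : σ.ty τ s = some J) : σ.act s J :=
  h1.of_rch (Relation.ReflTransGen.single h2)

lemma act.blk {s s' J : ℕ} (h : σ.act s J) (hs : s / P J = s' / P J) : σ.act s' J := by
  have h3 : s ≤ H (s + s' + J) := by have := lt_H (s + s' + J); omega
  have h4 : s' ≤ H (s + s' + J) := by have := lt_H (s + s' + J); omega
  exact (act_iff h4 (by omega)).2 (((act_iff h3 (by omega)).1 h).blk hs)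

lemma act.transfer {a c τ J : ℕ} (ha : σ.act a τ) (hc : σ.act c τ) (hac : a ≡ c [MOD P τ])
    (hJ : J ≤ τ) (h : σ.act a J) : σ.act c J :=
  hc.of_rch ((ha.rch h hJ).congr hac)

lemma act.le_ty {s J J' t : ℕ} (h1 : σ.act s J') (h2 : σ.act s J) (h : J < J')
    : ∃ t', σ.ty J' s = some t' ∧ J ≤ t' ∧ (σ.ty J' s = some t → J ≤ t) := by
  rcases Relation.ReflTransGen.cases_head (h1.rch h2 h.le) with h3 | ⟨t', h3, h4⟩
  · omega
  · refine ⟨t', h3, Rch.le h4, fun h5 => ?_⟩
    obtain rfl : t' = t := Option.some.inj (h3.symm.trans h5)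
    exact Rch.le h4

/-- the parent of an active level -/
lemma act.parent {s l K : ℕ} (h : σ.act s l) (hs : s ≤ K) (hl : l < K) :
    ∃ J, l < J ∧ J ≤ K ∧ σ.act s J ∧ σ.ty J s = some l := by
  have h3 : s ≤ H K := by have := lt_H K; omega
  rcases Relation.ReflTransGen.cases_tail ((act_iff h3 hl.le).1 h) with h4 | ⟨J, h4, h5⟩
  · omega
  · exact ⟨J, σ.ty_lt h5, Rch.le h4, (act_iff h3 (Rch.le h4)).2 h4, h5⟩

lemma parent_unique {s l J J' : ℕ} (h1 : σ.act s J) (h2 : σ.ty J s = some l) (h3 : σ.act s J')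
    (h4 : σ.ty J' s = some l) : J = J' := by
  rcases lt_trichotomy J J' with h | h | h
  · obtain ⟨_, _, _, h5⟩ := h3.le_ty (t := l) h1 h
    have := h5 h4
    have := σ.ty_lt h2
    omega
  · exact h
  · obtain ⟨_, _, _, h5⟩ := h1.le_ty (t := l) h3 h
    have := h5 h2
    have := σ.ty_lt h4
    omega

variable (σ) in
def Good' (τ a : ℕ) : Prop := σ.act a τ ∧ ∀ J, τ < J → σ.act a J → σ.g J a = 0

lemma good_small {τ a : ℕ} (ha : a ≤ H τ) : σ.Good' τ a := by
  refine ⟨act_small ha, fun J hJ _ => ?_⟩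
  obtain ⟨J, rfl⟩ : ∃ J', J = J' + 1 := ⟨J - 1, by omega⟩
  refine σ.g_small ?_
  rcases (Nat.lt_succ_iff.1 hJ).eq_or_lt with rfl | h1
  · exact ha
  · have h2 := H_le τ
    have h3 := P_mono (show τ + 1 ≤ J from h1)
    have h4 := H_ge J
    omega

lemma Good'.step {J a t : ℕ} (h : σ.Good' J a) (ht : σ.ty J a = some t) (hg : σ.g J a = 0) :
    σ.Good' t a := by
  refine ⟨h.1.step ht, fun J' h1 h2 => ?_⟩
  rcases lt_trichotomy J' J with h3 | rfl | h3
  · obtain ⟨_, _, _, h5⟩ := h.1.le_ty (t := t) h2 h3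
    have := h5 ht
    omega
  · exact hg
  · exact h.2 J' h3 h2

lemma Good'.downD {K J a : ℕ} (h : σ.Good' K a) (hJ : J ≤ K) (ha : a % P K < P J) :
    σ.Good' J a := by
  induction K, hJ using Nat.le_induction with
  | base => exact h
  | succ K hK ih =>
    have h1 := P_mono hK
    have h2 := H_ge K
    have h3 : a % P (K + 1) ≤ H K := by omega
    refine ih (h.step ?_ ?_) ?_
    · rw [← σ.ty_per]
      exact σ.ty_small h3
    · rw [← σ.g_per]
      exact σ.g_small h3
    · rw [← Nat.mod_mod_of_dvd a (P_dvd (Nat.le_succ K))]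
      exact (Nat.mod_le _ _).trans_lt ha

end Sys

end Pool.Agent.H52Z.RR
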