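import Mathlib
import Pool.Agent.H52Z.RR1

/-!
# The Banach space and operator attached to a tower system
-/

set_option autoImplicit false

open Finset Filter Topology
open scoped ENNReal

namespace Pool.Agent.H52Z.RR

namespace Sys

variable (σ : Sys)

open Classical in
noncomputable def F : ℕ × ℕ × ℕ → ℕ → ℝ
  | (0, _, _), _ => 1
  | (1, J, r), s => if σ.act s J ∧ s % P J = r then 2 ^ σ.g J s / 2 ^ J else 0
  | (_ + 2, l, K), s => if ∃ J, l ≤ J ∧ J ≤ K ∧ σ.act s J then 1 / 2 ^ l else 0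

lemma F_nonneg (i : ℕ × ℕ × ℕ) (s : ℕ) : 0 ≤ σ.F i s := by
  rcases i with ⟨_ | _ | i, J, r⟩
  · exact zero_le_one
  · simp only [F]
    split_ifs <;> positivity
  · simp only [F]
    split_ifs <;> positivity

lemma F_le (i : ℕ × ℕ × ℕ) (s : ℕ) : σ.F i s ≤ 2 ^ s := by
  have h0 : (1 : ℝ) ≤ 2 ^ s := one_le_pow₀ one_le_two
  rcases i with ⟨_ | _ | i, J, r⟩
  · exact h0
  · simp only [F]
    split_ifs
    · have h1 : (2 : ℝ) ^ σ.g J s ≤ 2 ^ s :=
        pow_le_pow_right₀ one_le_two ((σ.g_le J s).trans (Nat.mod_le _ _))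
      exact (div_le_self (by positivity) (one_le_pow₀ one_le_two)).trans h1
    · positivity
  · simp only [F]
    split_ifs
    · exact (div_le_self zero_le_one (one_le_pow₀ one_le_two)).trans h0
    · positivity

variable {σ}

lemma mod_le_of_div_ne {a k M : ℕ} (h : (a + k) / M ≠ a / M) : (a + k) % M ≤ k := by
  by_contra h1
  apply h
  rcases Nat.eq_zero_or_pos M with rfl | hM
  · simp
  have h2 := Nat.div_add_mod (a + k) M
  have h3 := Nat.mod_lt (a + k) hM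
  symm
  refine Nat.div_eq_of_lt_le ?_ ?_
  · rw [mul_comm]
    omega
  · rw [add_mul, mul_comm]
    omega

lemma div_eq_of_lt {a k M : ℕ} (h : a % M + k < M) : a / M = (a + k) / M := by
  have h2 := Nat.div_add_mod a M
  symm
  refine Nat.div_eq_of_lt_le ?_ ?_
  · rw [mul_comm]
    omega
  · rw [add_mul, mul_comm]
    omega

lemma div_ne_of_le {a k M : ℕ} (hM : 0 < M) (h : M ≤ a % M + k) : (a + k) / M ≠ a / M := by
  intro h1
  have h2 := Nat.div_add_mod a M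
  have h3 := Nat.div_add_mod (a + k) M
  have h4 := Nat.mod_lt (a + k) hM
  rw [h1] at h3
  omega

lemma bound1 {τ a : ℕ} (ha : σ.Good' τ a) (ga : σ.g τ a = 0) (J r k : ℕ)
    (h : τ ≤ J ∨ P τ ≤ a % P τ + k) : σ.F (1, J, r) (a + k) / 4 ^ k ≤ 1 / 2 ^ τ := by
  simp only [F]
  split_ifs with h1
  swap
  · rw [zero_div]
    positivity
  have h2 : σ.g J (a + k) ≤ k ∧ τ ≤ J + k := by
    rcases le_or_gt τ J with h3 | h3
    · refine ⟨?_, by omega⟩
      by_cases h4 : (a + k) / P J = a / P J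
      · have h5 : σ.g J a = 0 := by
          rcases h3.eq_or_lt with rfl | h6
          · exact ga
          · exact ha.2 J h6 (h1.1.blk h4)
        have := σ.g_add J a k
        omega
      · exact (σ.g_le _ _).trans (mod_le_of_div_ne h4)
    · have h4 : P τ ≤ a % P τ + k := h.resolve_left (by omega)
      have h5 := σ.g_marg ga
      refine ⟨(σ.g_le _ _).trans (mod_le_of_div_ne fun h6 => ?_), by omega⟩
      exact div_ne_of_le (P_pos τ) h4 (div_eq_of_le h3.le h6)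
  have h3 : (2 : ℝ) ^ σ.g J (a + k) ≤ 2 ^ k := pow_le_pow_right₀ one_le_two h2.1
  have h4 : (2 : ℝ) ^ τ ≤ 2 ^ (J + k) := pow_le_pow_right₀ one_le_two h2.2
  rw [div_div, div_le_div_iff₀ (by positivity) (by positivity),
    show (4 : ℝ) ^ k = 2 ^ k * 2 ^ k by rw [← mul_pow]; norm_num]
  rw [pow_add] at h4
  calc (2 : ℝ) ^ σ.g J (a + k) * 2 ^ τ ≤ 2 ^ k * (2 ^ J * 2 ^ k) := by gcongr
    _ = _ := by ring

lemma abs_sub_div_le {x y c d : ℝ} (hx : 0 ≤ x) (hy : 0 ≤ y) (hc : 0 < c) (h1 : x / c ≤ d)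
    (h2 : y / c ≤ d) : |x / c - y / c| ≤ d := by
  have h3 : 0 ≤ x / c := by positivity
  have h4 : 0 ≤ y / c := by positivity
  rw [abs_le]
  constructor <;> linarith

lemma close {τ a c : ℕ} (ha : σ.Good' τ a) (hc : σ.Good' τ c) (ga : σ.g τ a = 0)
    (hac : a ≡ c [MOD P τ]) (i : ℕ × ℕ × ℕ) (k : ℕ) :
    |σ.F i (a + k) / 4 ^ k - σ.F i (c + k) / 4 ^ k| ≤ 1 / 2 ^ τ := by
  classical
  have gc : σ.g τ c = 0 := (σ.g_congr hac).symm.trans ga
  have hac' : a % P τ = c % P τ := hac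
  have h0 : (0 : ℝ) ≤ 1 / 2 ^ τ := by positivity
  have key : a % P τ + k < P τ → ∀ J ≤ τ, (σ.act (a + k) J ↔ σ.act (c + k) J) := by
    intro h J hJ
    have h1 := ha.1.blk (div_eq_of_lt h)
    have h2 := hc.1.blk (div_eq_of_lt (hac' ▸ h))
    exact ⟨h1.transfer h2 (hac.add_right k) hJ, h2.transfer h1 (hac.symm.add_right k) hJ⟩
  rcases i with ⟨_ | _ | i, J, r⟩
  · simp [F]
  · by_cases h : τ ≤ J ∨ P τ ≤ a % P τ + k
    · exact abs_sub_div_le (σ.F_nonneg _ _) (σ.F_nonneg _ _) (by positivity)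
        (bound1 ha ga J r k h) (bound1 hc gc J r k (hac' ▸ h))
    · rw [not_or, not_le, not_le] at h
      have h1 : a + k ≡ c + k [MOD P J] := (hac.add_right k).of_dvd (P_dvd h.1.le)
      have h2 : (a + k) % P J = (c + k) % P J := h1
      have h3 : σ.F (0 + 1, J, r) (a + k) = σ.F (0 + 1, J, r) (c + k) := by
        simp only [F]
        exact if_congr (and_congr (key h.2 J h.1.le) (by rw [h2])) (by rw [σ.g_congr h1]) rfl
      rw [h3, sub_self, abs_zero]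
      exact h0
  · by_cases h : τ ≤ J ∨ P τ ≤ a % P τ + k
    · have h1 : ∀ s, σ.F (i + 2, J, r) s / 4 ^ k ≤ 1 / 2 ^ τ := by
        intro s
        simp only [F]
        split_ifs
        · have h5 := σ.g_marg ga
          have h4 : (2 : ℝ) ^ τ ≤ 2 ^ (J + k) := pow_le_pow_right₀ one_le_two (by omega)
          have h6 : (2 : ℝ) ^ k ≤ 4 ^ k := by gcongr; norm_num
          rw [div_div]
          refine one_div_le_one_div_of_le (by positivity) (h4.trans ?_)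
          rw [pow_add]
          gcongr
        · rwa [zero_div]
      exact abs_sub_div_le (σ.F_nonneg _ _) (σ.F_nonneg _ _) (by positivity) (h1 _) (h1 _)
    · rw [not_or, not_le, not_le] at h
      have h1 := ha.1.blk (div_eq_of_lt h.2)
      have h2 := hc.1.blk (div_eq_of_lt (hac' ▸ h.2))
      have h3 : (∃ J', J ≤ J' ∧ J' ≤ r ∧ σ.act (a + k) J') ↔
          ∃ J', J ≤ J' ∧ J' ≤ r ∧ σ.act (c + k) J' := by
        rcases le_or_gt τ r with h4 | h4
        · exact ⟨fun _ => ⟨τ, h.1.le, h4, h2⟩, fun _ => ⟨τ, h.1.le, h4, h1⟩⟩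
        · exact exists_congr fun J' => and_congr_right fun _ => and_congr_right fun h5 =>
            key h.2 J' (by omega)
      have h4 : σ.F (i + 1 + 1, J, r) (a + k) = σ.F (i + 1 + 1, J, r) (c + k) := by
        simp only [F]
        exact if_congr h3 rfl rfl
      rw [h4, sub_self, abs_zero]
      exact h0

end Sys

abbrev LL : Type := lp (fun _ : (ℕ × ℕ × ℕ) × ℕ => ℝ) ∞

noncomputable def evL (p : (ℕ × ℕ × ℕ) × ℕ) : LL →L[ℝ] ℝ :=
  lp.evalCLM ℝ (fun _ : (ℕ × ℕ × ℕ) × ℕ => ℝ) ∞ p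

lemma norm_evL (p : (ℕ × ℕ × ℕ) × ℕ) (v : LL) : ‖evL p v‖ ≤ ‖v‖ :=
  lp.norm_apply_le_norm ENNReal.top_ne_zero v p

lemma LL_ext {v w : LL} (h : ∀ p, evL p v = evL p w) : v = w := lp.ext (funext h)

lemma sh_bound (v : LL) (p : (ℕ × ℕ × ℕ) × ℕ) : ‖4 * evL (p.1, p.2 + 1) v‖ ≤ 4 * ‖v‖ := by
  rw [norm_mul, Real.norm_ofNat]
  have := norm_evL (p.1, p.2 + 1) v
  linarith

noncomputable def shFun (v : LL) : LL :=
  ⟨fun p => 4 * evL (p.1, p.2 + 1) v,
    memℓp_infty ⟨4 * ‖v‖, by rintro _ ⟨p, rfl⟩; exact sh_bound v p⟩⟩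

lemma evL_shFun (v : LL) (p : (ℕ × ℕ × ℕ) × ℕ) : evL p (shFun v) = 4 * evL (p.1, p.2 + 1) v := rfl

noncomputable def shLin : LL →ₗ[ℝ] LL where
  toFun := shFun
  map_add' v w := LL_ext fun p => by simp only [map_add, evL_shFun]; ring
  map_smul' c v := LL_ext fun p => by
    simp only [map_smul, evL_shFun, smul_eq_mul, RingHom.id_apply]; ring

lemma norm_shFun (v : LL) : ‖shFun v‖ ≤ 4 * ‖v‖ :=
  lp.norm_le_of_forall_le (f := shFun v) (by positivity) (sh_bound v)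

noncomputable def SL : LL →L[ℝ] LL := shLin.mkContinuous 4 norm_shFun

namespace Sys

variable (σ : Sys)

lemma eL_bound (s : ℕ) (p : (ℕ × ℕ × ℕ) × ℕ) : ‖σ.F p.1 (s + p.2) / 4 ^ p.2‖ ≤ 2 ^ s := by
  rw [Real.norm_of_nonneg (div_nonneg (σ.F_nonneg _ _) (by positivity)),
    div_le_iff₀ (by positivity)]
  refine (σ.F_le _ _).trans ?_
  rw [pow_add]
  gcongr
  norm_num

noncomputable def eL (s : ℕ) : LL :=
  ⟨fun p => σ.F p.1 (s + p.2) / 4 ^ p.2,
    memℓp_infty ⟨2 ^ s, by rintro _ ⟨p, rfl⟩; exact σ.eL_bound s p⟩⟩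

lemma evL_eL (s : ℕ) (p : (ℕ × ℕ × ℕ) × ℕ) : evL p (σ.eL s) = σ.F p.1 (s + p.2) / 4 ^ p.2 := rfl

lemma SL_eL (s : ℕ) : SL (σ.eL s) = σ.eL (s + 1) := by
  refine LL_ext fun p => ?_
  change 4 * evL (p.1, p.2 + 1) (σ.eL s) = _
  rw [evL_eL, evL_eL, pow_succ, show s + (p.2 + 1) = s + 1 + p.2 by ring]
  field_simp

noncomputable def Xs : Submodule ℝ LL := (Submodule.span ℝ (Set.range σ.eL)).topologicalClosure

def X : Type := ↥σ.Xs

noncomputable instance : NormedAddCommGroup σ.X := inferInstanceAs (NormedAddCommGroup ↥σ.Xs)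

noncomputable instance : NormedSpace ℝ σ.X := inferInstanceAs (NormedSpace ℝ ↥σ.Xs)

instance : CompleteSpace σ.X :=
  (Submodule.isClosed_topologicalClosure (Submodule.span ℝ (Set.range σ.eL))).completeSpace_coe

noncomputable def val : σ.X →L[ℝ] LL := (σ.Xs.subtypeL : ↥σ.Xs →L[ℝ] _)

lemma norm_val (f : σ.X) : ‖σ.val f‖ = ‖f‖ := rfl

lemma val_mem (f : σ.X) : σ.val f ∈ σ.Xs := Subtype.property (p := fun x => x ∈ σ.Xs) f

lemma val_inj {f g : σ.X} (hfg : σ.val f = σ.val g) : f = g := Subtype.ext hfg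

lemma SL_mem {f : LL} (hf : f ∈ σ.Xs) : SL f ∈ σ.Xs := by
  refine map_mem_closure SL.continuous hf fun g hg => ?_
  have : Submodule.span ℝ (Set.range σ.eL) ≤
      (Submodule.span ℝ (Set.range σ.eL)).comap SL.toLinearMap := by
    rw [Submodule.span_le]
    rintro _ ⟨x, rfl⟩
    change SL (σ.eL x) ∈ Submodule.span ℝ (Set.range σ.eL)
    rw [SL_eL]
    exact Submodule.subset_span ⟨_, rfl⟩
  exact this hg

noncomputable def T : σ.X →L[ℝ] σ.X :=
  ((SL.comp σ.val).codRestrict σ.Xs fun f => σ.SL_mem (σ.val_mem f) : σ.X →L[ℝ] ↥σ.Xs)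

lemma norm_T : ‖σ.T‖ ≤ 4 :=
  ContinuousLinearMap.opNorm_le_bound _ (by norm_num) fun f => norm_shFun (σ.val f)

noncomputable def e (s : ℕ) : σ.X :=
  (⟨σ.eL s, Submodule.le_topologicalClosure _ (Submodule.subset_span ⟨s, rfl⟩)⟩ : ↥σ.Xs)

lemma T_e (s : ℕ) : σ.T (σ.e s) = σ.e (s + 1) := σ.val_inj (σ.SL_eL s)

lemma T_pow_e (n s : ℕ) : (σ.T ^ n) (σ.e s) = σ.e (s + n) := by
  induction n with
  | zero => rfl
  | succ n ih =>
    rw [pow_succ']
    change σ.T ((σ.T ^ n) (σ.e s)) = _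
    rw [ih, T_e, add_assoc]

lemma dense_span : Dense (Submodule.span ℝ (Set.range σ.e) : Set σ.X) := by
  intro f
  refine Metric.mem_closure_iff.2 fun ε hε => ?_
  obtain ⟨g, h1, h2⟩ := Metric.mem_closure_iff.1 (σ.val_mem f) ε hε
  have h3 : Submodule.span ℝ (Set.range σ.eL) ≤
      (Submodule.span ℝ (Set.range σ.e)).map σ.val.toLinearMap := by
    rw [Submodule.span_le]
    rintro _ ⟨x, rfl⟩
    exact ⟨σ.e x, Submodule.subset_span ⟨x, rfl⟩, rfl⟩
  obtain ⟨g', h4, rfl⟩ := h3 h1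
  exact ⟨g', h4, h2⟩

noncomputable def cd (i : ℕ × ℕ × ℕ) : σ.X →L[ℝ] ℝ := (evL (i, 0)).comp σ.val

lemma cd_e (i : ℕ × ℕ × ℕ) (s : ℕ) : σ.cd i (σ.e s) = σ.F i s := by
  change σ.F i (s + 0) / 4 ^ 0 = _
  simp

lemma abs_cd_le (i : ℕ × ℕ × ℕ) (v : σ.X) : |σ.cd i v| ≤ ‖v‖ := norm_evL _ (σ.val v)

variable {σ}

lemma norm_e_sub {τ a c : ℕ} (ha : σ.Good' τ a) (hc : σ.Good' τ c) (ga : σ.g τ a = 0)
    (hac : a ≡ c [MOD P τ]) : ‖σ.e a - σ.e c‖ ≤ 1 / 2 ^ τ := by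
  rw [← norm_val, map_sub]
  exact lp.norm_le_of_forall_le (by positivity) fun p => close ha hc ga hac p.1 p.2

lemma chain (l n : ℕ → ℕ) (hl : StrictMono l) (h0 : n 0 = 0)
    (h1 : ∀ k, n (k + 1) ≡ n k [MOD P (l k)]) (h2 : ∀ k k', k ≤ k' → σ.Good' (l k) (n k'))
    (h3 : ∀ k, σ.g (l k) (n k) = 0) :
    ∃ y : σ.X, ‖y - σ.e 0‖ ≤ 2 / 2 ^ l 0 ∧ ∀ j x, P (l j) ∣ x →
      (∀ᶠ k in atTop, σ.Good' (l j) (n k + x)) → ‖(σ.T ^ x) y - y‖ ≤ 1 / 2 ^ l j := by
  have h4 : ∀ k, dist (σ.e (n k)) (σ.e (n (k + 1))) ≤ (1 / 2 ^ l 0) * (1 / 2) ^ k := by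
    intro k
    rw [dist_eq_norm]
    refine (norm_e_sub (h2 k k le_rfl) (h2 k (k + 1) (Nat.le_succ k)) (h3 k) (h1 k).symm).trans ?_
    have h5 : l 0 + k ≤ l k := by
      have := hl.add_le_nat k 0
      simpa [add_comm] using this
    rw [one_div_pow, div_mul_div_comm, one_mul, ← pow_add]
    exact one_div_le_one_div_of_le (by positivity) (pow_le_pow_right₀ one_le_two h5)
  obtain ⟨y, hy⟩ := cauchySeq_tendsto_of_complete
    (cauchySeq_of_le_geometric (1 / 2) _ (by norm_num) h4)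
  have h5 : ∀ j k, j ≤ k → n k ≡ n j [MOD P (l j)] := by
    intro j k hjk
    induction k, hjk using Nat.le_induction with
    | base => rfl
    | succ k hk ih => exact ((h1 k).of_dvd (P_dvd (hl.monotone hk))).trans ih
  refine ⟨y, ?_, fun j x hx hG => ?_⟩
  · have := dist_le_of_le_geometric_of_tendsto₀ (1 / 2) _ (by norm_num) h4 hy
    rw [h0, dist_comm, dist_eq_norm] at this
    refine this.trans (le_of_eq ?_)
    ring
  · have h6 : Tendsto (fun k => ‖(σ.T ^ x) (σ.e (n k)) - σ.e (n k)‖) atTop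
        (𝓝 ‖(σ.T ^ x) y - y‖) := ((((σ.T ^ x).continuous.tendsto y).comp hy).sub hy).norm
    refine le_of_tendsto h6 ?_
    filter_upwards [hG, eventually_ge_atTop j] with k h7 h8
    rw [T_pow_e]
    have h9 : n k + x ≡ n k [MOD P (l j)] := by
      simpa using (Nat.ModEq.refl (n k)).add ((Nat.modEq_zero_iff_dvd).2 hx)
    exact norm_e_sub h7 (h2 j k h8) ((σ.g_congr (h9.trans (h5 j k h8))).trans (h3 j)) h9

end Sys

end Pool.Agent.H52Z.RR
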