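import Mathlib
import Pool.Agent.H52Z.RR2

/-!
# Mass functionals, transport and heavy nodes
-/

set_option autoImplicit false

open Finset Filter Topology

namespace Pool.Agent.H52Z.RR

namespace Sys

variable (σ : Sys)

noncomputable def φ : σ.X →L[ℝ] ℝ := σ.cd (0, 0, 0)

lemma φ_e (s : ℕ) : σ.φ (σ.e s) = 1 := σ.cd_e _ _

lemma abs_φ_le (v : σ.X) : |σ.φ v| ≤ ‖v‖ := σ.abs_cd_le _ _

noncomputable def μ (J r : ℕ) : σ.X →L[ℝ] ℝ := ((2 : ℝ) ^ J / 2 ^ σ.g J r) • σ.cd (1, J, r % P J)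

open Classical in
lemma μ_e (J r s : ℕ) : σ.μ J r (σ.e s) = if σ.act s J ∧ s % P J = r % P J then 1 else 0 := by
  change (2 : ℝ) ^ J / 2 ^ σ.g J r * σ.cd (1, J, r % P J) (σ.e s) = _
  rw [cd_e]
  simp only [F]
  split_ifs with h
  · rw [σ.g_congr (show s ≡ r [MOD P J] from h.2)]
    field_simp
  · rw [mul_zero]

lemma abs_μ_le {J r : ℕ} (h : G J ≤ σ.g J r) (v : σ.X) : |σ.μ J r v| ≤ γ J * ‖v‖ := by
  change |(2 : ℝ) ^ J / 2 ^ σ.g J r * σ.cd (1, J, r % P J) v| ≤ _
  rw [abs_mul, abs_of_pos (by positivity)]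
  refine mul_le_mul ?_ (σ.abs_cd_le _ _) (abs_nonneg _) (γ_pos J).le
  exact div_le_div_of_nonneg_left (by positivity) (by positivity) (pow_le_pow_right₀ one_le_two h)

noncomputable def ν (n J r : ℕ) : σ.X →L[ℝ] ℝ := (σ.μ J (r + n)).comp (σ.T ^ n)

lemma ν_apply (n J r : ℕ) (v : σ.X) : σ.ν n J r v = σ.μ J (r + n) ((σ.T ^ n) v) := rfl

lemma ν_zero (J r : ℕ) (v : σ.X) : σ.ν 0 J r v = σ.μ J r v := rfl

open Classical in
lemma ν_e (n J r s : ℕ) :
    σ.ν n J r (σ.e s) = if σ.act (s + n) J ∧ s % P J = r % P J then 1 else 0 := by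
  rw [ν_apply, T_pow_e, μ_e]
  exact if_congr (and_congr_right fun _ =>
    ⟨fun h => Nat.ModEq.add_right_cancel' n h, fun h => Nat.ModEq.add_right n h⟩) rfl rfl

lemma span_ev {ι : Type} (q : ℕ → ι → Prop) (A B : ℕ → ι → σ.X →L[ℝ] ℝ)
    (h : ∀ s, ∀ᶠ K in atTop, ∀ i, q K i → A K i (σ.e s) = B K i (σ.e s)) {v : σ.X}
    (hv : v ∈ Submodule.span ℝ (Set.range σ.e)) : ∀ᶠ K in atTop, ∀ i, q K i → A K i v = B K i v := by
  induction hv using Submodule.span_induction with
  | mem g hg =>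
    obtain ⟨s, rfl⟩ := hg
    exact h s
  | zero => exact Eventually.of_forall fun K i _ => by simp
  | add g g' _ _ h3 h4 =>
    filter_upwards [h3, h4] with K h5 h6 i hi
    rw [map_add, map_add, h5 i hi, h6 i hi]
  | smul c g _ h3 =>
    filter_upwards [h3] with K h5 i hi
    rw [map_smul, map_smul, h5 i hi]

lemma clm_ext {A B : σ.X →L[ℝ] ℝ} (h : ∀ s, A (σ.e s) = B (σ.e s)) : A = B :=
  ContinuousLinearMap.ext_on σ.dense_span (by rintro _ ⟨s, rfl⟩; exact h s)

lemma ident1 (n : ℕ) {v : σ.X} (hv : v ∈ Submodule.span ℝ (Set.range σ.e)) :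
    ∀ᶠ K in atTop, ∀ r, σ.ν 0 K r v = σ.ν n K r v := by
  have := σ.span_ev (fun _ _ => True) (fun K r => σ.ν 0 K r) (fun K r => σ.ν n K r) (fun s => by
    filter_upwards [eventually_ge_atTop (s + n)] with K hK r _
    have h1 := lt_H K
    have h2 : σ.act (s + 0) K := act_small (by omega)
    have h3 : σ.act (s + n) K := act_small (by omega)
    simp only [ν_e, h2, h3]) hv
  filter_upwards [this] with K hK r using hK r trivial

open Classical in
lemma sum_res (n J s : ℕ) (q : ℕ → Prop) :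
    ∑ r ∈ range (P J), (if q r then σ.ν n J r (σ.e s) else 0) =
      if σ.act (s + n) J ∧ q (s % P J) then 1 else 0 := by
  rw [sum_eq_single (s % P J)]
  · rw [ν_e, Nat.mod_mod]
    by_cases h1 : σ.act (s + n) J <;> by_cases h2 : q (s % P J) <;> simp [h1, h2]
  · intro r hr h
    rw [ν_e, Nat.mod_eq_of_lt (mem_range.1 hr), if_neg (fun h1 : _ ∧ _ => h h1.2.symm), ite_self]
  · intro h
    exact absurd (mem_range.2 (Nat.mod_lt _ (P_pos J))) h

open Classical in
lemma ident2 (n : ℕ) {v : σ.X} (hv : v ∈ Submodule.span ℝ (Set.range σ.e)) :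
    ∀ᶠ K in atTop, ∀ l r, l < K → σ.ν n l r v = ∑ J ∈ Ioc l K, ∑ r' ∈ range (P J),
      if r' % P l = r % P l ∧ σ.ty J (r' + n) = some l then σ.ν n J r' v else 0 := by
  have := σ.span_ev (fun K (i : ℕ × ℕ) => i.1 < K) (fun _ i => σ.ν n i.1 i.2)
    (fun K i => ∑ J ∈ Ioc i.1 K, ∑ r' ∈ range (P J),
      if r' % P i.1 = i.2 % P i.1 ∧ σ.ty J (r' + n) = some i.1 then σ.ν n J r' else 0) (fun s => by
    filter_upwards [eventually_ge_atTop (s + n)] with K hK ⟨l, r⟩ hl
    simp only [_root_.sum_apply, apply_ite (fun A : σ.X →L[ℝ] ℝ => A (σ.e s)),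
      zero_apply] at hl ⊢
    have h1 : ∀ J ∈ Ioc l K, (∑ r' ∈ range (P J),
        if r' % P l = r % P l ∧ σ.ty J (r' + n) = some l then σ.ν n J r' (σ.e s) else 0) =
        if σ.act (s + n) J ∧ s % P l = r % P l ∧ σ.ty J (s + n) = some l then 1 else 0 := by
      intro J hJ
      have h2 := σ.sum_res n J s fun r' => r' % P l = r % P l ∧ σ.ty J (r' + n) = some l
      rw [Nat.mod_mod_of_dvd s (P_dvd (mem_Ioc.1 hJ).1.le),
        σ.ty_congr ((Nat.mod_modEq s (P J)).add_right n)] at h2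
      convert h2
    rw [sum_congr rfl h1, ν_e]
    split_ifs with h2
    · obtain ⟨J, h3, h4, h5, h6⟩ := h2.1.parent hK hl
      rw [sum_eq_single J, if_pos ⟨h5, h2.2, h6⟩]
      · intro J' _ h7
        exact if_neg fun h8 => h7 (parent_unique h8.1 h8.2.2 h5 h6)
      · intro h7
        exact absurd (mem_Ioc.2 ⟨h3, h4⟩) h7
    · exact (sum_eq_zero fun J _ => if_neg fun h8 => h2 ⟨h8.1.step h8.2.2, h8.2.1⟩).symm) hv
  filter_upwards [this] with K hK l r hl
  simpa only [_root_.sum_apply, apply_ite (fun A : σ.X →L[ℝ] ℝ => A v),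
    zero_apply] using hK (l, r) hl

lemma transport (n l : ℕ) (gap : ∀ J u, l < J → σ.ty J u = none → G J ≤ σ.g J u)
    (excl : ∀ J u t t', l < J → σ.ty J u = some t → σ.ty J (u + n) = some t' → t = t')
    (r : ℕ) (v : σ.X) : |σ.ν 0 l r v - σ.ν n l r v| ≤ γ l * (‖v‖ + ‖(σ.T ^ n) v‖) := by
  classical
  refine closure_minimal (t := {v : σ.X | |σ.ν 0 l r v - σ.ν n l r v| ≤
    γ l * (‖v‖ + ‖(σ.T ^ n) v‖)}) ?_ (isClosed_le (by fun_prop) (by fun_prop)) (σ.dense_span v)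
  clear v
  intro v hv
  change |σ.ν 0 l r v - σ.ν n l r v| ≤ γ l * (‖v‖ + ‖(σ.T ^ n) v‖)
  set C := ‖v‖ + ‖(σ.T ^ n) v‖ with hC
  have hC1 : ‖v‖ ≤ C := le_add_of_nonneg_right (norm_nonneg _)
  have hC2 : ‖(σ.T ^ n) v‖ ≤ C := le_add_of_nonneg_left (norm_nonneg _)
  have hC0 : 0 ≤ C := (norm_nonneg _).trans hC1
  obtain ⟨K, h1, h2, h3, h4⟩ := ((σ.ident1 n hv).and ((σ.ident2 0 hv).and
    ((σ.ident2 n hv).and (eventually_ge_atTop l)))).exists
  have key : ∀ d l', l ≤ l' → l' ≤ K → K - l' ≤ d → ∀ r,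
      |σ.ν 0 l' r v - σ.ν n l' r v| ≤ γ l' * C := by
    intro d
    induction d with
    | zero =>
      intro l' _ _ _ r
      obtain rfl : l' = K := by omega
      rw [h1, sub_self, abs_zero]
      exact mul_nonneg (γ_pos _).le hC0
    | succ d ih =>
      intro l' h5 h6 h7 r
      rcases h6.eq_or_lt with rfl | h8
      · rw [h1, sub_self, abs_zero]
        exact mul_nonneg (γ_pos _).le hC0
      rw [h2 l' r h8, h3 l' r h8, ← sum_sub_distrib]
      refine (abs_sum_le_sum_abs _ _).trans (le_trans (sum_le_sum fun J hJ => ?_)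
        ((sum_mul _ _ _).ge.trans (mul_le_mul_of_nonneg_right (γ_sum l' K) hC0)))
      obtain ⟨h9, h10⟩ := mem_Ioc.1 hJ
      rw [← sum_sub_distrib]
      refine (abs_sum_le_sum_abs _ _).trans
        ((sum_le_card_nsmul _ _ (2 * (γ J * C)) fun r' _ => ?_).trans (le_of_eq ?_))
      swap
      · rw [card_range, nsmul_eq_mul]
        ring
      have h11 := abs_le.1 (ih J (by omega) h10 (by omega) r')
      have h12 : 0 ≤ γ J * C := mul_nonneg (γ_pos _).le hC0
      rw [add_zero]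
      split_ifs with h13 h14 h14
      · rw [abs_le]
        constructor <;> linarith [h11.1, h11.2]
      · have h15 : σ.ty J (r' + n) = none := by
          rcases h16 : σ.ty J (r' + n) with _ | t'
          · rfl
          · exact absurd ⟨h13.1, excl J r' l' t' (by omega) h13.2 h16 ▸ h16⟩ h14
        have h16 := abs_le.1 ((σ.abs_μ_le (gap J _ (by omega) h15) ((σ.T ^ n) v)).trans
          (mul_le_mul_of_nonneg_left hC2 (γ_pos _).le))
        rw [← ν_apply] at h16
        rw [abs_le]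
        constructor <;> linarith [h11.1, h11.2, h16.1, h16.2]
      · have h15 : σ.ty J r' = none := by
          rcases h16 : σ.ty J r' with _ | t'
          · rfl
          · exact absurd ⟨h14.1, excl J r' t' l' (by omega) h16 h14.2 ▸ h16⟩ h13
        have h16 := abs_le.1 ((σ.abs_μ_le (gap J _ (by omega) h15) v).trans
          (mul_le_mul_of_nonneg_left hC1 (γ_pos _).le))
        rw [← ν_zero] at h16
        rw [abs_le]
        constructor <;> linarith [h11.1, h11.2, h16.1, h16.2]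
      · rw [sub_self, abs_zero]
        linarith
  exact key _ l le_rfl h4 le_rfl r

noncomputable def V (l K : ℕ) : σ.X →L[ℝ] ℝ := (2 : ℝ) ^ l • σ.cd (2, l, K)

open Classical in
lemma V_e (l K s : ℕ) : σ.V l K (σ.e s) = if ∃ J, l ≤ J ∧ J ≤ K ∧ σ.act s J then 1 else 0 := by
  change (2 : ℝ) ^ l * σ.cd (2, l, K) (σ.e s) = _
  rw [cd_e]
  simp only [F]
  split_ifs with h
  · field_simp
  · rw [mul_zero]

lemma abs_V_le (l K : ℕ) (v : σ.X) : |σ.V l K v| ≤ 2 ^ l * ‖v‖ := by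
  change |(2 : ℝ) ^ l * σ.cd (2, l, K) v| ≤ _
  rw [abs_mul, abs_of_pos (by positivity)]
  exact mul_le_mul_of_nonneg_left (σ.abs_cd_le _ _) (by positivity)

open Classical in
lemma V_eq (l K : ℕ) : σ.V (l + 1) K = ∑ J ∈ Ioc l K, ∑ r ∈ range (P J),
    if ∀ t, σ.ty J r = some t → t ≤ l then σ.ν 0 J r else 0 := by
  refine σ.clm_ext fun s => ?_
  simp only [_root_.sum_apply, apply_ite (fun A : σ.X →L[ℝ] ℝ => A (σ.e s)),
    zero_apply]
  have h1 : ∀ J ∈ Ioc l K, (∑ r ∈ range (P J),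
      if ∀ t, σ.ty J r = some t → t ≤ l then σ.ν 0 J r (σ.e s) else 0) =
      if σ.act s J ∧ ∀ t, σ.ty J s = some t → t ≤ l then 1 else 0 := by
    intro J _
    have h2 := σ.sum_res 0 J s fun r => ∀ t, σ.ty J r = some t → t ≤ l
    rw [σ.ty_per, add_zero] at h2
    convert h2
  rw [sum_congr rfl h1, V_e]
  split_ifs with h2
  · have h3 := Nat.find_spec h2
    have h0 : ∀ t, σ.ty (Nat.find h2) s = some t → t ≤ l := by
      intro t ht
      by_contra h4
      have h5 := σ.ty_lt ht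
      exact Nat.find_min h2 h5 ⟨by omega, by omega, h3.2.2.step ht⟩
    rw [sum_eq_single (Nat.find h2), if_pos ⟨h3.2.2, h0⟩]
    · intro J hJ h4
      refine if_neg fun h5 => ?_
      obtain ⟨h6, h7⟩ := mem_Ioc.1 hJ
      have h8 := Nat.find_min' h2 ⟨h6, h7, h5.1⟩
      obtain ⟨t', h9, h10, -⟩ := h5.1.le_ty (t := 0) h3.2.2 (lt_of_le_of_ne h8 (Ne.symm h4))
      have := h5.2 t' h9
      omega
    · intro h4
      exact absurd (mem_Ioc.2 ⟨h3.1, h3.2.1⟩) h4
  · exact (sum_eq_zero fun J hJ => if_neg fun h8 =>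
      h2 ⟨J, (mem_Ioc.1 hJ).1, (mem_Ioc.1 hJ).2, h8.1⟩).symm

lemma heavy {v : σ.X} (hv : σ.φ v ≠ 0) {C : ℝ} (hC : 0 ≤ C) (l0 : ℕ) :
    ∃ l r, l0 < l ∧ C * γ l < |σ.μ l r v| := by
  classical
  by_contra hcon
  simp only [not_exists, not_and, not_lt] at hcon
  have h1 : ∀ l, l0 ≤ l → |σ.φ v| ≤ C * γ l := by
    intro l hl
    have h2 : ∀ K, |σ.V (l + 1) K v| ≤ C * γ l := by
      intro K
      rw [V_eq]
      simp only [_root_.sum_apply, apply_ite (fun A : σ.X →L[ℝ] ℝ => A v),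
        zero_apply]
      refine (abs_sum_le_sum_abs _ _).trans (le_trans (sum_le_sum fun J hJ => ?_)
        ((mul_sum _ _ _).ge.trans (mul_le_mul_of_nonneg_left (γ_sum l K) hC)))
      have h3 : 0 ≤ C * γ J := mul_nonneg hC (γ_pos J).le
      refine (abs_sum_le_sum_abs _ _).trans
        ((sum_le_card_nsmul _ _ (C * γ J) fun r _ => ?_).trans ?_)
      · split_ifs
        · exact hcon J r (by have := (mem_Ioc.1 hJ).1; omega)
        · rwa [abs_zero]
      · rw [card_range, nsmul_eq_mul]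
        have : (0 : ℝ) ≤ P J * (C * γ J) := by positivity
        linarith
    refine le_of_forall_pos_le_add fun η hη => ?_
    obtain ⟨a, h3, h4⟩ := Metric.mem_closure_iff.1 (σ.dense_span v) (η / (1 + 2 ^ (l + 1)))
      (by positivity)
    obtain ⟨K, hK⟩ := (σ.span_ev (fun _ (_ : Unit) => True) (fun K _ => σ.V (l + 1) K)
      (fun _ _ => σ.φ) (fun s => by
        filter_upwards [eventually_ge_atTop (s + l + 1)] with K hK _ _
        have h5 := lt_H K
        rw [V_e, φ_e, if_pos ⟨K, by omega, le_rfl, act_small (by omega)⟩]) h3).exists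
    have h5 : σ.V (l + 1) K a = σ.φ a := hK () trivial
    rw [dist_eq_norm, lt_div_iff₀ (by positivity)] at h4
    have h6 := abs_le.1 (σ.abs_φ_le (v - a))
    have h7 := abs_le.1 (σ.abs_V_le (l + 1) K (v - a))
    have h8 := abs_le.1 (h2 K)
    rw [map_sub] at h6 h7
    rw [abs_le]
    constructor <;> nlinarith [h6.1, h6.2, h7.1, h7.2, h8.1, h8.2]
  have h2 : Tendsto (fun l => C * γ l) atTop (𝓝 0) := by simpa using γ_tendsto.const_mul C
  have h3 := ge_of_tendsto h2 ((eventually_ge_atTop l0).mono h1)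
  exact hv (abs_nonpos_iff.1 h3)

end Sys

end Pool.Agent.H52Z.RR
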