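import Mathlib
import Pool.Agent.H52Z.RR3

/-!
# The odometer system, the burst systems, and their incompatibility
-/

set_option autoImplicit false

open Finset Filter Topology

namespace Pool.Agent.H52Z.RR

lemma succ_mod (u : ℕ) {M : ℕ} (hM : 0 < M) : (u + 1) % M = u % M + 1 ∨ (u + 1) % M = 0 := by
  have h1 := Nat.mod_lt u hM
  rw [← Nat.mod_add_mod]
  rcases (Nat.succ_le_of_lt h1).eq_or_lt with h2 | h2
  · right
    rw [show u % M + 1 = M from h2, Nat.mod_self]
  · exact Or.inl (Nat.mod_eq_of_lt h2)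

def Q (J : ℕ) : ℕ := L J * b J

lemma Q_ge (J : ℕ) : 64 * L J ≤ Q J := by
  rw [Q, mul_comm]
  exact Nat.mul_le_mul_left _ (b_ge J)

lemma P_ge (J : ℕ) : 64 * Q J ≤ P (J + 1) := by
  rw [P_succ, mul_comm]
  exact Nat.mul_le_mul_left _ (b_ge J)

lemma Q_dvd (J : ℕ) : Q J ∣ P (J + 1) := ⟨b J, rfl⟩

def gβ : ℕ → ℕ → ℕ
  | 0, _ => 0
  | J + 1, u => max (u % Q J - (Q J - 5 * L J)) (u % P (J + 1) - (P (J + 1) - 5 * Q J))

def tyβ : ℕ → ℕ → Option ℕ
  | 0, _ => none
  | J + 1, _ => some J

def β : Sys where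
  ty := tyβ
  g := gβ
  ty_lt := by
    rintro (_ | J) u t h
    · cases h
    · cases h
      exact Nat.lt_succ_self _
  ty_per := by rintro (_ | J) u <;> rfl
  ty_blk := by
    rintro (_ | J) u u' t h _
    · cases h
    · exact h
  ty_small := fun _ => rfl
  g_per := by
    rintro (_ | J) u
    · rfl
    · simp only [gβ, Nat.mod_mod, Nat.mod_mod_of_dvd u (Q_dvd J)]
  g_step := by
    rintro (_ | J) u
    · exact Nat.zero_le _
    · have h1 := L_pos J
      have h2 := Q_ge J
      have h3 := succ_mod u (M := Q J) (by omega)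
      have h4 := succ_mod u (P_pos (J + 1))
      simp only [gβ]
      omega
  g_zero := by
    rintro (_ | J)
    · rfl
    · simp [gβ]
  g_small := by
    intro J u hu
    have h1 := L_eq J
    have h2 := Q_ge J
    have h3 := P_ge J
    have h4 := Nat.mod_le u (Q J)
    have h5 := Nat.mod_le u (P (J + 1))
    simp only [gβ]
    omega
  g_marg := by
    rintro (_ | J) u h
    · simp [P, Nat.mod_one]
    · have h1 := L_eq J
      have h2 := Q_ge J
      have h3 := P_ge J
      have h4 := lt_H J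
      simp only [gβ] at h
      omega

lemma β_act (s J : ℕ) : β.act s J := by
  have key : ∀ d J, β.Rch s (J + d) J := by
    intro d
    induction d with
    | zero => exact fun J => Relation.ReflTransGen.refl
    | succ d ih =>
      intro J
      rw [show J + (d + 1) = J + 1 + d by ring]
      exact Relation.ReflTransGen.tail (ih (J + 1)) rfl
  exact ⟨J + s, by omega, key s J⟩

def Adm : Type := {c : ℕ → ℕ // ∀ J, 1 ≤ c J ∧ c J < b J * b J}

def tyα (c : ℕ → ℕ) : ℕ → ℕ → Option ℕ
  | 0, _ => none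
  | J + 1, u => if u % P (J + 1) / L J = 0 then some J
      else if u % P (J + 1) / L J = c J then some (Nat.unpair J).1 else none

def gα (c : ℕ → ℕ) : ℕ → ℕ → ℕ
  | 0, _ => 0
  | J + 1, u => if u % P (J + 1) < c J * L J then u % P (J + 1) - H J
      else u % P (J + 1) - c J * L J - H J

lemma tyα_lt {c : ℕ → ℕ} {J u t : ℕ} (h : tyα c J u = some t) : t < J := by
  rcases J with _ | J
  · cases h
  · simp only [tyα] at h
    split_ifs at h
    · cases h
      exact Nat.lt_succ_self _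
    · cases h
      exact Nat.lt_succ_of_le (Nat.unpair_left_le J)

lemma Adm.le (α : Adm) (J : ℕ) : L J ≤ α.1 J * L J ∧ α.1 J * L J + L J ≤ P (J + 1) := by
  obtain ⟨h1, h2⟩ := α.2 J
  refine ⟨Nat.le_mul_of_pos_left _ h1, ?_⟩
  calc α.1 J * L J + L J = (α.1 J + 1) * L J := by ring
    _ ≤ (b J * b J) * L J := Nat.mul_le_mul_right _ h2
    _ = P (J + 1) := by rw [P_succ]; ring

lemma div_eq_iff' {x c M : ℕ} (hM : 0 < M) : x / M = c ↔ c * M ≤ x ∧ x < c * M + M := by
  rw [Nat.div_eq_iff hM]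
  omega

def Adm.sys (α : Adm) : Sys where
  ty := tyα α.1
  g := gα α.1
  ty_lt := tyα_lt
  ty_per := by
    rintro (_ | J) u
    · rfl
    · simp only [tyα, Nat.mod_mod]
  ty_blk := by
    rintro (_ | J) u u' t h h1
    · cases h
    · have h2 : u / P J = u' / P J := Sys.div_eq_of_le (Nat.lt_succ_iff.1 (tyα_lt h)) h1
      have h3 : u % P (J + 1) / L J = u' % P (J + 1) / L J := by
        rw [P_succ, mul_assoc, Nat.mod_mul_right_div_self, Nat.mod_mul_right_div_self, L,
          ← Nat.div_div_eq_div_mul, ← Nat.div_div_eq_div_mul, h2]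
      simp only [tyα] at h ⊢
      rwa [← h3]
  ty_small := by
    intro J u hu
    have h1 := L_eq J
    have h2 := lt_H J
    have h3 := Nat.mod_le u (P (J + 1))
    simp only [tyα]
    rw [if_pos (Nat.div_eq_of_lt (by omega))]
  g_per := by
    rintro (_ | J) u
    · rfl
    · simp only [gα, Nat.mod_mod]
  g_step := by
    rintro (_ | J) u
    · exact Nat.zero_le _
    · have h4 := succ_mod u (P_pos (J + 1))
      simp only [gα]
      split_ifs <;> omega
  g_zero := by
    rintro (_ | J)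
    · rfl
    · simp [gα]
  g_small := by
    intro J u hu
    have h5 := Nat.mod_le u (P (J + 1))
    simp only [gα]
    split_ifs <;> omega
  g_marg := by
    rintro (_ | J) u h
    · simp [P, Nat.mod_one]
    · have h1 := L_eq J
      have h2 := α.le J
      have h4 := lt_H J
      simp only [gα] at h
      split_ifs at h <;> omega

lemma Adm.low (α : Adm) {J u : ℕ} (h : α.sys.g (J + 1) u < H J) :
    u % P (J + 1) / L J = 0 ∨ u % P (J + 1) / L J = α.1 J := by
  have h1 := L_eq J
  rw [div_eq_iff' (L_pos J), div_eq_iff' (L_pos J)]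
  change gα α.1 (J + 1) u < H J at h
  simp only [gα] at h
  split_ifs at h <;> omega

lemma Adm.gap (α : Adm) {J u : ℕ} (h : α.sys.ty J u = none) : G J ≤ α.sys.g J u := by
  rcases J with _ | J
  · exact Nat.zero_le _
  by_contra h1
  have h2 := α.low (not_le.1 h1)
  change tyα α.1 (J + 1) u = none at h
  simp only [tyα] at h
  split_ifs at h with h3 h4
  exact h2.elim h3 h4

lemma core {M u k : ℕ} (h : u + k ≡ 0 [MOD M]) (h0 : 0 < k) (h1 : k ≤ M) : u % M + k = M := by
  have h2 : (u % M + k) % M = 0 := by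
    rw [Nat.mod_add_mod]
    exact h
  have h3 := Nat.mod_lt u (show 0 < M by omega)
  obtain ⟨q, hq⟩ := Nat.dvd_of_mod_eq_zero h2
  rcases q with _ | _ | q
  · omega
  · omega
  · have : M * (q + 1 + 1) = M * q + 2 * M := by ring
    omega

lemma design (J r : ℕ) : ∃ c, (1 ≤ c ∧ c < b J * b J) ∧ (gβ (J + 1) r < H J → ∀ n u,
    gβ (J + 1) (r + n) < H J →
    ¬ (u % P (J + 1) / L J = 0 ∧ (u + n) % P (J + 1) / L J = c) ∧
    ¬ (u % P (J + 1) / L J = c ∧ (u + n) % P (J + 1) / L J = 0)) := by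
  have hb := b_ge J
  by_cases hr : gβ (J + 1) r < H J
  swap
  · exact ⟨1, ⟨le_rfl, by nlinarith⟩, fun h => absurd h hr⟩
  obtain ⟨e, he1, he2, he3⟩ : ∃ e, b J ≤ e ∧ e < 2 * b J ∧ b J ∣ 2 * (r / L J) + 2 + e := by
    have h1 := Nat.mod_lt (2 * (r / L J) + 2) (show 0 < b J by omega)
    have h2 := Nat.div_add_mod (2 * (r / L J) + 2) (b J)
    rcases Nat.eq_zero_or_pos ((2 * (r / L J) + 2) % b J) with h3 | h3
    · exact ⟨b J, le_rfl, by omega, (Nat.dvd_of_mod_eq_zero h3).add dvd_rfl⟩
    · refine ⟨2 * b J - (2 * (r / L J) + 2) % b J, by omega, by omega,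
        (2 * (r / L J) + 2) / b J + 2, ?_⟩
      rw [mul_add (b J)]
      omega
  set R := r / L J with hR
  have h1 := L_eq J
  have h2 := Q_ge J
  have h3 := P_ge J
  have h4 := L_pos J
  have h5 : L J * R + r % L J = r := Nat.div_add_mod r (L J)
  have h6 := Nat.mod_lt r h4
  have h7 : b J * b J * ((R + e) / (b J * b J)) + (R + e) % (b J * b J) = R + e :=
    Nat.div_add_mod _ _
  set c := (R + e) % (b J * b J) with hc
  set q := (R + e) / (b J * b J) with hq
  have h8 : 64 * L J ≤ e * L J := Nat.mul_le_mul_right _ (hb.trans he1)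
  have h9 : e * L J + L J ≤ 2 * Q J := by
    calc e * L J + L J = (e + 1) * L J := by ring
      _ ≤ (2 * b J) * L J := Nat.mul_le_mul_right _ he2
      _ = 2 * Q J := by rw [Q]; ring
  have h10 : L J * R + e * L J = P (J + 1) * q + c * L J := by
    calc L J * R + e * L J = L J * (R + e) := by ring
      _ = L J * (b J * b J * q + c) := by rw [h7]
      _ = _ := by rw [P_succ]; ring
  refine ⟨c, ⟨Nat.pos_of_ne_zero fun h0 => ?_, Nat.mod_lt _ (by positivity)⟩,
    fun _ n u hn => ⟨fun h11 => ?_, fun h11 => ?_⟩⟩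
  · have h11 : r + (e * L J - r % L J) ≡ 0 [MOD P (J + 1)] := by
      rw [h0, zero_mul, add_zero] at h10
      exact (Nat.modEq_zero_iff_dvd).2 ⟨q, by omega⟩
    have h12 := core h11 (by omega) (by omega)
    simp only [gβ] at hr
    omega
  · rw [div_eq_iff' h4, div_eq_iff' h4] at h11
    obtain ⟨x, hx⟩ := Nat.exists_eq_add_of_le h11.2.1
    have h12 : u % P (J + 1) + n ≡ c * L J + x [MOD Q J] := by
      rw [← hx]
      exact (((Nat.mod_modEq u _).add_right n).trans (Nat.mod_modEq _ _).symm).of_dvd (Q_dvd J)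
    have h13 : L J * R + 2 * L J + c * L J ≡ 0 [MOD Q J] := by
      have h14 : b J ∣ R + 2 + c := by
        refine (Nat.dvd_add_right (a := b J) (b := b J * b J * q) ⟨b J * q, by ring⟩).1 ?_
        rwa [show b J * b J * q + (R + 2 + c) = 2 * R + 2 + e by omega]
      obtain ⟨w, hw⟩ := h14
      refine (Nat.modEq_zero_iff_dvd).2 ⟨w, ?_⟩
      calc L J * R + 2 * L J + c * L J = L J * (R + 2 + c) := by ring
        _ = _ := by rw [hw, Q]; ring
    have h14 : r + n + (2 * L J + u % P (J + 1) - r % L J - x) ≡ 0 [MOD Q J] := by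
      refine Nat.ModEq.add_right_cancel' x ?_
      rw [show r + n + (2 * L J + u % P (J + 1) - r % L J - x) + x =
        L J * R + 2 * L J + (u % P (J + 1) + n) by omega]
      refine (h12.add_left _).trans ?_
      rw [← add_assoc]
      exact h13.add_right x
    have h15 := core h14 (by omega) (by omega)
    simp only [gβ] at hn
    omega
  · rw [div_eq_iff' h4, div_eq_iff' h4] at h11
    obtain ⟨m, hm⟩ := Nat.exists_eq_add_of_le h11.1.1
    have h12 : c * L J + m + n ≡ (u + n) % P (J + 1) [MOD P (J + 1)] := by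
      rw [← hm]
      exact ((Nat.mod_modEq u _).add_right n).trans (Nat.mod_modEq _ _).symm
    set x := (u + n) % P (J + 1) with hx
    have h14 : r + n + (e * L J + m - r % L J - x) ≡ 0 [MOD P (J + 1)] := by
      refine Nat.ModEq.add_right_cancel' x ?_
      rw [show r + n + (e * L J + m - r % L J - x) + x =
        P (J + 1) * q + (c * L J + m + n) by omega]
      exact ((Nat.modEq_zero_iff_dvd).2 ⟨q, rfl⟩).add h12
    have h15 := core h14 (by omega) (by omega)
    simp only [gβ] at hn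
    omega

open Classical in
lemma joint (f : β.X) (hf : β.φ f ≠ 0) : ∃ α : Adm, ∀ g : α.sys.X, α.sys.φ g ≠ 0 →
    ∀ C δ : ℝ, ‖f‖ ≤ C → ‖g‖ ≤ C → 0 < δ → ∃ N : ℕ, 1 ≤ N ∧ ∀ m,
      (((Ico m (m + N)).filter fun n => ‖(β.T ^ n) f‖ ≤ C ∧ ‖(α.sys.T ^ n) g‖ ≤ C).card : ℝ) <
        δ * N := by
  have h1 : ∀ J, ∃ r, |β.φ f| ≤ P J * |β.μ J r f| := by
    intro J
    have h2 : β.φ = ∑ r ∈ range (P J), β.ν 0 J r := by
      refine β.clm_ext fun s => ?_
      have h3 := β.sum_res 0 J s fun _ => True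
      simp only [if_true, β_act, and_self] at h3
      rw [_root_.sum_apply, h3, Sys.φ_e]
    obtain ⟨r, -, hr⟩ := exists_max_image (range (P J)) (fun r => |β.μ J r f|)
      ⟨0, mem_range.2 (P_pos J)⟩
    refine ⟨r, ?_⟩
    rw [h2, _root_.sum_apply]
    refine (abs_sum_le_sum_abs _ _).trans ((sum_le_card_nsmul _ _ _ hr).trans (le_of_eq ?_))
    rw [card_range, nsmul_eq_mul]
  choose r hr using h1
  choose c hc1 hc2 using fun J => design J (r (J + 1))
  let α : Adm := ⟨c, hc1⟩
  refine ⟨α, fun g hg C δ hfC hgC hδ => ?_⟩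
  have hC : 0 ≤ C := (norm_nonneg _).trans hfC
  have h2 : Tendsto (fun l => C * γ l) atTop (𝓝 0) := by simpa using γ_tendsto.const_mul C
  obtain ⟨l0, hl0⟩ := eventually_atTop.1 ((h2.eventually (gt_mem_nhds (abs_pos.2 hf))).and
    (tendsto_natCast_atTop_atTop.eventually_gt_atTop (2 / δ)))
  have h3 : ∀ J, l0 ≤ J → ∀ n, ‖(β.T ^ n) f‖ ≤ C → gβ (J + 1) (r (J + 1) + n) < H J := by
    intro J hJ n hn
    by_contra h4
    have h5 := β.abs_μ_le (J := J + 1) (not_lt.1 h4) ((β.T ^ n) f)
    have h6 : β.ν n (J + 1) (r (J + 1)) = β.ν 0 (J + 1) (r (J + 1)) :=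
      β.clm_ext fun s => by simp only [Sys.ν_e, β_act]
    rw [← Sys.ν_apply, h6, Sys.ν_zero] at h5
    have h7 := hr (J + 1)
    have h8 := γ_step J
    have h9 := (hl0 J hJ).1
    have h10 := γ_pos (J + 1)
    have h11 : (0 : ℝ) ≤ P (J + 1) := by positivity
    have h12 : P (J + 1) * |β.μ (J + 1) (r (J + 1)) f| ≤ P (J + 1) * (γ (J + 1) * C) :=
      mul_le_mul_of_nonneg_left (h5.trans (mul_le_mul_of_nonneg_left hn h10.le)) h11
    have h13 : 0 ≤ P (J + 1) * γ (J + 1) * C := by positivity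
    nlinarith
  obtain ⟨l, r', h4, h5⟩ := α.sys.heavy hg (show 0 ≤ 3 * C by positivity) l0
  obtain ⟨j, rfl⟩ : ∃ j, l = j + 1 := ⟨l - 1, by omega⟩
  refine ⟨P (j + 1), P_pos _, fun m => ?_⟩
  have h6 : ((Ico m (m + P (j + 1))).filter
      fun n => ‖(β.T ^ n) f‖ ≤ C ∧ ‖(α.sys.T ^ n) g‖ ≤ C).card ≤
      (range (L j) ∪ Ico (c j * L j) (c j * L j + L j)).card := by
    refine card_le_card_of_injOn (fun n => (r' + n) % P (j + 1)) (fun n hn => ?_) fun n hn n' hn' h7 => ?_
    · obtain ⟨-, h7, h8⟩ := mem_filter.1 (mem_coe.1 hn)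
      have h9 := α.sys.transport n (j + 1) (fun J u _ h => α.gap h) (by
        intro J u t t' hJ ht ht'
        obtain ⟨J, rfl⟩ : ∃ J', J = J' + 1 := ⟨J - 1, by omega⟩
        have h10 := hc2 J (h3 J (by omega) 0 hfC) n u (h3 J (by omega) n h7)
        change tyα c (J + 1) u = some t at ht
        change tyα c (J + 1) (u + n) = some t' at ht'
        simp only [tyα] at ht ht'
        split_ifs at ht ht' with h11 h12 h13 h14 h15 h16
        · exact Option.some.inj (ht.symm.trans ht')
        · exact absurd ⟨h11, h13⟩ h10.1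
        · exact absurd ⟨h14, h15⟩ h10.2
        · exact Option.some.inj (ht.symm.trans ht')) r' g
      have h10 : α.sys.g (j + 1) (r' + n) < H j := by
        by_contra h11
        have h12 := α.sys.abs_μ_le (J := j + 1) (not_lt.1 h11) ((α.sys.T ^ n) g)
        rw [← Sys.ν_apply] at h12
        rw [Sys.ν_zero] at h9
        have h13 := abs_sub_abs_le_abs_sub (α.sys.μ (j + 1) r' g) (α.sys.ν n (j + 1) r' g)
        have h14 := γ_pos (j + 1)
        nlinarith
      have h11 := α.low h10
      rw [div_eq_iff' (L_pos j), div_eq_iff' (L_pos j)] at h11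
      change _ ∨ c j * L j ≤ _ ∧ _ < c j * L j + L j at h11
      simp only [coe_union, coe_range, coe_Ico, Set.mem_union, Set.mem_Iio, Set.mem_Ico]
      omega
    · have h8 := mem_Ico.1 (mem_filter.1 (mem_coe.1 hn)).1
      have h9 := mem_Ico.1 (mem_filter.1 (mem_coe.1 hn')).1
      have := Nat.mod_injOn_Ico (r' + m) (P (j + 1)) (x₁ := r' + n) (x₂ := r' + n')
        (mem_coe.2 (mem_Ico.2 (by omega))) (mem_coe.2 (mem_Ico.2 (by omega))) h7
      omega
  have h7 := h6.trans (card_union_le _ _)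
  rw [card_range, Nat.card_Ico, Nat.add_sub_cancel_left] at h7
  have h8 : 2 / δ < (j : ℝ) := (hl0 j (by omega)).2
  have h9 : j * L j ≤ P (j + 1) := by
    have h10 : j ≤ b j := by
      have : j + 6 < 2 ^ (j + 6) := Nat.lt_two_pow_self
      rw [b]
      omega
    have h11 := b_ge j
    calc j * L j ≤ (b j * b j) * L j := Nat.mul_le_mul_right _ (by nlinarith)
      _ = _ := by rw [P_succ]; ring
  have h10 : (j : ℝ) * L j ≤ P (j + 1) := by exact_mod_cast h9
  have h11 : (0 : ℝ) < L j := by exact_mod_cast L_pos j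
  rw [div_lt_iff₀ hδ] at h8
  calc _ ≤ ((L j + L j : ℕ) : ℝ) := by exact_mod_cast h7
    _ = 2 * L j := by push_cast; ring
    _ < j * δ * L j := by gcongr
    _ = δ * (j * L j) := by ring
    _ ≤ _ := by gcongr

end Pool.Agent.H52Z.RR
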