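import Mathlib
import Pool.Agent.H52Z.RR4

/-!
# Joint reiterative recurrence for finitely many systems
-/

set_option autoImplicit false

open Finset Filter Topology

namespace Pool.Agent.H52Z.RR

section General

variable {E : Type} [NormedAddCommGroup E] [NormedSpace ℝ E]

def Y (T : E →L[ℝ] E) (B : ℕ → Set ℕ) : Submodule ℝ E where
  carrier := {g | ∀ ε : ℝ, 0 < ε → ∀ᶠ k in atTop, ∀ n ∈ B k, ‖(T ^ n) g - g‖ < ε}
  add_mem' := by
    intro f g hf hg ε hε
    filter_upwards [hf _ (half_pos hε), hg _ (half_pos hε)] with k h1 h2 n hn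
    have := norm_add_le ((T ^ n) f - f) ((T ^ n) g - g)
    rw [map_add, show (T ^ n) f + (T ^ n) g - (f + g) = (T ^ n) f - f + ((T ^ n) g - g) by abel]
    linarith [h1 n hn, h2 n hn]
  zero_mem' := fun ε hε => Eventually.of_forall fun k n _ => by simpa using hε
  smul_mem' := by
    intro c f hf ε hε
    filter_upwards [hf (ε / (‖c‖ + 1)) (by positivity)] with k h1 n hn
    have h2 := h1 n hn
    rw [map_smul, ← smul_sub, norm_smul]
    rw [lt_div_iff₀ (by positivity)] at h2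
    nlinarith [norm_nonneg ((T ^ n) f - f)]

lemma Y_pow {T : E →L[ℝ] E} {B : ℕ → Set ℕ} {g : E} (hg : g ∈ Y T B) (m : ℕ) :
    (T ^ m) g ∈ Y T B := by
  intro ε hε
  filter_upwards [hg (ε / (‖T ^ m‖ + 1)) (by positivity)] with k h1 n hn
  have h2 := h1 n hn
  have h3 : (T ^ n) ((T ^ m) g) - (T ^ m) g = (T ^ m) ((T ^ n) g - g) := by
    rw [map_sub]
    change (T ^ n * T ^ m) g - _ = (T ^ m * T ^ n) g - _
    rw [← pow_add, ← pow_add, add_comm]
  have h4 := (T ^ m).le_opNorm ((T ^ n) g - g)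
  rw [lt_div_iff₀ (by positivity)] at h2
  rw [h3]
  nlinarith [norm_nonneg ((T ^ n) g - g)]

lemma Y_mono {T : E →L[ℝ] E} {B B' : ℕ → Set ℕ} (h : ∀ k, B' k ⊆ B k) {g : E} (hg : g ∈ Y T B) :
    g ∈ Y T B' := fun ε hε => (hg ε hε).mono fun k hk n hn => hk n (h k hn)

def ret (T : E →L[ℝ] E) (y : E) (B : ℕ → Set ℕ) (τ : ℕ) : Set ℕ :=
  {x | x ∈ B τ ∧ ‖(T ^ x) y - y‖ < 1 / ((τ : ℝ) + 1)}

lemma mem_Y_ret (T : E →L[ℝ] E) (y : E) (B : ℕ → Set ℕ) : y ∈ Y T (ret T y B) := by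
  intro ε hε
  filter_upwards [tendsto_one_div_add_atTop_nhds_zero_nat.eventually (gt_mem_nhds hε)]
    with k hk n hn using hn.2.trans hk

end General

lemma Sys.approx (σ : Sys) (g : σ.X) {η : ℝ} (hη : 0 < η) : ∃ η' : ℝ, 0 < η' ∧ ∀ y : σ.X,
    ‖y - σ.e 0‖ < η' → ∀ B, y ∈ Y σ.T B → ∃ g' ∈ Y σ.T B, ‖g - g'‖ < η := by
  obtain ⟨a, h1, h2⟩ := Metric.mem_closure_iff.1 (σ.dense_span g) (η / 2) (half_pos hη)
  have key : ∀ a ∈ Submodule.span ℝ (Set.range σ.e), ∃ A : σ.X →L[ℝ] σ.X, A (σ.e 0) = a ∧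
      ∀ B y, y ∈ Y σ.T B → A y ∈ Y σ.T B := by
    intro a ha
    induction ha using Submodule.span_induction with
    | mem g hg =>
      obtain ⟨s, rfl⟩ := hg
      exact ⟨σ.T ^ s, by rw [σ.T_pow_e, zero_add], fun B y hy => Y_pow hy s⟩
    | zero => exact ⟨0, rfl, fun B y _ => zero_mem _⟩
    | add g g' _ _ h3 h4 =>
      obtain ⟨A, rfl, h5⟩ := h3
      obtain ⟨A', rfl, h6⟩ := h4
      exact ⟨A + A', rfl, fun B y hy => add_mem (h5 B y hy) (h6 B y hy)⟩
    | smul c g _ h3 =>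
      obtain ⟨A, rfl, h5⟩ := h3
      exact ⟨c • A, rfl, fun B y hy => Submodule.smul_mem _ c (h5 B y hy)⟩
  obtain ⟨A, rfl, hA⟩ := key a h1
  refine ⟨η / 2 / (‖A‖ + 1), by positivity, fun y hy B hB => ⟨A y, hA B y hB, ?_⟩⟩
  have h3 := A.le_opNorm (y - σ.e 0)
  have h4 := dist_triangle g (A (σ.e 0)) (A y)
  rw [dist_comm (A (σ.e 0)), dist_eq_norm (A y), ← map_sub, dist_eq_norm g (A y)] at h4
  rw [lt_div_iff₀ (by positivity)] at hy
  nlinarith [norm_nonneg (y - σ.e 0)]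

def Win (B : ℕ → Set ℕ) : Prop :=
  ∀ τ, ∃ τ', ∀ N, ∃ m, ∀ x, m ≤ x → x < m + N → P τ' ∣ x → x ∈ B τ

lemma exists_l0 {η : ℝ} (hη : 0 < η) : ∃ l : ℕ, 2 / (2 : ℝ) ^ l < η := by
  obtain ⟨l, hl⟩ := exists_pow_lt_of_lt_one (half_pos hη) (show (1 / 2 : ℝ) < 1 by norm_num)
  refine ⟨l, ?_⟩
  rw [one_div_pow] at hl
  rw [div_eq_mul_one_div]
  linarith

lemma inv_pow_lt {τ l : ℕ} (h : τ + 1 ≤ l) : 1 / (2 : ℝ) ^ l < 1 / ((τ : ℝ) + 1) := by
  refine one_div_lt_one_div_of_lt (by positivity) ?_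
  have h1 : τ + 1 < 2 ^ l := h.trans_lt Nat.lt_two_pow_self
  exact_mod_cast h1

lemma exists_res {M r : ℕ} (hr : r < M) (a m : ℕ) :
    ∃ m', m ≤ m' ∧ m' < m + M ∧ (a + m') % M = r := by
  have h1 := Nat.mod_lt (a + m) (show 0 < M by omega)
  have h2 := Nat.div_add_mod (a + m) M
  rcases le_or_gt ((a + m) % M) r with h3 | h3
  · refine ⟨m + (r - (a + m) % M), by omega, by omega, ?_⟩
    rw [show a + (m + (r - (a + m) % M)) = r + M * ((a + m) / M) by omega, Nat.add_mul_mod_self_left,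
      Nat.mod_eq_of_lt hr]
  · refine ⟨m + (M + r - (a + m) % M), by omega, by omega, ?_⟩
    rw [show a + (m + (M + r - (a + m) % M)) = r + M * ((a + m) / M + 1) by rw [mul_add]; omega,
      Nat.add_mul_mod_self_left, Nat.mod_eq_of_lt hr]

lemma Adm.g_R (α : Adm) {J a x : ℕ} (h : a % P (J + 1) = α.1 J * L J + x) (hx : x ≤ H J) :
    α.sys.g (J + 1) a = 0 := by
  change gα α.1 (J + 1) a = 0
  simp only [gα]
  split_ifs <;> omega

lemma Adm.downR (α : Adm) {J a x : ℕ} (hG : α.sys.Good' (J + 1) a)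
    (h : a % P (J + 1) = α.1 J * L J + x) (hx : x ≤ H J) : α.sys.Good' (Nat.unpair J).1 a := by
  refine hG.step ?_ (α.g_R h hx)
  have h1 := L_eq J
  have h2 := lt_H J
  have h3 : a % P (J + 1) / L J = α.1 J := (div_eq_iff' (L_pos J)).2 (by omega)
  change tyα α.1 (J + 1) a = _
  simp only [tyα]
  rw [if_neg (by have := (α.2 J).1; omega), if_pos h3]

lemma stepα (α : Adm) {B : ℕ → Set ℕ} (hB : Win B) {η : ℝ} (hη : 0 < η) :
    ∃ y : α.sys.X, ‖y - α.sys.e 0‖ < η ∧ Win (ret α.sys.T y B) := by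
  choose τ' W hW using hB
  obtain ⟨l0, hl0⟩ := exists_l0 hη
  let M : ℕ → ℕ := fun l => ∑ τ ∈ range (l + 1), (W τ (2 * P l) + 2 * P l)
  let J : ℕ → ℕ := fun l => Nat.pair l (2 * P l + M l)
  let lv : ℕ → ℕ := fun k => Nat.rec l0 (fun _ l => J l + 1) k
  let n : ℕ → ℕ := fun k => Nat.rec 0 (fun k a => α.1 (J (lv k)) * L (J (lv k)) + a) k
  have hlv : ∀ k, lv (k + 1) = J (lv k) + 1 := fun k => rfl
  have hn : ∀ k, n (k + 1) = α.1 (J (lv k)) * L (J (lv k)) + n k := fun k => rfl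
  have hJ1 : ∀ l, l ≤ J l := fun l => Nat.left_le_pair _ _
  have hJ2 : ∀ l, 2 * P l + M l ≤ H (J l) := fun l =>
    (Nat.right_le_pair l _).trans ((Nat.le_succ _).trans (lt_H _))
  have hJ3 : ∀ l, (Nat.unpair (J l)).1 = l := fun l => by simp [J]
  have hmono : StrictMono lv := strictMono_nat_of_lt_succ fun k => by
    rw [hlv]
    exact Nat.lt_succ_of_le (hJ1 _)
  have h1 : ∀ k, n k < P (lv k) := by
    intro k
    induction k with
    | zero => exact P_pos _
    | succ k ih =>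
      have h2 := α.le (J (lv k))
      have h3 := hJ2 (lv k)
      have h4 := L_eq (J (lv k))
      rw [hlv, hn]
      omega
  have h2 : ∀ k, n (k + 1) ≡ n k [MOD P (lv k)] := by
    intro k
    rw [hn]
    have : P (lv k) ∣ α.1 (J (lv k)) * L (J (lv k)) :=
      ((P_dvd (hJ1 _)).mul_right _).mul_left _
    simpa using ((Nat.modEq_zero_iff_dvd).2 this).add_right (n k)
  have h3 : ∀ j k, j ≤ k → n k ≡ n j [MOD P (lv j)] := by
    intro j k hjk
    induction k, hjk using Nat.le_induction with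
    | base => rfl
    | succ k hk ih => exact ((h2 k).of_dvd (P_dvd (hmono.monotone hk))).trans ih
  have h4 : ∀ k x, x ≤ P (lv k) + M (lv k) → ∀ k', k < k' → α.sys.Good' (lv k) (n k' + x) := by
    intro k x hx k' hk'
    have h5 : ∀ k'', k < k'' → x ≤ P (lv k'') := by
      intro k'' h6
      have h7 := hJ2 (lv k)
      have h8 := H_le (J (lv k))
      have h9 := P_mono (hmono.monotone (show k + 1 ≤ k'' from h6))
      rw [hlv] at h9
      omega
    have key : ∀ d k'', k'' + d = k' → k ≤ k'' → α.sys.Good' (lv k'') (n k' + x) := by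
      intro d
      induction d with
      | zero =>
        rintro k'' rfl _
        have h6 := h5 _ hk'
        have h7 := h1 (k'' + 0)
        have h8 := H_ge (lv (k'' + 0))
        exact Sys.good_small (τ := lv (k'' + 0)) (by omega)
      | succ d ih =>
        intro k'' h6 h7
        have h8 := ih (k'' + 1) (by omega) (by omega)
        have h9 := hJ2 (lv k'')
        have h10 := h1 k''
        have h11 : n k'' + x ≤ H (J (lv k'')) := by
          rcases h7.eq_or_lt with rfl | h12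
          · omega
          · have := h5 _ h12
            omega
        have h12 := α.le (J (lv k''))
        have h13 := L_eq (J (lv k''))
        have h14 := lt_H (J (lv k''))
        have h15 : (n k' + x) % P (lv (k'' + 1)) = (n (k'' + 1) + x) % P (lv (k'' + 1)) :=
          (h3 (k'' + 1) k' (by omega)).add_right x
        rw [hlv] at h8 h15
        rw [hn, add_assoc, Nat.mod_eq_of_lt (a := _ + (_ + _)) (by omega)] at h15
        have := α.downR h8 h15 h11
        rwa [hJ3] at this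
    exact key (k' - k) k (by omega) le_rfl
  obtain ⟨y, hy1, hy2⟩ := Sys.chain (σ := α.sys) lv n hmono rfl h2 (fun k k' hk => by
      rcases hk.eq_or_lt with rfl | h5
      · have h6 := h1 k
        have h7 := H_ge (lv k)
        exact Sys.good_small (by omega)
      · exact h4 k 0 (Nat.zero_le _) k' h5) (fun k => by
      rcases k with _ | k
      · exact α.sys.g_zero _
      · have h5 := h1 (k + 1)
        have h6 := h1 k
        have h7 := hJ2 (lv k)
        rw [hlv] at h5 ⊢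
        exact α.g_R (x := n k) (by rw [Nat.mod_eq_of_lt h5, hn]) (by omega))
  refine ⟨y, hy1.trans_lt hl0, fun τ => ⟨lv (τ' τ + τ + 1), fun N => ?_⟩⟩
  set j := τ' τ + τ + 1 with hj
  have h5 : j ≤ lv j := hmono.le_apply
  set J0 := Nat.pair (lv j) N with hJ0
  set k := J0 + 1 + τ with hk
  have h6 : k ≤ lv k := hmono.le_apply
  have h7 := α.le J0
  have h8 := L_eq J0
  have h9 := lt_H J0
  have h10 : N ≤ J0 := Nat.right_le_pair _ _
  have h11 := P_mono (show J0 + 1 ≤ lv k by omega)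
  obtain ⟨m', h12, h13, h14⟩ := exists_res (show α.1 J0 * L J0 < P (lv k) by omega) (n k)
    (W τ (2 * P (lv k)))
  have h15 : W τ (2 * P (lv k)) + 2 * P (lv k) ≤ M (lv k) :=
    single_le_sum (f := fun τ => W τ (2 * P (lv k)) + 2 * P (lv k)) (fun _ _ => Nat.zero_le _)
      (mem_range.2 (by omega))
  refine ⟨m', fun x hx1 hx2 hx3 => ⟨hW τ (2 * P (lv k)) x (by omega) (by omega)
    ((P_dvd (by omega)).trans hx3), (hy2 j x hx3 ?_).trans_lt (inv_pow_lt (by omega))⟩⟩
  filter_upwards [eventually_gt_atTop k] with k' hk'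
  obtain ⟨z, rfl⟩ := Nat.exists_eq_add_of_le hx1
  have h16 : (n k' + (m' + z)) % P (lv k) = α.1 J0 * L J0 + z := by
    have h17 : (n k' + (m' + z)) % P (lv k) = (n k + (m' + z)) % P (lv k) :=
      (h3 k k' hk'.le).add_right _
    rw [h17, ← add_assoc, ← Nat.mod_add_mod, h14, Nat.mod_eq_of_lt (by omega)]
  have h17 := (h4 k (m' + z) (by omega) k' hk').downD (J := J0 + 1) (by omega) (by omega)
  have h18 : (n k' + (m' + z)) % P (J0 + 1) = α.1 J0 * L J0 + z := by
    rw [← Nat.mod_mod_of_dvd _ (P_dvd (show J0 + 1 ≤ lv k by omega)), h16,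
      Nat.mod_eq_of_lt (by omega)]
  have := α.downR h17 h18 (by omega)
  rwa [hJ0, Nat.unpair_pair] at this

end Pool.Agent.H52Z.RR
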