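import Mathlib
import Pool.Agent.H52Z.RR5

/-!
# The odometer step and positive Banach density
-/

set_option autoImplicit false

open Finset Filter Topology

namespace Pool.Agent.H52Z.RR

open Classical in
def Pos (S : Set ℕ) : Prop :=
  ∃ δ : ℝ, 0 < δ ∧ ∀ N : ℕ, 1 ≤ N → ∃ m : ℕ, δ * N ≤ ((Ico m (m + N)).filter (· ∈ S)).card

open Classical in
lemma pos_of_windows {S : Set ℕ} {δ : ℝ} (hδ : 0 < δ) (h : ∀ N0 : ℕ, ∃ N m : ℕ, N0 ≤ N ∧
    δ * N ≤ ((Ico m (m + N)).filter (· ∈ S)).card) : Pos S := by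
  refine ⟨δ / 4, by positivity, fun N hN => ?_⟩
  by_contra hcon
  simp only [not_exists, not_le] at hcon
  obtain ⟨N', m, h1, h2⟩ := h N
  have h3 : ∀ q : ℕ, (((Ico m (m + q * N)).filter (· ∈ S)).card : ℝ) ≤ q * (δ / 4 * N) := by
    intro q
    induction q with
    | zero => simp
    | succ q ih =>
      have h4 := hcon (m + q * N)
      have h5 : Ico m (m + (q + 1) * N) = Ico m (m + q * N) ∪ Ico (m + q * N) (m + q * N + N) := by
        rw [Ico_union_Ico_eq_Ico (by omega) (by omega)]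
        congr 1
        ring
      have h6 : (((Ico m (m + (q + 1) * N)).filter (· ∈ S)).card : ℝ) ≤
          ((Ico m (m + q * N)).filter (· ∈ S)).card +
            ((Ico (m + q * N) (m + q * N + N)).filter (· ∈ S)).card := by
        rw [h5, filter_union]
        exact_mod_cast card_union_le _ _
      push_cast
      linarith
  have h4 := Nat.div_add_mod N' N
  have h5 := Nat.mod_lt N' (show 0 < N from hN)
  have h6 : N' ≤ (N' / N + 1) * N := by
    rw [add_mul, mul_comm]
    omega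
  have h7 : (N' / N + 1) * N ≤ 2 * N' := by
    rw [add_mul, mul_comm]
    omega
  have h8 : (((Ico m (m + N')).filter (· ∈ S)).card : ℝ) ≤
      ((Ico m (m + (N' / N + 1) * N)).filter (· ∈ S)).card := by
    exact_mod_cast card_le_card (filter_subset_filter _ (Ico_subset_Ico_right (by omega)))
  have h9 := h3 (N' / N + 1)
  have h10 : (((N' / N + 1 : ℕ) : ℝ)) * N ≤ 2 * N' := by exact_mod_cast h7
  have h11 : (0 : ℝ) < N' := by exact_mod_cast (show 0 < N' by omega)
  nlinarith

lemma avoid {M Z : ℕ} (h : 12 * Z ≤ M) (hZ : 0 < Z) (m : ℕ) :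
    ∃ x, x ≤ 6 ∧ ∀ z, z < Z → (m + (x * Z + z)) % M ≤ M - 5 * Z := by
  have h1 := Nat.mod_lt m (show 0 < M by omega)
  rcases le_or_gt (m % M + 6 * Z) M with h2 | h2
  · refine ⟨0, by omega, fun z hz => ?_⟩
    rw [← Nat.mod_add_mod]
    exact (Nat.mod_le _ _).trans (by omega)
  · refine ⟨6, le_rfl, fun z hz => ?_⟩
    rw [← Nat.mod_add_mod, Nat.mod_eq_sub_mod (by omega)]
    exact (Nat.mod_le _ _).trans (by omega)

lemma level1 {J r : ℕ} (hr : r < P J) (m : ℕ) : ∃ n, n < P (J + 1) ∧ n ≡ r [MOD P J] ∧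
    ∀ z ≤ P J, gβ (J + 1) (n + z) = 0 ∧ gβ (J + 1) (n + m + z) = 0 := by
  have h1 := L_eq J
  have h2 := Q_ge J
  have h3 := P_ge J
  have h4 := H_ge J
  have h5 := L_pos J
  obtain ⟨x, hx1, hx2⟩ := avoid (show 12 * L J ≤ Q J by omega) h5 m
  obtain ⟨y, hy1, hy2⟩ := avoid (show 12 * Q J ≤ P (J + 1) by omega) (by omega) m
  have h6 : x * L J ≤ 6 * L J := Nat.mul_le_mul_right _ hx1
  have h7 : y * Q J ≤ 6 * Q J := Nat.mul_le_mul_right _ hy1
  refine ⟨r + x * L J + y * Q J, by omega, ?_, fun z hz => ⟨?_, ?_⟩⟩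
  · have h8 : P J ∣ x * L J + y * Q J :=
      (Dvd.intro (b J * x) (by rw [L]; ring)).add (Dvd.intro (b J * b J * y) (by rw [Q, L]; ring))
    rw [add_assoc]
    simpa using ((Nat.modEq_zero_iff_dvd).2 h8).add_left r
  · have h8 : (r + x * L J + y * Q J + z) % Q J ≤ r + x * L J + z := by
      rw [show r + x * L J + y * Q J + z = r + x * L J + z + y * Q J by ring,
        Nat.add_mul_mod_self_right]
      exact Nat.mod_le _ _
    have h9 := Nat.mod_le (r + x * L J + y * Q J + z) (P (J + 1))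
    simp only [gβ]
    omega
  · have h8 := hx2 (r + z) (by omega)
    have h9 := hy2 (r + z + x * L J) (by omega)
    rw [← Nat.add_mul_mod_self_right _ y, show m + (x * L J + (r + z)) + y * Q J =
      r + x * L J + y * Q J + m + z by ring] at h8
    rw [show m + (y * Q J + (r + z + x * L J)) = r + x * L J + y * Q J + m + z by ring] at h9
    simp only [gβ]
    omega

lemma levels {l r : ℕ} (hr : r < P l) (m : ℕ) {l' : ℕ} (h : l ≤ l') : ∃ n, n < P l' ∧
    n ≡ r [MOD P l] ∧ ∀ J, l ≤ J → J < l' → ∀ z ≤ P J,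
      gβ (J + 1) (n + z) = 0 ∧ gβ (J + 1) (n + m + z) = 0 := by
  induction l', h using Nat.le_induction with
  | base => exact ⟨r, hr, rfl, fun J h1 h2 => by omega⟩
  | succ l' hl ih =>
    obtain ⟨n, h1, h2, h3⟩ := ih
    obtain ⟨n', h4, h5, h6⟩ := level1 h1 m
    refine ⟨n', h4, (h5.of_dvd (P_dvd hl)).trans h2, fun J h7 h8 z hz => ?_⟩
    rcases (Nat.lt_succ_iff.1 h8).eq_or_lt with rfl | h9
    · exact h6 z hz
    · have h10 : n' ≡ n [MOD P (J + 1)] := h5.of_dvd (P_dvd h9)
      exact ⟨(β.g_congr (h10.add_right z)).trans (h3 J h7 h9 z hz).1,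
        (β.g_congr ((h10.add_right m).add_right z)).trans (h3 J h7 h9 z hz).2⟩

def Ok (τ r l u : ℕ) : Prop := u % P τ = r % P τ ∧ ∀ J, τ ≤ J → J < l → gβ (J + 1) u = 0

lemma Ok.congr {τ r l u u' : ℕ} (h : Ok τ r l u) (hl : τ ≤ l) (hu : u ≡ u' [MOD P l]) :
    Ok τ r l u' :=
  ⟨(show u' % P τ = u % P τ from (hu.of_dvd (P_dvd hl)).symm).trans h.1, fun J h1 h2 =>
    (β.g_congr (hu.of_dvd (P_dvd h2))).symm.trans (h.2 J h1 h2)⟩

open Classical in
lemma count_ok (τ r : ℕ) {l : ℕ} (h : τ ≤ l) :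
    (1 / 2 + 20 / (b l : ℝ)) * P l ≤ ((range (P l)).filter (Ok τ r l)).card * (P τ : ℝ) := by
  induction l, h using Nat.le_induction with
  | base =>
    have h1 : 1 ≤ ((range (P τ)).filter (Ok τ r τ)).card :=
      card_pos.2 ⟨r % P τ, mem_filter.2 ⟨mem_range.2 (Nat.mod_lt _ (P_pos τ)), Nat.mod_mod _ _,
        fun J h1 h2 => by omega⟩⟩
    have h2 : (1 : ℝ) ≤ ((range (P τ)).filter (Ok τ r τ)).card := by exact_mod_cast h1
    have h3 : (64 : ℝ) ≤ b τ := by exact_mod_cast b_ge τ
    have h4 : 20 / (b τ : ℝ) ≤ 1 / 2 := by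
      rw [div_le_iff₀ (by positivity)]
      linarith
    exact mul_le_mul_of_nonneg_right (by linarith) (by positivity)
  | succ l hl ih =>
    have hb := b_ge l
    obtain ⟨d, hd⟩ : ∃ d, b l = d + 5 := ⟨b l - 5, by omega⟩
    have hP := P_pos l
    have h1 : P l * (b l * d) + 5 * L l = Q l := by
      rw [Q, L, hd]
      ring
    have h2 : Q l * d + 5 * Q l = P (l + 1) := by
      rw [P_succ, Q, hd]
      ring
    have h3 : ∀ u c, u < P l → c < b l * d → u + P l * c < P l * (b l * d) := by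
      intro u c hu hc
      calc u + P l * c < P l * (c + 1) := by rw [mul_add]; omega
        _ ≤ _ := Nat.mul_le_mul_left _ hc
    have h4 : (((range (P l)).filter (Ok τ r l)) ×ˢ (range (b l * d) ×ˢ range d)).card ≤
        ((range (P (l + 1))).filter (Ok τ r (l + 1))).card := by
      refine card_le_card_of_injOn (fun p => p.1 + P l * p.2.1 + Q l * p.2.2) ?_ ?_
      · rintro ⟨u, c, c'⟩ hp
        simp only [coe_product, Set.mem_prod, mem_coe, mem_filter, mem_range] at hp ⊢
        obtain ⟨⟨h5, h6⟩, h7, h8⟩ := hp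
        have h9 := h3 u c h5 h7
        have h10 : Q l * (c' + 1) ≤ Q l * d := Nat.mul_le_mul_left _ h8
        rw [mul_add] at h10
        have h11 : u ≡ u + P l * c + Q l * c' [MOD P l] := by
          have h12 : P l ∣ P l * c + Q l * c' :=
            (Dvd.intro _ rfl).add (Dvd.intro (b l * b l * c') (by rw [Q, L]; ring))
          rw [add_assoc]
          simpa using (((Nat.modEq_zero_iff_dvd).2 h12).add_left u).symm
        have h12 := h6.congr hl h11
        refine ⟨by omega, h12.1, fun J h13 h14 => ?_⟩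
        rcases (Nat.lt_succ_iff.1 h14).eq_or_lt with rfl | h15
        · have h16 : (u + P J * c + Q J * c') % Q J ≤ u + P J * c := by
            rw [Nat.add_mul_mod_self_left]
            exact Nat.mod_le _ _
          have h17 := Nat.mod_le (u + P J * c + Q J * c') (P (J + 1))
          simp only [gβ]
          omega
        · exact h12.2 J h13 h15
      · rintro ⟨u, c, c'⟩ hp ⟨v, e, e'⟩ hq h5
        simp only [coe_product, Set.mem_prod, mem_coe, mem_filter, mem_range] at hp hq h5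
        have h6 := h3 u c hp.1.1 hp.2.1
        have h7 := h3 v e hq.1.1 hq.2.1
        have h8 := congrArg (· % Q l) h5
        simp only [Nat.add_mul_mod_self_left] at h8
        rw [Nat.mod_eq_of_lt (by omega), Nat.mod_eq_of_lt (by omega)] at h8
        have h9 := congrArg (· % P l) h8
        simp only [Nat.add_mul_mod_self_left] at h9
        rw [Nat.mod_eq_of_lt hp.1.1, Nat.mod_eq_of_lt hq.1.1] at h9
        subst h9
        have h10 : c = e := Nat.eq_of_mul_eq_mul_left hP (by omega)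
        subst h10
        have h11 := L_pos l
        have h12 : c' = e' := Nat.eq_of_mul_eq_mul_left (show 0 < Q l by omega) (by omega)
        rw [h12]
    rw [card_product, card_product, card_range, card_range] at h4
    have h5 : (((range (P l)).filter (Ok τ r l)).card : ℝ) * (b l * d * d) ≤
        ((range (P (l + 1))).filter (Ok τ r (l + 1))).card := by exact_mod_cast h4
    have h6 : (b l : ℝ) = d + 5 := by exact_mod_cast hd
    have h7 : (64 : ℝ) ≤ b l := by exact_mod_cast hb
    have h8 : (P (l + 1) : ℝ) = P l * b l * b l * b l := by rw [P]; push_cast; ring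
    have h9 : (b (l + 1) : ℝ) = 2 * b l := by rw [b_succ]; push_cast; ring
    have h10 : (0 : ℝ) < P l := by exact_mod_cast hP
    have h11 : (1 / 2 + 20 / (2 * b l : ℝ)) * (b l * b l) ≤ (1 / 2 + 20 / (b l : ℝ)) * (d * d) := by
      have h12 : (d : ℝ) = b l - 5 := by linarith
      rw [h12]
      field_simp
      nlinarith
    calc (1 / 2 + 20 / (b (l + 1) : ℝ)) * P (l + 1)
        = (1 / 2 + 20 / (2 * b l : ℝ)) * (b l * b l) * (P l * b l) := by rw [h8, h9]; ring
      _ ≤ (1 / 2 + 20 / (b l : ℝ)) * (d * d) * (P l * b l) := by gcongr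
      _ = (1 / 2 + 20 / (b l : ℝ)) * P l * (b l * d * d) := by ring
      _ ≤ ((range (P l)).filter (Ok τ r l)).card * (P τ : ℝ) * (b l * d * d) := by gcongr
      _ = ((range (P l)).filter (Ok τ r l)).card * (b l * d * d) * (P τ : ℝ) := by ring
      _ ≤ _ := by gcongr

lemma β_good {τ a : ℕ} (h : ∀ J, τ ≤ J → gβ (J + 1) a = 0) : β.Good' τ a := by
  refine ⟨β_act _ _, fun J hJ _ => ?_⟩
  obtain ⟨J, rfl⟩ : ∃ J', J = J' + 1 := ⟨J - 1, by omega⟩
  exact h J (by omega)

lemma stepβ {B : ℕ → Set ℕ} (hB : Win B) {η : ℝ} (hη : 0 < η) :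
    ∃ y : β.X, ‖y - β.e 0‖ < η ∧ ∀ τ, Pos (ret β.T y B τ) := by
  classical
  choose τ' W hW using hB
  obtain ⟨l0, hl0⟩ := exists_l0 hη
  have h0 : ∀ l r m l', ∃ n, r < P l → l ≤ l' → n < P l' ∧ n ≡ r [MOD P l] ∧
      ∀ J, l ≤ J → J < l' → ∀ z ≤ P J, gβ (J + 1) (n + z) = 0 ∧ gβ (J + 1) (n + m + z) = 0 := by
    intro l r m l'
    by_cases h : r < P l ∧ l ≤ l'
    · obtain ⟨n, hn⟩ := levels h.1 m h.2
      exact ⟨n, fun _ _ => hn⟩
    · exact ⟨0, fun h1 h2 => absurd ⟨h1, h2⟩ h⟩
  choose nx hnx using h0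
  let lv : ℕ → ℕ := fun k => Nat.rec l0 (fun k l => l + W (Nat.unpair k).1 (P l) + 1) k
  let m : ℕ → ℕ := fun k => W (Nat.unpair k).1 (P (lv k))
  let n : ℕ → ℕ := fun k => Nat.rec 0 (fun k a => nx (lv k) a (m k) (lv (k + 1))) k
  have hlv : ∀ k, lv (k + 1) = lv k + m k + 1 := fun k => rfl
  have hn : ∀ k, n (k + 1) = nx (lv k) (n k) (m k) (lv (k + 1)) := fun k => rfl
  have hmono : StrictMono lv := strictMono_nat_of_lt_succ fun k => by rw [hlv]; omega
  have h1 : ∀ k, n k < P (lv k) := by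
    intro k
    induction k with
    | zero => exact P_pos _
    | succ k ih => exact (hnx _ _ _ _ ih (hmono.monotone (Nat.le_succ k))).1
  have h2 : ∀ k, n (k + 1) ≡ n k [MOD P (lv k)] := fun k =>
    (hnx _ _ _ _ (h1 k) (hmono.monotone (Nat.le_succ k))).2.1
  have h2' : ∀ k J, lv k ≤ J → J < lv (k + 1) → ∀ z ≤ P J, gβ (J + 1) (n (k + 1) + z) = 0 ∧
      gβ (J + 1) (n (k + 1) + m k + z) = 0 := fun k =>
    (hnx _ _ _ _ (h1 k) (hmono.monotone (Nat.le_succ k))).2.2
  have h3 : ∀ j k, j ≤ k → n k ≡ n j [MOD P (lv j)] := by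
    intro j k hjk
    induction k, hjk using Nat.le_induction with
    | base => rfl
    | succ k hk ih => exact ((h2 k).of_dvd (P_dvd (hmono.monotone hk))).trans ih
  have hA : ∀ k J, lv 0 ≤ J → ∀ z ≤ P J, gβ (J + 1) (n k + z) = 0 := by
    have h5 : ∀ k J, lv k ≤ J → ∀ z ≤ P J, gβ (J + 1) (n k + z) = 0 := by
      intro k J hJ z hz
      have h6 := h1 k
      have h7 := P_mono hJ
      have h8 := H_ge J
      exact β.g_small (by omega)
    intro k
    induction k with
    | zero => exact h5 0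
    | succ k ih =>
      intro J hJ z hz
      rcases lt_or_ge J (lv k) with h6 | h6
      · exact (β.g_congr (((h2 k).of_dvd (P_dvd h6)).add_right z)).trans (ih J hJ z hz)
      rcases lt_or_ge J (lv (k + 1)) with h7 | h7
      · exact (h2' k J h6 h7 z hz).1
      · exact h5 (k + 1) J h7 z hz
  have hg : ∀ k, β.g (lv k) (n k) = 0 := by
    rintro (_ | k)
    · exact β.g_zero _
    · have := hmono.monotone (Nat.zero_le k)
      exact hA (k + 1) (lv k + m k) (by omega) 0 (Nat.zero_le _)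
  obtain ⟨y, hy1, hy2⟩ := Sys.chain (σ := β) lv n hmono rfl h2 (fun k k' _ => β_good fun J hJ =>
    hA k' J ((hmono.monotone (Nat.zero_le k)).trans hJ) 0 (Nat.zero_le _)) hg
  refine ⟨y, hy1.trans_lt hl0, fun τ => ?_⟩
  set j := τ' τ + τ + 1 with hj
  have h5 : j ≤ lv j := hmono.le_apply
  have h6 : (0 : ℝ) < P (lv j) := by exact_mod_cast P_pos _
  refine pos_of_windows (δ := 1 / 2 / P (lv j)) (by positivity) fun N0 => ?_
  set k := Nat.pair τ (N0 + j) with hk
  have h7 : N0 + j ≤ k := Nat.right_le_pair _ _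
  have h8 : k ≤ lv k := hmono.le_apply
  have h9 := le_P (lv k)
  have h10 : m k = W τ (P (lv k)) := by simp only [m, hk, Nat.unpair_pair]
  have h11 : lv j ≤ lv k := hmono.monotone (show j ≤ k by omega)
  refine ⟨P (lv k), m k, by omega, ?_⟩
  have h12 := count_ok (lv j) (n j) h11
  have h13 := Nat.filter_Ico_card_eq_of_periodic (n k + m k) (P (lv k)) (Ok (lv j) (n j) (lv k))
    (fun u => propext ⟨fun h => h.congr h11 (Nat.add_modEq_right), fun h =>
      h.congr h11 (Nat.add_modEq_right).symm⟩)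
  rw [Nat.count_eq_card_filter_range] at h13
  have h14 : ((Ico (n k + m k) (n k + m k + P (lv k))).filter (Ok (lv j) (n j) (lv k))).card ≤
      ((Ico (m k) (m k + P (lv k))).filter (· ∈ ret β.T y B τ)).card := by
    refine card_le_card_of_injOn (fun u => u - n k) (fun u hu => ?_) fun u hu u' hu' h => ?_
    swap
    · have h15 := mem_Ico.1 (mem_filter.1 (mem_coe.1 hu)).1
      have h16 := mem_Ico.1 (mem_filter.1 (mem_coe.1 hu')).1
      simp only at h
      omega
    obtain ⟨h15, h16⟩ := mem_filter.1 (mem_coe.1 hu)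
    rw [mem_Ico] at h15
    obtain ⟨z, rfl⟩ := Nat.exists_eq_add_of_le h15.1
    beta_reduce
    rw [show n k + m k + z - n k = m k + z by omega]
    have h17 : P (lv j) ∣ m k + z := by
      have h18 : n k + (m k + z) ≡ n k + 0 [MOD P (lv j)] := by
        rw [← add_assoc]
        exact Nat.ModEq.trans h16.1 (h3 j k (by omega)).symm
      exact (Nat.modEq_zero_iff_dvd).1 (Nat.ModEq.add_left_cancel' _ h18)
    refine mem_coe.2 (mem_filter.2 ⟨mem_Ico.2 (by omega), hW τ (P (lv k)) _ (by omega) (by omega)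
      ((P_dvd (by omega)).trans h17), (hy2 j _ h17 ?_).trans_lt (inv_pow_lt (by omega))⟩)
    filter_upwards [eventually_gt_atTop k] with k' hk'
    refine β_good fun J hJ => ?_
    rcases lt_or_ge J (lv k) with h18 | h18
    · refine (β.g_congr (((h3 k k' hk'.le).of_dvd (P_dvd h18)).add_right _)).trans ?_
      rw [← add_assoc]
      exact h16.2 J hJ h18
    rcases lt_or_ge J (lv (k + 1)) with h19 | h19
    · refine (β.g_congr (((h3 (k + 1) k' hk').of_dvd (P_dvd h19)).add_right _)).trans ?_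
      rw [← add_assoc]
      have := P_mono h18
      exact (h2' k J h18 h19 z (by omega)).2
    · refine hA k' J ((hmono.monotone (Nat.zero_le k)).trans h18) _ ?_
      have h20 := P_mono h19
      have h21 := H_le (lv k + m k)
      have h22 := H_ge (lv k + m k)
      have h23 := le_P (lv k + m k)
      have h24 := P_mono (Nat.le_add_right (lv k) (m k))
      rw [hlv] at h20
      omega
  rw [h13] at h14
  have h15 : (((range (P (lv k))).filter (Ok (lv j) (n j) (lv k))).card : ℝ) ≤
      ((Ico (m k) (m k + P (lv k))).filter (· ∈ ret β.T y B τ)).card := by exact_mod_cast h14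
  refine le_trans ?_ h15
  rw [div_mul_eq_mul_div, div_le_iff₀ h6]
  refine le_trans (mul_le_mul_of_nonneg_right ?_ (by positivity)) h12
  exact le_add_of_nonneg_right (by positivity)

end Pool.Agent.H52Z.RR
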