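import Mathlib
import Pool.Agent.H52Z.RR6

/-!
# A reiteratively recurrent operator whose reiteratively recurrent vectors are not dense lineable
-/

set_option autoImplicit false

open Finset Filter Topology

namespace Pool.Agent.H52Z.RR

abbrev Ix : Type := Option (Adm × Set β.X)

def sy : Ix → Sys
  | none => β
  | some p => p.1.sys

def BX : Type := lp (fun ι : Ix => (sy ι).X) 1

noncomputable instance : NormedAddCommGroup BX :=
  inferInstanceAs (NormedAddCommGroup (lp (fun ι : Ix => (sy ι).X) 1))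

noncomputable instance : NormedSpace ℝ BX :=
  inferInstanceAs (NormedSpace ℝ (lp (fun ι : Ix => (sy ι).X) 1))

instance : CompleteSpace BX := inferInstanceAs (CompleteSpace (lp (fun ι : Ix => (sy ι).X) 1))

noncomputable def co (ι : Ix) : BX →L[ℝ] (sy ι).X := lp.evalCLM ℝ (fun ι : Ix => (sy ι).X) 1 ι

open Classical in
noncomputable def sg (ι : Ix) : (sy ι).X →L[ℝ] BX :=
  lp.singleContinuousLinearMap ℝ (fun ι : Ix => (sy ι).X) 1 ι

noncomputable def BT : BX →L[ℝ] BX :=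
  lp.mapCLM 1 (fun ι : Ix => (sy ι).T) (show (0 : ℝ) ≤ 4 by norm_num) fun ι => (sy ι).norm_T

lemma norm_co_le (ι : Ix) (z : BX) : ‖co ι z‖ ≤ ‖z‖ := lp.norm_apply_le_norm one_ne_zero z ι

lemma BX_ext {z w : BX} (hzw : ∀ ι, co ι z = co ι w) : z = w := lp.ext (funext hzw)

lemma co_BT (ι : Ix) (z : BX) : co ι (BT z) = (sy ι).T (co ι z) := rfl

lemma co_BT_pow (n : ℕ) (ι : Ix) (z : BX) : co ι ((BT ^ n) z) = ((sy ι).T ^ n) (co ι z) := by
  induction n with
  | zero => rfl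
  | succ n ih =>
    rw [pow_succ', pow_succ']
    change co ι (BT ((BT ^ n) z)) = (sy ι).T (((sy ι).T ^ n) (co ι z))
    rw [co_BT, ih]

lemma co_sg_self (ι : Ix) (g : (sy ι).X) : co ι (sg ι g) = g := by
  classical
  exact lp.single_apply_self (E := fun ι : Ix => (sy ι).X) 1 ι g

lemma co_sg_ne {ι ι' : Ix} (hι : ι' ≠ ι) (g : (sy ι).X) : co ι' (sg ι g) = 0 := by
  classical
  exact lp.single_apply_ne (E := fun ι : Ix => (sy ι).X) 1 ι g hι

lemma norm_sg (ι : Ix) (g : (sy ι).X) : ‖sg ι g‖ = ‖g‖ := by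
  classical
  exact lp.norm_single (E := fun ι : Ix => (sy ι).X) one_pos ι g

lemma hasSum_sg (z : BX) : HasSum (fun ι => sg ι (co ι z)) z := by
  classical
  exact lp.hasSum_single (E := fun ι : Ix => (sy ι).X) ENNReal.one_ne_top z

lemma BT_pow_sg (n : ℕ) (ι : Ix) (g : (sy ι).X) :
    (BT ^ n) (sg ι g) = sg ι (((sy ι).T ^ n) g) := by
  refine BX_ext fun ι' => ?_
  rw [co_BT_pow]
  by_cases hι : ι' = ι
  · subst hι
    rw [co_sg_self, co_sg_self]
  · rw [co_sg_ne hι, co_sg_ne hι, map_zero]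

lemma sg_mem {ι : Ix} {g : (sy ι).X} {B : ℕ → Set ℕ} (hg : g ∈ Y (sy ι).T B) : sg ι g ∈ Y BT B := by
  intro δ hδ
  filter_upwards [hg δ hδ] with k hk n hn
  rw [BT_pow_sg, ← map_sub, norm_sg]
  exact hk n hn

lemma finite_step (z : BX) {η : ℝ} (hη : 0 < η) (s : Finset Ix) : ∃ B, Win B ∧
    ∀ ι ∈ s, ι ≠ none → ∃ g ∈ Y (sy ι).T B, ‖co ι z - g‖ < η := by
  classical
  induction s using Finset.induction_on with
  | empty => exact ⟨fun _ => Set.univ, fun τ => ⟨0, fun N => ⟨0, fun _ _ _ _ => trivial⟩⟩, by simp⟩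
  | insert ι s _ ih =>
    obtain ⟨B, h1, h2⟩ := ih
    rcases ι with _ | p
    · refine ⟨B, h1, fun ι h3 h4 => h2 ι ((mem_insert.1 h3).resolve_left h4) h4⟩
    · obtain ⟨η', h3, h4⟩ := p.1.sys.approx (co (some p) z) hη
      obtain ⟨y, h5, h6⟩ := stepα p.1 h1 h3
      refine ⟨_, h6, fun ι h7 h8 => ?_⟩
      rcases mem_insert.1 h7 with rfl | h9
      · exact h4 y h5 _ (mem_Y_ret _ _ _)
      · obtain ⟨g, h10, h11⟩ := h2 ι h9 h8
        exact ⟨g, Y_mono (fun k n hn => hn.1) h10, h11⟩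

def RRec' : Set BX := {z | ∀ ε : ℝ, 0 < ε → Pos {n | ‖(BT ^ n) z - z‖ < ε}}

lemma Pos.mono {S S' : Set ℕ} (h : Pos S) (hS : S ⊆ S') : Pos S' := by
  classical
  obtain ⟨δ, h1, h2⟩ := h
  refine ⟨δ, h1, fun N hN => ?_⟩
  obtain ⟨m, hm⟩ := h2 N hN
  refine ⟨m, hm.trans ?_⟩
  exact_mod_cast card_le_card (monotone_filter_right _ fun n _ hn => hS hn)

lemma dense_BT : Dense RRec' := by
  intro z
  refine Metric.mem_closure_iff.2 fun ε hε => ?_
  obtain ⟨s, hs⟩ := ((hasSum_sg z).eventually (Metric.ball_mem_nhds z (half_pos hε))).exists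
  have hη : 0 < ε / 2 / (s.card + 1) := by positivity
  obtain ⟨B, hB1, hB2⟩ := finite_step z hη s
  obtain ⟨η', h3, h4⟩ := β.approx (co none z) hη
  obtain ⟨y, h5, h6⟩ := stepβ hB1 h3
  have h1 : ∀ ι ∈ s, ∃ g ∈ Y (sy ι).T (ret β.T y B), ‖co ι z - g‖ < ε / 2 / (s.card + 1) := by
    intro ι hι
    by_cases h7 : ι = none
    · subst h7
      exact h4 y h5 _ (mem_Y_ret _ _ _)
    · obtain ⟨g, h10, h11⟩ := hB2 ι hι h7
      exact ⟨g, Y_mono (fun k n hn => hn.1) h10, h11⟩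
  choose! g h2 h3 using h1
  refine ⟨∑ ι ∈ s, sg ι (g ι), fun δ hδ => ?_, ?_⟩
  · have h7 : ∑ ι ∈ s, sg ι (g ι) ∈ Y BT (ret β.T y B) :=
      Submodule.sum_mem _ fun ι hι => sg_mem (h2 ι hι)
    obtain ⟨k, hk⟩ := (h7 δ hδ).exists
    exact (h6 k).mono hk
  · have h4 : ‖∑ ι ∈ s, sg ι (co ι z) - ∑ ι ∈ s, sg ι (g ι)‖ ≤ s.card * (ε / 2 / (s.card + 1)) := by
      rw [← sum_sub_distrib, ← nsmul_eq_mul]
      refine (norm_sum_le _ _).trans (sum_le_card_nsmul _ _ _ fun ι hι => ?_)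
      rw [← map_sub, norm_sg]
      exact (h3 ι hι).le
    have h5 : (s.card : ℝ) * (ε / 2 / (s.card + 1)) ≤ ε / 2 := by
      rw [← mul_div_assoc, div_le_iff₀ (by positivity)]
      nlinarith
    have h6 := dist_triangle z (∑ ι ∈ s, sg ι (co ι z)) (∑ ι ∈ s, sg ι (g ι))
    rw [dist_comm z (∑ ι ∈ s, sg ι (co ι z)), dist_eq_norm (∑ ι ∈ s, sg ι (co ι z))
      (∑ ι ∈ s, sg ι (g ι))] at h6
    have h7 : dist (∑ ι ∈ s, sg ι (co ι z)) z < ε / 2 := hs
    linarith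

lemma not_lineable (D : Submodule ℝ BX) (hD : Dense (D : Set BX)) : ¬ (D : Set BX) ⊆ RRec' := by
  classical
  intro hU
  have h1 : ∀ ι : Ix, ∃ d ∈ D, |(sy ι).φ (co ι d) - 1| < 1 / 4 ∧
      ∀ ι', ι' ≠ ι → |(sy ι').φ (co ι' d)| < 1 / 4 := by
    intro ι
    obtain ⟨d, h2, h3⟩ := Metric.mem_closure_iff.1 (hD (sg ι ((sy ι).e 0))) (1 / 4) (by norm_num)
    rw [dist_comm, dist_eq_norm] at h3
    refine ⟨d, h2, ?_, fun ι' hι => ?_⟩
    · have h4 := (((sy ι).abs_φ_le _).trans (norm_co_le ι _)).trans_lt h3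
      rwa [map_sub, co_sg_self, map_sub, Sys.φ_e] at h4
    · have h4 := (((sy ι').abs_φ_le _).trans (norm_co_le ι' _)).trans_lt h3
      rwa [map_sub, co_sg_ne hι, sub_zero] at h4
  choose d hd1 hd2 hd3 using h1
  obtain ⟨α, hα⟩ := joint (co none (d none)) (by
    intro h0
    have := hd2 none
    change |β.φ _ - 1| < _ at this
    rw [h0] at this
    norm_num at this)
  obtain ⟨ξ, ξ', h2, h3⟩ := Function.not_injective_iff.1
    (Function.cantor_injective fun ξ : Set β.X => (co none (d (some (α, ξ))) : β.X))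
  set w := d none + (d (some (α, ξ)) - d (some (α, ξ'))) with hw
  have h4 : co none w = co none (d none) := by
    rw [hw, map_add, map_sub]
    have h5 : co none (d (some (α, ξ))) = co none (d (some (α, ξ'))) := h2
    rw [h5, sub_self, add_zero]
  have h5 : (sy (some (α, ξ))).φ (co (some (α, ξ)) w) ≠ 0 := by
    intro h0
    have h5 := abs_lt.1 (hd2 (some (α, ξ)))
    have h6 := abs_lt.1 (hd3 none (some (α, ξ)) (by simp))
    have h7 := abs_lt.1 (hd3 (some (α, ξ')) (some (α, ξ)) (by simpa using h3))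
    rw [hw, map_add, map_sub, map_add, map_sub] at h0
    linarith [h5.1, h6.1, h7.2]
  obtain ⟨δ, h6, h7⟩ := hU (show w ∈ D from add_mem (hd1 _) (sub_mem (hd1 _) (hd1 _))) 1 one_pos
  obtain ⟨N, h8, h9⟩ := hα (co (some (α, ξ)) w) h5 (‖w‖ + 1) δ
    (by rw [← h4]; exact (norm_co_le _ _).trans (by linarith))
    ((norm_co_le _ _).trans (by linarith)) h6
  obtain ⟨m, hm⟩ := h7 N h8
  refine absurd (hm.trans_lt (lt_of_le_of_lt ?_ (h9 m))) (lt_irrefl _)
  refine Nat.cast_le.2 (card_le_card (monotone_filter_right _ fun n _ hn => ?_))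
  have h10 : ‖(BT ^ n) w‖ ≤ ‖w‖ + 1 := by
    have h11 : ‖(BT ^ n) w - w‖ < 1 := hn
    have := norm_sub_norm_le ((BT ^ n) w) w
    linarith
  refine ⟨?_, ?_⟩
  · have h11 := (norm_co_le none _).trans h10
    rwa [co_BT_pow, h4] at h11
  · have h11 := (norm_co_le (some (α, ξ)) _).trans h10
    rwa [co_BT_pow] at h11

end Pool.Agent.H52Z.RR
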